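import Pool.Agent.Helper91.Kiss.AltC
import Pool.Agent.Helper66.Kiss.Glob

set_option autoImplicit false

/-! # Alternating end states are joined to the base point -/

namespace Pool.Agent.Helper91.Kiss

open Real Set Filter Topology Pool.Agent.Helper66.Kiss

section

variable {b : ℕ} {l0 : ℝ} {x φ : Fin 11 → ℝ}

/-- feasible sorted longitudes -/
lemma ord_of (h : AH b l0 x) (hF : Fe x φ) (hs : Srtd φ) {i j : Fin 11} (hij : i < j) :
    wd (x i) (x j) ≤ φ j - φ i ∧ φ j - φ i ≤ 2 * π - wd (x i) (x j) := by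
  have := hs.1 hij.le
  exact wd_le_of_gg (h.range i) (h.range j) (hF.2 i j hij.ne) (by linarith)
    (by linarith [(hs.2 i).1, (hs.2 j).2])

/-- the walks along the first path -/
lemma walks_A (h : AH b l0 x) (hF : Fe x φ) (hs : Srtd φ) {t : ℝ} (ht : t ∈ Icc (0 : ℝ) 1)
    {v : ℕ → ℕ} {r : ℕ} (hv : IsWalk 11 v r) (he : v r = v 0 + 11)
    (hN : NFW (by norm_num) KK (pA b x t) v r) : total (WX (pA b x t)) v r ≤ 2 * π := by
  classical
  have hp := h.path ht
  have hpi := Real.pi_pos
  by_cases h0 : ∃ k ≤ r, v k % 11 = 0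
  swap
  · push Not at h0
    exact hp.walk10 hv he h0
  set θ := lft 11 (by norm_num) φ with hθ
  set ω : Fin 11 → Fin 11 → ℝ := fun i j => if isU b i.val ∨ isU b j.val then 0 else
    wd (x i) (x j) with hω
  have hsym : ∀ i j, ω i j = ω j i := by
    intro i j
    simp only [hω, or_comm (a := isU b i.val), wd_comm (x i)]
  have hord : ∀ i j, i < j → ω i j ≤ φ j - φ i ∧ φ j - φ i ≤ 2 * π - ω i j := by
    intro i j hij
    have h1 := ord_of h hF hs hij
    have h2 := hs.1 hij.le
    simp only [hω]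
    split_ifs
    · exact ⟨by linarith, by linarith [(hs.2 i).1, (hs.2 j).2]⟩
    · exact h1
  have hstep : ∀ m n, m < n → n < m + 11 → ω (clN 11 (by norm_num) m) (clN 11 (by norm_num) n) ≤
      θ n - θ m := fun m n h1 h2 => lft_step (by norm_num) hsym hord h1 h2
  have hω0 : ∀ i j, 0 ≤ ω i j := by
    intro i j
    simp only [hω]
    split_ifs
    · exact le_rfl
    · exact wd_nonneg _ _
  have hmono : Monotone θ := monotone_nat_of_le_succ fun n => by
    have := hstep n (n + 1) (by omega) (by omega)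
    linarith [hω0 (clN 11 (by norm_num) n) (clN 11 (by norm_num) (n + 1))]
  refine walk_low (b := b) (θ := θ) ?_ (fun m n h => hmono h) ?_ (fun m n _ _ h1 h2 => (hp.wll h1 h2).1)
    (fun m n _ _ h1 => hp.wul h1) (fun m n _ _ h1 h2 => hp.wuu h1 h2) hv he h0 ?_
  · intro n
    have := lft_add_mul (n := 11) (by norm_num) φ n 1
    rw [mul_one] at this
    rw [hθ, this]
    push_cast; ring
  · intro m n h1 h2 hm hn
    refine le_trans ?_ (hstep m n h1 h2)
    have hm' : ¬ isU b (clN 11 (by norm_num) m).val := fun h => hm ((isU_cl b m).1 h)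
    have hn' : ¬ isU b (clN 11 (by norm_num) n).val := fun h => hn ((isU_cl b n).1 h)
    have e : ω (clN 11 (by norm_num) m) (clN 11 (by norm_num) n) =
        wd (x (clN 11 (by norm_num) m)) (x (clN 11 (by norm_num) n)) := by
      simp only [hω]; rw [if_neg (by rintro (h | h); exact hm' h; exact hn' h)]
    rw [e]
    exact wd_anti (h.shrink ht (clN_step_ne (by norm_num) ⟨h1, h2⟩) hm' hn')
  · intro k hk
    have hNk := hN k hk
    constructor
    · rintro ⟨h1, h2⟩
      refine hNk ⟨fun hK => hK.1 (cl_zero.2 h1), ?_⟩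
      rw [cl_zero.2 h1]
      exact hp.su ((isU_cl b _).2 h2)
    · rintro ⟨h1, h2⟩
      refine hNk ⟨fun hK => hK.2 (cl_zero.2 h1), ?_⟩
      rw [cl_zero.2 h1, RR_comm]
      exact hp.su ((isU_cl b _).2 h2)

/-- the index sets of the end state -/
lemma er_of (hb : b = 0 ∨ b = 1) {z : Fin 11 → ℝ} (h0 : z 0 = -1)
    (hU : ∀ k : Fin 11, isU b k.val → z k = 1 / 2) (hL : ∀ k : Fin 11, isL b k.val → z k = -(1 / 2)) :
    ∃ s U, ER z s U := by
  classical
  refine ⟨0, Finset.univ.filter fun k : Fin 11 => isU b k.val, ?_, ?_, ?_, ?_, ?_⟩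
  · rw [Finset.mem_filter]
    rintro ⟨-, h⟩
    exact h.1 rfl
  · rcases hb with rfl | rfl <;> decide
  · rw [h0]; norm_num
  · intro k hk
    rw [Finset.mem_filter] at hk
    rw [hU k hk.2]; norm_num
  · intro k hk hk0
    rw [Finset.mem_filter] at hk
    rcases node_cases b k with h1 | ⟨-, h1⟩ | ⟨-, h1⟩
    · exact absurd h1 hk0
    · rw [hL k h1]; norm_num
    · exact absurd ⟨Finset.mem_univ k, h1⟩ hk

/-- the case of a lowest point off the pole -/
theorem jalt_off (hb : b = 0 ∨ b = 1) (h : AH b l0 x) (hF : Fe x φ) (hs : Srtd φ) :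
    JB (pinN x φ) := by
  have hpi := Real.pi_pos
  have hpole : ∀ k, k ≠ 0 → -1 ≤ RR (x 0) (x k) := by
    intro k hk
    have := cos_le_of_gg (h.range 0) (h.range k) (hF.2 0 k (Ne.symm hk))
    exact (Real.neg_one_le_cos _).trans this
  have HG := gpath_A h hpole
  obtain ⟨φ1, hC, hg, hJ⟩ := stage_lift (by norm_num) (by norm_num) prm_pinN HG
    (fun t ht k => ⟨((h.path ht).range k).1.le, ((h.path ht).range k).2⟩)
    (fun t ht v r _ hv he hN => walks_A h hF hs ht hv he hN)
    (φ0 := φ) (by rw [pA_zero]; exact con_of_srt h.range hF.2 hs.1 hs.2)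
  rw [pA_zero] at hJ
  refine JB.of_joined hJ ?_
  set x1 := pA b x 1 with hx1
  have h1 : AH b l0 x1 := h.path ⟨zero_le_one, le_rfl⟩
  have hl1 : ∀ k : Fin 11, isL b k.val → -0.476 ≤ x1 k := fun k hk => pA_one_lo x hk
  -- all pairs with the lowest point are free
  have hfree : ∀ k, k ≠ 0 → √(1 - x1 0 ^ 2) * √(1 - x1 k ^ 2) + x1 0 * x1 k ≤ 1 / 2 := by
    intro k hk
    have := free_B h1 hl1 (t := 0) ⟨le_rfl, one_pos⟩ hk
    rwa [pB_zero] at this
  have hgfree : ∀ k, k ≠ 0 → ∀ α β, gg (x1 0) (x1 k) α β ≤ 1 / 2 := by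
    intro k hk α β
    have e1 := hfree k hk
    have e2 := mul_nonneg (Real.sqrt_nonneg (1 - x1 0 ^ 2)) (Real.sqrt_nonneg (1 - x1 k ^ 2))
    unfold gg
    nlinarith [Real.cos_le_one (α - β)]
  set φ2 : Fin 11 → ℝ := fun k => if k = 0 then φ1 1 else φ1 k with hφ2
  have hj2 : JoinedIn Conf (pinN x1 φ1) (pinN x1 φ2) := by
    refine joined_seg prm_pinN (A := {z | ∀ k, -1 ≤ z k ∧ z k ≤ 1 / 2})
      (fun k => ⟨(h1.range k).1.le, (h1.range k).2⟩) ?_
    intro s hs' i j hij
    by_cases hi : i = 0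
    · subst hi
      exact hgfree j (Ne.symm hij) _ _
    by_cases hj : j = 0
    · subst hj
      rw [gg_comm]
      exact hgfree i hi _ _
    have e : ∀ k : Fin 11, k ≠ 0 → (1 - s) * φ1 k + s * φ2 k = φ1 k := by
      intro k hk
      simp only [hφ2, hk, if_false]; ring
    rw [e i hi, e j hj]
    exact hg i j hij
  refine JB.of_joined hj2 ?_
  have hcon : ∀ i j : Fin 11, i ≠ 0 → i < j → wd (x1 i) (x1 j) ≤ φ1 j - φ1 i ∧
      φ1 j - φ1 i ≤ 2 * π - wd (x1 i) (x1 j) := by
    intro i j hi hij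
    refine (hC i j hij).2 ?_
    rintro ⟨hK, -⟩
    exact hK ⟨hi, by rintro rfl; exact absurd hij (Fin.not_lt_zero i)⟩
  have g1 : ∀ i j : Fin 11, i < j → 0 ≤ φ2 j - φ2 i ∧ φ2 j - φ2 i ≤ 2 * π := by
    intro i j hij
    have hj : j ≠ 0 := by rintro rfl; exact absurd hij (Fin.not_lt_zero i)
    have ej : φ2 j = φ1 j := by simp only [hφ2, hj, if_false]
    rw [ej]
    by_cases hi : i = 0
    · have ei : φ2 i = φ1 1 := by simp only [hφ2, hi, if_true]
      rw [ei]
      by_cases hj1 : j = 1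
      · subst hj1
        constructor <;> linarith
      · have h1j : (1 : Fin 11) < j := by
          rw [Fin.lt_def]
          have e0 : j.val ≠ 0 := fun h => hj (Fin.ext h)
          have e1 : j.val ≠ 1 := fun h => hj1 (Fin.ext h)
          show 1 < j.val
          omega
        have c := hcon 1 j (by decide) h1j
        have w := wd_nonneg (x1 1) (x1 j)
        constructor <;> linarith [c.1, c.2]
    · have ei : φ2 i = φ1 i := by simp only [hφ2, hi, if_false]
      rw [ei]
      have c := hcon i j hi hij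
      have w := wd_nonneg (x1 i) (x1 j)
      constructor <;> linarith [c.1, c.2]
  have g2 : ∀ i j : Fin 11, i < j → ¬ DZ i j → wd (pB b x1 0 i) (pB b x1 0 j) ≤ φ2 j - φ2 i ∧
      φ2 j - φ2 i ≤ 2 * π - wd (pB b x1 0 i) (pB b x1 0 j) := by
    intro i j hij hD
    have hi : i ≠ 0 := fun hi => hD (Or.inl hi)
    have hj : j ≠ 0 := fun hj => hD (Or.inr hj)
    have ei : φ2 i = φ1 i := by simp only [hφ2, hi, if_false]
    have ej : φ2 j = φ1 j := by simp only [hφ2, hj, if_false]
    rw [pB_zero, ei, ej]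
    exact hcon i j hi hij
  obtain ⟨φ3, hF3, hJ3⟩ := lift11 (hpath_B h1 hl1) (φ0 := φ2) g1 g2
  rw [pB_zero] at hJ3
  refine JB.of_joined hJ3 (end_region hF3 (er_of hb ?_ ?_ ?_))
  · rw [pB_s]; ring
  · intro k hk
    rw [pB_U (ne_of_isU hk) hk]; ring
  · intro k hk
    rw [pB_L (ne_of_isL hk) hk]; ring

/-! ## the lowest point at the pole -/

/-- the path of the ten points -/
noncomputable def pC (b : ℕ) (z : Fin 11 → ℝ) (t : ℝ) (k : Fin 10) : ℝ :=
  if isL b k.succ.val then (1 - t) * z k.succ + t * (-(1 / 2)) else (1 - t) * z k.succ + t * (1 / 2)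

/-- alternating heights with the lowest point at the pole -/
structure AP (b : ℕ) (l0 : ℝ) (z : Fin 11 → ℝ) : Prop where
  l0b : -0.476 ≤ l0 ∧ l0 ≤ -0.4432
  s0 : z 0 = -1
  up : ∀ k : Fin 11, isU b k.val → l0 + 0.8957 ≤ z k ∧ z k ≤ 1 / 2
  lo : ∀ k : Fin 11, isL b k.val → -(1 / 2) ≤ z k ∧ z k ≤ l0

lemma isU_of_not {k : Fin 10} (h : ¬ isL b k.succ.val) : isU b k.succ.val := by
  rcases node_cases b k.succ with h1 | ⟨-, h1⟩ | ⟨-, h1⟩
  · exact absurd h1 (Fin.succ_ne_zero k)
  · exact absurd h1 h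
  · exact h1

lemma AP.bd (h : AP b l0 x) {t : ℝ} (ht : t ∈ Icc (0 : ℝ) 1) (k : Fin 10) :
    (isL b k.succ.val → -(1 / 2) ≤ pC b x t k ∧ pC b x t k ≤ l0) ∧
    (isU b k.succ.val → l0 + 0.8957 ≤ pC b x t k ∧ pC b x t k ≤ 1 / 2) := by
  obtain ⟨t0, t1⟩ := ht
  have h0 := h.l0b
  norm_num at h0
  constructor
  · intro hk
    have a := h.lo _ hk
    unfold pC
    rw [if_pos hk]
    constructor <;> nlinarith
  · intro hk
    have a := h.up _ hk
    unfold pC
    rw [if_neg (fun h2 => not_LU h2 hk)]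
    norm_num at a ⊢
    constructor <;> nlinarith

lemma AP.rng (h : AP b l0 x) {t : ℝ} (ht : t ∈ Icc (0 : ℝ) 1) (k : Fin 10) :
    -(1 / 2) ≤ pC b x t k ∧ pC b x t k ≤ 1 / 2 := by
  have h0 := h.l0b
  norm_num at h0
  by_cases hk : isL b k.succ.val
  · have := (h.bd ht k).1 hk
    exact ⟨this.1, by linarith [this.2]⟩
  · have := (h.bd ht k).2 (isU_of_not hk)
    norm_num at this ⊢
    exact ⟨by linarith [this.1], this.2⟩

lemma clN_ten_succ (m : ℕ) : (clN 10 (by norm_num) m).succ.val = m % 10 + 1 := rfl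

/-- walks of the ten points -/
lemma AP.walk (h : AP b l0 x) {t : ℝ} (ht : t ∈ Icc (0 : ℝ) 1) {v : ℕ → ℕ} {r : ℕ}
    (hv : IsWalk 10 v r) (he : v r = v 0 + 10) :
    total (fun m n => wd (pC b x t (clN 10 (by norm_num) m)) (pC b x t (clN 10 (by norm_num) n))) v r
      ≤ 2 * π := by
  have hpi := Real.pi_pos
  have hpi4 := Real.pi_gt_d4
  have h0 := h.l0b
  have hR := RR_line h0.1 h0.2 (rfl : l0 + 0.8957 = l0 + 0.8957)
  norm_num at h0 hpi4
  have key : ∀ m n, m < n → wd (pC b x t (clN 10 (by norm_num) m)) (pC b x t (clN 10 (by norm_num) n)) ≤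
      π / 5 * n - π / 5 * m := by
    intro m n hmn
    have c1 : (m : ℝ) + 1 ≤ n := by exact_mod_cast hmn
    have same : (isL b (m % 10 + 1) ↔ isL b (n % 10 + 1)) → (m : ℝ) + 2 ≤ n := by
      intro h
      have : m + 2 ≤ n := by
        unfold isL at h; omega
      exact_mod_cast this
    have bm := h.bd ht (clN 10 (by norm_num) m)
    have bn := h.bd ht (clN 10 (by norm_num) n)
    have um := isU_of_not (b := b) (k := clN 10 (by norm_num) m)
    have un := isU_of_not (b := b) (k := clN 10 (by norm_num) n)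
    rw [clN_ten_succ] at bm bn um un
    by_cases hm : isL b (m % 10 + 1) <;> by_cases hn : isL b (n % 10 + 1)
    · have a := bm.1 hm
      have c := bn.1 hn
      have c2 := same (iff_of_true hm hn)
      have := wd_ll (l := pC b x t (clN 10 (by norm_num) m)) (l' := pC b x t (clN 10 (by norm_num) n))
        (by norm_num; linarith [a.1]) (by norm_num; linarith [a.2])
        (by norm_num; linarith [c.1]) (by norm_num; linarith [c.2])
      unfold CC at this
      nlinarith
    · have a := bm.1 hm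
      have c := bn.2 (un hn)
      have := wd_ul hR (by norm_num; linarith) c.1 c.2 (by linarith [a.1]) a.2 (by linarith)
      rw [wd_comm] at this
      norm_num at this
      nlinarith
    · have a := bm.2 (um hm)
      have c := bn.1 hn
      have := wd_ul hR (by norm_num; linarith) a.1 a.2 (by linarith [c.1]) c.2 (by linarith)
      norm_num at this
      nlinarith
    · have a := bm.2 (um hm)
      have c := bn.2 (un hn)
      have c2 := same (iff_of_false hm hn)
      have := wd_uu (by norm_num at a ⊢; linarith [a.1]) a.2 (by norm_num at c ⊢; linarith [c.1]) c.2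
      norm_num at this
      nlinarith
  have hm := total_le_pot (W := fun m n => wd (pC b x t (clN 10 (by norm_num) m))
    (pC b x t (clN 10 (by norm_num) n))) (v := v) (p := fun n => π / 5 * n) (r := r)
    (fun k hk => key _ _ (hv k hk).1)
  rw [he] at hm
  push_cast at hm
  linarith

theorem jalt_pole (hb : b = 0 ∨ b = 1) (h : AP b l0 x) (hF : Fe x φ) (hs : Srtd φ) :
    JB (pinN x φ) := by
  classical
  have hpi := Real.pi_pos
  have hG : GPath (fun _ _ : Fin 10 => True) (pC b x) := by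
    refine ⟨fun _ _ _ => trivial, ?_, ?_, ?_, ?_, ?_⟩
    · intro k
      unfold pC
      by_cases hk : isL b k.succ.val
      · simp only [hk, if_true]; fun_prop
      · simp only [hk, if_false]; fun_prop
    · intro t ht k
      have := h.rng ht k
      exact ⟨by linarith [this.1], this.2⟩
    · intro i j _ hK
      exact absurd trivial hK
    · intro t ht i j _ _
      have a := h.rng ht i
      have c := h.rng ht j
      exact vert_kk (by norm_num; linarith [a.1]) a.2 (by norm_num; linarith [c.1]) c.2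
    · intro t ht i j _
      have a := h.rng ht i
      have c := h.rng ht j
      exact RR_ge_neg (by norm_num; linarith [a.1]) a.2 (by norm_num; linarith [c.1]) c.2
  have e0 : pC b x 0 = fun k => x k.succ := by
    funext k; unfold pC; split_ifs <;> ring
  have hcon : Con (fun _ _ : Fin 10 => True) (pC b x 0) (fun k => φ k.succ) := by
    refine con_of_srt (hG.range 0 ⟨le_rfl, zero_le_one⟩) ?_ ?_ (fun k => hs.2 k.succ)
    · intro i j hij
      rw [e0]
      exact hF.2 _ _ (fun he => hij (Fin.succ_injective _ he))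
    · intro i j hij
      exact hs.1 (Fin.succ_le_succ_iff.2 hij)
  obtain ⟨φ1, -, hg, hJ⟩ := stage_lift (by norm_num) (by norm_num) (prm_pinS 0) hG
    (fun t ht k => h.rng ht k) (fun t ht v r _ hv he _ => h.walk ht hv he) hcon
  have e1 : pinS 0 (pC b x 0) (fun k => φ k.succ) = pinN x φ := by
    unfold pinS
    funext i
    rcases Fin.eq_zero_or_eq_succ i with rfl | ⟨k, rfl⟩
    · rfl
    · rw [pinN_succ, pinN_succ]
      rcases Fin.eq_zero_or_eq_succ k with rfl | ⟨l, rfl⟩
      · rw [Fin.insertNth_apply_same, h.s0, pt_neg_one, pt_neg_one]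
      · rw [← Fin.zero_succAbove l, Fin.insertNth_apply_succAbove, Fin.insertNth_apply_succAbove, e0,
          Fin.zero_succAbove]
  rw [e1] at hJ
  refine JB.of_joined hJ ?_
  have r1 := fun k => h.rng (t := 1) ⟨zero_le_one, le_rfl⟩ k
  refine end_region (z := Fin.insertNth (α := fun _ => ℝ) 0 (-1) (pC b x 1))
    (φ := Fin.insertNth (α := fun _ => ℝ) 0 0 φ1) ⟨?_, ?_⟩ (er_of hb ?_ ?_ ?_)
  · intro k
    rcases Fin.eq_zero_or_eq_succ k with rfl | ⟨l, rfl⟩
    · rw [Fin.insertNth_apply_same]; norm_num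
    · rw [← Fin.zero_succAbove l, Fin.insertNth_apply_succAbove]
      exact ⟨by linarith [(r1 l).1], (r1 l).2⟩
  · have hs' : ∀ w α β, -(1 / 2) ≤ w → gg (-1) w α β ≤ 1 / 2 := by
      intro w α β hw
      unfold gg
      norm_num
      linarith
    intro i j hij
    rcases Fin.eq_zero_or_eq_succ i with rfl | ⟨k, rfl⟩ <;>
      rcases Fin.eq_zero_or_eq_succ j with rfl | ⟨l, rfl⟩
    · exact absurd rfl hij
    · rw [← Fin.zero_succAbove l, Fin.insertNth_apply_same, Fin.insertNth_apply_succAbove]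
      exact hs' _ _ _ (r1 l).1
    · rw [← Fin.zero_succAbove k, Fin.insertNth_apply_same, Fin.insertNth_apply_succAbove, gg_comm]
      exact hs' _ _ _ (r1 k).1
    · rw [← Fin.zero_succAbove k, ← Fin.zero_succAbove l]
      simp only [Fin.insertNth_apply_succAbove]
      exact hg k l (fun he => hij (by rw [he]))
  · rw [Fin.insertNth_apply_same]
  · intro k hk
    rcases Fin.eq_zero_or_eq_succ k with rfl | ⟨l, rfl⟩
    · exact absurd rfl hk.1
    · rw [← Fin.zero_succAbove l, Fin.insertNth_apply_succAbove]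
      unfold pC
      rw [if_neg (fun h2 => not_LU h2 hk)]; ring
  · intro k hk
    rcases Fin.eq_zero_or_eq_succ k with rfl | ⟨l, rfl⟩
    · exact absurd rfl hk.1
    · rw [← Fin.zero_succAbove l, Fin.insertNth_apply_succAbove]
      unfold pC
      rw [if_pos hk]; ring

/-! ## the result -/

/-- **Alternating end states.** -/
theorem jalt (hb : b = 0 ∨ b = 1) (hl0 : -0.476 ≤ l0 ∧ l0 ≤ -0.4432) {z : Fin 11 → ℝ}
    (hs0 : z 0 ≤ -0.9998) (hU : ∀ k : Fin 11, isU b k.val → l0 + 0.8957 ≤ z k)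
    (hL : ∀ k : Fin 11, isL b k.val → z k ≤ l0) (hF : Fe z φ) (hs : Srtd φ) : JB (pinN z φ) := by
  rcases eq_or_lt_of_le (hF.1 0).1 with h0 | h0
  · refine jalt_pole hb (l0 := l0) ⟨hl0, h0.symm, fun k hk => ⟨hU k hk, (hF.1 k).2⟩,
      fun k hk => ⟨?_, hL k hk⟩⟩ hF hs
    have h1 := hF.2 0 k (Ne.symm (ne_of_isL hk))
    unfold gg at h1
    rw [← h0] at h1
    norm_num at h1
    linarith
  · refine jalt_off hb (l0 := l0) ⟨hl0, ⟨h0, hs0⟩, fun k hk => ⟨hU k hk, (hF.1 k).2⟩,
      fun k hk => ⟨?_, hL k hk⟩⟩ hF hs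
    have h1 := hF.2 0 k (Ne.symm (ne_of_isL hk))
    by_contra hcon
    push Not at hcon
    norm_num at hcon hs0
    have hk1 := (hF.1 k).1
    have c1 : √(1 - z 0 ^ 2) ≤ 0.02 := by
      rw [Real.sqrt_le_left (by norm_num)]; norm_num; nlinarith
    have c2 : √(1 - z k ^ 2) ≤ 0.86 := by
      rw [Real.sqrt_le_left (by norm_num)]; norm_num; nlinarith
    have c3 : √(1 - z 0 ^ 2) * √(1 - z k ^ 2) ≤ 0.02 * 0.86 :=
      mul_le_mul c1 c2 (Real.sqrt_nonneg _) (by norm_num)
    have c4 := mul_nonneg (Real.sqrt_nonneg (1 - z 0 ^ 2)) (Real.sqrt_nonneg (1 - z k ^ 2))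
    have c5 : -(√(1 - z 0 ^ 2) * √(1 - z k ^ 2)) ≤ √(1 - z 0 ^ 2) * √(1 - z k ^ 2) * cos (φ 0 - φ k) := by
      nlinarith [Real.neg_one_le_cos (φ 0 - φ k)]
    unfold gg at h1
    norm_num at c3
    nlinarith

/-- the leaf: every state near a closed box of alternating end states is joined to the base point -/
theorem gainP_jalt {R : Set (Fin 11 → ℝ)} {Φ : (Fin 11 → ℝ) → ℝ} (hb : b = 0 ∨ b = 1)
    (hl0 : -0.4759 ≤ l0 ∧ l0 ≤ -0.4433) {z : Fin 11 → ℝ} (hs0 : z 0 < -0.9998)
    (hU : ∀ k : Fin 11, isU b k.val → l0 + 0.89575 ≤ z k)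
    (hL : ∀ k : Fin 11, isL b k.val → z k ≤ l0) : GainP R Φ z φ := by
  classical
  norm_num at hl0
  refine ⟨{y | y.1 0 < -0.9998 ∧ ∀ k : Fin 11, (isU b k.val → l0 + 0.89572 < y.1 k) ∧
    (isL b k.val → y.1 k < l0 + 0.00001)}, ?_, 1, one_pos, ?_⟩
  · have ho : IsOpen {y : HL | y.1 0 < -0.9998 ∧ ∀ k : Fin 11, (isU b k.val → l0 + 0.89572 < y.1 k) ∧
        (isL b k.val → y.1 k < l0 + 0.00001)} := by
      have e : {y : HL | y.1 0 < -0.9998 ∧ ∀ k : Fin 11, (isU b k.val → l0 + 0.89572 < y.1 k) ∧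
          (isL b k.val → y.1 k < l0 + 0.00001)} = {y : HL | y.1 0 < -0.9998} ∩
          ⋂ k : Fin 11, ({y : HL | isU b k.val → l0 + 0.89572 < y.1 k} ∩
            {y : HL | isL b k.val → y.1 k < l0 + 0.00001}) := by
        ext y; simp
      rw [e]
      refine (isOpen_lt (by fun_prop) continuous_const).inter
        (isOpen_iInter_of_finite fun k => IsOpen.inter ?_ ?_)
      · by_cases hk : isU b k.val
        · simp only [hk, true_imp_iff]
          exact isOpen_lt continuous_const (by fun_prop)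
        · simp only [hk, false_imp_iff]; exact isOpen_univ
      · by_cases hk : isL b k.val
        · simp only [hk, true_imp_iff]
          exact isOpen_lt (by fun_prop) continuous_const
        · simp only [hk, false_imp_iff]; exact isOpen_univ
    refine ho.mem_nhds ⟨hs0, fun k => ⟨fun hk => ?_, fun hk => ?_⟩⟩
    · have := hU k hk
      norm_num at this ⊢
      linarith
    · have := hL k hk
      norm_num
      linarith
  · rintro y η ⟨h1, h2⟩ hF hs _
    refine Or.inl (jalt hb (l0 := l0 + 0.00001) (by norm_num; constructor <;> linarith) h1.le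
      (fun k hk => ?_) (fun k hk => ((h2 k).2 hk).le) hF hs)
    have := (h2 k).1 hk
    norm_num at this ⊢
    linarith

end

end Pool.Agent.Helper91.Kiss
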