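import Pool.Agent.Helper66.Kiss.ChordA

set_option autoImplicit false

/-! # A larger end region, fifth part: chords of the pairs with the lowest point -/

namespace Pool.Agent.Helper91.Kiss

open Real Set Filter Topology Pool.Agent.Helper66.Kiss

lemma one_le_sin_add_cos {θ : ℝ} (h0 : 0 ≤ θ) (h1 : θ ≤ π / 2) : 1 ≤ sin θ + cos θ := by
  have hpi := Real.pi_pos
  have s0 : 0 ≤ sin θ := Real.sin_nonneg_of_nonneg_of_le_pi h0 (by linarith)
  have c0 : 0 ≤ cos θ := Real.cos_nonneg_of_mem_Icc ⟨by linarith, h1⟩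
  nlinarith [Real.sin_sq_add_cos_sq θ, Real.sin_le_one θ, Real.cos_le_one θ]

lemma sin_ge99 {t : ℝ} (h0 : 0 ≤ t) (h1 : t ≤ 0.23) : 0.99 * t ≤ sin t := by
  rcases eq_or_lt_of_le h0 with h | h
  · rw [← h]; simp
  · have := Real.sin_gt_sub_cube h
    norm_num at h1 ⊢
    nlinarith [mul_nonneg h0 (mul_nonneg h0 (by linarith : 0 ≤ 23 / 100 - t))]

/-- angles beyond the right angle -/
lemma ch_obt {Q f σ β b : ℝ} (hσ : 0 ≤ σ ∧ σ ≤ 1) (hQ : -1 ≤ Q) (hQ0 : Q ≤ 0)
    (h2 : Q + (1 - σ) * (-0.27 * Q - 0.0118) ≤ f) (hβ : 0 ≤ β ∧ β ≤ π / 2)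
    (hs : -(0.73 * Q) + 0.0118 ≤ sin β) (hb : π / 2 + β ≤ b) :
    arccos f ≤ σ * arccos Q + (1 - σ) * b := by
  have hpi := Real.pi_pos
  have hd : 0 ≤ 1 - σ := by linarith [hσ.2]
  have hw : π / 2 ≤ arccos Q := by
    by_contra hcon
    push Not at hcon
    have h5 := Real.cos_lt_cos_of_nonneg_of_le_pi (Real.arccos_nonneg Q) (by linarith) hcon
    rw [Real.cos_arccos hQ (by linarith), Real.cos_pi_div_two] at h5
    linarith
  have hwp : arccos Q ≤ π := Real.arccos_le_pi Q
  set w := arccos Q with hw'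
  have hcos : cos w = Q := Real.cos_arccos hQ (by linarith)
  set ψ := w - π / 2 with hψ
  have hsψ : sin ψ = -Q := by rw [hψ, Real.sin_sub_pi_div_two, hcos]
  have hconc := strictConcaveOn_sin_Icc.concaveOn.2 (x := ψ) ⟨by linarith, by linarith⟩ (y := β)
    ⟨hβ.1, by linarith [hβ.2]⟩ hσ.1 hd (by ring)
  simp only [smul_eq_mul] at hconc
  have e1 : 0 ≤ σ * ψ + (1 - σ) * β :=
    add_nonneg (mul_nonneg hσ.1 (by linarith)) (mul_nonneg hd hβ.1)
  have e2 : σ * ψ + (1 - σ) * β ≤ π / 2 := by
    have a1 := mul_le_mul_of_nonneg_left (by linarith : ψ ≤ π / 2) hσ.1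
    have a2 := mul_le_mul_of_nonneg_left hβ.2 hd
    linarith
  have h3 : cos (π / 2 + (σ * ψ + (1 - σ) * β)) ≤ f := by
    rw [add_comm, Real.cos_add_pi_div_two]
    have a2 := mul_le_mul_of_nonneg_left hs hd
    rw [hsψ] at hconc
    norm_num at a2 h2 hconc ⊢
    linarith
  have h4 := Real.arccos_le_arccos h3
  rw [Real.arccos_cos (by linarith) (by linarith)] at h4
  refine h4.trans ?_
  have a3 := mul_le_mul_of_nonneg_left hb hd
  rw [hψ]
  linarith

/-- the first line -/
lemma ch1 {Q f σ : ℝ} (hσ : 1 / 2 ≤ σ ∧ σ ≤ 1) (hQ : -1 ≤ Q)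
    (h1 : 0 ≤ Q → Q + (1 - σ) * (0.378 * Q - 0.0155) ≤ f)
    (h2 : Q ≤ 0 → Q + (1 - σ) * (-0.27 * Q - 0.0118) ≤ f) (hf : f < 1) :
    arccos f ≤ σ * arccos Q + (1 - σ) * (1.35 * arccos Q - 0.521) := by
  have hpi := Real.pi_lt_d4
  have hpi' := Real.pi_gt_d4
  norm_num at hpi hpi'
  have hd : 0 ≤ 1 - σ := by linarith [hσ.2]
  rcases le_total Q 0 with h0 | h0
  · -- obtuse
    have hw : π / 2 ≤ arccos Q := by
      by_contra hcon
      push Not at hcon
      have h5 := Real.cos_lt_cos_of_nonneg_of_le_pi (Real.arccos_nonneg Q) (by linarith) hcon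
      rw [Real.cos_arccos hQ (by linarith), Real.cos_pi_div_two] at h5
      linarith
    have hwp : arccos Q ≤ π := Real.arccos_le_pi Q
    have hcos : cos (arccos Q) = Q := Real.cos_arccos hQ (by linarith)
    set w := arccos Q with hw'
    rcases le_total (1.35 * w - 0.521 - π / 2) (π / 2) with h5 | h5
    · refine ch_obt (β := 1.35 * w - 0.521 - π / 2) ⟨by linarith [hσ.1], hσ.2⟩ hQ h0 (h2 h0)
        ⟨by norm_num; linarith, h5⟩ ?_ (by linarith)
      have hsψ : sin (w - π / 2) = -Q := by rw [Real.sin_sub_pi_div_two, hcos]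
      have hcψ : 0 ≤ cos (w - π / 2) := Real.cos_nonneg_of_mem_Icc ⟨by linarith, by linarith⟩
      have hQ' : -Q ≤ 1 := by linarith
      have h6 : sin (w - π / 2 + 0.0287) ≤ sin (1.35 * w - 0.521 - π / 2) := by
        apply Real.sin_le_sin_of_le_of_le_pi_div_two (by norm_num; linarith) h5
        norm_num; linarith
      rw [Real.sin_add, hsψ] at h6
      have c1 : 0.999 ≤ cos (0.0287 : ℝ) := by
        have := Real.one_sub_sq_div_two_le_cos (x := (0.0287 : ℝ))
        norm_num at this ⊢; linarith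
      have s1 : 0.028 ≤ sin (0.0287 : ℝ) := by
        have := sin_ge99 (t := 0.0287) (by norm_num) (by norm_num)
        norm_num at this ⊢; linarith
      have h7 := one_le_sin_add_cos (θ := w - π / 2) (by linarith) (by linarith)
      rw [hsψ] at h7
      have a1 := mul_le_mul_of_nonneg_left c1 (by linarith : 0 ≤ -Q)
      have a2 := mul_le_mul_of_nonneg_left s1 hcψ
      norm_num at a1 a2 h6 ⊢
      linarith
    · refine ch_obt (β := π / 2) ⟨by linarith [hσ.1], hσ.2⟩ hQ h0 (h2 h0)
        ⟨by linarith, le_rfl⟩ ?_ (by linarith)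
      rw [Real.sin_pi_div_two]
      norm_num; linarith
  · -- acute
    have h1' := h1 h0
    norm_num at h1'
    have hQ1 : Q < 1 := by
      by_contra hcon
      push Not at hcon
      have := mul_nonneg hd (by linarith : (0 : ℝ) ≤ 189 / 500 * Q - 31 / 2000)
      linarith
    have hcos : cos (arccos Q) = Q := Real.cos_arccos hQ hQ1.le
    have hθ0 := Real.arccos_nonneg Q
    have hθ1 : arccos Q ≤ π / 2 := Real.arccos_le_pi_div_two.2 h0
    set θ := arccos Q with hθ
    have hs0 : 0 ≤ sin θ := Real.sin_nonneg_of_nonneg_of_le_pi hθ0 (by linarith)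
    have key : σ * θ + (1 - σ) * (1.35 * θ - 0.521) = θ + (1 - σ) * (0.35 * θ - 0.521) := by
      norm_num; ring
    rw [key]
    rcases le_total 0 (0.35 * θ - 0.521) with h5 | h5
    · -- the angle grows
      set t := (1 - σ) * (0.35 * θ - 0.521) with ht
      have ht0 : 0 ≤ t := mul_nonneg hd h5
      have ht1 : t ≤ 0.23 := by
        have : t ≤ 1 * (0.35 * θ - 0.521) := mul_le_mul_of_nonneg_right (by linarith [hσ.1]) h5
        norm_num at this ⊢
        linarith
      have h6 : cos (θ + t) ≤ f := by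
        rw [Real.cos_add, hcos]
        have a1 : Q * cos t ≤ Q * 1 := mul_le_mul_of_nonneg_left (Real.cos_le_one t) h0
        have a2 := sin_ge99 ht0 ht1
        norm_num at h5
        have a3 : 0.99 ≤ sin θ := by
          have e1 : sin (π / 2 - 0.083) ≤ sin θ :=
            Real.sin_le_sin_of_le_of_le_pi_div_two (by norm_num; linarith) hθ1 (by norm_num; linarith)
          rw [Real.sin_pi_div_two_sub] at e1
          have := Real.one_sub_sq_div_two_le_cos (x := (0.083 : ℝ))
          norm_num at this e1 ⊢; linarith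
        have a4 : (0.99 : ℝ) * (0.99 * t) ≤ sin θ * sin t :=
          mul_le_mul a3 a2 (by norm_num; linarith) hs0
        -- Jordan
        have a5 : 2 / π * (π / 2 - θ) ≤ Q := by
          have := Real.mul_le_sin (x := π / 2 - θ) (by linarith) (by linarith)
          rwa [Real.sin_pi_div_two_sub, hcos] at this
        have a6 : 0.63 * (π / 2 - θ) ≤ Q := by
          refine le_trans (mul_le_mul_of_nonneg_right ?_ (by linarith)) a5
          rw [le_div_iff₀ Real.pi_pos]; norm_num; linarith
        have a7 : 0.0155 ≤ 0.378 * Q + 0.98 * (0.35 * θ - 0.521) := by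
          norm_num at a6 ⊢
          linarith
        have a8 := mul_le_mul_of_nonneg_left a7 hd
        have a9 : 31 / 2000 * (1 - σ) ≤ 189 / 500 * ((1 - σ) * Q) + 49 / 50 * t := by
          rw [ht]; norm_num at a8 ⊢; linarith
        clear_value t
        norm_num at a4
        linarith
      have h7 := Real.arccos_le_arccos h6
      rwa [Real.arccos_cos (by linarith) (by norm_num at ht1; linarith)] at h7
    · -- the angle shrinks
      set s := (1 - σ) * (0.521 - 0.35 * θ) with hs
      have hs' : θ + (1 - σ) * (0.35 * θ - 0.521) = θ - s := by rw [hs]; ring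
      rw [hs']
      have hs00 : 0 ≤ s := mul_nonneg hd (by linarith)
      rcases le_or_gt s θ with h6 | h6
      · have ht := cos_tangent (θ := θ - s) (ω := θ) (by linarith) (by linarith) hθ0 hθ1
        rw [hcos] at ht
        have h7 : cos (θ - s) ≤ f := by
          refine ht.trans (le_trans ?_ h1')
          -- (.521 - .35 θ) sin θ ≤ .378 Q - .0155
          have a1 : (π / 2 - θ) * sin θ ≤ Q := by
            rcases eq_or_lt_of_le hθ0 with h8 | h8
            · rw [← h8]; simp; linarith
            · have := Real.le_tan (x := π / 2 - θ) (by linarith) (by linarith)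
              rw [Real.tan_eq_sin_div_cos, Real.sin_pi_div_two_sub, Real.cos_pi_div_two_sub, hcos,
                le_div_iff₀ (Real.sin_pos_of_pos_of_lt_pi h8 (by linarith))] at this
              exact this
          have a2 := one_le_sin_add_cos hθ0 hθ1
          rw [hcos] at a2
          have a3 : (0.521 - 0.35 * θ) * sin θ ≤ 0.378 * Q - 0.0155 := by
            have e1 : (0.521 - 0.35 * θ) * sin θ = 0.35 * ((π / 2 - θ) * sin θ) -
              (0.35 * (π / 2) - 0.521) * sin θ := by ring
            have e2 : 0.028 * sin θ ≤ (0.35 * (π / 2) - 0.521) * sin θ :=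
              mul_le_mul_of_nonneg_right (by norm_num; linarith) hs0
            rw [e1]
            norm_num at e2 ⊢
            linarith
          have a4 := mul_le_mul_of_nonneg_left a3 hd
          have a5 : s * sin θ = (1 - σ) * ((0.521 - 0.35 * θ) * sin θ) := by rw [hs]; ring
          rw [← a5] at a4
          clear_value s
          norm_num at a4
          linarith
        have h8 := Real.arccos_le_arccos h7
        rwa [Real.arccos_cos (by linarith) (by linarith)] at h8
      · -- the pair is free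
        exfalso
        have a1 : θ ≤ 0.521 * (1 - σ) := by
          have : s ≤ (1 - σ) * 0.521 := mul_le_mul_of_nonneg_left (by linarith) hd
          linarith
        have a2 : θ ^ 2 ≤ (0.521 * (1 - σ)) ^ 2 := pow_le_pow_left₀ hθ0 a1 2
        have a3 : 1 - θ ^ 2 / 2 ≤ Q := by
          rw [← hcos]; exact Real.one_sub_sq_div_two_le_cos
        clear_value s θ
        have a7 : (1 - σ) ^ 2 ≤ 1 / 2 * (1 - σ) := by nlinarith [hσ.1]
        have a4 : θ ^ 2 ≤ 7 / 50 * (1 - σ) := by
          norm_num at a2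
          nlinarith
        have a5 : 93 / 100 ≤ Q := by linarith [hσ.1]
        have a6 := mul_le_mul_of_nonneg_left a5 hd
        linarith

/-- the second line -/
lemma ch2 {Q f σ : ℝ} (hσ : 1 / 2 ≤ σ ∧ σ ≤ 1) (hQ : -1 ≤ Q)
    (h1 : 0 ≤ Q → Q + (1 - σ) * (0.378 * Q - 0.0155) ≤ f)
    (h2 : Q ≤ 0 → Q + (1 - σ) * (-0.27 * Q - 0.0118) ≤ f) :
    arccos f ≤ σ * arccos Q + (1 - σ) * (0.75 * arccos Q + 0.4412) := by
  have hpi := Real.pi_lt_d4
  have hpi' := Real.pi_gt_d4
  norm_num at hpi hpi'
  have hd : 0 ≤ 1 - σ := by linarith [hσ.2]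
  rcases le_total Q 0 with h0 | h0
  · have hw : π / 2 ≤ arccos Q := by
      by_contra hcon
      push Not at hcon
      have h5 := Real.cos_lt_cos_of_nonneg_of_le_pi (Real.arccos_nonneg Q) (by linarith) hcon
      rw [Real.cos_arccos hQ (by linarith), Real.cos_pi_div_two] at h5
      linarith
    have hwp : arccos Q ≤ π := Real.arccos_le_pi Q
    have hcos : cos (arccos Q) = Q := Real.cos_arccos hQ (by linarith)
    set w := arccos Q with hw'
    refine ch_obt (β := 0.75 * w + 0.4412 - π / 2) ⟨by linarith [hσ.1], hσ.2⟩ hQ h0 (h2 h0)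
      ⟨by norm_num; linarith, by norm_num; linarith⟩ ?_ (by linarith)
    have hsψ : sin (w - π / 2) = -Q := by rw [Real.sin_sub_pi_div_two, hcos]
    have hQ' : -Q ≤ 1 := by linarith
    set ψ := w - π / 2 with hψ
    have h6 : sin (0.75 * ψ + 0.0485) ≤ sin (0.75 * w + 0.4412 - π / 2) := by
      apply Real.sin_le_sin_of_le_of_le_pi_div_two (by norm_num; linarith) (by norm_num; linarith)
      norm_num; linarith
    rw [Real.sin_add] at h6
    have c1 : 0.998 ≤ cos (0.0485 : ℝ) := by
      have := Real.one_sub_sq_div_two_le_cos (x := (0.0485 : ℝ))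
      norm_num at this ⊢; linarith
    have s1 : 0.048 ≤ sin (0.0485 : ℝ) := by
      have := sin_ge99 (t := 0.0485) (by norm_num) (by norm_num)
      norm_num at this ⊢; linarith
    have b1 := sin_scale (σ := 0.75) (y := ψ) (by norm_num) ⟨by linarith, by linarith⟩
    rw [hsψ] at b1
    have b2 : 0.3 ≤ cos (0.75 * ψ) := by
      have e1 := Real.one_sub_sq_div_two_le_cos (x := 0.75 * ψ)
      have e2 : (0.75 * ψ) ^ 2 ≤ 1.1782 ^ 2 := by
        apply pow_le_pow_left₀ (by norm_num; linarith)
        norm_num; linarith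
      norm_num at e1 e2 ⊢
      linarith
    have a1 := mul_le_mul b1 c1 (by norm_num) (le_trans (by norm_num; linarith) b1)
    have a2 := mul_le_mul b2 s1 (by norm_num) (le_trans (by norm_num) b2)
    norm_num at a1 a2 h6 ⊢
    linarith
  · have h1' := h1 h0
    norm_num at h1'
    have hθ0 := Real.arccos_nonneg Q
    have hθ1 : arccos Q ≤ π / 2 := Real.arccos_le_pi_div_two.2 h0
    rcases le_or_gt 1 Q with h9 | h9
    · have : 1 ≤ f := by
        have := mul_nonneg hd (by linarith : (0 : ℝ) ≤ 189 / 500 * Q - 31 / 2000)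
        linarith
      rw [Real.arccos_of_one_le this]
      have a1 := mul_nonneg (by linarith [hσ.1] : (0 : ℝ) ≤ σ) hθ0
      have a2 := mul_nonneg hd (by norm_num; linarith : (0 : ℝ) ≤ 0.75 * arccos Q + 0.4412)
      linarith
    have hcos : cos (arccos Q) = Q := Real.cos_arccos hQ h9.le
    set θ := arccos Q with hθ
    have hs0 : 0 ≤ sin θ := Real.sin_nonneg_of_nonneg_of_le_pi hθ0 (by linarith)
    have key : σ * θ + (1 - σ) * (0.75 * θ + 0.4412) = θ + (1 - σ) * (0.4412 - 0.25 * θ) := by
      norm_num; ring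
    rw [key]
    have h5 : 0.0485 ≤ 0.4412 - 0.25 * θ := by norm_num; linarith
    set t := (1 - σ) * (0.4412 - 0.25 * θ) with ht
    have ht0 : 0 ≤ t := mul_nonneg hd (le_trans (by norm_num) h5)
    have ht1 : t ≤ 0.23 := by
      have : t ≤ 1 / 2 * (0.4412 - 0.25 * θ) :=
        mul_le_mul_of_nonneg_right (by linarith [hσ.1]) (le_trans (by norm_num) h5)
      norm_num at this ⊢
      linarith
    have h6 : cos (θ + t) ≤ f := by
      rw [Real.cos_add, hcos]
      have a1 : Q * cos t ≤ Q * 1 := mul_le_mul_of_nonneg_left (Real.cos_le_one t) h0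
      have a2 := sin_ge99 ht0 ht1
      have a4 : sin θ * (0.99 * t) ≤ sin θ * sin t := mul_le_mul_of_nonneg_left a2 hs0
      have a5 : (1 - σ) * 0.0485 ≤ t := mul_le_mul_of_nonneg_left h5 hd
      have a6 : sin θ * ((1 - σ) * 0.0485) ≤ sin θ * t := mul_le_mul_of_nonneg_left a5 hs0
      have a7 := one_le_sin_add_cos hθ0 hθ1
      rw [hcos] at a7
      have a8 : 0.0155 ≤ 0.378 * Q + 0.048 * sin θ := by norm_num; linarith
      have a9 := mul_le_mul_of_nonneg_left a8 hd
      have a10 : 0 ≤ (1 - σ) * sin θ := mul_nonneg hd hs0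
      clear_value t
      norm_num at a4 a6 a9
      linarith
    have h7 := Real.arccos_le_arccos h6
    rwa [Real.arccos_cos (by linarith) (by norm_num at ht1; linarith)] at h7

end Pool.Agent.Helper91.Kiss
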