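import Pool.Agent.Helper66.Kiss.EndPairs

set_option autoImplicit false

/-! # A larger end region, sixth part: walks -/

namespace Pool.Agent.Helper91.Kiss

open Real Set Filter Topology Pool.Agent.Helper66.Kiss

lemma two_pi_CC : 2 * π = 5 * CC := by unfold CC; ring

lemma cap2_arith {m : ℕ} {X : ℝ} (hX : 0 ≤ X) (h : m * (CC - 0.04) + X ≤ 2 * π) :
    m * CC ≤ 2 * π ∧ (3 ≤ m → m * CC + (1.35 * X - 1.042) ≤ 2 * π) ∧
      (m ≤ 2 → m * CC + (0.75 * X + 0.8824) ≤ 2 * π) := by
  have hC := CC_bd
  rw [two_pi_CC] at h ⊢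
  norm_num at hC h
  have hm5 : m ≤ 5 := by
    by_contra hcon
    push Not at hcon
    have h6 : (6 : ℝ) ≤ m := by exact_mod_cast hcon
    have := mul_le_mul_of_nonneg_right h6 (by linarith : 0 ≤ CC - 1 / 25)
    linarith
  have hm5' : (m : ℝ) ≤ 5 := by exact_mod_cast hm5
  refine ⟨mul_le_mul_of_nonneg_right hm5' (by linarith), ?_, ?_⟩
  · intro h3
    norm_num
    interval_cases m
    · norm_num at h ⊢; linarith
    · norm_num at h ⊢; linarith
    · norm_num at h ⊢; linarith
  · intro h3
    norm_num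
    interval_cases m
    · norm_num at h ⊢; linarith
    · norm_num at h ⊢; linarith
    · norm_num at h ⊢; linarith

lemma sum_cyc {r : ℕ} {g : ℕ → ℝ} (h : g r = g 0) :
    ∑ k ∈ Finset.range r, g (k + 1) = ∑ k ∈ Finset.range r, g k := by
  have h1 := Finset.sum_range_succ g r
  have h2 := Finset.sum_range_succ' g r
  linarith

section walk

variable {n : ℕ}

/-- **the walk inequality along the path** -/
theorem walk_two (hn : 0 < n) {v : ℕ → ℕ} {r : ℕ} (hv : IsWalk n v r) (he : v r = v 0 + n)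
    {E : Fin n → Fin n → Prop} {W0 W1 : Fin n → Fin n → ℝ} {S : Fin n → Prop} [DecidablePred S]
    (hS : ∀ i j, S i → S j → i = j) {T : Fin n → Fin n → Prop} [DecidableRel T]
    {ω : Fin n → ℝ} (hω : ∀ i, 0 ≤ ω i) {σ : ℝ} (hσ : 0 ≤ σ ∧ σ ≤ 1)
    (hD : ∀ k < r, E (clN n hn (v k)) (clN n hn (v (k + 1))))
    (low : ∀ i j, i ≠ j → E i j → (if T i j then CC - 0.04 else 0) + (if S i then ω j else 0) +
      (if S j then ω i else 0) ≤ W0 i j)
    (c1 : ∀ i j, i ≠ j → E i j → W1 i j ≤ σ * W0 i j + (1 - σ) *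
      ((if T i j then CC else 0) + (if S i then 1.35 * ω j - 0.521 else 0) +
        (if S j then 1.35 * ω i - 0.521 else 0)))
    (c2 : ∀ i j, i ≠ j → E i j → W1 i j ≤ σ * W0 i j + (1 - σ) *
      ((if T i j then CC else 0) + (if S i then 0.75 * ω j + 0.4412 else 0) +
        (if S j then 0.75 * ω i + 0.4412 else 0)))
    (h0 : total (fun a b => W0 (clN n hn a) (clN n hn b)) v r ≤ 2 * π) :
    total (fun a b => W1 (clN n hn a) (clN n hn b)) v r ≤ 2 * π := by
  classical
  have hd : 0 ≤ 1 - σ := by linarith [hσ.2]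
  have hne : ∀ k < r, clN n hn (v k) ≠ clN n hn (v (k + 1)) := fun k hk => clN_step_ne hn (hv k hk)
  set m := ((Finset.range r).filter fun k => T (clN n hn (v k)) (clN n hn (v (k + 1)))).card with hm
  have hT : ∀ c : ℝ, (∑ k ∈ Finset.range r, if T (clN n hn (v k)) (clN n hn (v (k + 1))) then c else 0) =
      m * c := by
    intro c
    rw [← Finset.sum_filter, Finset.sum_const, nsmul_eq_mul]
  set X1 := ∑ k ∈ Finset.range r, if S (clN n hn (v k)) then ω (clN n hn (v (k + 1))) else 0 with hX1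
  set X2 := ∑ k ∈ Finset.range r, if S (clN n hn (v (k + 1))) then ω (clN n hn (v k)) else 0 with hX2
  set N1 : ℝ := ∑ k ∈ Finset.range r, if S (clN n hn (v k)) then 1 else 0 with hN1
  have hcyc : clN n hn (v r) = clN n hn (v 0) := by
    rw [he]; apply Fin.ext; show (v 0 + n) % n = v 0 % n; simp
  have hN2 : (∑ k ∈ Finset.range r, if S (clN n hn (v (k + 1))) then (1 : ℝ) else 0) = N1 :=
    sum_cyc (g := fun k => if S (clN n hn (v k)) then (1 : ℝ) else 0) (by simp only [hcyc])
  have hX10 : 0 ≤ X1 := Finset.sum_nonneg fun k _ => by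
    split_ifs
    · exact hω _
    · exact le_rfl
  have hX20 : 0 ≤ X2 := Finset.sum_nonneg fun k _ => by
    split_ifs
    · exact hω _
    · exact le_rfl
  have hs1 : ∀ a b : ℝ, (∑ k ∈ Finset.range r, if S (clN n hn (v k)) then
      a * ω (clN n hn (v (k + 1))) + b else 0) = a * X1 + b * N1 := by
    intro a b
    rw [hX1, hN1, Finset.mul_sum, Finset.mul_sum, ← Finset.sum_add_distrib]
    refine Finset.sum_congr rfl fun k _ => ?_
    split_ifs <;> ring
  have hs2 : ∀ a b : ℝ, (∑ k ∈ Finset.range r, if S (clN n hn (v (k + 1))) then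
      a * ω (clN n hn (v k)) + b else 0) = a * X2 + b * N1 := by
    intro a b
    rw [hX2, ← hN2, Finset.mul_sum, Finset.mul_sum, ← Finset.sum_add_distrib]
    refine Finset.sum_congr rfl fun k _ => ?_
    split_ifs <;> ring
  have hlow : m * (CC - 0.04) + (X1 + X2) ≤ total (fun a b => W0 (clN n hn a) (clN n hn b)) v r := by
    rw [← hT, hX1, hX2, ← Finset.sum_add_distrib, ← Finset.sum_add_distrib]
    unfold total
    refine Finset.sum_le_sum fun k hk => ?_
    have := low _ _ (hne k (Finset.mem_range.1 hk)) (hD k (Finset.mem_range.1 hk))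
    linarith
  obtain ⟨ar0, ar1, ar2⟩ := cap2_arith (add_nonneg hX10 hX20) (hlow.trans h0)
  have hch1 : total (fun a b => W1 (clN n hn a) (clN n hn b)) v r ≤
      σ * total (fun a b => W0 (clN n hn a) (clN n hn b)) v r + (1 - σ) * (m * CC +
      (1.35 * X1 + (-0.521) * N1) + (1.35 * X2 + (-0.521) * N1)) := by
    rw [← hT, ← hs1, ← hs2, ← Finset.sum_add_distrib, ← Finset.sum_add_distrib]
    unfold total
    rw [Finset.mul_sum, Finset.mul_sum, ← Finset.sum_add_distrib]
    refine Finset.sum_le_sum fun k hk => ?_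
    have := c1 _ _ (hne k (Finset.mem_range.1 hk)) (hD k (Finset.mem_range.1 hk))
    rw [sub_eq_add_neg, sub_eq_add_neg (1.35 * ω (clN n hn (v k)))] at this
    exact this
  have hch2 : total (fun a b => W1 (clN n hn a) (clN n hn b)) v r ≤
      σ * total (fun a b => W0 (clN n hn a) (clN n hn b)) v r + (1 - σ) * (m * CC +
      (0.75 * X1 + 0.4412 * N1) + (0.75 * X2 + 0.4412 * N1)) := by
    rw [← hT, ← hs1, ← hs2, ← Finset.sum_add_distrib, ← Finset.sum_add_distrib]
    unfold total
    rw [Finset.mul_sum, Finset.mul_sum, ← Finset.sum_add_distrib]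
    refine Finset.sum_le_sum fun k hk => ?_
    exact c2 _ _ (hne k (Finset.mem_range.1 hk)) (hD k (Finset.mem_range.1 hk))
  have e1 := mul_le_mul_of_nonneg_left h0 hσ.1
  by_cases hex : ∃ k < r, S (clN n hn (v k))
  · obtain ⟨i, hi, hp⟩ := hex
    have hN : N1 = 1 := by
      rw [hN1, Finset.sum_eq_single i]
      · rw [if_pos hp]
      · intro k hk hki
        rw [if_neg]
        intro hpk
        exact hki (out_unique hn hv he (Finset.mem_range.1 hk) hi (hS _ _ hpk hp))
      · intro hk
        exact absurd (Finset.mem_range.2 hi) hk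
    rw [hN] at hch1 hch2
    rcases Nat.lt_or_ge m 3 with h3 | h3
    · have a1 := ar2 (by omega)
      have e2 : (1 - σ) * (m * CC + (0.75 * X1 + 0.4412 * 1) + (0.75 * X2 + 0.4412 * 1)) ≤
          (1 - σ) * (2 * π) := by
        apply mul_le_mul_of_nonneg_left _ hd
        norm_num at a1 ⊢
        linarith
      linarith
    · have a1 := ar1 h3
      have e2 : (1 - σ) * (m * CC + (1.35 * X1 + (-0.521) * 1) + (1.35 * X2 + (-0.521) * 1)) ≤
          (1 - σ) * (2 * π) := by
        apply mul_le_mul_of_nonneg_left _ hd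
        norm_num at a1 ⊢
        linarith
      linarith
  · push Not at hex
    have hN : N1 = 0 := Finset.sum_eq_zero fun k hk => by rw [if_neg (hex k (Finset.mem_range.1 hk))]
    have hX1' : X1 = 0 := Finset.sum_eq_zero fun k hk => by rw [if_neg (hex k (Finset.mem_range.1 hk))]
    have hX2' : X2 = 0 := Finset.sum_eq_zero fun k hk => by
      have hk' := Finset.mem_range.1 hk
      rw [if_neg]
      rcases Nat.lt_or_ge (k + 1) r with h | h
      · exact hex _ h
      · have : k + 1 = r := by omega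
        rw [this, hcyc]
        exact hex 0 (by omega)
    rw [hN, hX1', hX2'] at hch1
    have e2 : (1 - σ) * (m * CC + (1.35 * 0 + (-0.521) * 0) + (1.35 * 0 + (-0.521) * 0)) ≤
        (1 - σ) * (2 * π) := by
      apply mul_le_mul_of_nonneg_left _ hd
      norm_num
      linarith
    linarith

end walk

end Pool.Agent.Helper91.Kiss
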