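import Pool.Agent.Helper98.KT.HopFin

set_option autoImplicit false

/-! # The contact check at the exact pole -/

namespace Pool.Agent.Helper91.Kiss

open Real Set Filter Topology Pool.Agent.Helper66.Kiss Pool.Agent.Helper98.KT

lemma fin_aux {u l j SL SU CP CM mp mn kl ku cp cn k sn cs c X marg : ℝ}
    (e1 : l * u * j * SL ≤ l * u * j * (2 ^ 14 * sn))
    (e2 : mp * u * SL ≤ mp * u * (2 ^ 14 * sn))
    (e3 : mn * u * (2 ^ 14 * sn) ≤ mn * u * SU)
    (e4 : kl * u * CP - ku * u * CM ≤ k * (2 ^ 14 * cs))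
    (e5 : X * 2 ^ 14 ≤ marg * u)
    (e6 : 0 ≤ u * (l * (j * SL) + mp * SL + kl * CP + cp - (mn * SU + ku * CM + cn)))
    (hc : (cp - cn + marg) * u ≤ 2 ^ 14 * c) :
    X ≤ (l * u * j + (mp - mn) * u) * sn + k * cs + c := by
  have h : X * 2 ^ 14 ≤ ((l * u * j + (mp - mn) * u) * sn + k * cs + c) * 2 ^ 14 := by
    linarith
  linarith

lemma marg_aux {u l M kum hh m : ℝ} (hu : 0 < u) (hl : 0 ≤ l) (hk : 0 ≤ kum)
    (hM : M * hh ^ 2 / 8 * 2 ^ 14 = l * u * (hh / 4 * 2 ^ 14) + kum * u * (hh ^ 2 / 8 * 2 ^ 14))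
    (h3 : hh / 4 * 2 ^ 14 ≤ 403) (h4 : hh ^ 2 / 8 * 2 ^ 14 ≤ 20) (hm : m = 403 * l + 20 * kum) :
    M * hh ^ 2 / 8 * 2 ^ 14 ≤ m * u := by
  have h5 : l * u * (hh / 4 * 2 ^ 14) ≤ l * u * 403 := mul_le_mul_of_nonneg_left h3 (by positivity)
  have h6 : kum * u * (hh ^ 2 / 8 * 2 ^ 14) ≤ kum * u * 20 :=
    mul_le_mul_of_nonneg_left h4 (by positivity)
  rw [hM, hm]
  linarith

lemma pi_aux1 : π / 32 / 4 * 2 ^ 14 ≤ 403 := by nlinarith [Real.pi_lt_d4]

lemma pi_aux2 : (π / 32) ^ 2 / 8 * 2 ^ 14 ≤ 20 := by nlinarith [pi_sq_le_ten]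

/-- the packed check gives the inequality for every angle -/
theorem hopChk_GG {k c u : ℝ} (hu : 0 < u) {l kl ku mp mn cp cn J : ℕ} (hl : l < 2 ^ 24)
    (hkl : kl < 2 ^ 24) (hku : ku < 2 ^ 24) (hku0 : 0 < ku) (hmp : mp < 2 ^ 24) (hmn : mn < 2 ^ 24)
    (hcp : cp < 2 ^ 45) (hcn : cn < 2 ^ 45) (hJ : J ≤ 32)
    (h : hopChk (hopP l kl) (hopN ku) mp mn cp cn J = true)
    (hk1 : (kl : ℝ) * u ≤ k) (hk2 : k ≤ ku * u)
    (hc : ((cp : ℝ) - cn + hopMarg l ku mn) * u ≤ 2 ^ 14 * c)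
    {θ : ℝ} (hθ : θ ∈ Icc 0 (J * (π / 32))) :
    0 ≤ GG (l * u / (π / 32)) (((mp : ℝ) - mn) * u) k c θ := by
  have hi0 : ∀ j ≤ J, mn * tSU.getD j 0 + ku * tCM.getD j 0 + cn ≤
      l * (j * tSL.getD j 0) + mp * tSL.getD j 0 + kl * tCP.getD j 0 + cp := fun j hj =>
    hopChk_sound hl hkl hku hmp hmn hcp hcn hJ h hj
  clear h hl hkl hku hmp hmn hcp hcn
  have hpi := Real.pi_pos
  have hpi2 := pi_sq_le_ten
  set hh : ℝ := π / 32 with hhd
  have hh0 : 0 < hh := by positivity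
  set lam : ℝ := l * u / hh with hlam
  set mu : ℝ := ((mp : ℝ) - mn) * u with hmu
  have hlam0 : 0 ≤ lam := by positivity
  have hk0 : 0 ≤ k := le_trans (by positivity) hk1
  set M : ℝ := 2 * lam + (ku + mn) * u with hMd
  have hM0 : 0 < M := by
    have h1 : (0 : ℝ) < ku := by exact_mod_cast hku0
    have h2 : (0 : ℝ) ≤ mn := Nat.cast_nonneg _
    have : 0 < (ku + mn : ℝ) * u := by positivity
    linarith
  have hJr : (J : ℝ) * hh ≤ π := by
    have : (J : ℝ) ≤ 32 := by exact_mod_cast hJ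
    rw [hhd]; nlinarith
  refine GG_grid hh0 hM0.le ?_ ?_ hθ
  · intro t ht
    have ht0 : 0 ≤ t := ht.1
    have ht1 : t ≤ π := ht.2.trans hJr
    have hs0 : 0 ≤ sin t := sin_nonneg_of_nonneg_of_le_pi ht0 ht1
    have hs1 := sin_le_one t
    have hc1 := cos_le_one t
    have hc2 := neg_one_le_cos t
    have e1 : 2 * lam * cos t ≤ 2 * lam := by nlinarith
    have e2 : 0 ≤ lam * t * sin t := by positivity
    have e3 : -(mu * sin t) ≤ mn * u := by
      have h1 : (0 : ℝ) ≤ mp := Nat.cast_nonneg _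
      have h2 : (0 : ℝ) ≤ mn := Nat.cast_nonneg _
      have h3 : (mn : ℝ) * u * sin t ≤ mn * u := mul_le_of_le_one_right (by positivity) hs1
      have h4 : 0 ≤ (mp : ℝ) * u * sin t := by positivity
      rw [hmu]; nlinarith
    have e4 : -(k * cos t) ≤ ku * u := by nlinarith
    rw [hMd]; nlinarith
  · intro j hj
    have hj32 : j ≤ 32 := hj.trans hJ
    obtain ⟨t1, t2, t3, t4⟩ := trig_tables hj32
    have hi := hi0 j hj
    have hir : (mn : ℝ) * tSU.getD j 0 + ku * tCM.getD j 0 + cn ≤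
        l * (j * tSL.getD j 0) + mp * tSL.getD j 0 + kl * tCP.getD j 0 + cp := by exact_mod_cast hi
    rw [← hhd] at t1 t2 t3
    set th : ℝ := j * hh with hth
    set SL : ℝ := (tSL.getD j 0 : ℝ)
    set SU : ℝ := (tSU.getD j 0 : ℝ)
    set CP : ℝ := (tCP.getD j 0 : ℝ) with hCP
    set CM : ℝ := (tCM.getD j 0 : ℝ) with hCM
    have hCP0 : 0 ≤ CP := Nat.cast_nonneg _
    have hCM0 : 0 ≤ CM := Nat.cast_nonneg _
    have e0 : lam * th = l * u * j := by
      rw [hlam, hth]; field_simp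
    have e1 : (l : ℝ) * u * j * SL ≤ l * u * j * (2 ^ 14 * sin th) :=
      mul_le_mul_of_nonneg_left t1 (by positivity)
    have e2 : (mp : ℝ) * u * SL ≤ mp * u * (2 ^ 14 * sin th) :=
      mul_le_mul_of_nonneg_left t1 (by positivity)
    have e3 : (mn : ℝ) * u * (2 ^ 14 * sin th) ≤ mn * u * SU :=
      mul_le_mul_of_nonneg_left t2 (by positivity)
    have e4 : (kl : ℝ) * u * CP - ku * u * CM ≤ k * (2 ^ 14 * cos th) := by
      have h1 : k * (CP - CM) ≤ k * (2 ^ 14 * cos th) := mul_le_mul_of_nonneg_left t3 hk0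
      have h2 : (kl : ℝ) * u * CP ≤ k * CP := mul_le_mul_of_nonneg_right hk1 hCP0
      have h3 : k * CM ≤ ku * u * CM := mul_le_mul_of_nonneg_right hk2 hCM0
      linarith
    have e5 : M * hh ^ 2 / 8 * 2 ^ 14 ≤ (hopMarg l ku mn : ℝ) * u := by
      have h1 : (hopMarg l ku mn : ℝ) = 403 * l + 20 * (ku + mn) := by
        show ((403 * l + 20 * (ku + mn) : ℕ) : ℝ) = _
        push_cast; ring
      have h2 : M * hh ^ 2 / 8 * 2 ^ 14 = l * u * (hh / 4 * 2 ^ 14) +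
          (ku + mn) * u * (hh ^ 2 / 8 * 2 ^ 14) := by
        rw [hMd, hlam]; field_simp; ring
      exact marg_aux hu (Nat.cast_nonneg l) (by positivity) h2 pi_aux1 pi_aux2 h1
    have e6 : 0 ≤ u * (l * (j * SL) + mp * SL + kl * CP + cp - (mn * SU + ku * CM + cn)) :=
      mul_nonneg hu.le (by linarith)
    show M * hh ^ 2 / 8 ≤ GG lam mu k c th
    unfold GG
    rw [e0]
    exact fin_aux e1 e2 e3 e4 e5 e6 hc

lemma kUof_aux {K c x : ℕ} (h : x < c) :
    K ≤ Nat.succ (Nat.div (Nat.mul K (Nat.add c x)) (Nat.sub c x)) := by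
  have h0 : 0 < c - x := Nat.sub_pos_of_lt h
  have h1 : K ≤ K * (c + x) / (c - x) :=
    (Nat.le_div_iff_mul_le h0).2 (Nat.mul_le_mul_left K (by omega))
  exact h1.trans (Nat.le_succ _)

lemma sq_lt_aux {k2 : ℕ} (hk : k2 ≤ 900) : Nat.mul k2 k2 < 16777216 :=
  Nat.lt_of_le_of_lt (Nat.mul_le_mul hk hk) (by decide)

lemma kUof_ge_self {K k2 : ℕ} (hk : k2 ≤ 900) : K ≤ kUof K k2 :=
  kUof_aux (sq_lt_aux hk)

/-- the parts of the check of one contact -/
lemma hopN1_parts {P N ML KT g1 g2 j vp vn mp mn J : ℕ}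
    (h : hopN1 P N ML KT g1 g2 j vp vn mp mn J = true) :
    Nat.mul vp g1 < 2 ^ 45 ∧ Nat.add (Nat.mul vn g2) (Nat.add (ckap KT j)
      (Nat.add ML (Nat.mul 20 mn))) < 2 ^ 45 ∧ mp < 2 ^ 24 ∧ mn < 2 ^ 24 ∧ J ≤ 32 ∧
      hopChk P N mp mn (Nat.mul vp g1) (Nat.add (Nat.mul vn g2) (Nat.add (ckap KT j)
      (Nat.add ML (Nat.mul 20 mn)))) J = true := by
  unfold hopN1 at h
  cases b1 : Nat.ble (Nat.mul vp g1) 35184372088831 with
  | false => rw [b1] at h; cases h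
  | true =>
    rw [b1] at h
    cases b2 : Nat.ble (Nat.add (Nat.mul vn g2) (Nat.add (ckap KT j)
      (Nat.add ML (Nat.mul 20 mn)))) 35184372088831 with
    | false => rw [b2] at h; cases h
    | true =>
      rw [b2] at h
      cases b3 : Nat.ble (Nat.lor mp mn) 16777215 with
      | false => rw [b3] at h; cases h
      | true =>
        rw [b3] at h
        cases b4 : Nat.ble J 32 with
        | false => rw [b4] at h; cases h
        | true =>
          rw [b4] at h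
          have c1 := Nat.le_of_ble_eq_true b1
          have c2 := Nat.le_of_ble_eq_true b2
          have c3 := Nat.le_of_ble_eq_true b3
          have c5 : mp ≤ Nat.lor mp mn := Nat.left_le_or
          have c6 : mn ≤ Nat.lor mp mn := Nat.right_le_or
          exact ⟨Nat.lt_of_le_of_lt c1 (by norm_num), Nat.lt_of_le_of_lt c2 (by norm_num),
            Nat.lt_of_le_of_lt (c5.trans c3) (by norm_num),
            Nat.lt_of_le_of_lt (c6.trans c3) (by norm_num), Nat.le_of_ble_eq_true b4, h⟩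

/-- **The check at the exact pole, static touching point**. -/
theorem pole_check {K k2 l ku g1 g2 j vp vn mp mn J : ℕ} {u : ℝ} (hu : 0 < u) (hk : k2 ≤ 900)
    (hl : l < 2 ^ 24) (hK : K < 2 ^ 24) (hku : ku < 2 ^ 24) (hkue : ku = kUof K k2)
    (h : hopN1 (hopP l K) (hopN ku) (Nat.add (Nat.mul 403 l) (Nat.mul 20 ku)) (kTof K k2) g1 g2 j
      vp vn mp mn J = true) (hvp : vp = 0) {θ : ℝ} (hθ : θ ∈ Icc 0 (J * (π / 32))) :
    -(K * u * cos θ) ≤ hb u l mp mn θ * sin θ := by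
  obtain ⟨h1, h2, h3, h4, h5, h6⟩ := hopN1_parts h
  clear h
  have hku0 : 0 < ku := by rw [hkue]; exact Nat.succ_pos _
  have hKku : K ≤ ku := by rw [hkue]; exact kUof_ge_self hk
  have hKkur : (K : ℝ) ≤ ku := by exact_mod_cast hKku
  have key := hopChk_GG (k := K * u) (c := 0) (u := u) hu hl hK hku hku0 h3 h4 h1 h2 h5 h6 le_rfl
    (mul_le_mul_of_nonneg_right hKkur hu.le) ?_ hθ
  · clear h6
    unfold GG at key
    have e : l * u / (π / 32) * θ = l * u * (θ / (π / 32)) := by ring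
    rw [e] at key
    unfold hb
    linarith
  · clear h6 h1 h2
    have e1 : ((Nat.mul vp g1 : ℕ) : ℝ) = vp * g1 := cast_mulA _ _
    rw [e1, cast_addA, cast_addA, cast_addA, cast_addA, cast_mulA, cast_mulA, cast_mulA, cast_mulA]
    have e3 : (hopMarg l ku mn : ℝ) = 403 * l + 20 * (ku + mn) := by
      show ((403 * l + 20 * (ku + mn) : ℕ) : ℝ) = _
      push_cast; ring
    rw [e3, hvp]
    push_cast
    have q1 : (0 : ℝ) ≤ ckap (kTof K k2) j := Nat.cast_nonneg _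
    have q3 : (0 : ℝ) ≤ (vn : ℝ) * g2 := by positivity
    have q2 : (0 * (g1 : ℝ) - (vn * g2 + (ckap (kTof K k2) j + (403 * l + 20 * ku + 20 * mn))) +
        (403 * l + 20 * ((ku : ℝ) + mn))) * u = -((vn * g2 + ckap (kTof K k2) j) * u) := by ring
    rw [q2, mul_zero]
    have := mul_nonneg (add_nonneg q3 q1) hu.le
    linarith

end Pool.Agent.Helper91.Kiss
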