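import Pool.Agent.Helper98.DL.DFun

set_option autoImplicit false

/-! # Direction leaves at the exact pole: the extra check (computation) -/

namespace Pool.Agent.Helper91.Kiss

open Real Pool.Agent.Helper98.KT Pool.Agent.Helper98.DL Pool.Agent.Helper65.KR
  Pool.Agent.Helper66.Kiss Pool.Agent.Helper66.Kiss.Pk

/-- mark of a node at the exact pole: `0` the velocities are not allowed; `1` no touching point;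
`2` touching point; `3` static touching point under a static south point -/
noncomputable def tmk (K c v : ℕ) : ℕ :=
  fz (lo c) fun a => fz (hi c) fun b =>
  cb (Nat.ble a 48) (cb (Nat.ble 48 b)
    (nb K (cb (Nat.ble 32769 (vP v)) 2 (cb (Nat.beq v 32768) 3 0))
      fun _ => cb (Nat.ble 32768 (vP v)) (cb (Nat.ble 32769 (Nat.add (vP v) (vW v))) 2 0) 0) 1) 1

/-- entry of two nodes (mark minus one), `L` lower bound of the gap -/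
noncomputable def pq (a b L : ℕ) : ℕ :=
  nb a 0 fun a => nb b 0 fun b => Nat.add (Nat.sub 65536 L)
    (Nat.mul 1048576 (nb a 4194304 fun _ => nb b 4194304 fun _ => 8388608))

/-- the test of the entries -/
noncomputable def tsq (M c0 c1 c2 c3 c4 c5 c6 c7 c8 c9 v0 v1 v2 v3 v4 v5 v6 v7 v8 v9 t0 t1 t2 t3 t4 t5 t6 t7 t8 t9 : ℕ) : Bool :=
  pT (pe M 1 c0 v0 c1 v1) (pe M 2 c0 v0 c2 v2) (pe M 512 c1 v1 c2 v2) (pe M 4 c0 v0 c3 v3) (pe M 1024 c1 v1 c3 v3) (pe M 131072 c2 v2 c3 v3) (pe M 8 c0 v0 c4 v4) (pe M 2048 c1 v1 c4 v4) (pe M 262144 c2 v2 c4 v4) (pe M 16777216 c3 v3 c4 v4) (pe M 16 c0 v0 c5 v5) (pe M 4096 c1 v1 c5 v5) (pe M 524288 c2 v2 c5 v5) (pe M 33554432 c3 v3 c5 v5) (pe M 1073741824 c4 v4 c5 v5) (pe M 32 c0 v0 c6 v6) (pe M 8192 c1 v1 c6 v6) (pe M 1048576 c2 v2 c6 v6) (pe M 67108864 c3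 v3 c6 v6) (pe M 2147483648 c4 v4 c6 v6) (pe M 34359738368 c5 v5 c6 v6) (pe M 64 c0 v0 c7 v7) (pe M 16384 c1 v1 c7 v7) (pe M 2097152 c2 v2 c7 v7) (pe M 134217728 c3 v3 c7 v7) (pe M 4294967296 c4 v4 c7 v7) (pe M 68719476736 c5 v5 c7 v7) (pe M 549755813888 c6 v6 c7 v7) (pe M 128 c0 v0 c8 v8) (pe M 32768 c1 v1 c8 v8) (pe M 4194304 c2 v2 c8 v8) (pe M 268435456 c3 v3 c8 v8) (pe M 8589934592 c4 v4 c8 v8) (pe M 137438953472 c5 v5 c8 v8) (pe M 1099511627776 c6 v6 c8 v8) (pe M 4398046511104 c7 v7 c8 v8) (pe M 256 c0 v0 c9 v9) (pe M 65536 c1 v1 c9 v9) (pe M 8388608 c2 v2 c9 v9) (pe M 536870912 c3 v3 c9 v9) (pe M 17179869184 c4 v4 c9 v9) (pe M 274877906944 c5 v5 c9 v9) (pe M 2199023255552 c6 v6 c9 v9) (pe M 8796093022208 c7 v7 c9 v9) (pe M 17592186044416 c8 v8 c9 v9)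
    (pq t0 t1 (lb1 c0 c1)) (pq t0 t2 (lb2 c0 c1 c2)) (pq t1 t2 (lb1 c1 c2)) (pq t0 t3 (lb3 c0 c1 c2 c3)) (pq t1 t3 (lb2 c1 c2 c3)) (pq t2 t3 (lb1 c2 c3)) (pq t0 t4 (lb4 c0 c1 c2 c3 c4)) (pq t1 t4 (lb3 c1 c2 c3 c4)) (pq t2 t4 (lb2 c2 c3 c4)) (pq t3 t4 (lb1 c3 c4)) (pq t0 t5 (lb5 c0 c1 c2 c3 c4 c5)) (pq t1 t5 (lb4 c1 c2 c3 c4 c5)) (pq t2 t5 (lb3 c2 c3 c4 c5)) (pq t3 t5 (lb2 c3 c4 c5)) (pq t4 t5 (lb1 c4 c5)) (pq t0 t6 (lb6 c0 c1 c2 c3 c4 c5 c6)) (pq t1 t6 (lb5 c1 c2 c3 c4 c5 c6)) (pq t2 t6 (lb4 c2 c3 c4 c5 c6)) (pq t3 t6 (lb3 c3 c4 c5 c6)) (pq t4 t6 (lb2 c4 c5 c6)) (pq t5 t6 (lb1 c5 c6)) (pq t0 t7 (lb7 c0 c1 c2 c3 c4 c5 c6 c7)) (pq t1 t7 (lb6 c1 c2 c3 c4 c5 c6 c7)) (pq t2 t7 (lb5 c2 c3 c4 c5 c6 c7)) (pq t3 t7 (lb4 c3 c4 c5 c6 c7)) (pq t4 t7 (lb3 c4 c5 c6 c7)) (pq t5 t7 (lb2 c5 c6 c7)) (pq t6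 t7 (lb1 c6 c7)) (pq t0 t8 (lb8 c0 c1 c2 c3 c4 c5 c6 c7 c8)) (pq t1 t8 (lb7 c1 c2 c3 c4 c5 c6 c7 c8)) (pq t2 t8 (lb6 c2 c3 c4 c5 c6 c7 c8)) (pq t3 t8 (lb5 c3 c4 c5 c6 c7 c8)) (pq t4 t8 (lb4 c4 c5 c6 c7 c8)) (pq t5 t8 (lb3 c5 c6 c7 c8)) (pq t6 t8 (lb2 c6 c7 c8)) (pq t7 t8 (lb1 c7 c8)) (pq t0 t9 (lb9 c0 c1 c2 c3 c4 c5 c6 c7 c8 c9)) (pq t1 t9 (lb8 c1 c2 c3 c4 c5 c6 c7 c8 c9)) (pq t2 t9 (lb7 c2 c3 c4 c5 c6 c7 c8 c9)) (pq t3 t9 (lb6 c3 c4 c5 c6 c7 c8 c9)) (pq t4 t9 (lb5 c4 c5 c6 c7 c8 c9)) (pq t5 t9 (lb4 c5 c6 c7 c8 c9)) (pq t6 t9 (lb3 c6 c7 c8 c9)) (pq t7 t9 (lb2 c7 c8 c9)) (pq t8 t9 (lb1 c8 c9))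

/-- **the extra check at the exact pole** -/
noncomputable def poleD (K M c0 c1 c2 c3 c4 c5 c6 c7 c8 c9 v0 v1 v2 v3 v4 v5 v6 v7 v8 v9 : ℕ) : Bool :=
  nb (tmk K c0 v0) false fun t0 => nb (tmk K c1 v1) false fun t1 =>
  nb (tmk K c2 v2) false fun t2 => nb (tmk K c3 v3) false fun t3 =>
  nb (tmk K c4 v4) false fun t4 => nb (tmk K c5 v5) false fun t5 =>
  nb (tmk K c6 v6) false fun t6 => nb (tmk K c7 v7) false fun t7 =>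
  nb (tmk K c8 v8) false fun t8 => nb (tmk K c9 v9) false fun t9 =>
  cb (Nat.ble 2 (cnt t0 t1 t2 t3 t4 t5 t6 t7 t8 t9))
    (tsq M c0 c1 c2 c3 c4 c5 c6 c7 c8 c9 v0 v1 v2 v3 v4 v5 v6 v7 v8 v9 t0 t1 t2 t3 t4 t5 t6 t7 t8 t9)
    true

/-- the same for a leaf -/
noncomputable def poleL (L D r : ℕ) : Bool :=
  fz (pK D) fun K => fz (Nat.mod D 35184372088832) fun M =>
  fz (nd L D r 0) fun n0 => fz (nd L D r 1) fun n1 =>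
  fz (nd L D r 2) fun n2 => fz (nd L D r 3) fun n3 =>
  fz (nd L D r 4) fun n4 => fz (nd L D r 5) fun n5 =>
  fz (nd L D r 6) fun n6 => fz (nd L D r 7) fun n7 =>
  fz (nd L D r 8) fun n8 => fz (nd L D r 9) fun n9 =>
  fz (ndc n0) fun c0 => fz (ndv n0) fun v0 => fz (ndc n1) fun c1 => fz (ndv n1) fun v1 =>
  fz (ndc n2) fun c2 => fz (ndv n2) fun v2 => fz (ndc n3) fun c3 => fz (ndv n3) fun v3 =>
  fz (ndc n4) fun c4 => fz (ndv n4) fun v4 => fz (ndc n5) fun c5 => fz (ndv n5) fun v5 =>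
  fz (ndc n6) fun c6 => fz (ndv n6) fun v6 => fz (ndc n7) fun c7 => fz (ndv n7) fun v7 =>
  fz (ndc n8) fun c8 => fz (ndv n8) fun v8 => fz (ndc n9) fun c9 => fz (ndv n9) fun v9 =>
  poleD K M c0 c1 c2 c3 c4 c5 c6 c7 c8 c9 v0 v1 v2 v3 v4 v5 v6 v7 v8 v9

end Pool.Agent.Helper91.Kiss
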