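import Pool.Agent.Helper98.DL.DS7
import Pool.Agent.Helper91.Kiss.PoleFun
import Pool.Agent.Helper91.Kiss.PoleChk

set_option autoImplicit false

/-! # Direction leaves at the exact pole: soundness of the extra check -/

namespace Pool.Agent.Helper91.Kiss

open Real Set Pool.Agent.Helper98.KT Pool.Agent.Helper98.DL Pool.Agent.Helper65.KR
  Pool.Agent.Helper66.Kiss Pool.Agent.Helper66.Kiss.Pk

/-! ## the option of a touching point -/

lemma rSh_pole (k2 i : ℕ) : rSh 0 k2 2048 i = 0 := by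
  unfold rSh
  cases hb : Nat.ble (Nat.mul (Nat.mul k2 k2) (Nat.sub 6144 2048))
      (Nat.mul 16777216 (Nat.sub 2048 2048)) with
  | true =>
    have h1 : k2 * k2 * 4096 ≤ 0 := Nat.le_of_ble_eq_true hb
    have h2 : k2 = 0 := by
      rcases Nat.eq_zero_or_pos k2 with h | h
      · exact h
      · have := Nat.mul_pos h h
        omega
    subst h2
    show (16777216 * 0 + 0 * 0 * 4096) * i / (0 * 33554432) = 0
    rw [Nat.zero_mul 33554432, Nat.div_zero]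
  | false =>
    show (16777216 * 0 + 0 * k2 * 4096) * i / (k2 * 33554432) = 0
    have : (16777216 * 0 + 0 * k2 * 4096) * i = 0 := by ring
    rw [this, Nat.zero_div]

lemma aSh_pole (k2 : ℕ) : aSh 0 k2 48 = 257 := by
  have e : gm 48 = 2048 := rfl
  unfold aSh
  rw [e, rSh_pole]

section

variable {c v K M l k2 : ℕ} {ρ : ℝ}

lemma osh_pole (h1 : lo c ≤ 48) (h2 : 48 ≤ hi c) : osh 0 k2 c = 257 := by
  rw [osh_sh h2, mx_eq, max_eq_left h1, aSh_pole]

/-- **the check of a static touching point, as a bound for every angle** -/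
theorem okS_pole (hρ : 0 < ρ) (hk : k2 ≤ 900) (hK : K < 2 ^ 24) (hK0 : 0 < K)
    (hku : kUof K k2 < 2 ^ 24) (hl : l < 2 ^ 24) (h : okS l K 0 k2 c v 256 M = true)
    (hv : vP v ≤ 32768) {θ : ℝ} (h0 : 0 ≤ θ) (h1 : θ ≤ π / 2) :
    -(K * ρ * cos θ) ≤ (hq ρ l M θ - 10 * ρ) * sin θ := by
  rw [okS_eq] at h
  cases hs : stt K v M with
  | true =>
    have := (stt_spec hs).1
    omega
  | false =>
    rw [hs, cb_false] at h
    have hvp : Nat.sub (vP v) 32768 = 0 := Nat.sub_eq_zero_of_le hv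
    have e16 : Nat.div (Nat.add 256 15) 16 = 16 := rfl
    unfold conSC at h
    rw [e16] at h
    rw [← hb_hq]
    refine pole_check hρ hk hl hK hku rfl h hvp ⟨h0, ?_⟩
    push_cast
    linarith

end

/-! ## meaning of the marks -/

lemma tmk_eq (K c v : ℕ) : tmk K c v = cb (Nat.ble (lo c) 48) (cb (Nat.ble 48 (hi c))
    (nb K (cb (Nat.ble 32769 (vP v)) 2 (cb (Nat.beq v 32768) 3 0))
      fun _ => cb (Nat.ble 32768 (vP v)) (cb (Nat.ble 32769 (Nat.add (vP v) (vW v))) 2 0) 0) 1) 1 := by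
  unfold tmk
  rw [fz_pr, fz_pr]

/-- what the mark says about a touching point -/
lemma tmk_spec {K c v t : ℕ} (h : tmk K c v = t + 1) (h1 : lo c ≤ 48) (h2 : 48 ≤ hi c) :
    0 < t ∧ ((K = 0 ∧ (32768 < vP v ∨ (v = 32768 ∧ t = 2))) ∨
      (0 < K ∧ 32768 ≤ vP v ∧ 32768 < vP v + vW v ∧ t = 1)) := by
  rw [tmk_eq, Nat.ble_eq_true_of_le h1, cb_true, Nat.ble_eq_true_of_le h2, cb_true] at h
  cases K with
  | zero =>
    rw [nb_zero] at h
    cases b1 : Nat.ble 32769 (vP v) with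
    | true =>
      rw [b1, cb_true] at h
      have : 32769 ≤ vP v := Nat.le_of_ble_eq_true b1
      have ht : t = 1 := (Nat.succ.inj h).symm
      exact ⟨by omega, Or.inl ⟨rfl, Or.inl (by omega)⟩⟩
    | false =>
      rw [b1, cb_false] at h
      cases b2 : Nat.beq v 32768 with
      | true =>
        rw [b2, cb_true] at h
        have ht : t = 2 := (Nat.succ.inj h).symm
        exact ⟨by omega, Or.inl ⟨rfl, Or.inr ⟨Nat.eq_of_beq_eq_true b2, ht⟩⟩⟩
      | false =>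
        rw [b2, cb_false] at h
        exact absurd h (Nat.succ_ne_zero t).symm
  | succ K =>
    rw [nb_succ] at h
    cases b1 : Nat.ble 32768 (vP v) with
    | true =>
      rw [b1, cb_true] at h
      cases b2 : Nat.ble 32769 (Nat.add (vP v) (vW v)) with
      | true =>
        rw [b2, cb_true] at h
        have h3 : 32768 ≤ vP v := Nat.le_of_ble_eq_true b1
        have h4 : 32769 ≤ vP v + vW v := Nat.le_of_ble_eq_true b2
        have ht : t = 1 := (Nat.succ.inj h).symm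
        exact ⟨by omega, Or.inr ⟨Nat.succ_pos K, h3, by omega, ht⟩⟩
      | false =>
        rw [b2, cb_false] at h
        exact absurd h (Nat.succ_ne_zero t).symm
    | false =>
      rw [b1, cb_false] at h
      exact absurd h (Nat.succ_ne_zero t).symm

/-! ## entries -/

/-- second part of an entry -/
def pqB (a b : ℕ) : ℕ := match a with
  | 0 => 4194304
  | _ + 1 => match b with
    | 0 => 4194304
    | _ + 1 => 8388608

lemma pq_eq (a b L : ℕ) : pq (a + 1) (b + 1) L = (65536 - L) + 1048576 * pqB a b := by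
  unfold pq pqB
  rw [nb_succ, nb_succ]
  cases a with
  | zero => rw [nb_zero]; rfl
  | succ a =>
    rw [nb_succ]
    cases b with
    | zero => rw [nb_zero]; rfl
    | succ b => rw [nb_succ]; rfl

lemma pqB_le (a b : ℕ) : pqB a b ≤ 8388608 := by
  unfold pqB
  cases a with
  | zero => norm_num
  | succ a => cases b with
    | zero => norm_num
    | succ b => norm_num

lemma pqB_ge (a b : ℕ) : 4194304 ≤ pqB a b := by
  unfold pqB
  cases a with
  | zero => norm_num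
  | succ a => cases b with
    | zero => norm_num
    | succ b => norm_num

lemma pq_parts (a b L : ℕ) : pq (a + 1) (b + 1) L % 1048576 = 65536 - L ∧
    pq (a + 1) (b + 1) L / 1048576 = pqB a b := by
  rw [pq_eq]
  exact ent_parts (Nat.sub_le _ _)

lemma pq_ok (t t' L : ℕ) : EntOK (pq t t' L) := by
  cases t with
  | zero =>
    have : pq 0 t' L = 0 := rfl
    rw [this]; exact entOK_zero
  | succ a =>
    cases t' with
    | zero =>
      have : pq (a + 1) 0 L = 0 := by unfold pq; rw [nb_succ, nb_zero]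
      rw [this]; exact entOK_zero
    | succ b =>
      unfold EntOK
      rw [(pq_parts a b L).1, (pq_parts a b L).2]
      exact ⟨(Nat.sub_le _ _).trans (by norm_num), (pqB_le _ _).trans (by norm_num)⟩

/-- the first part of the entries bounds the rest of the circle -/
lemma rest_le {G : ℝ} {L : ℕ} (h : (L : ℝ) * (π / 32768) ≤ G) :
    2 * π - G ≤ ((65536 - L : ℕ) : ℝ) * (π / 32768) := by
  have hpi := Real.pi_pos
  rcases Nat.le_total L 65536 with k | k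
  · rw [Nat.cast_sub k]
    push_cast
    nlinarith
  · have k3 : (65536 : ℝ) ≤ L := by exact_mod_cast k
    have k4 : 0 ≤ ((65536 - L : ℕ) : ℝ) * (π / 32768) := by positivity
    nlinarith

/-! ## the check -/

section

variable {k2 K M D : ℕ} {c v : ℕ → ℕ} {z φ : Fin 11 → ℝ} {ρ : ℝ}

lemma nbf_spec {n : ℕ} {f : ℕ → Bool} (h : nb n false f = true) : ∃ t, n = t + 1 ∧ f t = true := by
  cases n with
  | zero => rw [nb_zero] at h; cases h
  | succ t => exact ⟨t, rfl, h⟩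

theorem poleD_spec (h : poleD K M (c 0) (c 1) (c 2) (c 3) (c 4) (c 5) (c 6) (c 7) (c 8) (c 9)
      (v 0) (v 1) (v 2) (v 3) (v 4) (v 5) (v 6) (v 7) (v 8) (v 9) = true) :
    ∃ t : ℕ → ℕ, (∀ i ≤ 9, tmk K (c i) (v i) = t i + 1) ∧
      (∀ i j, i < j → j ≤ 9 → t i ≠ 0 → t j ≠ 0 →
        tsq M (c 0) (c 1) (c 2) (c 3) (c 4) (c 5) (c 6) (c 7) (c 8) (c 9)
          (v 0) (v 1) (v 2) (v 3) (v 4) (v 5) (v 6) (v 7) (v 8) (v 9)
          (t 0) (t 1) (t 2) (t 3) (t 4) (t 5) (t 6) (t 7) (t 8) (t 9) = true) := by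
  unfold poleD at h
  obtain ⟨t0, e0, h⟩ := nbf_spec h
  obtain ⟨t1, e1, h⟩ := nbf_spec h
  obtain ⟨t2, e2, h⟩ := nbf_spec h
  obtain ⟨t3, e3, h⟩ := nbf_spec h
  obtain ⟨t4, e4, h⟩ := nbf_spec h
  obtain ⟨t5, e5, h⟩ := nbf_spec h
  obtain ⟨t6, e6, h⟩ := nbf_spec h
  obtain ⟨t7, e7, h⟩ := nbf_spec h
  obtain ⟨t8, e8, h⟩ := nbf_spec h
  obtain ⟨t9, e9, h⟩ := nbf_spec h
  refine ⟨v10 t0 t1 t2 t3 t4 t5 t6 t7 t8 t9,
    v10_all (Q := fun i x => tmk K (c i) (v i) = x + 1) e0 e1 e2 e3 e4 e5 e6 e7 e8 e9,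
    fun i j hij hj h1 h2 => ?_⟩
  have hn : Nat.ble 2 (cnt t0 t1 t2 t3 t4 t5 t6 t7 t8 t9) = true :=
    Nat.ble_eq_true_of_le (two_le_cnt (o := v10 t0 t1 t2 t3 t4 t5 t6 t7 t8 t9) hij hj h1 h2)
  rw [hn, cb_true] at h
  exact h

/-- entries of the test -/
noncomputable def eP (c t : ℕ → ℕ) (i j : ℕ) : ℕ := pq (t i) (t j) (LBf c i j)

theorem tsq_sound (hc : CellOK c) {t : ℕ → ℕ}
    (h : tsq M (c 0) (c 1) (c 2) (c 3) (c 4) (c 5) (c 6) (c 7) (c 8) (c 9) (v 0) (v 1) (v 2) (v 3) (v 4) (v 5) (v 6) (v 7) (v 8) (v 9)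
      (t 0) (t 1) (t 2) (t 3) (t 4) (t 5) (t 6) (t 7) (t 8) (t 9) = true) :
    IncOK 10 (Df c) (Rf M c v) (fun i j => eP c t i j % 1048576) (fun i j => eP c t i j / 1048576) :=
  (pT_sound (w := wE M c v) (c := eP c t) (WC_self hc) (WC_ent hc fun _ _ _ _ => pq_ok _ _ _) h).2

lemma touch_cell (hin : CellIn c z) {l : Fin 10} (hl : z l.succ = -(1 / 2)) :
    lo (c l) ≤ 48 ∧ 48 ≤ hi (c l) := by
  have h := InC_iff.1 (hin l)
  rw [hl, ← zz48] at h
  exact ⟨zz_le h.1, zz_le h.2⟩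

lemma vel_nonneg {P : ℕ} (hρ : 0 < ρ) (h : 32768 ≤ P) : 0 ≤ vel ρ P := by
  have : (32768 : ℝ) ≤ P := by exact_mod_cast h
  exact mul_nonneg (by linarith) hρ.le

lemma vel_pos {P : ℕ} (hρ : 0 < ρ) (h : 32768 < P) : 0 < vel ρ P := by
  have : (32768 : ℝ) < P := by exact_mod_cast h
  exact mul_pos (by linarith) hρ

lemma vel_mono {P Q : ℕ} (hρ : 0 < ρ) (h : P ≤ Q) : vel ρ P ≤ vel ρ Q := by
  have : (P : ℝ) ≤ Q := by exact_mod_cast h
  exact mul_le_mul_of_nonneg_right (by linarith) hρ.le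

/-- **the field of touching points** -/
theorem touch_field (hρ : 0 < ρ) {κ : ℝ} (hκ : κ = K * ρ) (hin : CellIn c z)
    (h : poleD K M (c 0) (c 1) (c 2) (c 3) (c 4) (c 5) (c 6) (c 7) (c 8) (c 9)
      (v 0) (v 1) (v 2) (v 3) (v 4) (v 5) (v 6) (v 7) (v 8) (v 9) = true) :
    (0 < κ ∧ ∀ l : Fin 10, z l.succ = -(1 / 2) → 0 ≤ vU ρ (v l) ∧ vU ρ (v l) ≤ vD ρ (v l) ∧
      0 < vD ρ (v l)) ∨
    (κ = 0 ∧ ∀ l : Fin 10, z l.succ = -(1 / 2) → 0 < vU ρ (v l) ∨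
      (vU ρ (v l) = 0 ∧ vD ρ (v l) = 0)) := by
  obtain ⟨t, ht, -⟩ := poleD_spec h
  rcases Nat.eq_zero_or_pos K with hK | hK
  · right
    refine ⟨by rw [hκ, hK]; simp, fun l hl => ?_⟩
    obtain ⟨h1, h2⟩ := touch_cell hin hl
    obtain ⟨-, ⟨-, h3 | ⟨h3, -⟩⟩ | ⟨h3, -⟩⟩ := tmk_spec (ht l (by omega)) h1 h2
    · exact Or.inl (vel_pos hρ h3)
    · right
      rw [h3]
      exact ⟨vU_static, vD_static⟩
    · omega
  · left
    have hKr : (0 : ℝ) < K := by exact_mod_cast hK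
    refine ⟨by rw [hκ]; positivity, fun l hl => ?_⟩
    obtain ⟨h1, h2⟩ := touch_cell hin hl
    obtain ⟨-, ⟨h3, -⟩ | ⟨-, h3, h4, -⟩⟩ := tmk_spec (ht l (by omega)) h1 h2
    · omega
    · exact ⟨vel_nonneg hρ h3, vel_mono hρ (Nat.le_add_right _ _), vel_pos hρ h4⟩

/-- **the field of hops at the exact pole** -/
theorem hopP_field (hρ : 0 < ρ) {κ : ℝ} (hκ : κ = K * ρ) (hK : K < 1048576)
    (hc : CellOK c) (hin : CellIn c z) (hF : Fe z φ) (hs : Srtd φ)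
    (h : mainD 0 k2 K M (c 0) (c 1) (c 2) (c 3) (c 4) (c 5) (c 6) (c 7) (c 8) (c 9)
      (v 0) (v 1) (v 2) (v 3) (v 4) (v 5) (v 6) (v 7) (v 8) (v 9) D = true)
    (hp : poleD K M (c 0) (c 1) (c 2) (c 3) (c 4) (c 5) (c 6) (c 7) (c 8) (c 9)
      (v 0) (v 1) (v 2) (v 3) (v 4) (v 5) (v 6) (v 7) (v 8) (v 9) = true)
    {m l : Fin 10} (hml : m < l) (hm : z m.succ = -(1 / 2)) (hl : z l.succ = -(1 / 2)) :
    (∃ A B : ℕ, HopI (Df c) (Rf M c v) m l A B ∧
      2 * π - (φ l.succ - φ m.succ) ≤ A * (π / 32768) ∧ 2 ^ 22 ≤ B) ∧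
    (0 < vU ρ (v m) ∨ 0 < vU ρ (v l) ∨
      (∃ A B : ℕ, HopI (Df c) (Rf M c v) m l A B ∧
        2 * π - (φ l.succ - φ m.succ) ≤ A * (π / 32768) ∧ 2 ^ 23 ≤ B) ∨
      (0 < κ ∧ ∀ θ, 0 < θ → θ ≤ π / 2 → 2 * θ ≤ 2 * π - (φ l.succ - φ m.succ) →
        ∃ A B : ℕ, HopI (Df c) (Rf M c v) m l A B ∧ 2 * θ ≤ A * (π / 32768) ∧
          -(2 * κ * cos θ) ≤ ((B : ℝ) - 2 ^ 23) * ρ * sin θ)) := by
  have hpi := Real.pi_pos
  obtain ⟨t, ht, hts⟩ := poleD_spec hp
  obtain ⟨m1, m2⟩ := touch_cell hin hm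
  obtain ⟨l1, l2⟩ := touch_cell hin hl
  obtain ⟨tm0, tm1⟩ := tmk_spec (ht m (by omega)) m1 m2
  obtain ⟨tl0, tl1⟩ := tmk_spec (ht l (by omega)) l1 l2
  have hml' : (m : ℕ) < l := hml
  have hI := (tsq_sound hc (hts m l hml' (by omega) tm0.ne' tl0.ne')).hopI (m := m) (l := l) (by omega)
  have hL := LBf_sound (gapOK_of hc hin hF hs) (i := m) (j := l) hml' (by omega)
  rw [gF_eq, gF_eq] at hL
  obtain ⟨a, ha⟩ := Nat.exists_eq_succ_of_ne_zero tm0.ne'
  obtain ⟨b, hb'⟩ := Nat.exists_eq_succ_of_ne_zero tl0.ne'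
  have e1 : eP c t m l % 1048576 = 65536 - LBf c m l := by
    unfold eP; rw [ha, hb']; exact (pq_parts a b _).1
  have e2 : eP c t m l / 1048576 = pqB a b := by
    unfold eP; rw [ha, hb']; exact (pq_parts a b _).2
  simp only [e1, e2] at hI
  have hA := rest_le hL
  refine ⟨⟨_, _, hI, hA, ?_⟩, ?_⟩
  · have e3 : (2 : ℕ) ^ 22 = 4194304 := by norm_num
    rw [e3]
    exact pqB_ge a b
  rcases tm1 with ⟨hK0, tm1⟩ | ⟨hK0, tm1, -, -⟩
  · -- a static south point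
    rcases tm1 with tm1 | ⟨-, tm2⟩
    · exact Or.inl (vel_pos hρ tm1)
    rcases tl1 with ⟨-, tl1 | ⟨-, tl2⟩⟩ | ⟨h3, -⟩
    · exact Or.inr (Or.inl (vel_pos hρ tl1))
    · right; right; left
      refine ⟨_, _, hI, hA, ?_⟩
      have ea : a = 1 := by omega
      have eb : b = 1 := by omega
      rw [ea, eb]
      show 2 ^ 23 ≤ 8388608
      norm_num
    · omega
  · -- a moving south point
    rcases tl1 with ⟨h3, -⟩ | ⟨-, tl1, -, -⟩
    · omega
    rcases Nat.lt_or_ge 32768 (vP (v m)) with q1 | q1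
    · exact Or.inl (vel_pos hρ q1)
    rcases Nat.lt_or_ge 32768 (vP (v l)) with q2 | q2
    · exact Or.inr (Or.inl (vel_pos hρ q2))
    right; right; right
    have hKr : (0 : ℝ) < K := by exact_mod_cast hK0
    refine ⟨by rw [hκ]; positivity, fun θ h0 h1 h2 => ?_⟩
    obtain ⟨hk, hku, -, h00⟩ := mainD_spec h
    have om := osh_pole (k2 := k2) m1 m2
    have ol := osh_pole (k2 := k2) l1 l2
    obtain ⟨wl, hw, s, hs1, hs2⟩ := cls0_spec h00 hml' (by omega)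
      (by show osh 0 k2 (c m) ≠ 0; omega) (by show osh 0 k2 (c l) ≠ 0; omega)
    obtain ⟨Ma, hMa, oka, sa⟩ := TS_pos (hs1 m (by omega)) om
    obtain ⟨Mb, hMb, okb, sb⟩ := TS_pos (hs1 l (by omega)) ol
    have hJ := (tst_sound hc hs2).2.hopI (m := m) (l := l) (by omega)
    simp only [(eC_parts sa sb).1, (eC_parts sa sb).2] at hJ
    have w1 := okS_pole hρ hk (two24 hK) hK0 hku (two24 hw) oka q1 h0.le h1
    have w2 := okS_pole hρ hk (two24 hK) hK0 hku (two24 hw) okb q2 h0.le h1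
    have hθ2 : θ ≤ ((256 : ℕ) : ℝ) * (π / 512) := by push_cast; linarith
    obtain ⟨r1, r2⟩ := pr_real (l := wl) (L := LBf c m l) hρ hMa hMb h0.le h0.le hθ2 hθ2
      (by linarith) hL
    refine ⟨_, _, hJ, by linarith, ?_⟩
    have hsin : 0 ≤ sin θ := sin_nonneg_of_nonneg_of_le_pi h0.le (by linarith)
    have hcos : 0 ≤ cos θ := cos_nonneg_of_mem_Icc ⟨by linarith, h1⟩
    have hρs : 0 ≤ ρ * sin θ := mul_nonneg hρ.le hsin
    rcases r2 with r2 | r2
    · have r3 : (14680064 : ℝ) ≤ (prB wl (TN 256 Ma) (TN 256 Mb) (LBf c m l) : ℝ) := by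
        exact_mod_cast r2
      have r4 : 0 ≤ ((prB wl (TN 256 Ma) (TN 256 Mb) (LBf c m l) : ℝ) - 2 ^ 23) * ρ * sin θ := by
        have e7 : (2 : ℝ) ^ 23 = 8388608 := by norm_num
        rw [e7]
        exact mul_nonneg (mul_nonneg (by linarith) hρ.le) hsin
      have r5 : 0 ≤ 2 * κ * cos θ := by
        rw [hκ]; positivity
      linarith
    · have r3 := mul_le_mul_of_nonneg_right r2 hsin
      have e5 : -(2 * κ * cos θ) = -(K * ρ * cos θ) + -(K * ρ * cos θ) := by rw [hκ]; ring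
      rw [e5]
      have e6 : (hq ρ wl Ma θ - 10 * ρ) * sin θ + (hq ρ wl Mb θ - 10 * ρ) * sin θ =
          (hq ρ wl Ma θ + hq ρ wl Mb θ) * sin θ - 20 * (ρ * sin θ) := by ring
      linarith

end

/-! ## the whole leaf -/

/-- **the two fields of the pole for a leaf with lower tilt number zero** -/
theorem poleL_sound {L D r : ℕ} {z φ : Fin 11 → ℝ} {ρ κ : ℝ} (hρ : 0 < ρ)
    (hκ : κ = pK D * ρ) (hB : BoxIn L z) (hF : Fe z φ) (hs : Srtd φ)
    (h : dleaf L D r = true) (hp : poleL L D r = true) (hk1 : bk1 L = 0) :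
    ((0 < κ ∧ ∀ l : Fin 10, z l.succ = -(1 / 2) → 0 ≤ vU ρ (vL L D r l) ∧
        vU ρ (vL L D r l) ≤ vD ρ (vL L D r l) ∧ 0 < vD ρ (vL L D r l)) ∨
      (κ = 0 ∧ ∀ l : Fin 10, z l.succ = -(1 / 2) → 0 < vU ρ (vL L D r l) ∨
        (vU ρ (vL L D r l) = 0 ∧ vD ρ (vL L D r l) = 0))) ∧
    ∀ m l : Fin 10, m < l → z m.succ = -(1 / 2) → z l.succ = -(1 / 2) →
    (∃ A B : ℕ, HopI (Df (cL L D r)) (Rf (Nat.mod D 35184372088832) (cL L D r) (vL L D r)) m l A B ∧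
      2 * π - (φ l.succ - φ m.succ) ≤ A * (π / 32768) ∧ 2 ^ 22 ≤ B) ∧
    (0 < vU ρ (vL L D r m) ∨ 0 < vU ρ (vL L D r l) ∨
      (∃ A B : ℕ, HopI (Df (cL L D r)) (Rf (Nat.mod D 35184372088832) (cL L D r) (vL L D r)) m l A B ∧
        2 * π - (φ l.succ - φ m.succ) ≤ A * (π / 32768) ∧ 2 ^ 23 ≤ B) ∨
      (0 < κ ∧ ∀ θ, 0 < θ → θ ≤ π / 2 → 2 * θ ≤ 2 * π - (φ l.succ - φ m.succ) →
        ∃ A B : ℕ, HopI (Df (cL L D r)) (Rf (Nat.mod D 35184372088832) (cL L D r) (vL L D r)) m l A B ∧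
          2 * θ ≤ A * (π / 32768) ∧ -(2 * κ * cos θ) ≤ ((B : ℝ) - 2 ^ 23) * ρ * sin θ)) := by
  obtain ⟨hc, hin, -, D', hm⟩ := dleaf_spec hρ hB h
  rw [hk1] at hm
  have hp' : poleD (pK D) (Nat.mod D 35184372088832)
      (cL L D r 0) (cL L D r 1) (cL L D r 2) (cL L D r 3) (cL L D r 4) (cL L D r 5) (cL L D r 6) (cL L D r 7) (cL L D r 8) (cL L D r 9)
      (vL L D r 0) (vL L D r 1) (vL L D r 2) (vL L D r 3) (vL L D r 4) (vL L D r 5) (vL L D r 6) (vL L D r 7) (vL L D r 8) (vL L D r 9) = true := by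
    unfold poleL at hp
    simp only [fz_pr] at hp
    exact hp
  have hK : pK D < 1048576 := Nat.mod_lt _ (by norm_num)
  exact ⟨touch_field hρ hκ hin hp',
    fun m l hml hm1 hl1 => hopP_field hρ hκ hK hc hin hF hs hm hp' hml hm1 hl1⟩

end Pool.Agent.Helper91.Kiss
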