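import Pool.Agent.Helper91.Kiss.AnyF
import Pool.Agent.Helper91.Kiss.AnyE

set_option autoImplicit false

/-! # One upper point a little lower, third part: lines and walks -/

namespace Pool.Agent.Helper91.Kiss

open Real Set Filter Topology Pool.Agent.Helper66.Kiss

/-- the first line -/
lemma ch1b {Q f σ : ℝ} (hσ : 1 / 2 ≤ σ ∧ σ ≤ 1) (hQ : -1 ≤ Q)
    (h1 : 0 ≤ Q → Q + (1 - σ) * (0.378 * Q - 0.0155) ≤ f)
    (h2 : Q ≤ 0 → Q + (1 - σ) * (-0.27 * Q - 0.0118) ≤ f) (hf : f < 1) :
    arccos f ≤ σ * arccos Q + (1 - σ) * (1.35 * arccos Q - 0.525) := by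
  have hpi := Real.pi_lt_d4
  have hpi' := Real.pi_gt_d4
  norm_num at hpi hpi'
  have hd : 0 ≤ 1 - σ := by linarith [hσ.2]
  rcases le_total Q 0 with h0 | h0
  · -- obtuse
    have hw : π / 2 ≤ arccos Q := by
      by_contra hcon
      push Not at hcon
      have h5 := Real.cos_lt_cos_of_nonneg_of_le_pi (Real.arccos_nonneg Q) (by linarith) hcon
      rw [Real.cos_arccos hQ (by linarith), Real.cos_pi_div_two] at h5
      linarith
    have hwp : arccos Q ≤ π := Real.arccos_le_pi Q
    have hcos : cos (arccos Q) = Q := Real.cos_arccos hQ (by linarith)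
    set w := arccos Q with hw'
    rcases le_total (1.35 * w - 0.525 - π / 2) (π / 2) with h5 | h5
    · refine ch_obt (β := 1.35 * w - 0.525 - π / 2) ⟨by linarith [hσ.1], hσ.2⟩ hQ h0 (h2 h0)
        ⟨by norm_num; linarith, h5⟩ ?_ (by linarith)
      have hsψ : sin (w - π / 2) = -Q := by rw [Real.sin_sub_pi_div_two, hcos]
      have hcψ : 0 ≤ cos (w - π / 2) := Real.cos_nonneg_of_mem_Icc ⟨by linarith, by linarith⟩
      have hQ' : -Q ≤ 1 := by linarith
      have h6 : sin (w - π / 2 + 0.0247) ≤ sin (1.35 * w - 0.525 - π / 2) := by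
        apply Real.sin_le_sin_of_le_of_le_pi_div_two (by norm_num; linarith) h5
        norm_num; linarith
      rw [Real.sin_add, hsψ] at h6
      have c1 : 0.999 ≤ cos (0.0247 : ℝ) := by
        have := Real.one_sub_sq_div_two_le_cos (x := (0.0247 : ℝ))
        norm_num at this ⊢; linarith
      have s1 : 0.0244 ≤ sin (0.0247 : ℝ) := by
        have := sin_ge99 (t := 0.0247) (by norm_num) (by norm_num)
        norm_num at this ⊢; linarith
      have h7 := one_le_sin_add_cos (θ := w - π / 2) (by linarith) (by linarith)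
      rw [hsψ] at h7
      have a1 := mul_le_mul_of_nonneg_left c1 (by linarith : 0 ≤ -Q)
      have a2 := mul_le_mul_of_nonneg_left s1 hcψ
      norm_num at a1 a2 h6 ⊢
      linarith
    · refine ch_obt (β := π / 2) ⟨by linarith [hσ.1], hσ.2⟩ hQ h0 (h2 h0)
        ⟨by linarith, le_rfl⟩ ?_ (by linarith)
      rw [Real.sin_pi_div_two]
      norm_num; linarith
  · -- acute
    have h1' := h1 h0
    norm_num at h1'
    have hQ1 : Q < 1 := by
      by_contra hcon
      push Not at hcon
      have := mul_nonneg hd (by linarith : (0 : ℝ) ≤ 189 / 500 * Q - 31 / 2000)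
      linarith
    have hcos : cos (arccos Q) = Q := Real.cos_arccos hQ hQ1.le
    have hθ0 := Real.arccos_nonneg Q
    have hθ1 : arccos Q ≤ π / 2 := Real.arccos_le_pi_div_two.2 h0
    set θ := arccos Q with hθ
    have hs0 : 0 ≤ sin θ := Real.sin_nonneg_of_nonneg_of_le_pi hθ0 (by linarith)
    have key : σ * θ + (1 - σ) * (1.35 * θ - 0.525) = θ + (1 - σ) * (0.35 * θ - 0.525) := by
      norm_num; ring
    rw [key]
    rcases le_total 0 (0.35 * θ - 0.525) with h5 | h5
    · -- the angle grows
      set t := (1 - σ) * (0.35 * θ - 0.525) with ht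
      have ht0 : 0 ≤ t := mul_nonneg hd h5
      have ht1 : t ≤ 0.23 := by
        have : t ≤ 1 * (0.35 * θ - 0.525) := mul_le_mul_of_nonneg_right (by linarith [hσ.1]) h5
        norm_num at this ⊢
        linarith
      have h6 : cos (θ + t) ≤ f := by
        rw [Real.cos_add, hcos]
        have a1 : Q * cos t ≤ Q * 1 := mul_le_mul_of_nonneg_left (Real.cos_le_one t) h0
        have a2 := sin_ge99 ht0 ht1
        norm_num at h5
        have a3 : 0.99 ≤ sin θ := by
          have e1 : sin (π / 2 - 0.083) ≤ sin θ :=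
            Real.sin_le_sin_of_le_of_le_pi_div_two (by norm_num; linarith) hθ1 (by norm_num; linarith)
          rw [Real.sin_pi_div_two_sub] at e1
          have := Real.one_sub_sq_div_two_le_cos (x := (0.083 : ℝ))
          norm_num at this e1 ⊢; linarith
        have a4 : (0.99 : ℝ) * (0.99 * t) ≤ sin θ * sin t :=
          mul_le_mul a3 a2 (by norm_num; linarith) hs0
        -- Jordan
        have a5 : 2 / π * (π / 2 - θ) ≤ Q := by
          have := Real.mul_le_sin (x := π / 2 - θ) (by linarith) (by linarith)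
          rwa [Real.sin_pi_div_two_sub, hcos] at this
        have a6 : 0.63 * (π / 2 - θ) ≤ Q := by
          refine le_trans (mul_le_mul_of_nonneg_right ?_ (by linarith)) a5
          rw [le_div_iff₀ Real.pi_pos]; norm_num; linarith
        have a7 : 0.0155 ≤ 0.378 * Q + 0.98 * (0.35 * θ - 0.525) := by
          norm_num at a6 ⊢
          linarith
        have a8 := mul_le_mul_of_nonneg_left a7 hd
        have a9 : 31 / 2000 * (1 - σ) ≤ 189 / 500 * ((1 - σ) * Q) + 49 / 50 * t := by
          rw [ht]; norm_num at a8 ⊢; linarith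
        clear_value t
        norm_num at a4
        linarith
      have h7 := Real.arccos_le_arccos h6
      rwa [Real.arccos_cos (by linarith) (by norm_num at ht1; linarith)] at h7
    · -- the angle shrinks
      set s := (1 - σ) * (0.525 - 0.35 * θ) with hs
      have hs' : θ + (1 - σ) * (0.35 * θ - 0.525) = θ - s := by rw [hs]; ring
      rw [hs']
      have hs00 : 0 ≤ s := mul_nonneg hd (by linarith)
      rcases le_or_gt s θ with h6 | h6
      · have ht := cos_tangent (θ := θ - s) (ω := θ) (by linarith) (by linarith) hθ0 hθ1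
        rw [hcos] at ht
        have h7 : cos (θ - s) ≤ f := by
          refine ht.trans (le_trans ?_ h1')
          -- (.521 - .35 θ) sin θ ≤ .378 Q - .0155
          have a1 : (π / 2 - θ) * sin θ ≤ Q := by
            rcases eq_or_lt_of_le hθ0 with h8 | h8
            · rw [← h8]; simp; linarith
            · have := Real.le_tan (x := π / 2 - θ) (by linarith) (by linarith)
              rw [Real.tan_eq_sin_div_cos, Real.sin_pi_div_two_sub, Real.cos_pi_div_two_sub, hcos,
                le_div_iff₀ (Real.sin_pos_of_pos_of_lt_pi h8 (by linarith))] at this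
              exact this
          have a2 := one_le_sin_add_cos hθ0 hθ1
          rw [hcos] at a2
          have a3 : (0.525 - 0.35 * θ) * sin θ ≤ 0.378 * Q - 0.0155 := by
            have e1 : (0.525 - 0.35 * θ) * sin θ = 0.35 * ((π / 2 - θ) * sin θ) -
              (0.35 * (π / 2) - 0.525) * sin θ := by ring
            have e2 : 0.0247 * sin θ ≤ (0.35 * (π / 2) - 0.525) * sin θ :=
              mul_le_mul_of_nonneg_right (by norm_num; linarith) hs0
            rw [e1]
            norm_num at e2 ⊢
            linarith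
          have a4 := mul_le_mul_of_nonneg_left a3 hd
          have a5 : s * sin θ = (1 - σ) * ((0.525 - 0.35 * θ) * sin θ) := by rw [hs]; ring
          rw [← a5] at a4
          clear_value s
          norm_num at a4
          linarith
        have h8 := Real.arccos_le_arccos h7
        rwa [Real.arccos_cos (by linarith) (by linarith)] at h8
      · -- the pair is free
        exfalso
        have a1 : θ ≤ 0.525 * (1 - σ) := by
          have : s ≤ (1 - σ) * 0.525 := mul_le_mul_of_nonneg_left (by linarith) hd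
          linarith
        have a2 : θ ^ 2 ≤ (0.525 * (1 - σ)) ^ 2 := pow_le_pow_left₀ hθ0 a1 2
        have a3 : 1 - θ ^ 2 / 2 ≤ Q := by
          rw [← hcos]; exact Real.one_sub_sq_div_two_le_cos
        clear_value s θ
        have a7 : (1 - σ) ^ 2 ≤ 1 / 2 * (1 - σ) := by nlinarith [hσ.1]
        have a4 : θ ^ 2 ≤ 7 / 50 * (1 - σ) := by
          norm_num at a2
          nlinarith
        have a5 : 93 / 100 ≤ Q := by linarith [hσ.1]
        have a6 := mul_le_mul_of_nonneg_left a5 hd
        linarith

/-- the second line -/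
lemma ch2b {Q f σ : ℝ} (hσ : 1 / 2 ≤ σ ∧ σ ≤ 1) (hQ : -1 ≤ Q)
    (h1 : 0 ≤ Q → Q + (1 - σ) * (0.378 * Q - 0.0155) ≤ f)
    (h2 : Q ≤ 0 → Q + (1 - σ) * (-0.27 * Q - 0.0118) ≤ f) :
    arccos f ≤ σ * arccos Q + (1 - σ) * (0.75 * arccos Q + 0.436) := by
  have hpi := Real.pi_lt_d4
  have hpi' := Real.pi_gt_d4
  norm_num at hpi hpi'
  have hd : 0 ≤ 1 - σ := by linarith [hσ.2]
  rcases le_total Q 0 with h0 | h0
  · have hw : π / 2 ≤ arccos Q := by
      by_contra hcon
      push Not at hcon
      have h5 := Real.cos_lt_cos_of_nonneg_of_le_pi (Real.arccos_nonneg Q) (by linarith) hcon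
      rw [Real.cos_arccos hQ (by linarith), Real.cos_pi_div_two] at h5
      linarith
    have hwp : arccos Q ≤ π := Real.arccos_le_pi Q
    have hcos : cos (arccos Q) = Q := Real.cos_arccos hQ (by linarith)
    set w := arccos Q with hw'
    refine ch_obt (β := 0.75 * w + 0.436 - π / 2) ⟨by linarith [hσ.1], hσ.2⟩ hQ h0 (h2 h0)
      ⟨by norm_num; linarith, by norm_num; linarith⟩ ?_ (by linarith)
    have hsψ : sin (w - π / 2) = -Q := by rw [Real.sin_sub_pi_div_two, hcos]
    have hQ' : -Q ≤ 1 := by linarith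
    set ψ := w - π / 2 with hψ
    have h6 : sin (0.75 * ψ + 0.0433) ≤ sin (0.75 * w + 0.436 - π / 2) := by
      apply Real.sin_le_sin_of_le_of_le_pi_div_two (by norm_num; linarith) (by norm_num; linarith)
      norm_num; linarith
    rw [Real.sin_add] at h6
    have c1 : 0.998 ≤ cos (0.0433 : ℝ) := by
      have := Real.one_sub_sq_div_two_le_cos (x := (0.0433 : ℝ))
      norm_num at this ⊢; linarith
    have s1 : 0.0428 ≤ sin (0.0433 : ℝ) := by
      have := sin_ge99 (t := 0.0433) (by norm_num) (by norm_num)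
      norm_num at this ⊢; linarith
    have b1 := sin_scale (σ := 0.75) (y := ψ) (by norm_num) ⟨by linarith, by linarith⟩
    rw [hsψ] at b1
    have b2 : 0.3 ≤ cos (0.75 * ψ) := by
      have e1 := Real.one_sub_sq_div_two_le_cos (x := 0.75 * ψ)
      have e2 : (0.75 * ψ) ^ 2 ≤ 1.1782 ^ 2 := by
        apply pow_le_pow_left₀ (by norm_num; linarith)
        norm_num; linarith
      norm_num at e1 e2 ⊢
      linarith
    have a1 := mul_le_mul b1 c1 (by norm_num) (le_trans (by norm_num; linarith) b1)
    have a2 := mul_le_mul b2 s1 (by norm_num) (le_trans (by norm_num) b2)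
    norm_num at a1 a2 h6 ⊢
    linarith
  · have h1' := h1 h0
    norm_num at h1'
    have hθ0 := Real.arccos_nonneg Q
    have hθ1 : arccos Q ≤ π / 2 := Real.arccos_le_pi_div_two.2 h0
    rcases le_or_gt 1 Q with h9 | h9
    · have : 1 ≤ f := by
        have := mul_nonneg hd (by linarith : (0 : ℝ) ≤ 189 / 500 * Q - 31 / 2000)
        linarith
      rw [Real.arccos_of_one_le this]
      have a1 := mul_nonneg (by linarith [hσ.1] : (0 : ℝ) ≤ σ) hθ0
      have a2 := mul_nonneg hd (by norm_num; linarith : (0 : ℝ) ≤ 0.75 * arccos Q + 0.436)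
      linarith
    have hcos : cos (arccos Q) = Q := Real.cos_arccos hQ h9.le
    set θ := arccos Q with hθ
    have hs0 : 0 ≤ sin θ := Real.sin_nonneg_of_nonneg_of_le_pi hθ0 (by linarith)
    have key : σ * θ + (1 - σ) * (0.75 * θ + 0.436) = θ + (1 - σ) * (0.436 - 0.25 * θ) := by
      norm_num; ring
    rw [key]
    have h5 : 0.0433 ≤ 0.436 - 0.25 * θ := by norm_num; linarith
    set t := (1 - σ) * (0.436 - 0.25 * θ) with ht
    have ht0 : 0 ≤ t := mul_nonneg hd (le_trans (by norm_num) h5)
    have ht1 : t ≤ 0.23 := by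
      have : t ≤ 1 / 2 * (0.436 - 0.25 * θ) :=
        mul_le_mul_of_nonneg_right (by linarith [hσ.1]) (le_trans (by norm_num) h5)
      norm_num at this ⊢
      linarith
    have h6 : cos (θ + t) ≤ f := by
      rw [Real.cos_add, hcos]
      have a1 : Q * cos t ≤ Q * 1 := mul_le_mul_of_nonneg_left (Real.cos_le_one t) h0
      have a2 := sin_ge99 ht0 ht1
      have a4 : sin θ * (0.99 * t) ≤ sin θ * sin t := mul_le_mul_of_nonneg_left a2 hs0
      have a5 : (1 - σ) * 0.0433 ≤ t := mul_le_mul_of_nonneg_left h5 hd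
      have a6 : sin θ * ((1 - σ) * 0.0433) ≤ sin θ * t := mul_le_mul_of_nonneg_left a5 hs0
      have a7 := one_le_sin_add_cos hθ0 hθ1
      rw [hcos] at a7
      have a8 : 0.0155 ≤ 0.378 * Q + 0.0428 * sin θ := by norm_num; linarith
      have a9 := mul_le_mul_of_nonneg_left a8 hd
      have a10 : 0 ≤ (1 - σ) * sin θ := mul_nonneg hd hs0
      clear_value t
      norm_num at a4 a6 a9
      linarith
    have h7 := Real.arccos_le_arccos h6
    rwa [Real.arccos_cos (by linarith) (by norm_num at ht1; linarith)] at h7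

lemma cap3_arith {m : ℕ} {X M : ℝ} (hX : 0 ≤ X) (hM1 : M ≤ 1)
    (h : m * (CC - 0.037) + X - 0.01 * M ≤ 2 * π) :
    m * (CC - 0.003) + 0.013 * M ≤ 2 * π ∧
      (3 ≤ m → m * (CC - 0.003) + 0.013 * M + (1.35 * X - 1.05) ≤ 2 * π) ∧
      (m ≤ 2 → m * (CC - 0.003) + 0.013 * M + (0.75 * X + 0.872) ≤ 2 * π) := by
  have hC := CC_bd
  rw [two_pi_CC] at h ⊢
  norm_num at hC h
  have hm5 : m ≤ 5 := by
    by_contra hcon
    push Not at hcon
    have h6 : (6 : ℝ) ≤ m := by exact_mod_cast hcon
    have := mul_le_mul_of_nonneg_right h6 (by linarith : 0 ≤ CC - 37 / 1000)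
    linarith
  interval_cases m
  · norm_num at h ⊢; constructor <;> linarith
  · norm_num at h ⊢; constructor <;> linarith
  · norm_num at h ⊢; constructor <;> linarith
  · norm_num at h ⊢; constructor <;> linarith
  · norm_num at h ⊢; constructor <;> linarith
  · norm_num at h ⊢; constructor <;> linarith

section walk

variable {n : ℕ}

/-- **the walk inequality along the path** -/
theorem walk_three (hn : 0 < n) {v : ℕ → ℕ} {r : ℕ} (hv : IsWalk n v r) (he : v r = v 0 + n)
    {E : Fin n → Fin n → Prop} {W0 W1 : Fin n → Fin n → ℝ} {S : Fin n → Prop} [DecidablePred S]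
    (hS : ∀ i j, S i → S j → i = j) {T : Fin n → Fin n → Prop} [DecidableRel T] {p : Fin n}
    {ω : Fin n → ℝ} (hω : ∀ i, 0 ≤ ω i) {σ : ℝ} (hσ : 0 ≤ σ ∧ σ ≤ 1)
    (hD : ∀ k < r, E (clN n hn (v k)) (clN n hn (v (k + 1))))
    (low : ∀ i j, i ≠ j → E i j → (if T i j then CC - 0.037 else 0) + (if S i then ω j else 0) +
      (if S j then ω i else 0) - (if i = p then 0.005 else 0) - (if j = p then 0.005 else 0) ≤ W0 i j)
    (c1 : ∀ i j, i ≠ j → E i j → W1 i j ≤ σ * W0 i j + (1 - σ) *
      ((if T i j then CC - 0.003 else 0) + (if S i then 1.35 * ω j - 0.525 else 0) +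
        (if S j then 1.35 * ω i - 0.525 else 0) + (if i = p then 0.0065 else 0) +
        (if j = p then 0.0065 else 0)))
    (c2 : ∀ i j, i ≠ j → E i j → W1 i j ≤ σ * W0 i j + (1 - σ) *
      ((if T i j then CC - 0.003 else 0) + (if S i then 0.75 * ω j + 0.436 else 0) +
        (if S j then 0.75 * ω i + 0.436 else 0) + (if i = p then 0.0065 else 0) +
        (if j = p then 0.0065 else 0)))
    (h0 : total (fun a b => W0 (clN n hn a) (clN n hn b)) v r ≤ 2 * π) :
    total (fun a b => W1 (clN n hn a) (clN n hn b)) v r ≤ 2 * π := by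
  classical
  have hd : 0 ≤ 1 - σ := by linarith [hσ.2]
  have hne : ∀ k < r, clN n hn (v k) ≠ clN n hn (v (k + 1)) := fun k hk => clN_step_ne hn (hv k hk)
  set m := ((Finset.range r).filter fun k => T (clN n hn (v k)) (clN n hn (v (k + 1)))).card with hm
  have hT : ∀ c : ℝ, (∑ k ∈ Finset.range r, if T (clN n hn (v k)) (clN n hn (v (k + 1))) then c else 0) =
      m * c := by
    intro c
    rw [← Finset.sum_filter, Finset.sum_const, nsmul_eq_mul]
  set X1 := ∑ k ∈ Finset.range r, if S (clN n hn (v k)) then ω (clN n hn (v (k + 1))) else 0 with hX1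
  set X2 := ∑ k ∈ Finset.range r, if S (clN n hn (v (k + 1))) then ω (clN n hn (v k)) else 0 with hX2
  set N1 : ℝ := ∑ k ∈ Finset.range r, if S (clN n hn (v k)) then 1 else 0 with hN1
  have hcyc : clN n hn (v r) = clN n hn (v 0) := by
    rw [he]; apply Fin.ext; show (v 0 + n) % n = v 0 % n; simp
  have hN2 : (∑ k ∈ Finset.range r, if S (clN n hn (v (k + 1))) then (1 : ℝ) else 0) = N1 :=
    sum_cyc (g := fun k => if S (clN n hn (v k)) then (1 : ℝ) else 0) (by simp only [hcyc])
  set M : ℝ := ∑ k ∈ Finset.range r, if clN n hn (v k) = p then 1 else 0 with hM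
  have hM2 : (∑ k ∈ Finset.range r, if clN n hn (v (k + 1)) = p then (1 : ℝ) else 0) = M :=
    sum_cyc (g := fun k => if clN n hn (v k) = p then (1 : ℝ) else 0) (by simp only [hcyc])
  have hp1 : ∀ c : ℝ, (∑ k ∈ Finset.range r, if clN n hn (v k) = p then c else 0) = c * M := by
    intro c
    rw [hM, Finset.mul_sum]
    refine Finset.sum_congr rfl fun k _ => ?_
    split_ifs <;> ring
  have hp2 : ∀ c : ℝ, (∑ k ∈ Finset.range r, if clN n hn (v (k + 1)) = p then c else 0) = c * M := by
    intro c
    rw [← hM2, Finset.mul_sum]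
    refine Finset.sum_congr rfl fun k _ => ?_
    split_ifs <;> ring
  have hM0 : 0 ≤ M := Finset.sum_nonneg fun k _ => by split_ifs <;> norm_num
  have hM1 : M ≤ 1 := by
    by_cases hex : ∃ k < r, clN n hn (v k) = p
    · obtain ⟨i, hi, hp⟩ := hex
      rw [hM, Finset.sum_eq_single i]
      · rw [if_pos hp]
      · intro k hk hki
        rw [if_neg]
        intro hpk
        exact hki (out_unique hn hv he (Finset.mem_range.1 hk) hi (hpk.trans hp.symm))
      · intro hk
        exact absurd (Finset.mem_range.2 hi) hk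
    · push Not at hex
      have : M = 0 := Finset.sum_eq_zero fun k hk => by rw [if_neg (hex k (Finset.mem_range.1 hk))]
      rw [this]; norm_num
  have hX10 : 0 ≤ X1 := Finset.sum_nonneg fun k _ => by
    split_ifs
    · exact hω _
    · exact le_rfl
  have hX20 : 0 ≤ X2 := Finset.sum_nonneg fun k _ => by
    split_ifs
    · exact hω _
    · exact le_rfl
  have hs1 : ∀ a b : ℝ, (∑ k ∈ Finset.range r, if S (clN n hn (v k)) then
      a * ω (clN n hn (v (k + 1))) + b else 0) = a * X1 + b * N1 := by
    intro a b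
    rw [hX1, hN1, Finset.mul_sum, Finset.mul_sum, ← Finset.sum_add_distrib]
    refine Finset.sum_congr rfl fun k _ => ?_
    split_ifs <;> ring
  have hs2 : ∀ a b : ℝ, (∑ k ∈ Finset.range r, if S (clN n hn (v (k + 1))) then
      a * ω (clN n hn (v k)) + b else 0) = a * X2 + b * N1 := by
    intro a b
    rw [hX2, ← hN2, Finset.mul_sum, Finset.mul_sum, ← Finset.sum_add_distrib]
    refine Finset.sum_congr rfl fun k _ => ?_
    split_ifs <;> ring
  have hlow : m * (CC - 0.037) + (X1 + X2) - 0.005 * M - 0.005 * M ≤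
      total (fun a b => W0 (clN n hn a) (clN n hn b)) v r := by
    rw [← hT, hX1, hX2, ← Finset.sum_add_distrib, ← Finset.sum_add_distrib]
    nth_rw 1 [← hp1 0.005]
    rw [← hp2 0.005, ← Finset.sum_sub_distrib, ← Finset.sum_sub_distrib]
    unfold total
    refine Finset.sum_le_sum fun k hk => ?_
    have := low _ _ (hne k (Finset.mem_range.1 hk)) (hD k (Finset.mem_range.1 hk))
    linarith
  obtain ⟨ar0, ar1, ar2⟩ := cap3_arith (m := m) (add_nonneg hX10 hX20) hM1 (by
    have := hlow.trans h0
    norm_num at this ⊢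
    linarith)
  have hch1 : total (fun a b => W1 (clN n hn a) (clN n hn b)) v r ≤
      σ * total (fun a b => W0 (clN n hn a) (clN n hn b)) v r + (1 - σ) * (m * (CC - 0.003) +
      (1.35 * X1 + (-0.525) * N1) + (1.35 * X2 + (-0.525) * N1) + 0.0065 * M + 0.0065 * M) := by
    rw [← hT, ← hs1, ← hs2, ← Finset.sum_add_distrib, ← Finset.sum_add_distrib]
    nth_rw 1 [← hp1 0.0065]
    rw [← hp2 0.0065, ← Finset.sum_add_distrib, ← Finset.sum_add_distrib]
    unfold total
    rw [Finset.mul_sum, Finset.mul_sum, ← Finset.sum_add_distrib]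
    refine Finset.sum_le_sum fun k hk => ?_
    have := c1 _ _ (hne k (Finset.mem_range.1 hk)) (hD k (Finset.mem_range.1 hk))
    rw [sub_eq_add_neg (1.35 * ω (clN n hn (v (k + 1)))),
      sub_eq_add_neg (1.35 * ω (clN n hn (v k)))] at this
    exact this
  have hch2 : total (fun a b => W1 (clN n hn a) (clN n hn b)) v r ≤
      σ * total (fun a b => W0 (clN n hn a) (clN n hn b)) v r + (1 - σ) * (m * (CC - 0.003) +
      (0.75 * X1 + 0.436 * N1) + (0.75 * X2 + 0.436 * N1) + 0.0065 * M + 0.0065 * M) := by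
    rw [← hT, ← hs1, ← hs2, ← Finset.sum_add_distrib, ← Finset.sum_add_distrib]
    nth_rw 1 [← hp1 0.0065]
    rw [← hp2 0.0065, ← Finset.sum_add_distrib, ← Finset.sum_add_distrib]
    unfold total
    rw [Finset.mul_sum, Finset.mul_sum, ← Finset.sum_add_distrib]
    refine Finset.sum_le_sum fun k hk => ?_
    exact c2 _ _ (hne k (Finset.mem_range.1 hk)) (hD k (Finset.mem_range.1 hk))
  have e1 := mul_le_mul_of_nonneg_left h0 hσ.1
  by_cases hex : ∃ k < r, S (clN n hn (v k))
  · obtain ⟨i, hi, hp⟩ := hex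
    have hN : N1 = 1 := by
      rw [hN1, Finset.sum_eq_single i]
      · rw [if_pos hp]
      · intro k hk hki
        rw [if_neg]
        intro hpk
        exact hki (out_unique hn hv he (Finset.mem_range.1 hk) hi (hS _ _ hpk hp))
      · intro hk
        exact absurd (Finset.mem_range.2 hi) hk
    rw [hN] at hch1 hch2
    rcases Nat.lt_or_ge m 3 with h3 | h3
    · have a1 := ar2 (by omega)
      have e2 : (1 - σ) * (m * (CC - 0.003) + (0.75 * X1 + 0.436 * 1) + (0.75 * X2 + 0.436 * 1) +
          0.0065 * M + 0.0065 * M) ≤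
          (1 - σ) * (2 * π) := by
        apply mul_le_mul_of_nonneg_left _ hd
        norm_num at a1 ⊢
        linarith
      linarith
    · have a1 := ar1 h3
      have e2 : (1 - σ) * (m * (CC - 0.003) + (1.35 * X1 + (-0.525) * 1) + (1.35 * X2 + (-0.525) * 1) +
          0.0065 * M + 0.0065 * M) ≤
          (1 - σ) * (2 * π) := by
        apply mul_le_mul_of_nonneg_left _ hd
        norm_num at a1 ⊢
        linarith
      linarith
  · push Not at hex
    have hN : N1 = 0 := Finset.sum_eq_zero fun k hk => by rw [if_neg (hex k (Finset.mem_range.1 hk))]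
    have hX1' : X1 = 0 := Finset.sum_eq_zero fun k hk => by rw [if_neg (hex k (Finset.mem_range.1 hk))]
    have hX2' : X2 = 0 := Finset.sum_eq_zero fun k hk => by
      have hk' := Finset.mem_range.1 hk
      rw [if_neg]
      rcases Nat.lt_or_ge (k + 1) r with h | h
      · exact hex _ h
      · have : k + 1 = r := by omega
        rw [this, hcyc]
        exact hex 0 (by omega)
    rw [hN, hX1', hX2'] at hch1
    have e2 : (1 - σ) * (m * (CC - 0.003) + (1.35 * 0 + (-0.525) * 0) + (1.35 * 0 + (-0.525) * 0) +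
        0.0065 * M + 0.0065 * M) ≤
        (1 - σ) * (2 * π) := by
      apply mul_le_mul_of_nonneg_left _ hd
      norm_num
      linarith
    linarith

end walk

end Pool.Agent.Helper91.Kiss
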