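import Pool.Agent.Helper91.Kiss.OneD
import Pool.Agent.Helper91.Kiss.AnyH
import Pool.Agent.Helper91.Kiss.OneC

set_option autoImplicit false

/-! # One upper point a little lower, last part -/

namespace Pool.Agent.Helper91.Kiss

open Real Set Filter Topology Pool.Agent.Helper66.Kiss

section

variable {z φ : Fin 11 → ℝ} {s p : Fin 11} {U : Finset (Fin 11)}

/-- pairs without the lowest point, lower bound -/
lemma E3.lowK (h : E3 z s U p) {i j : Fin 11} (hij : i ≠ j) (his : i ≠ s) (hjs : j ≠ s) :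
    (if (i ∈ U ∧ j ∈ U) ∨ (i ∉ U ∧ i ≠ s ∧ j ∉ U ∧ j ≠ s) then CC - 0.037 else 0) -
      (if i = p then 0.005 else 0) - (if j = p then 0.005 else 0) ≤ wd (z i) (z j) := by
  have ht : (0 : ℝ) ∈ Icc (0 : ℝ) 1 := ⟨le_rfl, zero_le_one⟩
  by_cases hi : i ∈ U <;> by_cases hj : j ∈ U
  · rw [if_pos (Or.inl ⟨hi, hj⟩)]
    by_cases hip : i = p
    · have hjp : j ≠ p := fun he => hij (hip.trans he.symm)
      rw [if_pos hip, if_neg hjp, hip]
      have := (h.pU' ht hj hjp hjs).2
      norm_num at this ⊢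
      linarith
    · by_cases hjp : j = p
      · rw [if_neg hip, if_pos hjp, hjp, wd_comm]
        have := (h.pU' ht hi hip his).2
        norm_num at this ⊢
        linarith
      · rw [if_neg hip, if_neg hjp]
        have := h.lowUU hi hip hj hjp
        norm_num at this ⊢
        linarith
  · rw [if_neg (by rintro (⟨a, b⟩ | ⟨a, b⟩); exact hj b; exact a hi)]
    have := wd_nonneg (z i) (z j)
    split_ifs <;> norm_num <;> linarith
  · rw [if_neg (by rintro (⟨a, b⟩ | ⟨a, b, c, d⟩); exact hi a; exact c hj)]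
    have := wd_nonneg (z i) (z j)
    split_ifs <;> norm_num <;> linarith
  · rw [if_pos (Or.inr ⟨hi, his, hj, hjs⟩), if_neg (fun he : i = p => hi (he ▸ h.pU)),
      if_neg (fun he : j = p => hj (he ▸ h.pU))]
    have := h.lowLL hi his hj hjs
    norm_num at this ⊢
    linarith

/-- pairs without the lowest point, along the path -/
lemma E3.chK (h : E3 z s U p) {t : ℝ} (ht : t ∈ Icc (0 : ℝ) 1) {i j : Fin 11} (hij : i ≠ j)
    (his : i ≠ s) (hjs : j ≠ s) : wd (zq s U z t i) (zq s U z t j) ≤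
      (1 - t / 2) * wd (z i) (z j) + (1 - (1 - t / 2)) *
      ((if (i ∈ U ∧ j ∈ U) ∨ (i ∉ U ∧ i ≠ s ∧ j ∉ U ∧ j ≠ s) then CC - 0.003 else 0) +
        (if i = p then 0.0065 else 0) + (if j = p then 0.0065 else 0)) := by
  have hd : 0 ≤ 1 - (1 - t / 2) := by linarith [ht.1]
  by_cases hi : i ∈ U <;> by_cases hj : j ∈ U
  · rw [if_pos (Or.inl ⟨hi, hj⟩)]
    by_cases hip : i = p
    · have hjp : j ≠ p := fun he => hij (hip.trans he.symm)
      rw [if_pos hip, if_neg hjp, hip]
      have := (h.pU' ht hj hjp hjs).1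
      norm_num at this ⊢
      linarith
    · by_cases hjp : j = p
      · rw [if_neg hip, if_pos hjp, hjp, wd_comm, wd_comm (z i)]
        have := (h.pU' ht hi hip his).1
        norm_num at this ⊢
        linarith
      · rw [if_neg hip, if_neg hjp]
        have := h.chUU ht hi hip his hj hjp hjs
        norm_num at this ⊢
        linarith
  · rw [if_neg (by rintro (⟨a, b⟩ | ⟨a, b⟩); exact hj b; exact a hi)]
    have h1 := h.chUL ht hi his hj hjs
    have h2 : 0 ≤ (1 - (1 - t / 2)) * ((0 : ℝ) + (if i = p then 0.0065 else 0) +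
        (if j = p then 0.0065 else 0)) := mul_nonneg hd (by split_ifs <;> norm_num)
    linarith
  · rw [if_neg (by rintro (⟨a, b⟩ | ⟨a, b, c, d⟩); exact hi a; exact c hj)]
    have h1 := h.chUL ht hj hjs hi his
    rw [wd_comm, wd_comm (z j)] at h1
    have h2 : 0 ≤ (1 - (1 - t / 2)) * ((0 : ℝ) + (if i = p then 0.0065 else 0) +
        (if j = p then 0.0065 else 0)) := mul_nonneg hd (by split_ifs <;> norm_num)
    linarith
  · rw [if_pos (Or.inr ⟨hi, his, hj, hjs⟩), if_neg (fun he : i = p => hi (he ▸ h.pU)),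
      if_neg (fun he : j = p => hj (he ▸ h.pU))]
    have := h.chLL ht hi his hj hjs
    norm_num at this ⊢
    linarith

/-- the walks along the path -/
lemma walks_E3 (h : E3 z s U p) (hs : -1 < z s) (hp : ∀ k, k ≠ s → -1 ≤ RR (z s) (z k))
    (hord : ∀ i j, i < j → wd (z i) (z j) ≤ φ j - φ i ∧ φ j - φ i ≤ 2 * π - wd (z i) (z j))
    {t : ℝ} (ht : t ∈ Icc (0 : ℝ) 1) {v : ℕ → ℕ} {r : ℕ} (hv : IsWalk 11 v r) (he : v r = v 0 + 11)
    (hN : NFW (by norm_num) (fun i j => i ≠ s ∧ j ≠ s) (zq s U z t) v r) :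
    total (fun a b => wd (zq s U z t (clN 11 (by norm_num) a)) (zq s U z t (clN 11 (by norm_num) b)))
      v r ≤ 2 * π := by
  classical
  have hσ : 0 ≤ 1 - t / 2 ∧ 1 - t / 2 ≤ 1 := ⟨by linarith [(sg ht).1], (sg ht).2⟩
  -- a pair with the lowest point
  have hSL : ∀ k, k ≠ s → k ∉ U → RR (zq s U z t s) (zq s U z t k) < 1 →
      wd (zq s U z t s) (zq s U z t k) ≤ (1 - t / 2) * wd (z s) (z k) +
        (1 - (1 - t / 2)) * (1.35 * wd (z s) (z k) - 0.525) ∧
      wd (zq s U z t s) (zq s U z t k) ≤ (1 - t / 2) * wd (z s) (z k) +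
        (1 - (1 - t / 2)) * (0.75 * wd (z s) (z k) + 0.436) := by
    intro k hk hkU hR
    obtain ⟨a1, a2, a3, a4⟩ := h.sl hs hp ht hk hkU
    obtain ⟨b1, b2⟩ := h.both hs ht hk hkU
    rw [a3] at hR
    rw [a2, a4]
    exact ⟨ch1b (sg ht) a1 b1 b2 hR, ch2b (sg ht) a1 b1 b2⟩
  have hE : ∀ i j : Fin 11, ¬ (¬ (i ≠ s ∧ j ≠ s) ∧ 1 ≤ RR (zq s U z t i) (zq s U z t j)) →
      (i = s → j ≠ s → j ∉ U ∧ RR (zq s U z t s) (zq s U z t j) < 1) ∧
      (j = s → i ≠ s → i ∉ U ∧ RR (zq s U z t s) (zq s U z t i) < 1) := by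
    intro i j hij
    refine ⟨?_, ?_⟩
    · rintro rfl hj
      have h1 : RR (zq i U z t i) (zq i U z t j) < 1 := by
        by_contra hcon
        exact hij ⟨fun h2 => h2.1 rfl, not_lt.1 hcon⟩
      exact ⟨fun hjU => absurd (h.su hs ht hjU) (not_le.2 h1), h1⟩
    · rintro rfl hi
      have h1 : RR (zq j U z t j) (zq j U z t i) < 1 := by
        by_contra hcon
        exact hij ⟨fun h2 => h2.2 rfl, by rw [RR_comm]; exact not_lt.1 hcon⟩
      exact ⟨fun hiU => absurd (h.su hs ht hiU) (not_le.2 h1), h1⟩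
  have hpU : ∀ k, k ∉ U → k ≠ p := fun k hk he => hk (he ▸ h.pU)
  have hsp : s ≠ p := hpU s h.sU
  refine walk_three (n := 11) (by norm_num) hv he
    (E := fun i j => ¬ (¬ (i ≠ s ∧ j ≠ s) ∧ 1 ≤ RR (zq s U z t i) (zq s U z t j)))
    (W0 := fun i j => wd (z i) (z j))
    (W1 := fun i j => wd (zq s U z t i) (zq s U z t j)) (S := fun i => i = s)
    (fun i j hi hj => hi.trans hj.symm)
    (T := fun i j => (i ∈ U ∧ j ∈ U) ∨ (i ∉ U ∧ i ≠ s ∧ j ∉ U ∧ j ≠ s)) (p := p)
    (ω := fun k => wd (z s) (z k)) (fun _ => wd_nonneg _ _) hσ hN ?_ ?_ ?_ ?_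
  · -- low
    intro i j hij hEE
    obtain ⟨g1, g2⟩ := hE i j hEE
    by_cases hi : i = s
    · subst hi
      have hj : j ≠ i := Ne.symm hij
      rw [if_neg (by rintro (⟨a, b⟩ | ⟨a, b, c⟩); exact h.sU a; exact b rfl), if_pos rfl, if_neg hj,
        if_neg hsp, if_neg (hpU j (g1 rfl hj).1)]
      simp
    · by_cases hj : j = s
      · subst hj
        rw [if_neg (by rintro (⟨a, b⟩ | ⟨a, b, c, d⟩); exact h.sU b; exact d rfl), if_neg hi, if_pos rfl,
          if_neg (hpU i (g2 rfl hi).1), if_neg hsp]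
        simp only [zero_add, sub_zero]
        rw [wd_comm]
      · have := h.lowK hij hi hj
        rw [if_neg hi, if_neg hj, add_zero, add_zero]
        exact this
  · -- first line
    intro i j hij hEE
    obtain ⟨g1, g2⟩ := hE i j hEE
    by_cases hi : i = s
    · subst hi
      have hj : j ≠ i := Ne.symm hij
      rw [if_neg (by rintro (⟨a, b⟩ | ⟨a, b, c⟩); exact h.sU a; exact b rfl), if_pos rfl, if_neg hj,
        if_neg hsp, if_neg (hpU j (g1 rfl hj).1)]
      have := (hSL j hj (g1 rfl hj).1 (g1 rfl hj).2).1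
      simp only [zero_add, add_zero]
      exact this
    · by_cases hj : j = s
      · subst hj
        rw [if_neg (by rintro (⟨a, b⟩ | ⟨a, b, c, d⟩); exact h.sU b; exact d rfl), if_neg hi, if_pos rfl,
          if_neg (hpU i (g2 rfl hi).1), if_neg hsp]
        have := (hSL i hi (g2 rfl hi).1 (g2 rfl hi).2).1
        rw [wd_comm, wd_comm (z i)]
        simp only [zero_add, add_zero]
        exact this
      · have := h.chK ht hij hi hj
        rw [if_neg hi, if_neg hj, add_zero, add_zero]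
        exact this
  · -- second line
    intro i j hij hEE
    obtain ⟨g1, g2⟩ := hE i j hEE
    by_cases hi : i = s
    · subst hi
      have hj : j ≠ i := Ne.symm hij
      rw [if_neg (by rintro (⟨a, b⟩ | ⟨a, b, c⟩); exact h.sU a; exact b rfl), if_pos rfl, if_neg hj,
        if_neg hsp, if_neg (hpU j (g1 rfl hj).1)]
      have := (hSL j hj (g1 rfl hj).1 (g1 rfl hj).2).2
      simp only [zero_add, add_zero]
      exact this
    · by_cases hj : j = s
      · subst hj
        rw [if_neg (by rintro (⟨a, b⟩ | ⟨a, b, c, d⟩); exact h.sU b; exact d rfl), if_neg hi, if_pos rfl,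
          if_neg (hpU i (g2 rfl hi).1), if_neg hsp]
        have := (hSL i hi (g2 rfl hi).1 (g2 rfl hi).2).2
        rw [wd_comm, wd_comm (z i)]
        simp only [zero_add, add_zero]
        exact this
      · have := h.chK ht hij hi hj
        rw [if_neg hi, if_neg hj, add_zero, add_zero]
        exact this
  · have := lft_tel (n := 11) (by norm_num) (ω := fun i j => wd (z i) (z j))
      (fun i j => wd_comm _ _) hord r hv
    have e2 := lft_add_mul (n := 11) (by norm_num) φ (v 0) 1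
    rw [mul_one] at e2
    rw [he, e2] at this
    push_cast at this
    linarith

/-- the end of the path -/
lemma E3.er (h : E3 z s U p) {x : Fin 11 → ℝ} (hs : x s ≤ -(99 / 100))
    (hx : ∀ k, k ≠ s → x k = zq s U z 1 k) : ER x s U := by
  refine ⟨h.sU, h.card, hs, ?_, ?_⟩
  · intro k hk
    rw [hx k (fun he => h.sU (he ▸ hk))]
    exact h.endU hk
  · intro k hk hks
    rw [hx k hks]
    exact h.endL hk hks

/-- the lowest point off the pole -/
theorem jany_off3 (h : E3 z s U p) (hs : -1 < z s) (hF : Fe z φ) (h0 : ∀ k, 0 ≤ φ k ∧ φ k < 2 * π)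
    (hm : Monotone φ) : JB (pinN z φ) := by
  have hpole : ∀ k, k ≠ s → -1 ≤ RR (z s) (z k) := by
    intro k hk
    have := cos_le_of_gg (h.range hs s) (h.range hs k) (hF.2 s k (Ne.symm hk))
    exact (Real.neg_one_le_cos _).trans this
  have hord : ∀ i j, i < j → wd (z i) (z j) ≤ φ j - φ i ∧ φ j - φ i ≤ 2 * π - wd (z i) (z j) := by
    intro i j hij
    have := hm hij.le
    exact wd_le_of_gg (h.range hs i) (h.range hs j) (hF.2 i j hij.ne) (by linarith)
      (by linarith [(h0 i).1, (h0 j).2])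
  have HG := gpath_E3 h hs hpole
  obtain ⟨φ1, hC, hg, hJ⟩ := stage_lift (by norm_num) (by norm_num) prm_pinN HG
    (fun t ht k => ⟨(zq_range3 h hs ht k).1.le, (zq_range3 h hs ht k).2⟩)
    (fun t ht v r _ hv he hN => walks_E3 h hs hpole hord ht hv he hN)
    (φ0 := φ) (by
      rw [zq_zero3 h hs]
      exact con_of_srt (h.range hs) hF.2 hm (fun k => ⟨(h0 k).1, (h0 k).2.le⟩))
  rw [zq_zero3 h hs] at hJ
  refine JB.of_joined hJ ?_
  have m1 : (1 : ℝ) ∈ Icc (0 : ℝ) 1 := ⟨zero_le_one, le_rfl⟩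
  refine end_region ⟨fun k => ⟨(zq_range3 h hs m1 k).1.le, (zq_range3 h hs m1 k).2⟩, hg⟩
    ⟨s, U, h.er ?_ (fun _ _ => rfl)⟩
  have := (zq_bd_s3 h hs m1).2
  norm_num at this ⊢
  exact this

/-! ## the lowest point at the pole -/

lemma zr_zero3 (h : E3 z s U p) : zr s U z 0 = fun k => z (s.succAbove k) := by
  have e0 : (1 : ℝ) - 0 / 2 = 1 := by norm_num
  funext k
  unfold zr
  by_cases hk : s.succAbove k ∈ U
  · rw [zq_U (sa_ne s k) hk, e0, fU_one, one_mul]
    exact (h.xU hk).2.symm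
  · rw [zq_L (sa_ne s k) hk, e0, eN_one]
    exact (h.xL hk (sa_ne s k)).2.symm

lemma zr_rng3 (h : E3 z s U p) (hlo : ∀ k, k ≠ s → -(1 / 2) ≤ z k) {t : ℝ} (ht : t ∈ Icc (0 : ℝ) 1)
    (k : Fin 10) : -(1 / 2) ≤ zr s U z t k ∧ zr s U z t k ≤ 1 / 2 := by
  refine ⟨?_, (zq_rangeK3 h ht (sa_ne s k)).2⟩
  unfold zr
  by_cases hk : s.succAbove k ∈ U
  · have := (zq_bd_U3 h ht (sa_ne s k) hk).1
    norm_num at this
    linarith
  · rw [zq_L (sa_ne s k) hk]
    have hb := h.lo _ hk (sa_ne s k)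
    norm_num at hb
    have h0 : 0 ≤ xc U z (s.succAbove k) := by
      have e : xc U z (s.succAbove k) = 1 - aU (-(z (s.succAbove k))) := by unfold xc; rw [if_neg hk]
      rw [e]
      exact aU_nonneg_L (by linarith [hb.1]) (hlo _ (sa_ne s k)) (by linarith [hb.2])
    have h1 := (h.xL hk (sa_ne s k)).1.2
    norm_num at h1
    have e3 : eN (1 - t / 2) (xc U z (s.succAbove k)) = (1 - t / 2) ^ 2 * xc U z (s.succAbove k) := by
      unfold eN; rw [if_pos h0]
    rw [e3]
    have hs2 : (1 - t / 2) ^ 2 ≤ 1 := pow_le_one₀ (by linarith [(sg ht).1]) (sg ht).2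
    have a0 : 0 ≤ (1 - t / 2) ^ 2 * xc U z (s.succAbove k) := mul_nonneg (sq_nonneg _) h0
    have a1 : (1 - t / 2) ^ 2 * xc U z (s.succAbove k) ≤ xc U z (s.succAbove k) := by nlinarith
    generalize (1 - t / 2) ^ 2 * xc U z (s.succAbove k) = x at *
    unfold zL
    have h2 : 0 < 3 * (1 - x) ^ 2 + 1 := by positivity
    rw [le_div_iff₀ h2]
    nlinarith

lemma walks_R3 (h : E3 z s U p) {ψ : Fin 10 → ℝ}
    (hord : ∀ i j : Fin 10, i < j → wd (z (s.succAbove i)) (z (s.succAbove j)) ≤ ψ j - ψ i ∧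
      ψ j - ψ i ≤ 2 * π - wd (z (s.succAbove i)) (z (s.succAbove j)))
    {t : ℝ} (ht : t ∈ Icc (0 : ℝ) 1) {v : ℕ → ℕ} {r : ℕ} (hv : IsWalk 10 v r) (he : v r = v 0 + 10) :
    total (fun a b => wd (zr s U z t (clN 10 (by norm_num) a)) (zr s U z t (clN 10 (by norm_num) b)))
      v r ≤ 2 * π := by
  classical
  have hσ : 0 ≤ 1 - t / 2 ∧ 1 - t / 2 ≤ 1 := ⟨by linarith [(sg ht).1], (sg ht).2⟩
  obtain ⟨q, hq⟩ : ∃ q, s.succAbove q = p :=
    Fin.exists_succAbove_eq (fun he => h.sU (he ▸ h.pU))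
  have hqe : ∀ i : Fin 10, (s.succAbove i = p) = (i = q) := fun i => by
    rw [← hq]; exact propext Fin.succAbove_right_inj
  have hne : ∀ i j : Fin 10, i ≠ j → s.succAbove i ≠ s.succAbove j := fun i j hij he =>
    hij (Fin.succAbove_right_injective he)
  have key : ∀ i j : Fin 10, i ≠ j → wd (zr s U z t i) (zr s U z t j) ≤
      (1 - t / 2) * wd (z (s.succAbove i)) (z (s.succAbove j)) + (1 - (1 - t / 2)) *
      ((if (s.succAbove i ∈ U ∧ s.succAbove j ∈ U) ∨ (s.succAbove i ∉ U ∧ s.succAbove i ≠ s ∧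
          s.succAbove j ∉ U ∧ s.succAbove j ≠ s) then CC - 0.003 else 0) +
        (if i = q then 0.0065 else 0) + (if j = q then 0.0065 else 0)) := by
    intro i j hij
    have := h.chK ht (hne i j hij) (sa_ne s i) (sa_ne s j)
    simp only [hqe] at this
    exact this
  refine walk_three (n := 10) (by norm_num) hv he (E := fun _ _ => True)
    (W0 := fun i j => wd (z (s.succAbove i)) (z (s.succAbove j)))
    (W1 := fun i j => wd (zr s U z t i) (zr s U z t j)) (S := fun _ => False)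
    (fun i j hi hj => hi.elim)
    (T := fun i j => (s.succAbove i ∈ U ∧ s.succAbove j ∈ U) ∨ (s.succAbove i ∉ U ∧
      s.succAbove i ≠ s ∧ s.succAbove j ∉ U ∧ s.succAbove j ≠ s)) (p := q)
    (ω := fun _ => 0) (fun _ => le_rfl) hσ (fun _ _ => trivial) ?_ ?_ ?_ ?_
  · intro i j hij _
    simp only [if_false, add_zero]
    have := h.lowK (hne i j hij) (sa_ne s i) (sa_ne s j)
    simp only [hqe] at this
    exact this
  · intro i j hij _
    simp only [if_false, add_zero]
    exact key i j hij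
  · intro i j hij _
    simp only [if_false, add_zero]
    exact key i j hij
  · have := lft_tel (n := 10) (by norm_num) (ω := fun i j => wd (z (s.succAbove i)) (z (s.succAbove j)))
      (fun i j => wd_comm _ _) hord r hv
    have e2 := lft_add_mul (n := 10) (by norm_num) ψ (v 0) 1
    rw [mul_one] at e2
    rw [he, e2] at this
    push_cast at this
    linarith

theorem jany_pole3 (h : E3 z s U p) (hs : z s = -1) (hF : Fe z φ) (h0 : ∀ k, 0 ≤ φ k ∧ φ k < 2 * π)
    (hm : Monotone φ) : JB (pinN z φ) := by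
  classical
  have hpi := Real.pi_pos
  have hlo : ∀ k, k ≠ s → -(1 / 2) ≤ z k := by
    intro k hks
    have h1 := hF.2 s k hks.symm
    unfold gg at h1
    rw [hs] at h1
    norm_num at h1
    linarith
  have hG : GPath (fun _ _ : Fin 10 => True) (zr s U z) := by
    refine ⟨fun _ _ _ => trivial, fun k => (zq_cont s U z _).continuousOn, ?_, ?_, ?_, ?_⟩
    · intro t ht k
      have := zr_rng3 h hlo ht k
      exact ⟨by linarith [this.1], this.2⟩
    · intro i j _ hK
      exact absurd trivial hK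
    · intro t ht i j _ _
      have a := zq_rangeK3 h ht (sa_ne s i)
      have c := zq_rangeK3 h ht (sa_ne s j)
      exact vert_kk a.1 a.2 c.1 c.2
    · intro t ht i j _
      have a := zq_rangeK3 h ht (sa_ne s i)
      have c := zq_rangeK3 h ht (sa_ne s j)
      exact RR_ge_neg a.1 a.2 c.1 c.2
  have hr0 : ∀ k : Fin 10, -1 < z (s.succAbove k) ∧ z (s.succAbove k) ≤ 1 / 2 := by
    intro k
    exact ⟨by linarith [hlo _ (sa_ne s k)], (hF.1 _).2⟩
  have hord : ∀ i j : Fin 10, i < j → wd (z (s.succAbove i)) (z (s.succAbove j)) ≤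
      φ (s.succAbove j) - φ (s.succAbove i) ∧ φ (s.succAbove j) - φ (s.succAbove i) ≤
      2 * π - wd (z (s.succAbove i)) (z (s.succAbove j)) := by
    intro i j hij
    have hij' : s.succAbove i < s.succAbove j := Fin.strictMono_succAbove s hij
    have := hm hij'.le
    exact wd_le_of_gg (hr0 i) (hr0 j) (hF.2 _ _ hij'.ne) (by linarith)
      (by linarith [(h0 (s.succAbove i)).1, (h0 (s.succAbove j)).2])
  have e0 := zr_zero3 h
  have hcon : Con (fun _ _ : Fin 10 => True) (zr s U z 0) (fun k => φ (s.succAbove k)) := by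
    rw [e0]
    refine con_of_srt hr0 ?_ ?_ (fun k => ⟨(h0 _).1, (h0 _).2.le⟩)
    · intro i j hij
      exact hF.2 _ _ (fun he => hij (Fin.succAbove_right_injective he))
    · intro i j hij
      exact hm ((Fin.strictMono_succAbove s).monotone hij)
  obtain ⟨φ1, -, hg, hJ⟩ := stage_lift (by norm_num) (by norm_num) (prm_pinS s) hG
    (fun t ht k => zr_rng3 h hlo ht k) (fun t ht v r _ hv he _ => walks_R3 h hord ht hv he) hcon
  have e1 : pinS s (zr s U z 0) (fun k => φ (s.succAbove k)) = pinN z φ := by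
    unfold pinS
    funext i
    rcases Fin.eq_zero_or_eq_succ i with rfl | ⟨k, rfl⟩
    · rfl
    · rw [pinN_succ, pinN_succ]
      by_cases hk : k = s
      · subst hk
        rw [Fin.insertNth_apply_same, hs, pt_neg_one, pt_neg_one]
      · obtain ⟨l, rfl⟩ := Fin.exists_succAbove_eq hk
        rw [Fin.insertNth_apply_succAbove, Fin.insertNth_apply_succAbove, e0]
  rw [e1] at hJ
  refine JB.of_joined hJ ?_
  have m1 : (1 : ℝ) ∈ Icc (0 : ℝ) 1 := ⟨zero_le_one, le_rfl⟩
  have r1 := fun k => zr_rng3 h hlo m1 k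
  refine end_region (z := Fin.insertNth (α := fun _ => ℝ) s (-1) (zr s U z 1))
    (φ := Fin.insertNth (α := fun _ => ℝ) s 0 φ1) ⟨?_, ?_⟩ ⟨s, U, h.er ?_ ?_⟩
  · intro k
    by_cases hk : k = s
    · subst hk
      rw [Fin.insertNth_apply_same]; norm_num
    · obtain ⟨l, rfl⟩ := Fin.exists_succAbove_eq hk
      rw [Fin.insertNth_apply_succAbove]
      exact ⟨by linarith [(r1 l).1], (r1 l).2⟩
  · have hs' : ∀ w α β, -(1 / 2) ≤ w → gg (-1) w α β ≤ 1 / 2 := by
      intro w α β hw
      unfold gg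
      norm_num
      linarith
    intro i j hij
    by_cases hi : i = s
    · subst hi
      obtain ⟨l, rfl⟩ := Fin.exists_succAbove_eq (Ne.symm hij)
      simp only [Fin.insertNth_apply_same, Fin.insertNth_apply_succAbove]
      exact hs' _ _ _ (r1 l).1
    · obtain ⟨l, rfl⟩ := Fin.exists_succAbove_eq hi
      by_cases hj : j = s
      · subst hj
        simp only [Fin.insertNth_apply_same, Fin.insertNth_apply_succAbove]
        rw [gg_comm]
        exact hs' _ _ _ (r1 l).1
      · obtain ⟨m, rfl⟩ := Fin.exists_succAbove_eq hj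
        simp only [Fin.insertNth_apply_succAbove]
        exact hg l m (fun he => hij (by rw [he]))
  · rw [Fin.insertNth_apply_same]; norm_num
  · intro k hk
    obtain ⟨l, rfl⟩ := Fin.exists_succAbove_eq hk
    rw [Fin.insertNth_apply_succAbove]
    rfl

/-! ## the result -/

lemma E3.perm (h : E3 z s U p) (τ : Equiv.Perm (Fin 11)) :
    E3 (z ∘ τ) (τ.symm s) (U.map τ.symm.toEmbedding) (τ.symm p) := by
  refine ⟨?_, ?_, ?_, ?_, ?_, ?_, ?_⟩
  · simp [h.sU]
  · rw [Finset.card_map, h.card]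
  · simp [h.pU]
  · simpa using h.sz
  · simpa using h.pz
  · intro k hk hkp
    simp only [Finset.mem_map, Equiv.coe_toEmbedding] at hk
    obtain ⟨a, ha, rfl⟩ := hk
    have hap : a ≠ p := fun he => hkp (by rw [he])
    simpa using h.up a ha hap
  · intro k hk hks
    have h1 : τ k ∉ U := by
      intro hin
      apply hk
      simp only [Finset.mem_map, Equiv.coe_toEmbedding]
      exact ⟨τ k, hin, by simp⟩
    have h2 : τ k ≠ s := by
      rintro rfl
      exact hks (by simp)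
    exact h.lo _ h1 h2

/-- configurations of the region -/
theorem jone_of_E3 (hF : Fe z φ) (h : ∃ s U p, E3 z s U p) : JB (pinN z φ) := by
  refine sort11 (P := fun z => ∃ s U p, E3 z s U p) ?_ ?_ hF h
  · rintro z τ ⟨s, U, p, h⟩
    exact ⟨_, _, _, h.perm τ⟩
  · rintro z φ hF ⟨s, U, p, h⟩ h0 hm
    rcases eq_or_lt_of_le (hF.1 s).1 with hs | hs
    · exact jany_pole3 h hs.symm hF h0 hm
    · exact jany_off3 h hs hF h0 hm

/-- **Any cyclic pattern, one upper point a little lower** -/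
theorem jone (hsU : s ∉ U) (hc : U.card = 5) (hpU : p ∈ U) (hs0 : z s ≤ -0.99984)
    (hp : 0.4726 ≤ z p) (hU : ∀ k ∈ U, k ≠ p → 0.4921 ≤ z k)
    (hL : ∀ k, k ∉ U → k ≠ s → z k ≤ -0.48825) (hF : Fe z φ) : JB (pinN z φ) := by
  refine jone_of_E3 hF ⟨s, U, p, hsU, hc, hpU, hs0, ⟨hp, (hF.1 p).2⟩,
    fun k hk hkp => ⟨hU k hk hkp, (hF.1 k).2⟩, fun k hk hks => ⟨?_, hL k hk hks⟩⟩
  have h1 := hF.2 s k (Ne.symm hks)
  by_contra hcon
  push Not at hcon
  norm_num at hcon hs0
  have hs1 := (hF.1 s).1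
  have hk1 := (hF.1 k).1
  have c1 : √(1 - z s ^ 2) ≤ 0.01789 := by
    rw [Real.sqrt_le_left (by norm_num)]; norm_num; nlinarith
  have c2 : √(1 - z k ^ 2) ≤ 0.857 := by
    rw [Real.sqrt_le_left (by norm_num)]; norm_num; nlinarith
  have c3 : √(1 - z s ^ 2) * √(1 - z k ^ 2) ≤ 0.01789 * 0.857 :=
    mul_le_mul c1 c2 (Real.sqrt_nonneg _) (by norm_num)
  have c4 := mul_nonneg (Real.sqrt_nonneg (1 - z s ^ 2)) (Real.sqrt_nonneg (1 - z k ^ 2))
  have c5 : -(√(1 - z s ^ 2) * √(1 - z k ^ 2)) ≤ √(1 - z s ^ 2) * √(1 - z k ^ 2) * cos (φ s - φ k) := by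
    nlinarith [Real.neg_one_le_cos (φ s - φ k)]
  unfold gg at h1
  norm_num at c3
  nlinarith

/-- the leaf: every state near a closed box of the region is joined to the base point -/
theorem gainP_jone {R : Set (Fin 11 → ℝ)} {Φ : (Fin 11 → ℝ) → ℝ} (hsU : s ∉ U) (hc : U.card = 5)
    (hpU : p ∈ U) (hs0 : z s < -0.99984) (hp : 121 / 256 ≤ z p)
    (hU : ∀ k ∈ U, k ≠ p → 126 / 256 ≤ z k)
    (hL : ∀ k, k ∉ U → k ≠ s → z k ≤ -(125 / 256)) : GainP R Φ z φ := by
  classical
  refine ⟨{y | y.1 s < -0.99984 ∧ 0.4726 < y.1 p ∧ ∀ k : Fin 11, (k ∈ U → k ≠ p → 0.4921 < y.1 k) ∧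
    (k ∉ U → k ≠ s → y.1 k < -0.48825)}, ?_, 1, one_pos, ?_⟩
  · have ho : IsOpen {y : HL | y.1 s < -0.99984 ∧ 0.4726 < y.1 p ∧
        ∀ k : Fin 11, (k ∈ U → k ≠ p → 0.4921 < y.1 k) ∧ (k ∉ U → k ≠ s → y.1 k < -0.48825)} := by
      have e : {y : HL | y.1 s < -0.99984 ∧ 0.4726 < y.1 p ∧
          ∀ k : Fin 11, (k ∈ U → k ≠ p → 0.4921 < y.1 k) ∧ (k ∉ U → k ≠ s → y.1 k < -0.48825)} =
          {y : HL | y.1 s < -0.99984} ∩ ({y : HL | 0.4726 < y.1 p} ∩
          ⋂ k : Fin 11, ({y : HL | k ∈ U → k ≠ p → 0.4921 < y.1 k} ∩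
            {y : HL | k ∉ U → k ≠ s → y.1 k < -0.48825})) := by
        ext y; simp
      rw [e]
      refine (isOpen_lt (by fun_prop) continuous_const).inter
        ((isOpen_lt continuous_const (by fun_prop)).inter
        (isOpen_iInter_of_finite fun k => IsOpen.inter ?_ ?_))
      · by_cases hk : k ∈ U
        · by_cases hkp : k ≠ p
          · simp only [hk, hkp, true_imp_iff, not_false_eq_true, ne_eq]
            exact isOpen_lt continuous_const (by fun_prop)
          · simp only [hkp, false_imp_iff, imp_true_iff]; exact isOpen_univ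
        · simp only [hk, false_imp_iff]; exact isOpen_univ
      · by_cases hk : k ∉ U
        · by_cases hks : k ≠ s
          · simp only [hk, hks, true_imp_iff, not_false_eq_true, ne_eq]
            exact isOpen_lt (by fun_prop) continuous_const
          · simp only [hks, false_imp_iff, imp_true_iff]; exact isOpen_univ
        · simp only [hk, false_imp_iff]; exact isOpen_univ
    refine ho.mem_nhds ⟨hs0, ?_, fun k => ⟨fun hk hkp => ?_, fun hk hks => ?_⟩⟩
    · show 0.4726 < z p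
      norm_num at hp ⊢
      linarith
    · have := hU k hk hkp
      norm_num at this ⊢
      linarith
    · have := hL k hk hks
      norm_num at this ⊢
      linarith
  · rintro y η ⟨h1, h3, h2⟩ hF hs _
    exact Or.inl (jone hsU hc hpU h1.le h3.le (fun k hk hkp => ((h2 k).1 hk hkp).le)
      (fun k hk hks => ((h2 k).2 hk hks).le) hF)

end

end Pool.Agent.Helper91.Kiss
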