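import Pool.Agent.Helper66.Kiss.Stage

set_option autoImplicit false

/-! # Widths of pairs: monotonicity and numerical bounds (alternating end states) -/

namespace Pool.Agent.Helper91.Kiss

open Real Set Filter Topology Pool.Agent.Helper66.Kiss

lemma sqrt_pos1 {z : ℝ} (h1 : -1 < z) (h2 : z < 1) : 0 < √(1 - z ^ 2) := by
  apply Real.sqrt_pos.2; nlinarith

lemma sq_sqrt1 {z : ℝ} (h1 : -1 < z) (h2 : z < 1) : √(1 - z ^ 2) ^ 2 = 1 - z ^ 2 :=
  Real.sq_sqrt (by nlinarith)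

lemma le_of_sq_le_sq1 {a b : ℝ} (hb : 0 ≤ b) (h : a ^ 2 ≤ b ^ 2) : a ≤ b := by
  by_contra hcon
  push Not at hcon
  nlinarith

/-- the cosine of the width increases with the first height if that height is high -/
lemma RR_mono_l {z z' w : ℝ} (h1 : -1 < z) (h2 : z' < 1) (hzz : z ≤ z') (w1 : -1 < w) (w2 : w < 1)
    (h : w ≤ z / 2) : RR z w ≤ RR z' w := by
  have a1 := sqrt_pos1 h1 (by linarith : z < 1)
  have a2 := sqrt_pos1 (by linarith : -1 < z') h2
  have a3 := sqrt_pos1 w1 w2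
  have e1 := sq_sqrt1 h1 (by linarith : z < 1)
  have e2 := sq_sqrt1 (by linarith : -1 < z') h2
  set c := √(1 - z ^ 2)
  set c' := √(1 - z' ^ 2)
  set cw := √(1 - w ^ 2)
  have key : (1 / 2 - z * w) * c' ≤ (1 / 2 - z' * w) * c := by
    have hid : ((1 / 2 - z' * w) * c) ^ 2 - ((1 / 2 - z * w) * c') ^ 2 =
        (z' - z) * ((1 / 2 - z' * w) * (z / 2 - w) + (1 / 2 - z * w) * (z' / 2 - w)) := by
      rw [mul_pow, mul_pow, e1, e2]; ring
    have k1 : 0 ≤ z / 2 - w := by linarith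
    have k2 : 0 ≤ z' / 2 - w := by linarith
    rcases le_or_gt 0 (1 / 2 - z * w) with hA | hA
    · have hA' : 0 ≤ 1 / 2 - z' * w := by
        rcases le_or_gt 0 w with hw | hw
        · have : z' * w ≤ 1 * (1 / 2) := by
            have hw2 : w ≤ 1 / 2 := by linarith
            nlinarith
          linarith
        · nlinarith
      have hn : 0 ≤ ((1 / 2 - z' * w) * c) ^ 2 - ((1 / 2 - z * w) * c') ^ 2 := by
        rw [hid]
        exact mul_nonneg (by linarith) (add_nonneg (mul_nonneg hA' k1) (mul_nonneg hA k2))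
      exact le_of_sq_le_sq1 (mul_nonneg hA' a1.le) (by linarith)
    · rcases le_or_gt 0 (1 / 2 - z' * w) with hA' | hA'
      · have : (1 / 2 - z * w) * c' ≤ 0 := mul_nonpos_of_nonpos_of_nonneg hA.le a2.le
        have := mul_nonneg hA' a1.le
        linarith
      · have hn : ((1 / 2 - z' * w) * c) ^ 2 - ((1 / 2 - z * w) * c') ^ 2 ≤ 0 := by
          rw [hid]
          exact mul_nonpos_of_nonneg_of_nonpos (by linarith) (add_nonpos
            (mul_nonpos_of_nonpos_of_nonneg hA'.le k1) (mul_nonpos_of_nonpos_of_nonneg hA.le k2))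
        have p1 : 0 ≤ -((1 / 2 - z' * w) * c) := by
          have := mul_nonpos_of_nonpos_of_nonneg hA'.le a1.le; linarith
        have p2 : 0 ≤ -((1 / 2 - z * w) * c') := by
          have := mul_nonpos_of_nonpos_of_nonneg hA.le a2.le; linarith
        nlinarith
  unfold RR
  rw [div_le_div_iff₀ (mul_pos a1 a3) (mul_pos a2 a3)]
  calc (1 / 2 - z * w) * (c' * cw) = (1 / 2 - z * w) * c' * cw := by ring
    _ ≤ (1 / 2 - z' * w) * c * cw := mul_le_mul_of_nonneg_right key a3.le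
    _ = _ := by ring


/-- the cosine of the width decreases with the first height if that height is low -/
lemma RR_anti_l {z z' w : ℝ} (h1 : -1 < z) (h2 : z' < 1) (hzz : z ≤ z') (w1 : -1 < w) (w2 : w < 1)
    (h : z' / 2 ≤ w) (hA : 0 ≤ 1 / 2 - z * w) : RR z' w ≤ RR z w := by
  have a1 := sqrt_pos1 h1 (by linarith : z < 1)
  have a2 := sqrt_pos1 (by linarith : -1 < z') h2
  have a3 := sqrt_pos1 w1 w2
  have e1 := sq_sqrt1 h1 (by linarith : z < 1)
  have e2 := sq_sqrt1 (by linarith : -1 < z') h2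
  set c := √(1 - z ^ 2)
  set c' := √(1 - z' ^ 2)
  set cw := √(1 - w ^ 2)
  have key : (1 / 2 - z' * w) * c ≤ (1 / 2 - z * w) * c' := by
    have hid : ((1 / 2 - z' * w) * c) ^ 2 - ((1 / 2 - z * w) * c') ^ 2 =
        (z' - z) * ((1 / 2 - z' * w) * (z / 2 - w) + (1 / 2 - z * w) * (z' / 2 - w)) := by
      rw [mul_pow, mul_pow, e1, e2]; ring
    have k1 : z / 2 - w ≤ 0 := by linarith
    have k2 : z' / 2 - w ≤ 0 := by linarith
    rcases le_or_gt 0 (1 / 2 - z' * w) with hA' | hA'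
    · have hn : ((1 / 2 - z' * w) * c) ^ 2 - ((1 / 2 - z * w) * c') ^ 2 ≤ 0 := by
        rw [hid]
        exact mul_nonpos_of_nonneg_of_nonpos (by linarith) (add_nonpos
          (mul_nonpos_of_nonneg_of_nonpos hA' k1) (mul_nonpos_of_nonneg_of_nonpos hA k2))
      exact le_of_sq_le_sq1 (mul_nonneg hA a2.le) (by linarith)
    · have : (1 / 2 - z' * w) * c ≤ 0 := mul_nonpos_of_nonpos_of_nonneg hA'.le a1.le
      have := mul_nonneg hA a2.le
      linarith
  unfold RR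
  rw [div_le_div_iff₀ (mul_pos a2 a3) (mul_pos a1 a3)]
  calc (1 / 2 - z' * w) * (c * cw) = (1 / 2 - z' * w) * c * cw := by ring
    _ ≤ (1 / 2 - z * w) * c' * cw := mul_le_mul_of_nonneg_right key a3.le
    _ = _ := by ring

lemma wd_le_of_RR {z w θ : ℝ} (h0 : 0 ≤ θ) (h1 : θ ≤ π) (h : cos θ ≤ RR z w) : wd z w ≤ θ := by
  have := Real.arccos_le_arccos h
  rwa [Real.arccos_cos h0 h1] at this

lemma le_wd_of_RR {z w θ : ℝ} (h0 : 0 ≤ θ) (h1 : θ ≤ π) (h : RR z w ≤ cos θ) : θ ≤ wd z w := by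
  have := Real.arccos_le_arccos h
  rwa [Real.arccos_cos h0 h1] at this

lemma wd_anti {z w z' w' : ℝ} (h : RR z w ≤ RR z' w') : wd z' w' ≤ wd z w :=
  Real.arccos_le_arccos h

/-! ## numerics -/

lemma cos_g : cos (0.505 : ℝ) ≤ 0.876 := by
  have h := Real.cos_bound (x := (0.505 : ℝ)) (by norm_num [abs_of_pos])
  have h2 := (abs_le.1 h).2
  rw [abs_of_pos (by norm_num : (0 : ℝ) < 0.505)] at h2
  norm_num at h2 ⊢
  linarith

lemma cos_d : (0.378 : ℝ) ≤ cos 1.183 := by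
  have hpi := Real.pi_gt_d4
  have hpi' := Real.pi_lt_d4
  norm_num at hpi hpi'
  have e2 : cos (1.183 : ℝ) = sin (π / 2 - 1.183) := by rw [Real.sin_pi_div_two_sub]
  have e3 : sin (0.38775 : ℝ) ≤ sin (π / 2 - 1.183) :=
    Real.sin_le_sin_of_le_of_le_pi_div_two (by norm_num; linarith) (by norm_num) (by norm_num; linarith)
  have e4 := Real.sin_gt_sub_cube (x := 0.38775) (by norm_num)
  norm_num at e2 e3 e4 ⊢
  linarith

lemma cos_A : cos (1.232 : ℝ) ≤ 1 / 3 := by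
  have hpi := Real.pi_gt_d4
  have hpi' := Real.pi_lt_d4
  norm_num at hpi hpi'
  have e2 : cos (1.232 : ℝ) = sin (π / 2 - 1.232) := by rw [Real.sin_pi_div_two_sub]
  have e3 : sin (π / 2 - 1.232) ≤ sin (0.3388 : ℝ) :=
    Real.sin_le_sin_of_le_of_le_pi_div_two (by norm_num; linarith) (by norm_num; linarith)
      (by norm_num; linarith)
  have h := Real.sin_bound (x := (0.3388 : ℝ)) (by norm_num [abs_of_pos])
  have h2 := (abs_le.1 h).2
  rw [abs_of_pos (by norm_num : (0 : ℝ) < 0.3388)] at h2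
  norm_num at e2 e3 h2 ⊢
  linarith

/-! ## the pairs -/

lemma RR_half : RR (1 / 2) (1 / 2) = 1 / 3 := by
  unfold RR
  rw [Real.mul_self_sqrt (by norm_num)]
  norm_num

/-- two upper points -/
lemma RR_uu {u u' : ℝ} (h1 : 0.4 ≤ u) (h2 : u ≤ 1 / 2) (h3 : 0.4 ≤ u') (h4 : u' ≤ 1 / 2) :
    1 / 3 ≤ RR u u' := by
  norm_num at h1 h3
  have e1 := RR_anti_l (z := u) (z' := 1 / 2) (w := u') (by linarith) (by norm_num) h2 (by linarith)
    (by linarith) (by linarith) (by nlinarith)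
  have e2 := RR_anti_l (z := u') (z' := 1 / 2) (w := 1 / 2) (by linarith) (by norm_num) h4 (by norm_num)
    (by norm_num) (by norm_num) (by nlinarith)
  rw [RR_half] at e2
  rw [RR_comm (1 / 2) u'] at e1
  linarith

lemma wd_uu {u u' : ℝ} (h1 : 0.4 ≤ u) (h2 : u ≤ 1 / 2) (h3 : 0.4 ≤ u') (h4 : u' ≤ 1 / 2) :
    wd u u' ≤ 1.232 :=
  wd_le_of_RR (by norm_num) (by have := Real.pi_gt_three; norm_num; linarith)
    (cos_A.trans (RR_uu h1 h2 h3 h4))

/-- two lower points, upper bound -/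
lemma wd_ll {l l' : ℝ} (h1 : -0.52 ≤ l) (h2 : l ≤ -0.44) (h3 : -0.52 ≤ l') (h4 : l' ≤ -0.44) :
    wd l l' ≤ CC := by
  have hC := CC_bd
  have hpi := Real.pi_gt_three
  norm_num at h1 h2 h3 h4 hC
  refine wd_le_of_RR (by linarith) (by linarith) (cos_CC_bd.2.trans ?_)
  have a1 := sqrt_pos1 (z := l) (by linarith) (by linarith)
  have a2 := sqrt_pos1 (z := l') (by linarith) (by linarith)
  have e1 := sq_sqrt1 (z := l) (by linarith) (by linarith)
  have e2 := sq_sqrt1 (z := l') (by linarith) (by linarith)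
  unfold RR
  rw [le_div_iff₀ (mul_pos a1 a2)]
  have k1 : √(1 - l ^ 2) * √(1 - l' ^ 2) ≤ (1 - l ^ 2 + (1 - l' ^ 2)) / 2 := by
    nlinarith [sq_nonneg (√(1 - l ^ 2) - √(1 - l' ^ 2))]
  have k2 : l ^ 2 ≤ (0.52 : ℝ) ^ 2 := by nlinarith
  have k3 : l' ^ 2 ≤ (0.52 : ℝ) ^ 2 := by nlinarith
  norm_num at k2 k3 ⊢
  nlinarith [sq_nonneg (l - l')]

/-- two lower points, lower bound -/
lemma wd_ll_ge {l l' : ℝ} (h1 : -0.52 ≤ l) (h2 : l ≤ -0.4432) (h3 : -0.52 ≤ l') (h4 : l' ≤ -0.4432) :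
    1.183 ≤ wd l l' := by
  norm_num at h1 h2 h3 h4
  refine le_wd_of_RR (by norm_num) (by have := Real.pi_gt_three; norm_num; linarith) (le_trans ?_ cos_d)
  have e1 := RR_mono_l (z := l) (z' := -0.4432) (w := l') (by linarith) (by norm_num)
    (by norm_num; linarith) (by linarith) (by linarith) (by linarith)
  have e2 := RR_mono_l (z := l') (z' := -0.4432) (w := -0.4432) (by linarith) (by norm_num)
    (by norm_num; linarith) (by norm_num) (by norm_num) (by norm_num; linarith)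
  have e3 : RR (-0.4432) (-0.4432) ≤ 0.378 := by
    unfold RR
    rw [Real.mul_self_sqrt (by norm_num)]
    norm_num
  rw [RR_comm (-0.4432) l'] at e1
  linarith

/-- an upper and a lower point -/
lemma RR_ul {u l u0 l0 : ℝ} (h0 : 0.876 ≤ RR u0 l0) (hu0 : 0 ≤ u0) (h1 : u0 ≤ u) (h2 : u ≤ 1 / 2)
    (h3 : -1 < l) (h4 : l ≤ l0) (hl0 : l0 ≤ 0) : 0.876 ≤ RR u l := by
  have e1 := RR_mono_l (z := u0) (z' := u) (w := l) (by linarith) (by linarith) h1 h3 (by linarith)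
    (by linarith)
  have e2 := RR_anti_l (z := l) (z' := l0) (w := u0) h3 (by linarith) h4 (by linarith) (by linarith)
    (by linarith) (by nlinarith)
  rw [RR_comm l0, RR_comm l] at e2
  linarith

lemma wd_ul {u l u0 l0 : ℝ} (h0 : 0.876 ≤ RR u0 l0) (hu0 : 0 ≤ u0) (h1 : u0 ≤ u) (h2 : u ≤ 1 / 2)
    (h3 : -1 < l) (h4 : l ≤ l0) (hl0 : l0 ≤ 0) : wd u l ≤ 0.505 :=
  wd_le_of_RR (by norm_num) (by have := Real.pi_gt_three; norm_num; linarith)
    (cos_g.trans (RR_ul h0 hu0 h1 h2 h3 h4 hl0))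

/-- the lowest point and an upper point -/
lemma RR_su {s u : ℝ} (h1 : -1 < s) (h2 : s ≤ -0.9) (h3 : 0 ≤ u) (h4 : u ≤ 1 / 2) : 1 ≤ RR s u := by
  norm_num at h2
  rw [RR_one_le ⟨h1, by linarith⟩ ⟨by linarith, h4⟩]
  have c1 : √(1 - s ^ 2) ≤ 0.5 := by
    rw [Real.sqrt_le_left (by norm_num)]; nlinarith
  have c2 : √(1 - u ^ 2) ≤ 1 := by
    rw [Real.sqrt_le_left (by norm_num)]; nlinarith [sq_nonneg u]
  have c3 : √(1 - s ^ 2) * √(1 - u ^ 2) ≤ 0.5 * 1 :=
    mul_le_mul c1 c2 (Real.sqrt_nonneg _) (by norm_num)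
  have c4 : s * u ≤ 0 := mul_nonpos_of_nonpos_of_nonneg (by linarith) h3
  norm_num at c3
  linarith

/-- the lowest point and a lower point at the raised height -/
lemma free_sl {s l x : ℝ} (h1 : -1 < s) (h2 : s ≤ -1 + 0.0002 * x ^ 2) (hx : 0 ≤ x ∧ x ≤ 1)
    (h3 : -(1 / 2) + 0.024 * x ≤ l) (h4 : l ≤ -0.44) :
    √(1 - s ^ 2) * √(1 - l ^ 2) + s * l ≤ 1 / 2 := by
  norm_num at h2 h3 h4
  have x2 : x ^ 2 ≤ 1 := by nlinarith [hx.1, hx.2]
  have c1 : √(1 - s ^ 2) ≤ 0.02 * x := by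
    rw [Real.sqrt_le_left (by nlinarith [hx.1])]
    nlinarith
  have c2 : √(1 - l ^ 2) ≤ 0.9 := by
    rw [Real.sqrt_le_left (by norm_num)]; nlinarith
  have c3 : √(1 - s ^ 2) * √(1 - l ^ 2) ≤ 0.02 * x * 0.9 :=
    mul_le_mul c1 c2 (Real.sqrt_nonneg _) (by nlinarith [hx.1])
  have c4 : s * l ≤ -l := by nlinarith
  norm_num at c3
  linarith [hx.1]

end Pool.Agent.Helper91.Kiss
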