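import Pool.Agent.Helper66.Kiss.Lift

set_option autoImplicit false

/-! # Closed walks through alternating upper and lower points -/

namespace Pool.Agent.Helper91.Kiss

open Real Set Filter Topology Pool.Agent.Helper66.Kiss

/-- potentials bound the length of a walk -/
lemma total_le_pot {W : ℕ → ℕ → ℝ} {v : ℕ → ℕ} {p : ℕ → ℝ} : ∀ {r : ℕ},
    (∀ k < r, W (v k) (v (k + 1)) ≤ p (v (k + 1)) - p (v k)) → total W v r ≤ p (v r) - p (v 0) := by
  intro r
  induction r with
  | zero => intro _; simp [total]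
  | succ r ih =>
    intro h
    rw [total_succ]
    have h1 := ih (fun k hk => h k (by omega))
    have h2 := h r (by omega)
    linarith

/-- type of a node: `b = 1`: lower points have odd index, `b = 0`: even index -/
def isL (b n : ℕ) : Prop := n % 11 ≠ 0 ∧ (n % 11 + b) % 2 = 0

/-- upper points -/
def isU (b n : ℕ) : Prop := n % 11 ≠ 0 ∧ (n % 11 + b) % 2 = 1

instance (b n : ℕ) : Decidable (isL b n) := by unfold isL; infer_instance
instance (b n : ℕ) : Decidable (isU b n) := by unfold isU; infer_instance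

lemma isU_or (b n : ℕ) : n % 11 = 0 ∨ isL b n ∨ isU b n := by unfold isL isU; omega

/-- position among the ten points without the lowest one -/
def cpos (n : ℕ) : ℕ := 10 * (n / 11) + (n % 11 - 1)

lemma cpos_add (n : ℕ) : cpos (n + 11) = cpos n + 10 := by unfold cpos; omega

lemma cpos_lt {m n : ℕ} (h1 : m < n) (h2 : m % 11 ≠ 0) (h3 : n % 11 ≠ 0) : cpos m < cpos n := by
  unfold cpos; omega

lemma cpos_same {b m n : ℕ} (h1 : m < n) (h2 : (isL b m ∧ isL b n) ∨ (isU b m ∧ isU b n)) :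
    cpos m + 2 ≤ cpos n := by
  unfold isL isU at h2
  unfold cpos
  omega

section

variable {b : ℕ} {x : Fin 11 → ℝ}

/-- the width of the pair of the nodes `m`, `n` -/
noncomputable def WX (x : Fin 11 → ℝ) (m n : ℕ) : ℝ :=
  wd (x (clN 11 (by norm_num) m)) (x (clN 11 (by norm_num) n))

/-- **walks without the lowest point** -/
theorem walk_ten (hul : ∀ m n, m < n → n < m + 11 → ((isU b m ∧ isL b n) ∨ (isL b m ∧ isU b n)) →
      WX x m n ≤ π / 5)
    (hsame : ∀ m n, m < n → n < m + 11 → ((isL b m ∧ isL b n) ∨ (isU b m ∧ isU b n)) →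
      WX x m n ≤ 2 * π / 5)
    {v : ℕ → ℕ} {r : ℕ} (hv : IsWalk 11 v r) (he : v r = v 0 + 11) (h0 : ∀ k ≤ r, v k % 11 ≠ 0) :
    total (WX x) v r ≤ 2 * π := by
  have hpi := Real.pi_pos
  have h := total_le_pot (W := WX x) (v := v) (p := fun n => π / 5 * (cpos n : ℝ)) (r := r) (by
    intro k hk
    have a1 := h0 k hk.le
    have a2 := h0 (k + 1) (by omega)
    have a3 := hv k hk
    have c1 := cpos_lt a3.1 a1 a2
    rcases isU_or b (v k) with h | h | h
    · exact absurd h a1
    · rcases isU_or b (v (k + 1)) with h' | h' | h'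
      · exact absurd h' a2
      · have c2 := cpos_same a3.1 (Or.inl ⟨h, h'⟩)
        have := hsame _ _ a3.1 a3.2 (Or.inl ⟨h, h'⟩)
        have c3 : (cpos (v k) : ℝ) + 2 ≤ cpos (v (k + 1)) := by exact_mod_cast c2
        nlinarith
      · have := hul _ _ a3.1 a3.2 (Or.inr ⟨h, h'⟩)
        have c3 : (cpos (v k) : ℝ) + 1 ≤ cpos (v (k + 1)) := by exact_mod_cast c1
        nlinarith
    · rcases isU_or b (v (k + 1)) with h' | h' | h'
      · exact absurd h' a2
      · have := hul _ _ a3.1 a3.2 (Or.inl ⟨h, h'⟩)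
        have c3 : (cpos (v k) : ℝ) + 1 ≤ cpos (v (k + 1)) := by exact_mod_cast c1
        nlinarith
      · have c2 := cpos_same a3.1 (Or.inr ⟨h, h'⟩)
        have := hsame _ _ a3.1 a3.2 (Or.inr ⟨h, h'⟩)
        have c3 : (cpos (v k) : ℝ) + 2 ≤ cpos (v (k + 1)) := by exact_mod_cast c2
        nlinarith)
  rw [he, cpos_add] at h
  push_cast at h
  linarith

/-- a walk through the lowest point has no edge over the lowest point -/
lemma no_cross {v : ℕ → ℕ} {r : ℕ} (hv : IsWalk 11 v r) (he : v r = v 0 + 11)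
    (hS : ∃ k ≤ r, v k % 11 = 0) {k : ℕ} (hk : k < r) :
    v (k + 1) ≤ 11 * (v k / 11) + 11 := by
  by_contra hcon
  push Not at hcon
  obtain ⟨j, hj, hj0⟩ := hS
  have hmono : ∀ a b, a ≤ b → b ≤ r → v a ≤ v b := by
    intro a b hab hb
    rcases eq_or_lt_of_le hab with h | h
    · rw [h]
    · exact (hv.strictMono h hb).le
  have h1 := hmono 0 k (by omega) hk.le
  have h2 := hmono (k + 1) r (by omega) le_rfl
  have h3 := hmono 0 j (by omega) hj
  have h4 := hmono j r hj le_rfl
  rcases Nat.lt_or_ge k j with h | h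
  · have h5 := hmono (k + 1) j (by omega) hj
    omega
  · have h5 := hmono j k h hk.le
    have h6 := hv k hk
    omega

/-- the potentials of a walk through the lowest point -/
noncomputable def Psi11 (b : ℕ) (θ : ℕ → ℝ) (n : ℕ) : ℝ :=
  if isU b n then (if n % 11 = 1 then θ (n + 1) - 10 else
    θ (n - 1) + 0.505 + 0.049 * ((n % 11 - 2) / 2 : ℕ)) else θ n

lemma Psi_add {b : ℕ} {θ : ℕ → ℝ} (h : ∀ n, θ (n + 11) = θ n + 2 * π) (n : ℕ) :
    Psi11 b θ (n + 11) = Psi11 b θ n + 2 * π := by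
  have e : isU b (n + 11) ↔ isU b n := by unfold isU; omega
  have e2 : (n + 11) % 11 = n % 11 := by omega
  unfold Psi11
  by_cases h1 : isU b n
  · rw [if_pos (e.2 h1), if_pos h1, e2]
    by_cases h2 : n % 11 = 1
    · rw [if_pos h2, if_pos h2, show n + 11 + 1 = n + 1 + 11 by ring, h]; ring
    · rw [if_neg h2, if_neg h2]
      have h3 : n ≠ 0 := by
        rintro rfl; exact h1.1 rfl
      rw [show n + 11 - 1 = n - 1 + 11 by omega, h]; ring
  · rw [if_neg (fun h2 => h1 (e.1 h2)), if_neg h1, h]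

/-- the edges of a walk through the lowest point -/
lemma Psi_edge {θ : ℕ → ℝ} (hmono : ∀ m n, m ≤ n → θ m ≤ θ n)
    (hc : ∀ m n, m < n → n < m + 11 → ¬ isU b m → ¬ isU b n → WX x m n ≤ θ n - θ m)
    (hd : ∀ m n, m < n → n < m + 11 → isL b m → isL b n → 1.183 ≤ WX x m n)
    (hul : ∀ m n, m < n → n < m + 11 → ((isU b m ∧ isL b n) ∨ (isL b m ∧ isU b n)) →
      WX x m n ≤ 0.505)
    (huu : ∀ m n, m < n → n < m + 11 → isU b m → isU b n → WX x m n ≤ 1.232)
    {m n : ℕ} (h1 : m < n) (h2 : n < m + 11) (h3 : n ≤ 11 * (m / 11) + 11)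
    (h4 : ¬ (m % 11 = 0 ∧ isU b n)) (h5 : ¬ (n % 11 = 0 ∧ isU b m)) :
    WX x m n ≤ Psi11 b θ n - Psi11 b θ m := by
  have hLU : ∀ n, isL b n → ¬ isU b n := by
    intro n; unfold isL isU; omega
  have hq : n % 11 = 0 ∨ n / 11 = m / 11 := by omega
  unfold Psi11
  by_cases hm : isU b m <;> by_cases hn : isU b n
  · -- two upper points
    rw [if_pos hn, if_pos hm]
    have hw := huu m n h1 h2 hm hn
    have hq' : n / 11 = m / 11 := hq.resolve_left hn.1
    have hm0 := hm.1
    have hn1 : ¬ n % 11 = 1 := by omega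
    rw [if_neg hn1]
    by_cases hm1 : m % 11 = 1
    · rw [if_pos hm1]
      have := hmono (m + 1) (n - 1) (by unfold isU at hm hn; omega)
      have c0 : (0 : ℝ) ≤ ((n % 11 - 2) / 2 : ℕ) := Nat.cast_nonneg _
      norm_num at hw ⊢
      linarith
    · rw [if_neg hm1]
      have hL1 : isL b (m - 1) := by unfold isU at hm; unfold isL; omega
      have hL2 : isL b (n - 1) := by unfold isU at hn hm; unfold isL; omega
      have c1 := hc (m - 1) (n - 1) (by omega) (by omega) (hLU _ hL1) (hLU _ hL2)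
      have c2 := hd (m - 1) (n - 1) (by omega) (by omega) hL1 hL2
      have c3 : ((m % 11 - 2) / 2 : ℕ) + 1 ≤ ((n % 11 - 2) / 2 : ℕ) := by
        unfold isU at hm hn; omega
      have c4 : (((m % 11 - 2) / 2 : ℕ) : ℝ) + 1 ≤ (((n % 11 - 2) / 2 : ℕ) : ℝ) := by
        exact_mod_cast c3
      norm_num at hw c1 c2 ⊢
      linarith
  · -- upper, then not upper
    rw [if_neg hn, if_pos hm]
    have hn0 : n % 11 ≠ 0 := fun h => h5 ⟨h, hm⟩
    have hL : isL b n := by
      rcases isU_or b n with h | h | h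
      · exact absurd h hn0
      · exact h
      · exact absurd h hn
    have hw := hul m n h1 h2 (Or.inl ⟨hm, hL⟩)
    have hq' : n / 11 = m / 11 := hq.resolve_left hn0
    have hm0 := hm.1
    by_cases hm1 : m % 11 = 1
    · rw [if_pos hm1]
      have := hmono (m + 1) n h1
      norm_num at hw ⊢
      linarith
    · rw [if_neg hm1]
      have hL1 : isL b (m - 1) := by unfold isU at hm; unfold isL; omega
      have c1 := hc (m - 1) n (by omega) (by omega) (hLU _ hL1) hn
      have c2 := hd (m - 1) n (by omega) (by omega) hL1 hL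
      have c3 : ((m % 11 - 2) / 2 : ℕ) ≤ 3 := by omega
      have c4 : (((m % 11 - 2) / 2 : ℕ) : ℝ) ≤ 3 := by exact_mod_cast c3
      norm_num at hw c1 c2 ⊢
      linarith
  · -- not upper, then upper
    rw [if_pos hn, if_neg hm]
    have hm0 : m % 11 ≠ 0 := fun h => h4 ⟨h, hn⟩
    have hL : isL b m := by
      rcases isU_or b m with h | h | h
      · exact absurd h hm0
      · exact h
      · exact absurd h hm
    have hw := hul m n h1 h2 (Or.inr ⟨hL, hn⟩)
    have hn1 : ¬ n % 11 = 1 := by unfold isL at hL; unfold isU at hn; omega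
    rw [if_neg hn1]
    have := hmono m (n - 1) (by omega)
    have c0 : (0 : ℝ) ≤ ((n % 11 - 2) / 2 : ℕ) := Nat.cast_nonneg _
    norm_num at hw ⊢
    linarith
  · rw [if_neg hn, if_neg hm]
    exact hc m n h1 h2 hm hn

/-- **walks through the lowest point** -/
theorem walk_low {θ : ℕ → ℝ} (hper : ∀ n, θ (n + 11) = θ n + 2 * π) (hmono : ∀ m n, m ≤ n → θ m ≤ θ n)
    (hc : ∀ m n, m < n → n < m + 11 → ¬ isU b m → ¬ isU b n → WX x m n ≤ θ n - θ m)
    (hd : ∀ m n, m < n → n < m + 11 → isL b m → isL b n → 1.183 ≤ WX x m n)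
    (hul : ∀ m n, m < n → n < m + 11 → ((isU b m ∧ isL b n) ∨ (isL b m ∧ isU b n)) →
      WX x m n ≤ 0.505)
    (huu : ∀ m n, m < n → n < m + 11 → isU b m → isU b n → WX x m n ≤ 1.232)
    {v : ℕ → ℕ} {r : ℕ} (hv : IsWalk 11 v r) (he : v r = v 0 + 11) (hS : ∃ k ≤ r, v k % 11 = 0)
    (hSU : ∀ k < r, ¬ (v k % 11 = 0 ∧ isU b (v (k + 1))) ∧ ¬ (v (k + 1) % 11 = 0 ∧ isU b (v k))) :
    total (WX x) v r ≤ 2 * π := by
  have h := total_le_pot (W := WX x) (v := v) (p := Psi11 b θ) (r := r) (by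
    intro k hk
    exact Psi_edge hmono hc hd hul huu (hv k hk).1 (hv k hk).2 (no_cross hv he hS hk)
      (hSU k hk).1 (hSU k hk).2)
  rw [he, Psi_add hper] at h
  linarith

end

end Pool.Agent.Helper91.Kiss
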