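import Pool.Agent.Helper91.Kiss.AltA
import Pool.Agent.Helper91.Kiss.AltB

set_option autoImplicit false

/-! # Alternating end states: height paths -/

namespace Pool.Agent.Helper91.Kiss

open Real Set Filter Topology Pool.Agent.Helper66.Kiss

/-! ## numerics -/

lemma RR_line {l u : ℝ} (h1 : -0.476 ≤ l) (h2 : l ≤ -0.4432) (h3 : u = l + 0.8957) :
    0.876 ≤ RR u l := by
  norm_num at h1 h2 h3
  have a1 := sqrt_pos1 (z := u) (by linarith) (by linarith)
  have a2 := sqrt_pos1 (z := l) (by linarith) (by linarith)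
  have e1 := sq_sqrt1 (z := u) (by linarith) (by linarith)
  have e2 := sq_sqrt1 (z := l) (by linarith) (by linarith)
  unfold RR
  rw [le_div_iff₀ (mul_pos a1 a2)]
  have k1 : √(1 - u ^ 2) * √(1 - l ^ 2) ≤ (1 - u ^ 2 + (1 - l ^ 2)) / 2 := by
    nlinarith [sq_nonneg (√(1 - u ^ 2) - √(1 - l ^ 2))]
  subst h3
  norm_num at k1 ⊢
  nlinarith [mul_nonneg (by linarith : 0 ≤ l + 119 / 250) (by linarith : 0 ≤ -(277 / 625) - l)]

lemma mul_bd {a a' : ℝ} (h1 : -0.52 ≤ a) (h2 : a ≤ 1 / 2) (h3 : -0.52 ≤ a') (h4 : a' ≤ 1 / 2) :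
    -0.28 ≤ a * a' ∧ a * a' ≤ 0.28 := by
  norm_num at h1 h3
  have h : |a * a'| ≤ 0.52 * 0.52 := by
    rw [abs_mul]
    exact mul_le_mul (abs_le.2 ⟨by norm_num; linarith, by norm_num; linarith⟩)
      (abs_le.2 ⟨by norm_num; linarith, by norm_num; linarith⟩) (abs_nonneg _) (by norm_num)
  have := abs_le.1 h
  norm_num at this ⊢
  exact ⟨by linarith [this.1], by linarith [this.2]⟩

lemma sqrt_lb {a : ℝ} (h1 : -0.52 ≤ a) (h2 : a ≤ 1 / 2) : 0.85 ≤ √(1 - a ^ 2) := by
  norm_num at h1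
  apply Real.le_sqrt_of_sq_le
  norm_num
  nlinarith

lemma sqrt_mul_lb {a a' : ℝ} (h1 : -0.52 ≤ a) (h2 : a ≤ 1 / 2) (h3 : -0.52 ≤ a') (h4 : a' ≤ 1 / 2) :
    0.7 ≤ √(1 - a ^ 2) * √(1 - a' ^ 2) := by
  have := mul_le_mul (sqrt_lb h1 h2) (sqrt_lb h3 h4) (by norm_num) (Real.sqrt_nonneg _)
  norm_num at this ⊢
  linarith

lemma RR_ge_neg {a a' : ℝ} (h1 : -0.52 ≤ a) (h2 : a ≤ 1 / 2) (h3 : -0.52 ≤ a') (h4 : a' ≤ 1 / 2) :
    -1 ≤ RR a a' := by
  have e1 := sqrt_mul_lb h1 h2 h3 h4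
  have e2 := (mul_bd h1 h2 h3 h4).2
  norm_num at e1 e2 h1 h3
  rw [RR_ge ⟨by linarith, h2⟩ ⟨by linarith, h4⟩]
  linarith

lemma vert_kk {a a' : ℝ} (h1 : -0.52 ≤ a) (h2 : a ≤ 1 / 2) (h3 : -0.52 ≤ a') (h4 : a' ≤ 1 / 2) :
    -(1 / 3) < √(1 - a ^ 2) * √(1 - a' ^ 2) + a * a' := by
  have e1 := sqrt_mul_lb h1 h2 h3 h4
  have e2 := (mul_bd h1 h2 h3 h4).1
  norm_num at e1 e2
  linarith

/-! ## types of the points -/

lemma node_cases (b : ℕ) (k : Fin 11) : k = 0 ∨ (k ≠ 0 ∧ isL b k.val) ∨ (k ≠ 0 ∧ isU b k.val) := by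
  rcases isU_or b k.val with h | h | h
  · left; apply Fin.ext
    have := k.isLt
    show k.val = 0
    omega
  · exact Or.inr (Or.inl ⟨by rintro rfl; exact h.1 rfl, h⟩)
  · exact Or.inr (Or.inr ⟨by rintro rfl; exact h.1 rfl, h⟩)

lemma not_LU {b n : ℕ} (h : isL b n) : ¬ isU b n := by unfold isL at h; unfold isU; omega

lemma isL_cl (b n : ℕ) : isL b (clN 11 (by norm_num) n).val ↔ isL b n := by
  show isL b (n % 11) ↔ isL b n
  unfold isL; rw [Nat.mod_mod]

lemma isU_cl (b n : ℕ) : isU b (clN 11 (by norm_num) n).val ↔ isU b n := by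
  show isU b (n % 11) ↔ isU b n
  unfold isU; rw [Nat.mod_mod]

lemma cl_zero {n : ℕ} : clN 11 (by norm_num) n = 0 ↔ n % 11 = 0 := by
  rw [Fin.ext_iff]; exact Iff.rfl

/-- alternating heights -/
structure AH (b : ℕ) (l0 : ℝ) (z : Fin 11 → ℝ) : Prop where
  l0b : -0.476 ≤ l0 ∧ l0 ≤ -0.4432
  s0 : -1 < z 0 ∧ z 0 ≤ -0.9998
  up : ∀ k : Fin 11, isU b k.val → l0 + 0.8957 ≤ z k ∧ z k ≤ 1 / 2
  lo : ∀ k : Fin 11, isL b k.val → -0.52 ≤ z k ∧ z k ≤ l0

section

variable {b : ℕ} {l0 : ℝ} {x : Fin 11 → ℝ}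

lemma AH.rangeK (h : AH b l0 x) {k : Fin 11} (hk : k ≠ 0) : -0.52 ≤ x k ∧ x k ≤ 1 / 2 := by
  have h0 := h.l0b
  norm_num at h0
  rcases node_cases b k with h1 | ⟨-, h1⟩ | ⟨-, h1⟩
  · exact absurd h1 hk
  · have := h.lo k h1
    exact ⟨this.1, by linarith [this.2]⟩
  · have := h.up k h1
    norm_num at this ⊢
    exact ⟨by linarith [this.1], by linarith [this.2]⟩

lemma AH.range (h : AH b l0 x) (k : Fin 11) : -1 < x k ∧ x k ≤ 1 / 2 := by
  by_cases hk : k = 0
  · subst hk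
    have := h.s0
    norm_num at this
    exact ⟨this.1, by linarith [this.2]⟩
  · have := h.rangeK hk
    norm_num at this
    exact ⟨by linarith [this.1], by linarith [this.2]⟩

lemma AH.wul (h : AH b l0 x) {m n : ℕ} (hmn : (isU b m ∧ isL b n) ∨ (isL b m ∧ isU b n)) :
    WX x m n ≤ 0.505 := by
  have h0 := h.l0b
  have hR := RR_line h0.1 h0.2 (rfl : l0 + 0.8957 = l0 + 0.8957)
  norm_num at h0
  have key : ∀ k l : Fin 11, isU b k.val → isL b l.val → wd (x k) (x l) ≤ 0.505 := by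
    intro k l hk hl
    have a := h.up k hk
    have c := h.lo l hl
    exact wd_ul hR (by norm_num; linarith) a.1 a.2 (by have := c.1; norm_num at this; linarith)
      c.2 (by linarith)
  rcases hmn with ⟨h1, h2⟩ | ⟨h1, h2⟩
  · exact key _ _ ((isU_cl b m).2 h1) ((isL_cl b n).2 h2)
  · unfold WX
    rw [wd_comm]
    exact key _ _ ((isU_cl b n).2 h2) ((isL_cl b m).2 h1)

lemma AH.wuu (h : AH b l0 x) {m n : ℕ} (hm : isU b m) (hn : isU b n) : WX x m n ≤ 1.232 := by
  have h0 := h.l0b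
  norm_num at h0
  have a := h.up _ ((isU_cl b m).2 hm)
  have c := h.up _ ((isU_cl b n).2 hn)
  exact wd_uu (by norm_num at a ⊢; linarith [a.1]) a.2 (by norm_num at c ⊢; linarith [c.1]) c.2

lemma AH.wll (h : AH b l0 x) {m n : ℕ} (hm : isL b m) (hn : isL b n) :
    1.183 ≤ WX x m n ∧ WX x m n ≤ CC := by
  have h0 := h.l0b
  have a := h.lo _ ((isL_cl b m).2 hm)
  have c := h.lo _ ((isL_cl b n).2 hn)
  norm_num at h0
  exact ⟨wd_ll_ge a.1 (by norm_num; linarith [a.2]) c.1 (by norm_num; linarith [c.2]),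
    wd_ll a.1 (by norm_num; linarith [a.2]) c.1 (by norm_num; linarith [c.2])⟩

/-- walks avoiding the lowest point -/
lemma AH.walk10 (h : AH b l0 x) {v : ℕ → ℕ} {r : ℕ} (hv : IsWalk 11 v r) (he : v r = v 0 + 11)
    (h0 : ∀ k ≤ r, v k % 11 ≠ 0) : total (WX x) v r ≤ 2 * π := by
  have hpi := Real.pi_gt_three
  have hpi4 := Real.pi_gt_d4
  norm_num at hpi4
  refine walk_ten (b := b) (fun m n _ _ hmn => ?_) (fun m n _ _ hmn => ?_) hv he h0
  · have := h.wul hmn
    norm_num at this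
    linarith
  · rcases hmn with ⟨h1, h2⟩ | ⟨h1, h2⟩
    · exact (h.wll h1 h2).2
    · have := h.wuu h1 h2
      norm_num at this
      linarith

/-! ## the first path: the lower points rise -/

/-- kept pairs -/
def KK (i j : Fin 11) : Prop := i ≠ 0 ∧ j ≠ 0

/-- the first path -/
noncomputable def pA (b : ℕ) (z : Fin 11 → ℝ) (t : ℝ) (k : Fin 11) : ℝ :=
  if isL b k.val then (1 - t) * z k + t * max (z k) (-0.476) else z k

lemma isL_zero (b : ℕ) : ¬ isL b (0 : Fin 11).val := fun h => h.1 rfl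

lemma pA_s (b : ℕ) (z : Fin 11 → ℝ) (t : ℝ) : pA b z t 0 = z 0 := if_neg (isL_zero b)

lemma pA_U {k : Fin 11} (h : isU b k.val) (z : Fin 11 → ℝ) (t : ℝ) : pA b z t k = z k :=
  if_neg (fun h2 => not_LU h2 h)

lemma pA_L {k : Fin 11} (h : isL b k.val) (z : Fin 11 → ℝ) (t : ℝ) :
    pA b z t k = (1 - t) * z k + t * max (z k) (-0.476) := if_pos h

lemma pA_mono {z : Fin 11 → ℝ} {s t : ℝ} (hst : s ≤ t) (k : Fin 11) : pA b z s k ≤ pA b z t k := by
  unfold pA
  split_ifs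
  · nlinarith [le_max_left (z k) (-0.476)]
  · exact le_rfl

lemma pA_zero (z : Fin 11 → ℝ) : pA b z 0 = z := by
  funext k; unfold pA; split_ifs <;> ring

lemma AH.path (h : AH b l0 x) {t : ℝ} (ht : t ∈ Icc (0 : ℝ) 1) : AH b l0 (pA b x t) := by
  refine ⟨h.l0b, ?_, ?_, ?_⟩
  · rw [pA_s]; exact h.s0
  · intro k hk
    rw [pA_U hk]; exact h.up k hk
  · intro k hk
    have a := h.lo k hk
    have c1 := le_max_left (x k) (-0.476)
    have c2 : max (x k) (-0.476) ≤ l0 := max_le a.2 h.l0b.1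
    rw [pA_L hk]
    obtain ⟨t0, t1⟩ := ht
    generalize max (x k) (-0.476) = M at *
    norm_num at a ⊢
    constructor <;> nlinarith

lemma pA_one_lo (z : Fin 11 → ℝ) {k : Fin 11} (h : isL b k.val) : -0.476 ≤ pA b z 1 k := by
  rw [pA_L h]
  have := le_max_right (z k) (-0.476)
  linarith

lemma RR_s_mono {s l l' : ℝ} (hs : -1 < s ∧ s ≤ -0.9998) (h1 : -0.52 ≤ l) (h2 : l ≤ l')
    (h3 : l' ≤ -0.4) : RR s l ≤ RR s l' := by
  norm_num at hs h1 h3
  rw [RR_comm s l, RR_comm s l']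
  exact RR_mono_l (by linarith) (by linarith) h2 hs.1 (by linarith) (by linarith)

lemma RR_ll_mono {l l' m m' : ℝ} (h1 : -0.52 ≤ l) (h2 : l ≤ l') (h3 : l' ≤ -0.4) (k1 : -0.52 ≤ m)
    (k2 : m ≤ m') (k3 : m' ≤ -0.4) : RR l m ≤ RR l' m' := by
  norm_num at h1 h3 k1 k3
  have e1 := RR_mono_l (z := l) (z' := l') (w := m) (by linarith) (by linarith) h2 (by linarith)
    (by linarith) (by linarith)
  have e2 := RR_mono_l (z := m) (z' := m') (w := l') (by linarith) (by linarith) k2 (by linarith)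
    (by linarith) (by linarith)
  rw [RR_comm m l', RR_comm m' l'] at e2
  linarith

/-- widths of pairs without upper points shrink along the first path -/
lemma AH.shrink (h : AH b l0 x) {t : ℝ} (ht : t ∈ Icc (0 : ℝ) 1) {i j : Fin 11} (hij : i ≠ j)
    (hi : ¬ isU b i.val) (hj : ¬ isU b j.val) : RR (x i) (x j) ≤ RR (pA b x t i) (pA b x t j) := by
  have h0 := h.l0b
  norm_num at h0
  have hp := h.path ht
  have hx0 : pA b x 0 = x := pA_zero x
  have mono : ∀ k, x k ≤ pA b x t k := fun k => by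
    have := pA_mono (b := b) (z := x) ht.1 k
    rwa [hx0] at this
  rcases node_cases b i with rfl | ⟨-, h1⟩ | ⟨-, h1⟩
  · rcases node_cases b j with rfl | ⟨-, h2⟩ | ⟨-, h2⟩
    · exact absurd rfl hij
    · rw [pA_s]
      exact RR_s_mono h.s0 (h.lo j h2).1 (mono j) (by norm_num; linarith [(hp.lo j h2).2])
    · exact absurd h2 hj
  · rcases node_cases b j with rfl | ⟨-, h2⟩ | ⟨-, h2⟩
    · rw [pA_s, RR_comm (x i), RR_comm (pA b x t i)]
      exact RR_s_mono h.s0 (h.lo i h1).1 (mono i) (by norm_num; linarith [(hp.lo i h1).2])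
    · exact RR_ll_mono (h.lo i h1).1 (mono i) (by norm_num; linarith [(hp.lo i h1).2])
        (h.lo j h2).1 (mono j) (by norm_num; linarith [(hp.lo j h2).2])
    · exact absurd h2 hj
  · exact absurd h1 hi

lemma AH.su (h : AH b l0 x) {k : Fin 11} (hk : isU b k.val) : 1 ≤ RR (x 0) (x k) := by
  have h0 := h.l0b
  have a := h.s0
  have c := h.up k hk
  norm_num at h0 a c
  exact RR_su a.1 (by norm_num; linarith) (by linarith) (by linarith)

/-- good height path -/
lemma gpath_A (h : AH b l0 x) (hp : ∀ k, k ≠ 0 → -1 ≤ RR (x 0) (x k)) : GPath KK (pA b x) := by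
  have pole0 : ∀ t ∈ Icc (0 : ℝ) 1, ∀ k, k ≠ 0 → -1 ≤ RR (pA b x t 0) (pA b x t k) := by
    intro t ht k hk
    rcases node_cases b k with h1 | ⟨-, h1⟩ | ⟨-, h1⟩
    · exact absurd h1 hk
    · exact (hp k hk).trans (h.shrink ht (Ne.symm hk) (by rintro ⟨h2, -⟩; exact h2 rfl) (not_LU h1))
    · have := (h.path ht).su h1
      linarith
  refine ⟨fun i j h => ⟨h.2, h.1⟩, ?_, fun t ht k => (h.path ht).range k, ?_, ?_, ?_⟩
  · intro k
    unfold pA
    by_cases hk : isL b k.val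
    · simp only [hk, if_true]; fun_prop
    · simp only [hk, if_false]; fun_prop
  · -- persistence
    have key : ∀ j, j ≠ 0 → ∀ s t, 0 ≤ s → s ≤ t → t ≤ 1 → 1 ≤ RR (pA b x s 0) (pA b x s j) →
        1 ≤ RR (pA b x t 0) (pA b x t j) := by
      intro j hj s t hs hst ht h1
      rcases node_cases b j with h2 | ⟨-, h2⟩ | ⟨-, h2⟩
      · exact absurd h2 hj
      · have e1 := (h.path (t := s) ⟨hs, by linarith⟩).lo j h2
        have e2 := (h.path (t := t) ⟨by linarith, ht⟩).lo j h2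
        have h0 := h.l0b
        norm_num at h0
        rw [pA_s] at h1 ⊢
        exact h1.trans (RR_s_mono h.s0 e1.1 (pA_mono hst j) (by norm_num; linarith [e2.2]))
      · rw [pA_s, pA_U h2] at h1 ⊢
        exact h1
    intro i j hij hK s t hs hst ht h1
    by_cases hi : i = 0
    · subst hi
      exact key j (Ne.symm hij) s t hs hst ht h1
    · have hj : j = 0 := by
        by_contra hj
        exact hK ⟨hi, hj⟩
      subst hj
      rw [RR_comm] at h1 ⊢
      exact key i hi s t hs hst ht h1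
  · rintro t ht i j hij ⟨hi, hj⟩
    have a := (h.path ht).rangeK hi
    have c := (h.path ht).rangeK hj
    exact vert_kk a.1 a.2 c.1 c.2
  · intro t ht i j hij
    by_cases hi : i = 0
    · subst hi
      exact pole0 t ht j (Ne.symm hij)
    by_cases hj : j = 0
    · subst hj
      rw [RR_comm]
      exact pole0 t ht i hi
    have a := (h.path ht).rangeK hi
    have c := (h.path ht).rangeK hj
    exact RR_ge_neg a.1 a.2 c.1 c.2

/-! ## the second path: both poles, two rings -/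

/-- the second path -/
noncomputable def pB (b : ℕ) (z : Fin 11 → ℝ) (t : ℝ) (k : Fin 11) : ℝ :=
  if k = 0 then -1 + (1 - t) ^ 2 * (1 + z 0) else
    if isL b k.val then (1 - t) * z k + t * (-(1 / 2)) else (1 - t) * z k + t * (1 / 2)

lemma pB_s (z : Fin 11 → ℝ) (t : ℝ) : pB b z t 0 = -1 + (1 - t) ^ 2 * (1 + z 0) := if_pos rfl

lemma pB_L {k : Fin 11} (hk : k ≠ 0) (h : isL b k.val) (z : Fin 11 → ℝ) (t : ℝ) :
    pB b z t k = (1 - t) * z k + t * (-(1 / 2)) := by
  unfold pB; rw [if_neg hk, if_pos h]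

lemma pB_U {k : Fin 11} (hk : k ≠ 0) (h : isU b k.val) (z : Fin 11 → ℝ) (t : ℝ) :
    pB b z t k = (1 - t) * z k + t * (1 / 2) := by
  unfold pB; rw [if_neg hk, if_neg (fun h2 => not_LU h2 h)]

lemma pB_zero (z : Fin 11 → ℝ) : pB b z 0 = z := by
  funext k; unfold pB
  split_ifs with h
  · subst h; ring
  · ring
  · ring

lemma pB_cont (z : Fin 11 → ℝ) (k : Fin 11) : Continuous fun t => pB b z t k := by
  unfold pB
  by_cases h : k = 0
  · simp only [h, if_true]; fun_prop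
  · by_cases h2 : isL b k.val
    · simp only [h, if_false, h2, if_true]; fun_prop
    · simp only [h, if_false, h2]; fun_prop

lemma ne_of_isL {k : Fin 11} (h : isL b k.val) : k ≠ 0 := by rintro rfl; exact h.1 rfl
lemma ne_of_isU {k : Fin 11} (h : isU b k.val) : k ≠ 0 := by rintro rfl; exact h.1 rfl

lemma AH.pathB (h : AH b l0 x) {t : ℝ} (ht : t ∈ Ico (0 : ℝ) 1) : AH b l0 (pB b x t) := by
  obtain ⟨t0, t1⟩ := ht
  have h0 := h.l0b
  norm_num at h0
  refine ⟨h.l0b, ?_, ?_, ?_⟩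
  · rw [pB_s]
    have a := h.s0
    have e1 : 0 < (1 - t) ^ 2 := by have : 0 < 1 - t := by linarith
                                    positivity
    have e2 : (1 - t) ^ 2 ≤ 1 := by nlinarith
    norm_num at a ⊢
    constructor <;> nlinarith
  · intro k hk
    have a := h.up k hk
    rw [pB_U (ne_of_isU hk) hk]
    norm_num at a ⊢
    constructor <;> nlinarith
  · intro k hk
    have a := h.lo k hk
    rw [pB_L (ne_of_isL hk) hk]
    norm_num at a ⊢
    constructor <;> nlinarith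

/-- pairs with the lowest point -/
def DZ (i j : Fin 11) : Prop := i = 0 ∨ j = 0

lemma free_B (h : AH b l0 x) (hl : ∀ k : Fin 11, isL b k.val → -0.476 ≤ x k) {t : ℝ}
    (ht : t ∈ Ico (0 : ℝ) 1) {k : Fin 11} (hk : k ≠ 0) :
    √(1 - pB b x t 0 ^ 2) * √(1 - pB b x t k ^ 2) + pB b x t 0 * pB b x t k ≤ 1 / 2 := by
  have hp := h.pathB ht
  have h0 := h.l0b
  have hs := h.s0
  obtain ⟨t0, t1⟩ := ht
  rcases node_cases b k with h1 | ⟨-, h1⟩ | ⟨-, h1⟩
  · exact absurd h1 hk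
  · have hlo := hp.lo k h1
    norm_num at h0 hlo hs
    refine free_sl (x := 1 - t) hp.s0.1 ?_ ⟨by linarith, by linarith⟩ ?_ (by norm_num; linarith [hlo.2])
    · rw [pB_s]
      have e1 : 0 ≤ (1 - t) ^ 2 := sq_nonneg _
      norm_num
      nlinarith
    · rw [pB_L hk h1]
      have := hl k h1
      norm_num at this ⊢
      nlinarith
  · rw [← RR_one_le (hp.range 0) (hp.range k)]
    exact hp.su h1

theorem hpath_B (h : AH b l0 x) (hl : ∀ k : Fin 11, isL b k.val → -0.476 ≤ x k) :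
    HPath 11 (by norm_num) DZ (pB b x) := by
  refine ⟨fun i j h => h.symm, fun k => (pB_cont x k).continuousOn,
    fun t ht k => (h.pathB ht).range k, ?_, ?_, ?_, ?_, ?_⟩
  · intro i j hij hD
    have hi : i ≠ 0 := fun hi => hD (Or.inl hi)
    have hj : j ≠ 0 := fun hj => hD (Or.inr hj)
    have hcont : ∀ k, Tendsto (fun t => pB b x t k) (𝓝[<] 1) (𝓝 (pB b x 1 k)) :=
      fun k => ((pB_cont x k).tendsto 1).mono_left nhdsWithin_le_nhds
    have hend : ∀ k, k ≠ 0 → -1 < pB b x 1 k ∧ pB b x 1 k ≤ 1 / 2 := by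
      intro k hk
      unfold pB
      rw [if_neg hk]
      split_ifs <;> norm_num
    exact ⟨_, wd_tendsto (hcont i) (hcont j) (hend i hi) (hend j hj)⟩
  · rintro t ht i j hij (hi | hj)
    · subst hi
      exact free_B h hl ht (Ne.symm hij)
    · subst hj
      have := free_B h hl ht hij
      rw [mul_comm (√_), mul_comm (pB b x t i)]
      exact this
  · intro t ht i j hij hD
    have hp := h.pathB ht
    have a := hp.rangeK (fun hi => hD (Or.inl hi))
    have c := hp.rangeK (fun hj => hD (Or.inr hj))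
    rw [← RR_ge (hp.range i) (hp.range j)]
    exact RR_ge_neg a.1 a.2 c.1 c.2
  · intro t ht i j hij hD
    have hp := h.pathB ht
    have a := hp.rangeK (fun hi => hD (Or.inl hi))
    have c := hp.rangeK (fun hj => hD (Or.inr hj))
    exact vert_kk a.1 a.2 c.1 c.2
  · intro t ht v r hr hv he hD
    refine (h.pathB ht).walk10 hv he ?_
    intro k hk hk0
    rcases Nat.lt_or_ge k r with h1 | h1
    · exact hD k h1 (Or.inl (cl_zero.2 hk0))
    · have hkr : k = r := by omega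
      subst hkr
      have hr0 : 0 < k := by
        rcases Nat.eq_zero_or_pos k with h2 | h2
        · subst h2; omega
        · exact h2
      have := hD (k - 1) (by omega)
      rw [show k - 1 + 1 = k by omega] at this
      exact this (Or.inr (cl_zero.2 hk0))

end

end Pool.Agent.Helper91.Kiss
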