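import Pool.Agent.Helper66.Kiss.ChordA

set_option autoImplicit false

/-! # A larger end region, first part: pairs of the same type -/

namespace Pool.Agent.Helper91.Kiss

open Real Set Filter Topology Pool.Agent.Helper66.Kiss

/-- scaling factor of the upper points and of the deep lower points -/
noncomputable def fU (σ : ℝ) : ℝ := σ ^ 2 * (0.3 + 0.7 * σ)

/-- scaling factor of the lowest point -/
noncomputable def fS (σ : ℝ) : ℝ := σ ^ 2 * (0.6 + 0.4 * σ)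

/-- path coordinate of a lower point -/
noncomputable def eN (σ x : ℝ) : ℝ := if 0 ≤ x then σ ^ 2 * x else fU σ * x

lemma fU_bd {σ : ℝ} (h0 : 0 ≤ σ) (h1 : σ ≤ 1) : 0 ≤ fU σ ∧ fU σ ≤ σ ^ 2 ∧ 1 - fU σ ≤ 2.7 * (1 - σ) := by
  have h2 : 0 ≤ σ ^ 2 := sq_nonneg σ
  unfold fU
  refine ⟨mul_nonneg h2 (by norm_num; linarith), ?_, ?_⟩
  · have : σ ^ 2 * (0.3 + 0.7 * σ) ≤ σ ^ 2 * 1 := mul_le_mul_of_nonneg_left (by norm_num; linarith) h2
    linarith
  · have e : 2.7 * (1 - σ) - (1 - σ ^ 2 * (0.3 + 0.7 * σ)) = (1 - σ) ^ 2 * (1.7 + 0.7 * σ) := by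
      norm_num; ring
    have := mul_nonneg (sq_nonneg (1 - σ)) (by norm_num; linarith : (0 : ℝ) ≤ 1.7 + 0.7 * σ)
    linarith

lemma fS_bd {σ : ℝ} (h0 : 0 ≤ σ) (h1 : σ ≤ 1) : 0 ≤ fS σ ∧ fS σ ≤ 1 ∧ 1 - fS σ ≤ 2.4 * (1 - σ) := by
  have h2 : 0 ≤ σ ^ 2 := sq_nonneg σ
  have h3 : σ ^ 2 ≤ 1 := pow_le_one₀ h0 h1
  unfold fS
  refine ⟨mul_nonneg h2 (by norm_num; linarith), ?_, ?_⟩
  · have : σ ^ 2 * (0.6 + 0.4 * σ) ≤ 1 * 1 := mul_le_mul h3 (by norm_num; linarith) (by norm_num; linarith)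
      (by norm_num)
    linarith
  · have e : 2.4 * (1 - σ) - (1 - σ ^ 2 * (0.6 + 0.4 * σ)) = (1 - σ) ^ 2 * (1.4 + 0.4 * σ) := by
      norm_num; ring
    have := mul_nonneg (sq_nonneg (1 - σ)) (by norm_num; linarith : (0 : ℝ) ≤ 1.4 + 0.4 * σ)
    linarith

lemma eN_bd {σ x : ℝ} (h0 : 0 ≤ σ) (h1 : σ ≤ 1) (hx : -0.0211 ≤ x ∧ x ≤ 0.02042) :
    -0.0211 ≤ eN σ x ∧ eN σ x ≤ 0.02042 ∧ x - eN σ x ≤ (1 - σ) * (2 * max x 0) := by
  obtain ⟨u0, u1, u2⟩ := fU_bd h0 h1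
  have h2 : σ ^ 2 ≤ 1 := pow_le_one₀ h0 h1
  have h20 : 0 ≤ σ ^ 2 := sq_nonneg σ
  obtain ⟨x1, x2⟩ := hx
  norm_num at x1 x2
  unfold eN
  split_ifs with h
  · have e1 : 0 ≤ σ ^ 2 * x := mul_nonneg h20 h
    have e2 : σ ^ 2 * x ≤ x := by nlinarith
    rw [max_eq_left h]
    refine ⟨by norm_num; linarith, by norm_num; linarith, ?_⟩
    have e4 : (1 - σ) * (2 * x) - (x - σ ^ 2 * x) = x * (1 - σ) ^ 2 := by ring
    have := mul_nonneg h (sq_nonneg (1 - σ))
    linarith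
  · push Not at h
    have e1 : fU σ * x ≤ 0 := mul_nonpos_of_nonneg_of_nonpos u0 h.le
    have e2 : x ≤ fU σ * x := by nlinarith
    rw [max_eq_right h.le]
    refine ⟨by norm_num; linarith, by norm_num; linarith, ?_⟩
    linarith

/-! ## the rate of the cosine -/

lemma kb_bd {a a' b : ℝ} (ha : 0.9789 ≤ a ∧ a ≤ 1.0212) (ha' : 0.9789 ≤ a' ∧ a' ≤ 1.0212)
    (hb : 0.9789 ≤ b ∧ b ≤ 1.0212) :
    0.294 ≤ (9 * b ^ 2 - 1) / (24 * b) / (a * a') - 3 * (1 - b ^ 2) / (8 * b) ∧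
    (9 * b ^ 2 - 1) / (24 * b) / (a * a') - 3 * (1 - b ^ 2) / (8 * b) ≤ 0.3735 := by
  obtain ⟨a1, a2⟩ := ha
  obtain ⟨b1, b2⟩ := ha'
  obtain ⟨c1, c2⟩ := hb
  norm_num at a1 a2 b1 b2 c1 c2
  have hb0 : 0 < b := by linarith
  have haa : 0 < a * a' := by apply mul_pos <;> linarith
  have h1 : 0.9582 ≤ a * a' := by norm_num; nlinarith
  have h2 : a * a' ≤ 1.0429 := by norm_num; nlinarith
  have e1 : (9 * b ^ 2 - 1) / (24 * b) ≤ 0.34216 := by
    rw [div_le_iff₀ (by positivity)]; norm_num; nlinarith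
  have e2 : 0.3245 ≤ (9 * b ^ 2 - 1) / (24 * b) := by
    rw [le_div_iff₀ (by positivity)]; norm_num; nlinarith
  have e3 : 3 * (1 - b ^ 2) / (8 * b) ≤ 0.01601 := by
    rw [div_le_iff₀ (by positivity)]; norm_num; nlinarith
  have e4 : -0.0158 ≤ 3 * (1 - b ^ 2) / (8 * b) := by
    rw [le_div_iff₀ (by positivity)]; norm_num; nlinarith
  set p := (9 * b ^ 2 - 1) / (24 * b) with hp
  norm_num at e1 e2 e3 e4 h1 h2
  have e5 : p / (a * a') ≤ 0.3571 := by
    rw [div_le_iff₀ haa]; norm_num; nlinarith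
  have e6 : 0.3111 ≤ p / (a * a') := by
    rw [le_div_iff₀ haa]; norm_num; nlinarith
  norm_num at e5 e6
  constructor
  · norm_num; linarith
  · norm_num; linarith

lemma Qs_up {a a' b e : ℝ} (ha : 0.9789 ≤ a ∧ a ≤ 1.0212) (ha' : 0.9789 ≤ a' ∧ a' ≤ 1.0212)
    (hb : 0.9789 ≤ b ∧ b ≤ 1.0212) (he : 0 ≤ e) (h : a' - a ≤ e) : Qs a b - Qs a' b ≤ 0.3735 * e := by
  have p1 : 0 < a := lt_of_lt_of_le (by norm_num) ha.1
  have p2 : 0 < a' := lt_of_lt_of_le (by norm_num) ha'.1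
  have p3 : 0 < b := lt_of_lt_of_le (by norm_num) hb.1
  rw [Qs_diff p1 p2 p3]
  obtain ⟨h1, h2⟩ := kb_bd ha ha' hb
  generalize (9 * b ^ 2 - 1) / (24 * b) / (a * a') - 3 * (1 - b ^ 2) / (8 * b) = k at *
  norm_num at h1 h2 ⊢
  rcases le_total 0 (a' - a) with h0 | h0 <;> nlinarith

lemma Qs_lo {a a' b : ℝ} (ha : 0.9789 ≤ a ∧ a ≤ 1.0212) (ha' : 0.9789 ≤ a' ∧ a' ≤ 1.0212)
    (hb : 0.9789 ≤ b ∧ b ≤ 1.0212) :
    0.294 * max (a' - a) 0 - 0.3735 * max (a - a') 0 ≤ Qs a b - Qs a' b := by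
  have p1 : 0 < a := lt_of_lt_of_le (by norm_num) ha.1
  have p2 : 0 < a' := lt_of_lt_of_le (by norm_num) ha'.1
  have p3 : 0 < b := lt_of_lt_of_le (by norm_num) hb.1
  rw [Qs_diff p1 p2 p3]
  obtain ⟨h1, h2⟩ := kb_bd ha ha' hb
  generalize (9 * b ^ 2 - 1) / (24 * b) / (a * a') - 3 * (1 - b ^ 2) / (8 * b) = k at *
  norm_num at h1 h2 ⊢
  rcases le_total 0 (a' - a) with h0 | h0
  · rw [max_eq_left h0, max_eq_right (by linarith : a - a' ≤ 0)]
    nlinarith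
  · rw [max_eq_right h0, max_eq_left (by linarith : 0 ≤ a - a')]
    nlinarith

lemma Qs_anti {a a' b : ℝ} (ha : 0.9789 ≤ a ∧ a ≤ 1.0212) (ha' : 0.9789 ≤ a' ∧ a' ≤ 1.0212)
    (hb : 0.9789 ≤ b ∧ b ≤ 1.0212) (h : a ≤ a') : Qs a' b ≤ Qs a b := by
  have := Qs_lo ha ha' hb
  have h1 : 0 ≤ max (a' - a) 0 := le_max_right _ _
  rw [max_eq_right (by linarith : a - a' ≤ 0)] at this
  norm_num at this
  nlinarith

/-- two points of the same type: upper bound for the cosine -/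
lemma Qs_le2 {x y : ℝ} (hx : -0.0211 ≤ x ∧ x ≤ 0.02042) (hy : -0.0211 ≤ y ∧ y ≤ 0.02042) :
    Qs (1 - x) (1 - y) ≤ 0.34675 := by
  obtain ⟨x1, x2⟩ := hx
  obtain ⟨y1, y2⟩ := hy
  norm_num at x1 x2 y1 y2
  have h1 := Qs_anti (a := 0.97958) (a' := 1 - x) (b := 1 - y) (by norm_num)
    (by norm_num; constructor <;> linarith) (by norm_num; constructor <;> linarith)
    (by norm_num; linarith)
  have h2 := Qs_anti (a := 0.97958) (a' := 1 - y) (b := 0.97958) (by norm_num)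
    (by norm_num; constructor <;> linarith) (by norm_num) (by norm_num; linarith)
  rw [Qs_comm (1 - y) 0.97958] at h2
  have h3 : Qs 0.97958 0.97958 ≤ 0.34675 := by unfold Qs; norm_num
  linarith

/-- two points of the same type: lower bound for the cosine -/
lemma Qs_ge2 {x y : ℝ} (hx : -0.0211 ≤ x ∧ x ≤ 0.02042) (hy : -0.0211 ≤ y ∧ y ≤ 0.02042) :
    1 / 3 + 0.294 * (max x 0 + max y 0) - 0.3735 * (max (-x) 0 + max (-y) 0) ≤
      Qs (1 - x) (1 - y) := by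
  obtain ⟨x1, x2⟩ := hx
  obtain ⟨y1, y2⟩ := hy
  norm_num at x1 x2 y1 y2
  have h1 := Qs_lo (a := 1 - x) (a' := 1) (b := 1 - y)
    (by norm_num; constructor <;> linarith) (by norm_num) (by norm_num; constructor <;> linarith)
  have h2 := Qs_lo (a := 1 - y) (a' := 1) (b := 1)
    (by norm_num; constructor <;> linarith) (by norm_num) (by norm_num)
  rw [Qs_comm (1 - y) 1, Qs_one] at h2
  rw [show 1 - (1 - x) = x by ring, show 1 - x - 1 = -x by ring] at h1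
  rw [show 1 - (1 - y) = y by ring, show 1 - y - 1 = -y by ring] at h2
  linarith

lemma wlow2 {q : ℝ} (h : q ≤ 0.34675) : CC - 0.04 ≤ arccos q := by
  have h1 : 0.34675 ≤ cos (CC - 0.04) := by
    rw [Real.cos_sub]
    have c1 := cos_CC
    have c3 := sqrt5_bd
    have s1 : 0.95105 ≤ sin CC := by
      have h := Real.sin_sq_add_cos_sq CC
      have hs := sin_CC_bd.1
      have hc : cos CC ≤ 0.309018 := by rw [cos_CC]; norm_num at c3 ⊢; linarith [c3.2]
      have hc0 := cos_CC_bd.1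
      norm_num at hc hc0 hs
      have h2 : cos CC ^ 2 ≤ 0.309018 ^ 2 := pow_le_pow_left₀ (by linarith) (by norm_num; linarith) 2
      norm_num at h2
      by_contra hcon
      push Not at hcon
      norm_num at hcon
      nlinarith
    have c4 : 0.309 ≤ cos CC := cos_CC_bd.1
    have c2 : 1 - 0.04 ^ 2 / 2 ≤ cos (0.04 : ℝ) := Real.one_sub_sq_div_two_le_cos
    have s2 : (0.04 : ℝ) - 0.04 ^ 3 / 6 < sin 0.04 := Real.sin_gt_sub_cube (by norm_num)
    have e1 : 0.309 * (1 - 0.04 ^ 2 / 2) ≤ cos CC * cos (0.04 : ℝ) :=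
      mul_le_mul c4 c2 (by norm_num) (by linarith)
    have e2 : 0.95105 * ((0.04 : ℝ) - 0.04 ^ 3 / 6) ≤ sin CC * sin 0.04 :=
      mul_le_mul s1 s2.le (by norm_num) (by linarith)
    norm_num at e1 e2 ⊢
    linarith
  have h2 := Real.arccos_le_arccos (h.trans h1)
  rwa [Real.arccos_cos (by linarith [CC_bd.1]) (by linarith [CC_bd.2, Real.pi_gt_three])] at h2

/-- the chord inequality from a bound of the cosine -/
lemma chord_gen {Q Q' σ : ℝ} (hσ : 0 ≤ σ ∧ σ ≤ 1) (hQ0 : 0.30902 ≤ Q) (hQ : Q ≤ 0.3468)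
    (h : Q - Q' ≤ (1 - σ) * (0.985 * (Q - 0.30902))) :
    arccos Q' ≤ σ * arccos Q + (1 - σ) * CC := by
  have hpi := Real.pi_gt_three
  have hC := CC_bd
  have hCc := cos_CC_bd
  have hCs := sin_CC_bd
  have hd0 : 0 ≤ 1 - σ := by linarith [hσ.2]
  norm_num at hQ0 hQ
  set D := arccos Q with hD
  have hcos : cos D = Q := Real.cos_arccos (by linarith) (by linarith)
  have hD0 : 0 ≤ D := Real.arccos_nonneg _
  have hDC : D ≤ CC := by
    have := Real.arccos_le_arccos (hCc.2.trans (by norm_num; linarith : (0.30902 : ℝ) ≤ Q))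
    rwa [Real.arccos_cos (by linarith [hC.1]) (by linarith [hC.2])] at this
  set θ := σ * D + (1 - σ) * CC with hθ
  have hθ0 : 0 ≤ θ := by
    have := mul_nonneg hσ.1 hD0
    have := mul_nonneg hd0 (by linarith [hC.1] : (0 : ℝ) ≤ CC)
    linarith
  have hθC : θ ≤ CC := by
    have := mul_le_mul_of_nonneg_left hDC hσ.1
    linarith
  have ht := cos_tangent (θ := θ) (ω := D) hθ0 (by linarith [hC.2]) hD0 (by linarith [hC.2])
  have ht2 := cos_tangent (θ := D) (ω := CC) hD0 (by linarith [hC.2]) (by linarith [hC.1])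
    (by linarith [hC.2])
  have hsD : 0.9379 ≤ sin D := by
    have h := Real.sin_sq_add_cos_sq D
    have hs : 0 ≤ sin D := Real.sin_nonneg_of_nonneg_of_le_pi hD0 (Real.arccos_le_pi _)
    rw [hcos] at h
    have h3 : Q ^ 2 ≤ 0.3468 ^ 2 := pow_le_pow_left₀ (by linarith) (by norm_num; linarith) 2
    norm_num at h3
    by_contra hcon
    push Not at hcon
    norm_num at hcon
    nlinarith
  have h5 : 0.985 * (Q - 0.30902) ≤ (CC - D) * sin D := by
    have e1 : Q - cos CC ≤ (CC - D) * sin CC := by rw [← hcos]; linarith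
    have e2 : (CC - D) * (0.985 * sin CC) ≤ (CC - D) * sin D := by
      apply mul_le_mul_of_nonneg_left _ (by linarith)
      have := hCs.2
      norm_num at this hsD ⊢
      linarith
    have := hCc.2
    norm_num at this e2 ⊢
    nlinarith
  have h6 : cos θ ≤ Q' := by
    have e1 : θ - D = (1 - σ) * (CC - D) := by rw [hθ]; ring
    rw [e1, hcos] at ht
    have e2 := mul_le_mul_of_nonneg_left h5 hd0
    nlinarith
  have h7 := Real.arccos_le_arccos h6
  rwa [Real.arccos_cos hθ0 (by linarith [hC.2])] at h7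

/-- two lower points -/
lemma chord_LL2 {σ x y : ℝ} (hσ : 0 ≤ σ ∧ σ ≤ 1) (hx : -0.0211 ≤ x ∧ x ≤ 0.02042)
    (hy : -0.0211 ≤ y ∧ y ≤ 0.02042) :
    wd (zL (1 - eN σ x)) (zL (1 - eN σ y)) ≤
      σ * wd (zL (1 - x)) (zL (1 - y)) + (1 - σ) * CC := by
  obtain ⟨a1, a2, a3⟩ := eN_bd hσ.1 hσ.2 hx
  obtain ⟨b1, b2, b3⟩ := eN_bd hσ.1 hσ.2 hy
  have hle := Qs_le2 hx hy
  have hge := Qs_ge2 hx hy
  obtain ⟨x1, x2⟩ := hx
  obtain ⟨y1, y2⟩ := hy
  norm_num at x1 x2 y1 y2 a1 a2 b1 b2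
  have hd0 : 0 ≤ 1 - σ := by linarith [hσ.2]
  have mx : 0 ≤ max x 0 := le_max_right _ _
  have my : 0 ≤ max y 0 := le_max_right _ _
  have nx : 0.45741 * max x 0 + 0.3679 * max (-x) 0 ≤ 0.00935 := by
    rcases le_total 0 x with h | h
    · rw [max_eq_left h, max_eq_right (by linarith : -x ≤ 0)]; norm_num; linarith
    · rw [max_eq_right h, max_eq_left (by linarith : 0 ≤ -x)]; norm_num; linarith
  have ny : 0.45741 * max y 0 + 0.3679 * max (-y) 0 ≤ 0.00935 := by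
    rcases le_total 0 y with h | h
    · rw [max_eq_left h, max_eq_right (by linarith : -y ≤ 0)]; norm_num; linarith
    · rw [max_eq_right h, max_eq_left (by linarith : 0 ≤ -y)]; norm_num; linarith
  have mx' : 0 ≤ max (-x) 0 := le_max_right _ _
  have my' : 0 ≤ max (-y) 0 := le_max_right _ _
  rw [wd_LL (by linarith) (by linarith), wd_LL (by linarith) (by linarith)]
  have s1 := Qs_up (a := 1 - x) (a' := 1 - eN σ x) (b := 1 - y) (e := (1 - σ) * (2 * max x 0))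
    (by norm_num; constructor <;> linarith) (by norm_num; constructor <;> linarith)
    (by norm_num; constructor <;> linarith) (mul_nonneg hd0 (by linarith)) (by linarith)
  have s2 := Qs_up (a := 1 - y) (a' := 1 - eN σ y) (b := 1 - eN σ x) (e := (1 - σ) * (2 * max y 0))
    (by norm_num; constructor <;> linarith) (by norm_num; constructor <;> linarith)
    (by norm_num; constructor <;> linarith) (mul_nonneg hd0 (by linarith)) (by linarith)
  rw [Qs_comm (1 - y), Qs_comm (1 - eN σ y)] at s2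
  generalize Qs (1 - x) (1 - y) = Q at *
  generalize Qs (1 - eN σ x) (1 - eN σ y) = Q' at *
  generalize Qs (1 - eN σ x) (1 - y) = Q'' at *
  generalize max x 0 = X at *
  generalize max y 0 = Y at *
  generalize max (-x) 0 = X' at *
  generalize max (-y) 0 = Y' at *
  norm_num at hle hge nx ny s1 s2
  refine chord_gen hσ (by norm_num; linarith) (by norm_num; linarith) ?_
  have key : 0.3735 * (2 * X) + 0.3735 * (2 * Y) ≤ 0.985 * (Q - 0.30902) := by norm_num; linarith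
  have := mul_le_mul_of_nonneg_left key hd0
  norm_num at this ⊢
  nlinarith

lemma low_same {x y : ℝ} (hx : -0.0211 ≤ x ∧ x ≤ 0.02042) (hy : -0.0211 ≤ y ∧ y ≤ 0.02042) :
    CC - 0.04 ≤ arccos (Qs (1 - x) (1 - y)) := wlow2 (Qs_le2 hx hy)

end Pool.Agent.Helper91.Kiss
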