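import Pool.Agent.Helper91.Kiss.AnyA

set_option autoImplicit false

/-! # A larger end region, second part: two upper points, mixed pairs -/

namespace Pool.Agent.Helper91.Kiss

open Real Set Filter Topology Pool.Agent.Helper66.Kiss

lemma kU_bd {a a' b : ℝ} (ha : 0.97958 ≤ a ∧ a ≤ 1) (ha' : 0.97958 ≤ a' ∧ a' ≤ 1)
    (hb : 0.97958 ≤ b ∧ b ≤ 1) :
    (9 * b ^ 2 - 1) / (24 * b) / (a * a') - 3 * (1 - b ^ 2) / (8 * b) ≤ 0.34739 - 1.18 * (1 - b) := by
  obtain ⟨a1, a2⟩ := ha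
  obtain ⟨b1, b2⟩ := ha'
  obtain ⟨c1, c2⟩ := hb
  norm_num at a1 b1 c1
  have hb0 : 0 < b := by linarith
  have haa : 0 < a * a' := by apply mul_pos <;> linarith
  have h1 : 0.95957 ≤ a * a' := by norm_num; nlinarith
  have e1 : (9 * b ^ 2 - 1) / (24 * b) ≤ 1 / 3 - 0.4166 * (1 - b) := by
    rw [div_le_iff₀ (by positivity)]
    have := mul_nonneg (by linarith : (0 : ℝ) ≤ 1 - b) (by norm_num; linarith : (0 : ℝ) ≤ 1 - 0.9984 * b)
    norm_num at this ⊢
    nlinarith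
  have e2 : 0 ≤ (9 * b ^ 2 - 1) / (24 * b) := by
    apply div_nonneg _ (by positivity); nlinarith
  have e3 : 0.75 * (1 - b) ≤ 3 * (1 - b ^ 2) / (8 * b) := by
    rw [le_div_iff₀ (by positivity)]; norm_num; nlinarith [sq_nonneg (1 - b)]
  set p := (9 * b ^ 2 - 1) / (24 * b) with hp
  have e5 : p / (a * a') ≤ p / 0.95957 := by
    apply div_le_div_of_nonneg_left e2 (by norm_num) h1
  have e6 : p / 0.95957 ≤ 0.34738 - 0.434 * (1 - b) := by
    rw [div_le_iff₀ (by norm_num)]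
    norm_num at e1 ⊢
    linarith
  have e7 := e5.trans e6
  norm_num at e3 e7 ⊢
  linarith

/-- the numerical inequality for two upper points -/
lemma uu_num {x y : ℝ} (hx : 0 ≤ x ∧ x ≤ 0.02042) (hy : 0 ≤ y ∧ y ≤ 0.02042) :
    2.7 * (0.34739 * (x + y) - 2.36 * (x * y)) ≤ 0.985 * (Qs (1 - x) (1 - y) - 0.30902) := by
  obtain ⟨x1, x2⟩ := hx
  obtain ⟨y1, y2⟩ := hy
  norm_num at x2 y2
  set s := x + y with hs
  set P := x * y with hP
  have hs0 : 0 ≤ s := by linarith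
  have hs2 : s ≤ 0.04084 := by norm_num; linarith
  have hP0 : 0 ≤ P := mul_nonneg x1 y1
  have hP1 : 0.02042 * s - 0.02042 ^ 2 ≤ P := by
    norm_num; nlinarith [mul_nonneg (by linarith : 0 ≤ 1021 / 50000 - x) (by linarith : 0 ≤ 1021 / 50000 - y)]
  norm_num at hs2 hP1
  have hP2 : P ≤ 0.01022 * s := by
    norm_num; nlinarith [sq_nonneg (x - y)]
  have hPs : P * s ≤ 0.0409 * P := by norm_num; nlinarith
  norm_num at hP2 hPs
  have hQ : 1 / 3 + (s + s ^ 2 - 5.7 * P) / 3 ≤ Qs (1 - x) (1 - y) := by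
    have e : Qs (1 - x) (1 - y) = (8 - 9 * P * (4 - 2 * s + P)) / (24 * (1 - s + P)) := by
      have h1 : (1 : ℝ) - x ≠ 0 := by linarith
      have h2 : (1 : ℝ) - y ≠ 0 := by linarith
      have h3 : (1 : ℝ) - s + P = (1 - x) * (1 - y) := by rw [hs, hP]; ring
      unfold Qs
      rw [h3, div_eq_div_iff (by positivity) (by positivity), hs, hP]
      ring
    have hd : 0 < 24 * (1 - s + P) := by linarith
    rw [e, le_div_iff₀ hd]
    have key : 0 ≤ 1.6 * P - 35.6 * (P * s) + 36.6 * P ^ 2 + 8 * s * (s ^ 2 - P * s) := by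
      have k1 : P ≤ s := by linarith
      have k2 : 0 ≤ s ^ 2 - P * s := by nlinarith
      have k3 := mul_nonneg hs0 k2
      have k4 := sq_nonneg P
      norm_num
      nlinarith
    norm_num at key ⊢
    nlinarith
  norm_num at hQ ⊢
  nlinarith [sq_nonneg s]

/-- two upper points -/
lemma chord_UU2 {σ x y : ℝ} (hσ : 0 ≤ σ ∧ σ ≤ 1) (hx : 0 ≤ x ∧ x ≤ 0.02042)
    (hy : 0 ≤ y ∧ y ≤ 0.02042) :
    wd (zU (1 - fU σ * x)) (zU (1 - fU σ * y)) ≤
      σ * wd (zU (1 - x)) (zU (1 - y)) + (1 - σ) * CC := by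
  obtain ⟨u0, u1, u2⟩ := fU_bd hσ.1 hσ.2
  have hs2 : σ ^ 2 ≤ 1 := pow_le_one₀ hσ.1 hσ.2
  have hle := Qs_le2 (x := x) (y := y) ⟨by linarith [hx.1], hx.2⟩ ⟨by linarith [hy.1], hy.2⟩
  have hge := Qs_ge2 (x := x) (y := y) ⟨by linarith [hx.1], hx.2⟩ ⟨by linarith [hy.1], hy.2⟩
  have hnum := uu_num hx hy
  obtain ⟨x1, x2⟩ := hx
  obtain ⟨y1, y2⟩ := hy
  norm_num at x2 y2
  set μ := fU σ with hμ
  have hμ1 : μ ≤ 1 := by linarith
  have ax : 0 ≤ μ * x := mul_nonneg u0 x1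
  have ax' : μ * x ≤ x := by nlinarith
  have ay : 0 ≤ μ * y := mul_nonneg u0 y1
  have ay' : μ * y ≤ y := by nlinarith
  have hd0 : 0 ≤ 1 - σ := by linarith [hσ.2]
  rw [wd_UU (by linarith) (by linarith), wd_UU (by linarith) (by linarith)]
  rw [max_eq_left x1, max_eq_left y1, max_eq_right (by linarith : -x ≤ 0),
    max_eq_right (by linarith : -y ≤ 0)] at hge
  -- the decrease of the cosine
  have k1 := kU_bd (a := 1 - x) (a' := 1 - μ * x) (b := 1 - y) (by norm_num; constructor <;> linarith)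
    (by norm_num; constructor <;> linarith) (by norm_num; constructor <;> linarith)
  have k2 := kU_bd (a := 1 - y) (a' := 1 - μ * y) (b := 1 - μ * x) (by norm_num; constructor <;> linarith)
    (by norm_num; constructor <;> linarith) (by norm_num; constructor <;> linarith)
  have d1 := Qs_diff (a := 1 - x) (a' := 1 - μ * x) (b := 1 - y) (by linarith) (by linarith) (by linarith)
  have d2 := Qs_diff (a := 1 - y) (a' := 1 - μ * y) (b := 1 - μ * x) (by linarith) (by linarith)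
    (by linarith)
  rw [Qs_comm (1 - y), Qs_comm (1 - μ * y)] at d2
  generalize (9 * (1 - y) ^ 2 - 1) / (24 * (1 - y)) / ((1 - x) * (1 - μ * x)) -
    3 * (1 - (1 - y) ^ 2) / (8 * (1 - y)) = K1 at *
  generalize (9 * (1 - μ * x) ^ 2 - 1) / (24 * (1 - μ * x)) / ((1 - y) * (1 - μ * y)) -
    3 * (1 - (1 - μ * x) ^ 2) / (8 * (1 - μ * x)) = K2 at *
  generalize Qs (1 - x) (1 - y) = Q at *
  generalize Qs (1 - μ * x) (1 - μ * y) = Q' at *
  generalize Qs (1 - μ * x) (1 - y) = Q'' at *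
  have hδ : 0 ≤ 1 - μ := by linarith
  have c1 : (1 - μ) * x * K1 ≤ (1 - μ) * x * (0.34739 - 1.18 * y) := by
    apply mul_le_mul_of_nonneg_left _ (mul_nonneg hδ x1)
    rw [show 1 - (1 - y) = y by ring] at k1
    exact k1
  have c2 : (1 - μ) * y * K2 ≤ (1 - μ) * y * (0.34739 - 1.18 * (μ * x)) := by
    apply mul_le_mul_of_nonneg_left _ (mul_nonneg hδ y1)
    rw [show 1 - (1 - μ * x) = μ * x by ring] at k2
    exact k2
  have hxy0 : 0 ≤ x * y := mul_nonneg x1 y1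
  have hxy1 : x * y ≤ 0.01022 * (x + y) := by norm_num; nlinarith [sq_nonneg (x - y)]
  norm_num at hxy1 hge hle
  have hQQ : Q - Q' ≤ (1 - μ) * (0.34739 * (x + y) - 1.18 * (x * y) * (1 + μ)) := by
    have e1 : Q - Q'' = (1 - μ) * x * K1 := by rw [d1]; ring
    have e2 : Q'' - Q' = (1 - μ) * y * K2 := by rw [d2]; ring
    norm_num at c1 c2 ⊢
    linarith
  refine chord_gen hσ (by norm_num; linarith) (by norm_num; linarith) (hQQ.trans ?_)
  -- reduction to the numerical inequality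
  set δ := 1 - σ with hδ'
  set T := 0.34739 * (x + y) - 2.36 * (x * y) with hT
  have hT0 : 0.3 * (x + y) ≤ T := by rw [hT]; norm_num; linarith
  have e3 : 1 - μ = 2.7 * δ - δ ^ 2 * (1.7 + 0.7 * σ) := by
    rw [hμ, hδ']; unfold fU; norm_num; ring
  have e4 : 0.34739 * (x + y) - 1.18 * (x * y) * (1 + μ) = T + 1.18 * (x * y) * (1 - μ) := by
    rw [hT]; norm_num; ring
  rw [e4]
  have e5 : (1 - μ) * (T + 1.18 * (x * y) * (1 - μ)) ≤ δ * (2.7 * T) := by
    have f1 : 1 - μ ≤ 2.7 * δ - 1.7 * δ ^ 2 := by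
      have := mul_nonneg (sq_nonneg δ) hσ.1
      rw [e3]; norm_num
      linarith
    have f2 : (1 - μ) * (1.18 * (x * y) * (1 - μ)) ≤ 1.18 * (x * y) * (2.7 * δ) ^ 2 := by
      have : (1 - μ) ^ 2 ≤ (2.7 * δ) ^ 2 := pow_le_pow_left₀ hδ u2 2
      have := mul_le_mul_of_nonneg_left this (by norm_num; linarith : (0 : ℝ) ≤ 1.18 * (x * y))
      rw [show (1 - μ) * (1.18 * (x * y) * (1 - μ)) = 1.18 * (x * y) * (1 - μ) ^ 2 by ring]
      exact this
    have f3 : (1 - μ) * T ≤ (2.7 * δ - 1.7 * δ ^ 2) * T :=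
      mul_le_mul_of_nonneg_right f1 (by norm_num at hT0; linarith)
    have f4 : 1.18 * (x * y) * (2.7 * δ) ^ 2 ≤ 1.7 * δ ^ 2 * T := by
      have : 1.18 * (x * y) * 2.7 ^ 2 ≤ 1.7 * T := by norm_num at hT0 ⊢; linarith
      have := mul_le_mul_of_nonneg_left this (sq_nonneg δ)
      calc 1.18 * (x * y) * (2.7 * δ) ^ 2 = δ ^ 2 * (1.18 * (x * y) * 2.7 ^ 2) := by ring
        _ ≤ δ ^ 2 * (1.7 * T) := this
        _ = 1.7 * δ ^ 2 * T := by ring
    calc (1 - μ) * (T + 1.18 * (x * y) * (1 - μ)) = (1 - μ) * T + (1 - μ) * (1.18 * (x * y) * (1 - μ)) := by ring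
      _ ≤ (2.7 * δ - 1.7 * δ ^ 2) * T + 1.7 * δ ^ 2 * T := add_le_add f3 (f2.trans f4)
      _ = δ * (2.7 * T) := by ring
  refine e5.trans ?_
  exact mul_le_mul_of_nonneg_left hnum hd0

end Pool.Agent.Helper91.Kiss
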