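import Pool.Agent.Helper91.Kiss.AnyA

set_option autoImplicit false

/-! # A larger end region, third part: mixed pairs, pairs with the lowest point -/

namespace Pool.Agent.Helper91.Kiss

open Real Set Filter Topology Pool.Agent.Helper66.Kiss

/-! ## mixed pairs -/

lemma hh_scale2 {x t : ℝ} (hx : 0 ≤ x ∧ x ≤ 0.03) (ht : 0 ≤ t ∧ t ≤ 1) :
    t ^ 2 * hh x ≤ hh (t * x) ∧ hh (t * x) ≤ t * hh x := by
  obtain ⟨x0, x1⟩ := hx
  norm_num at x1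
  have h1 : 0 < 1 - x := by linarith
  have htx : t * x ≤ x := by nlinarith [ht.2]
  have htx0 : 0 ≤ t * x := mul_nonneg ht.1 x0
  have h2 : 0 < 1 - t * x := by linarith
  unfold hh
  constructor
  · rw [← mul_div_assoc, div_le_div_iff₀ (by positivity) (by positivity)]
    have key : 0 ≤ (2 - t * x) * (1 - x) - t * (2 - x) * (1 - t * x) := by
      have e : (2 - t * x) * (1 - x) - t * (2 - x) * (1 - t * x) =
          (1 - t) * (2 - 2 * x * (1 + t) + t * x * x) := by ring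
      rw [e]
      apply mul_nonneg (by linarith [ht.2])
      nlinarith [mul_nonneg htx0 x0, ht.2]
    nlinarith [mul_nonneg htx0 key]
  · rw [← mul_div_assoc, div_le_div_iff₀ (by positivity) (by positivity)]
    have key : 0 ≤ (2 - x) * (1 - t * x) - (2 - t * x) * (1 - x) := by
      have e : (2 - x) * (1 - t * x) - (2 - t * x) * (1 - x) = x * (1 - t) := by ring
      rw [e]; exact mul_nonneg x0 (by linarith [ht.2])
    nlinarith [mul_nonneg htx0 key]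

lemma hh_bd2 {x : ℝ} (hx : 0 ≤ x ∧ x ≤ 0.03) : x ≤ hh x ∧ hh x ≤ 1.02 * x := by
  obtain ⟨x0, x1⟩ := hx
  norm_num at x1
  have h1 : 0 < 1 - x := by linarith
  unfold hh
  constructor
  · rw [le_div_iff₀ (by positivity)]; nlinarith
  · rw [div_le_iff₀ (by positivity)]; norm_num; nlinarith

lemma ul_high2 {x y σ : ℝ} (hx : 0 ≤ x ∧ x ≤ 0.021) (hy : 0 ≤ y ∧ y ≤ 0.021) (hσ : 0 ≤ σ ∧ σ ≤ 1) :
    1 - Qm (1 - fU σ * x) (1 - σ ^ 2 * y) ≤ σ ^ 2 * (1 - Qm (1 - x) (1 - y)) := by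
  obtain ⟨w0, w1, w2⟩ := fU_bd hσ.1 hσ.2
  obtain ⟨x0, x1⟩ := hx
  obtain ⟨y0, y1⟩ := hy
  norm_num at x1 y1
  have hu0 : 0 ≤ σ ^ 2 := sq_nonneg σ
  have hu1 : σ ^ 2 ≤ 1 := pow_le_one₀ hσ.1 hσ.2
  have hd : 0 ≤ 1 - σ := by linarith [hσ.2]
  have hw : fU σ = σ ^ 2 * (0.3 + 0.7 * σ) := rfl
  have hw1 : fU σ ≤ 1 := by linarith
  have hwx : fU σ * x ≤ x := by nlinarith
  have huy : σ ^ 2 * y ≤ y := by nlinarith
  rw [Qm_eq (by linarith) (by linarith), Qm_eq (by linarith) (by linarith)]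
  have a1 := (hh_scale2 (x := x) ⟨x0, by norm_num; linarith⟩ ⟨w0, hw1⟩).1
  have a2 := (hh_scale2 (x := y) ⟨y0, by norm_num; linarith⟩ ⟨hu0, hu1⟩).1
  obtain ⟨b1, b2⟩ := hh_bd2 (x := x) ⟨x0, by norm_num; linarith⟩
  obtain ⟨b3, b4⟩ := hh_bd2 (x := y) ⟨y0, by norm_num; linarith⟩
  norm_num at b2 b4
  have hX0 : 0 ≤ hh x := by linarith
  have hY0 : 0 ≤ hh y := by linarith
  have a3 : (fU σ) ^ 2 * (σ ^ 2) ^ 2 * (hh x * hh y) ≤ hh (fU σ * x) * hh (σ ^ 2 * y) := by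
    have := mul_le_mul a1 a2 (by positivity) (le_trans (by positivity) a1)
    calc (fU σ) ^ 2 * (σ ^ 2) ^ 2 * (hh x * hh y) = (fU σ) ^ 2 * hh x * ((σ ^ 2) ^ 2 * hh y) := by ring
      _ ≤ _ := this
  have a4 : hh x * hh y ≤ 1.0404 * (x * y) := by
    have := mul_le_mul b2 b4 hY0 (by linarith : (0 : ℝ) ≤ 51 / 50 * x)
    norm_num
    linarith
  set P := hh x * hh y with hP
  have hP0 : 0 ≤ P := mul_nonneg hX0 hY0
  have hxy : x * y ≤ 0.021 * x := by norm_num; nlinarith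
  have hxy0 : 0 ≤ x * y := mul_nonneg x0 y0
  norm_num at a4 hxy
  -- `1 - w ≤ 2.7 (1 - σ)` and `1 - w² u ≤ 7.4 (1 - σ)`
  have c2 : 1 - fU σ ^ 2 * σ ^ 2 ≤ 7.4 * (1 - σ) := by
    have e1 : (1 - 2.7 * (1 - σ)) ≤ fU σ := by linarith
    have e2 : 1 - fU σ ^ 2 ≤ 2 * (2.7 * (1 - σ)) := by
      norm_num at w2 ⊢
      nlinarith
    have e3 : 1 - σ ^ 2 ≤ 2 * (1 - σ) := by nlinarith
    have e4 : 1 - fU σ ^ 2 * σ ^ 2 ≤ (1 - fU σ ^ 2) + (1 - σ ^ 2) := by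
      have : fU σ ^ 2 ≤ 1 := pow_le_one₀ w0 hw1
      nlinarith [mul_nonneg (by linarith : (0 : ℝ) ≤ 1 - fU σ ^ 2) (by linarith : (0 : ℝ) ≤ 1 - σ ^ 2)]
    norm_num at e2 ⊢
    linarith
  have k1 : σ ^ 2 * ((1 - fU σ) * (x * y)) ≤ σ ^ 2 * (2.7 * (1 - σ) * (x * y)) :=
    mul_le_mul_of_nonneg_left (mul_le_mul_of_nonneg_right w2 hxy0) hu0
  have k2 : σ ^ 2 * ((1 - fU σ ^ 2 * σ ^ 2) * P) ≤ σ ^ 2 * (7.4 * (1 - σ) * P) :=
    mul_le_mul_of_nonneg_left (mul_le_mul_of_nonneg_right c2 hP0) hu0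
  have k3 : 0 ≤ σ ^ 2 * ((1 - σ) * (0.7 * x - 2.7 * (x * y) - 3.7 * P)) := by
    apply mul_nonneg hu0 (mul_nonneg hd _)
    norm_num
    linarith
  have e : σ ^ 2 * (x + y - x * y - P / 2) - (fU σ * x + σ ^ 2 * y - fU σ * x * (σ ^ 2 * y) -
      (fU σ) ^ 2 * (σ ^ 2) ^ 2 * P / 2) = 0.7 * (σ ^ 2 * (1 - σ)) * x - σ ^ 2 * ((1 - fU σ) * (x * y)) -
      σ ^ 2 * ((1 - fU σ ^ 2 * σ ^ 2) * P) / 2 := by
    rw [hw]; norm_num; ring
  have e2 : σ ^ 2 * ((1 - σ) * (0.7 * x - 2.7 * (x * y) - 3.7 * P)) = 0.7 * (σ ^ 2 * (1 - σ)) * x -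
      σ ^ 2 * (2.7 * (1 - σ) * (x * y)) - σ ^ 2 * (7.4 * (1 - σ) * P) / 2 := by norm_num; ring
  rw [e2] at k3
  linarith

lemma gd_scale2 {v w : ℝ} (hv : 0 ≤ v) (hw : 0 ≤ w ∧ w ≤ 1) :
    gd (w * v) ≤ w * gd v + w * v ^ 2 * (1 - w) / 2 := by
  have h1 : 0 < 1 + v := by linarith
  have hwv : 0 ≤ w * v := mul_nonneg hw.1 hv
  have h2 : 0 < 1 + w * v := by linarith
  have e : w * gd v + w * v ^ 2 * (1 - w) / 2 - gd (w * v) =
      w * v ^ 2 * (1 - w) / 2 * (1 - 1 / ((1 + v) * (1 + w * v))) := by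
    unfold gd
    field_simp
    ring
  have h3 : 1 / ((1 + v) * (1 + w * v)) ≤ 1 := by
    rw [div_le_one (by positivity)]
    nlinarith [mul_nonneg hv hwv]
  have h4 : 0 ≤ w * v ^ 2 * (1 - w) / 2 * (1 - 1 / ((1 + v) * (1 + w * v))) := by
    apply mul_nonneg _ (by linarith)
    have := mul_nonneg (mul_nonneg hw.1 (sq_nonneg v)) (by linarith [hw.2] : (0 : ℝ) ≤ 1 - w)
    linarith
  rw [← e] at h4
  linarith

lemma gd_bd2 {v : ℝ} (hv : 0 ≤ v ∧ v ≤ 0.0211) : 0.989 * v ≤ gd v ∧ gd v ≤ v := by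
  obtain ⟨v0, v1⟩ := hv
  norm_num at v1
  have h1 : 0 < 1 + v := by linarith
  unfold gd
  constructor
  · rw [le_div_iff₀ (by positivity)]; norm_num; nlinarith
  · rw [div_le_iff₀ (by positivity)]; nlinarith

lemma ul_deep2 {x v w : ℝ} (hx : 0 ≤ x ∧ x ≤ 0.021) (hv : 0 ≤ v ∧ v ≤ 0.0211) (hw : 0 ≤ w ∧ w ≤ 1) :
    1 - Qm (1 - w * x) (1 - -(w * v)) ≤ w * (1 - Qm (1 - x) (1 - -v)) := by
  obtain ⟨x0, x1⟩ := hx
  norm_num at x1
  have hwx : 0 ≤ w * x := mul_nonneg hw.1 x0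
  have hwx' : w * x ≤ x := by nlinarith [hw.2]
  have hwv : 0 ≤ w * v := mul_nonneg hw.1 hv.1
  rw [Qm_eq (by linarith) (by linarith), Qm_eq (by linarith) (by linarith [hv.1]),
    hh_neg, hh_neg]
  have a1 := (hh_scale2 (x := x) ⟨x0, by norm_num; linarith⟩ hw).2
  have a2 := gd_scale2 hv.1 hw
  obtain ⟨b1, b2⟩ := hh_bd2 (x := x) ⟨x0, by norm_num; linarith⟩
  obtain ⟨b3, b4⟩ := gd_bd2 hv
  have hv2' := hv.2
  norm_num at b3 hv2'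
  have hX0 : 0 ≤ hh x := by linarith
  have hG0 : 0 ≤ gd v := gd_nonneg hv.1
  have hGw : 0 ≤ gd (w * v) := gd_nonneg hwv
  have a3 : hh (w * x) * gd (w * v) ≤ w * hh x * (w * gd v + w * v ^ 2 * (1 - w) / 2) :=
    mul_le_mul a1 a2 hGw (mul_nonneg hw.1 hX0)
  have hv2 : v ^ 2 / 2 ≤ gd v := by nlinarith [hv.1]
  have key : 0 ≤ x * v + hh x * gd v / 2 - w * hh x * v ^ 2 / 4 := by
    have c0 : w * hh x ≤ hh x := by nlinarith [hw.2]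
    have c1 : w * hh x * v ^ 2 ≤ hh x * v ^ 2 := mul_le_mul_of_nonneg_right c0 (sq_nonneg v)
    have c2 : hh x * (v ^ 2 / 2) ≤ hh x * gd v := mul_le_mul_of_nonneg_left hv2 hX0
    have c3 := mul_nonneg x0 hv.1
    linarith
  have h9 := mul_nonneg (mul_nonneg hw.1 (by linarith [hw.2] : (0 : ℝ) ≤ 1 - w)) key
  have e : w * (x + -v - x * -v - hh x * -gd v / 2) - (w * x + -(w * v) - w * x * -(w * v) +
      w * hh x * (w * gd v + w * v ^ 2 * (1 - w) / 2) / 2) =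
      w * (1 - w) * (x * v + hh x * gd v / 2 - w * hh x * v ^ 2 / 4) := by ring
  rw [← e] at h9
  have e2 : hh (w * x) * -gd (w * v) = - (hh (w * x) * gd (w * v)) := by ring
  rw [e2]
  linarith

lemma Qm_ge2 {a b : ℝ} (ha : 0.97 ≤ a ∧ a ≤ 1.03) (hb : 0.97 ≤ b ∧ b ≤ 1.03) : -1 ≤ Qm a b := by
  obtain ⟨a1, a2⟩ := ha
  obtain ⟨b1, b2⟩ := hb
  norm_num at a1 a2 b1 b2
  have pa : 0 < a := by linarith
  have pb : 0 < b := by linarith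
  unfold Qm
  have h1 : 0 < 8 * a * b := by positivity
  rw [le_div_iff₀ h1]
  nlinarith [sq_nonneg (a * b), mul_pos pa pb]

lemma chord_UL2 {σ x y : ℝ} (hσ : 0 ≤ σ ∧ σ ≤ 1) (hx : 0 ≤ x ∧ x ≤ 0.02042)
    (hy : -0.0211 ≤ y ∧ y ≤ 0.02042) :
    wd (zU (1 - fU σ * x)) (zL (1 - eN σ y)) ≤ σ * wd (zU (1 - x)) (zL (1 - y)) := by
  obtain ⟨b1, b2, -⟩ := eN_bd hσ.1 hσ.2 hy
  obtain ⟨w0, w1, w2⟩ := fU_bd hσ.1 hσ.2
  have h2 : σ ^ 2 ≤ 1 := pow_le_one₀ hσ.1 hσ.2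
  have h20 : 0 ≤ σ ^ 2 := pow_nonneg hσ.1 2
  obtain ⟨x0, x1⟩ := hx
  obtain ⟨y0, y1⟩ := hy
  norm_num at x1 y0 y1 b1 b2
  have e1 : 0 ≤ fU σ * x := mul_nonneg w0 x0
  have e2 : fU σ * x ≤ x := by nlinarith
  rw [wd_UL (by linarith) (by linarith), wd_UL (by linarith) (by linarith)]
  have hQ : -1 ≤ Qm (1 - x) (1 - y) := Qm_ge2 ⟨by norm_num; linarith, by norm_num; linarith⟩
    ⟨by norm_num; linarith, by norm_num; linarith⟩
  rcases le_or_gt 0 y with h | h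
  · have e3 : eN σ y = σ ^ 2 * y := by unfold eN; rw [if_pos h]
    rw [e3]
    exact ul_arccos (c := σ ^ 2) hσ hQ ⟨h20, le_rfl⟩ (ul_high2 ⟨x0, by norm_num; linarith⟩
      ⟨h, by norm_num; linarith⟩ hσ)
  · have e3 : eN σ y = fU σ * y := by unfold eN; rw [if_neg (not_le.2 h)]
    rw [e3]
    refine ul_arccos (c := fU σ) hσ hQ ⟨w0, w1⟩ ?_
    have := ul_deep2 (x := x) (v := -y) (w := fU σ) ⟨x0, by norm_num; linarith⟩
      ⟨by linarith, by norm_num; linarith⟩ ⟨w0, by linarith⟩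
    rw [neg_neg] at this
    rwa [show -(fU σ * -y) = fU σ * y by ring] at this

end Pool.Agent.Helper91.Kiss
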