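import Pool.Agent.Helper91.Kiss.AnyC
import Pool.Agent.Helper66.Kiss.ChordB

set_option autoImplicit false

/-! # A larger end region, fourth part: pairs with the lowest point -/

namespace Pool.Agent.Helper91.Kiss

open Real Set Filter Topology Pool.Agent.Helper66.Kiss

lemma y2_bd2 {x τ : ℝ} (hx : -0.0211 ≤ x ∧ x ≤ 0.02042) (hτ : 0 < τ ∧ τ ≤ 0.00895) :
    0 < y2 τ x ∧ y2 τ x ≤ 0.00531 := by
  obtain ⟨x1, x2⟩ := hx
  obtain ⟨t0, t1⟩ := hτ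
  norm_num at x1 x2 t1
  have h3 := sqrt3_bd
  norm_num at h3
  have h1 : 0 < 1 - x := by linarith
  have b1 : 0.3 ≤ bq (1 - x) := by
    unfold bq; rw [le_div_iff₀ (by positivity)]; norm_num; nlinarith
  have b2 : bq (1 - x) ≤ 0.3422 := by
    unfold bq; rw [div_le_iff₀ (by positivity)]; norm_num; nlinarith
  norm_num at b1
  unfold y2
  constructor
  · have : 0 < √3 := by linarith [h3.1]
    exact mul_pos (mul_pos this t0) (by linarith)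
  · have e1 : √3 * τ ≤ 17321 / 10000 * (179 / 20000) := mul_le_mul h3.2.le t1 t0.le (by norm_num)
    have e2 : √3 * τ * bq (1 - x) ≤ 17321 / 10000 * (179 / 20000) * 0.3422 :=
      mul_le_mul e1 b2 (by linarith) (by norm_num)
    norm_num at e2 ⊢
    linarith

/-- lower bound along the path, shallow lower point -/
lemma sl_hi2 {x τ σ : ℝ} (hx : 0 ≤ x ∧ x ≤ 0.0205) (hτ : 0 < τ) (hσ : 0 < σ ∧ σ ≤ 1) :
    Qp τ (1 - x) + (1 - σ) * (0.378 * Qp τ (1 - x) - 2.778 * y2 τ x) ≤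
      Qp (fS σ * τ) (1 - σ ^ 2 * x) ∧ y2 τ x ≤ Qp τ (1 - x) := by
  have h30 : 0 < √3 := Real.sqrt_pos.2 (by norm_num)
  obtain ⟨x0, x1⟩ := hx
  norm_num at x1
  have hσ0 := hσ.1
  have hs2 : σ ^ 2 ≤ 1 := pow_le_one₀ hσ.1.le hσ.2
  have hs2' : 0 < σ ^ 2 := by positivity
  have hf0 : 0 < fS σ := by unfold fS; exact mul_pos hs2' (by norm_num; linarith)
  have hsx : σ ^ 2 * x ≤ x := by nlinarith
  have hsx0 : 0 ≤ σ ^ 2 * x := mul_nonneg hs2'.le x0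
  have hx1 : 0 < 1 - x := by linarith
  have hx2 : 0 < 1 - σ ^ 2 * x := by linarith
  have hd : 0 ≤ 1 - σ := by linarith [hσ.2]
  have hhx := (hh_bd2 (x := x) ⟨x0, by norm_num; linarith⟩).1
  rw [Qp_eq (by linarith) hτ, Qp_eq (by linarith) (by positivity)]
  have hy2 : y2 τ x = √3 * τ * bq (1 - x) := rfl
  -- first part
  have k1 : fS σ * (1 + 0.378 * (1 - σ)) * hh x ≤ hh (σ ^ 2 * x) := by
    unfold hh fS
    rw [← mul_div_assoc, div_le_div_iff₀ (by positivity) (by positivity)]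
    have key : 0 ≤ (1 - σ) * ((0.022 + 0.1512 * (1 - σ)) * ((2 - x) * (1 - σ ^ 2 * x)) - x * (1 + σ)) := by
      apply mul_nonneg hd
      have e0 : (1.9795 : ℝ) * 0.9795 ≤ (2 - x) * (1 - σ ^ 2 * x) :=
        mul_le_mul (by norm_num; linarith) (by norm_num; linarith) (by norm_num) (by linarith)
      have e1 : (0.022 : ℝ) * (1.9795 * 0.9795) ≤ (0.022 + 0.1512 * (1 - σ)) * ((2 - x) * (1 - σ ^ 2 * x)) :=
        mul_le_mul (by norm_num; linarith) e0 (by norm_num) (by norm_num; linarith)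
      have e3 : x * (1 + σ) ≤ 41 / 2000 * 2 := mul_le_mul x1 (by linarith [hσ.2]) (by linarith) (by norm_num)
      norm_num at e1 e3 ⊢
      linarith
    have e : (1 - σ) * ((0.022 + 0.1512 * (1 - σ)) * ((2 - x) * (1 - σ ^ 2 * x)) - x * (1 + σ)) =
        (2 - σ ^ 2 * x) * (1 - x) - (0.6 + 0.4 * σ) * (1 + 0.378 * (1 - σ)) * (2 - x) * (1 - σ ^ 2 * x) := by
      norm_num; ring
    rw [e] at key
    have := mul_nonneg (mul_nonneg hs2'.le x0) key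
    norm_num at this ⊢
    nlinarith
  have k2 : (1 + 0.378 * (1 - σ)) * (√3 / 4 * hh x / τ) ≤ √3 / 4 * hh (σ ^ 2 * x) / (fS σ * τ) := by
    have : (1 + 0.378 * (1 - σ)) * (√3 / 4 * hh x / τ) =
        √3 / 4 * (fS σ * (1 + 0.378 * (1 - σ)) * hh x) / (fS σ * τ) := by
      field_simp
    rw [this]
    apply div_le_div_of_nonneg_right _ (by positivity)
    exact mul_le_mul_of_nonneg_left k1 (by positivity)
  -- second part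
  have k3 : (1 - 2.4 * (1 - σ)) * y2 τ x ≤ √3 * (fS σ * τ) * bq (1 - σ ^ 2 * x) := by
    have hb := bq_mono (a := 1 - x) (b := 1 - σ ^ 2 * x) hx1 (by linarith)
    have hb0 : 0 ≤ bq (1 - x) := by
      unfold bq; apply div_nonneg _ (by positivity); nlinarith
    obtain ⟨-, -, c⟩ := fS_bd hσ.1.le hσ.2
    have hy0 : 0 ≤ y2 τ x := by rw [hy2]; positivity
    calc (1 - 2.4 * (1 - σ)) * y2 τ x ≤ fS σ * y2 τ x := mul_le_mul_of_nonneg_right (by linarith) hy0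
      _ = √3 * (fS σ * τ) * bq (1 - x) := by rw [hy2]; ring
      _ ≤ _ := mul_le_mul_of_nonneg_left hb (by positivity)
  constructor
  · rw [← hy2]
    norm_num at k2 k3 ⊢
    linarith
  · rw [← hy2]
    have : 0 ≤ √3 / 4 * hh x / τ := by
      apply div_nonneg _ hτ.le
      apply mul_nonneg (by positivity); linarith
    linarith

/-- lower bound along the path, deep lower point -/
lemma sl_dp2 {v τ σ : ℝ} (hv : 0 ≤ v ∧ v ≤ 0.0211) (hτ : 0 < τ) (hσ : 0 < σ ∧ σ ≤ 1) :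
    Qp τ (1 - -v) + (1 - σ) * (-0.27 * Qp τ (1 - -v) - 2.21 * y2 τ (-v)) ≤
      Qp (fS σ * τ) (1 - -(fU σ * v)) ∧ Qp τ (1 - -v) ≤ y2 τ (-v) := by
  have h30 : 0 < √3 := Real.sqrt_pos.2 (by norm_num)
  have hσ0 := hσ.1
  obtain ⟨w0, w1, w2⟩ := fU_bd hσ.1.le hσ.2
  have hs2 : σ ^ 2 ≤ 1 := pow_le_one₀ hσ.1.le hσ.2
  have hs2' : 0 < σ ^ 2 := by positivity
  have hf0 : 0 < fS σ := by unfold fS; exact mul_pos hs2' (by norm_num; linarith)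
  have hd : 0 ≤ 1 - σ := by linarith [hσ.2]
  obtain ⟨g1, g2⟩ := gd_bd2 hv
  obtain ⟨v0, v1⟩ := hv
  norm_num at v1 g1
  replace w2 : 1 - fU σ ≤ 27 / 10 * (1 - σ) := by norm_num at w2 ⊢; linarith
  have hw1 : fU σ ≤ 1 := by linarith
  have hsv : fU σ * v ≤ v := by nlinarith
  have hsv0 : 0 ≤ fU σ * v := mul_nonneg w0 v0
  have hG0 : 0 ≤ gd v := gd_nonneg v0
  rw [Qp_eq (by linarith) hτ, Qp_eq (by linarith) (by positivity), hh_neg, hh_neg]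
  have hy2 : y2 τ (-v) = √3 * τ * bq (1 - -v) := rfl
  have k1 : gd (fU σ * v) ≤ fS σ * (1 - 0.27 * (1 - σ)) * gd v := by
    have h1 := gd_scale2 (v := v) (w := fU σ) v0 ⟨w0, hw1⟩
    have h2 : v ^ 2 * (1 - fU σ) / 2 ≤ 0.0289 * (1 - σ) * gd v := by
      have e1 : v ^ 2 * (1 - fU σ) ≤ v ^ 2 * (27 / 10 * (1 - σ)) := mul_le_mul_of_nonneg_left w2 (sq_nonneg v)
      have e2 : v ^ 2 ≤ 211 / 10000 * v := by nlinarith
      have e4 : v ^ 2 * (1 - σ) ≤ 211 / 10000 * v * (1 - σ) := mul_le_mul_of_nonneg_right e2 hd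
      have e5 : v * (1 - σ) ≤ 1000 / 989 * gd v * (1 - σ) :=
        mul_le_mul_of_nonneg_right (by linarith) hd
      norm_num
      nlinarith
    have h5 : fU σ * (v ^ 2 * (1 - fU σ) / 2) ≤ fU σ * (0.0289 * (1 - σ) * gd v) :=
      mul_le_mul_of_nonneg_left h2 w0
    have h6 : fU σ * (1 + 0.0289 * (1 - σ)) ≤ fS σ * (1 - 0.27 * (1 - σ)) := by
      have e : fS σ * (1 - 0.27 * (1 - σ)) - fU σ * (1 + 0.0289 * (1 - σ)) =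
          σ ^ 2 * (1 - σ) * (0.0011 + 0.12823 * (1 - σ)) := by
        unfold fS fU; norm_num; ring
      have := mul_nonneg (mul_nonneg hs2'.le hd) (by norm_num; linarith : (0 : ℝ) ≤ 0.0011 + 0.12823 * (1 - σ))
      linarith
    have h7 := mul_le_mul_of_nonneg_right h6 hG0
    calc gd (fU σ * v) ≤ fU σ * gd v + fU σ * v ^ 2 * (1 - fU σ) / 2 := h1
      _ = fU σ * gd v + fU σ * (v ^ 2 * (1 - fU σ) / 2) := by ring
      _ ≤ fU σ * gd v + fU σ * (0.0289 * (1 - σ) * gd v) := by linarith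
      _ = fU σ * (1 + 0.0289 * (1 - σ)) * gd v := by ring
      _ ≤ _ := h7
  have k2 : (√3 / 4 * -gd v / τ) * (1 - 0.27 * (1 - σ)) ≤
      √3 / 4 * -gd (fU σ * v) / (fS σ * τ) := by
    have : (√3 / 4 * -gd v / τ) * (1 - 0.27 * (1 - σ)) =
        √3 / 4 * (-(fS σ * (1 - 0.27 * (1 - σ)) * gd v)) / (fS σ * τ) := by
      field_simp
    rw [this]
    apply div_le_div_of_nonneg_right _ (by positivity)
    exact mul_le_mul_of_nonneg_left (by linarith) (by positivity)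
  have k3 : y2 τ (-v) * (1 - 2.48 * (1 - σ)) ≤ √3 * (fS σ * τ) * bq (1 - -(fU σ * v)) := by
    have hb1 : 1 / 3 ≤ bq (1 - -v) := by
      have h1 := bq_mono (a := 1) (b := 1 - -v) one_pos (by linarith)
      have h2 : bq 1 = 1 / 3 := by unfold bq; norm_num
      linarith
    have hl := bq_lip (a := 1 - -(fU σ * v)) (b := 1 - -v) (by linarith) (by linarith)
    have hl2 : (1 - 0.072 * (1 - σ)) * bq (1 - -v) ≤ bq (1 - -(fU σ * v)) := by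
      have e1 : v * (1 - fU σ) ≤ 211 / 10000 * (27 / 10 * (1 - σ)) :=
        mul_le_mul v1 w2 (by linarith) (by norm_num)
      have e2 : 0.072 * (1 - σ) * (1 / 3) ≤ 0.072 * (1 - σ) * bq (1 - -v) :=
        mul_le_mul_of_nonneg_left hb1 (mul_nonneg (by norm_num) hd)
      norm_num at e2 hl ⊢
      nlinarith
    obtain ⟨c0, c1, c3⟩ := fS_bd hσ.1.le hσ.2
    have c2 : 1 - 2.48 * (1 - σ) ≤ fS σ * (1 - 0.072 * (1 - σ)) := by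
      norm_num at c3 ⊢
      nlinarith [mul_nonneg (by linarith : (0 : ℝ) ≤ 1 - fS σ) hd]
    have hy0 : 0 ≤ y2 τ (-v) := by rw [hy2]; positivity
    calc y2 τ (-v) * (1 - 2.48 * (1 - σ)) ≤ y2 τ (-v) * (fS σ * (1 - 0.072 * (1 - σ))) :=
        mul_le_mul_of_nonneg_left c2 hy0
      _ = √3 * (fS σ * τ) * ((1 - 0.072 * (1 - σ)) * bq (1 - -v)) := by rw [hy2]; ring
      _ ≤ _ := mul_le_mul_of_nonneg_left hl2 (by positivity)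
  constructor
  · rw [← hy2]
    norm_num at k2 k3 ⊢
    linarith
  · rw [← hy2]
    have : 0 ≤ √3 / 4 * gd v / τ := by positivity
    have e : √3 / 4 * -gd v / τ = - (√3 / 4 * gd v / τ) := by ring
    rw [e]; linarith

/-- both bounds together -/
lemma sl_both {x τ σ : ℝ} (hx : -0.0211 ≤ x ∧ x ≤ 0.02042) (hτ : 0 < τ ∧ τ ≤ 0.00895)
    (hσ : 0 < σ ∧ σ ≤ 1) :
    (0 ≤ Qp τ (1 - x) → Qp τ (1 - x) + (1 - σ) * (0.378 * Qp τ (1 - x) - 0.0155) ≤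
      Qp (fS σ * τ) (1 - eN σ x)) ∧
    (Qp τ (1 - x) ≤ 0 → Qp τ (1 - x) + (1 - σ) * (-0.27 * Qp τ (1 - x) - 0.0118) ≤
      Qp (fS σ * τ) (1 - eN σ x)) := by
  obtain ⟨y0, y1⟩ := y2_bd2 hx hτ
  obtain ⟨x1, x2⟩ := hx
  norm_num at x1 x2 y1
  have hd : 0 ≤ 1 - σ := by linarith [hσ.2]
  rcases le_or_gt 0 x with h | h
  · have e3 : eN σ x = σ ^ 2 * x := by unfold eN; rw [if_pos h]
    rw [e3]
    obtain ⟨c1, c2⟩ := sl_hi2 (x := x) ⟨h, by norm_num; linarith⟩ hτ.1 hσ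
    constructor
    · intro _
      refine le_trans ?_ c1
      have := mul_le_mul_of_nonneg_left (by norm_num; linarith : (0.378 * Qp τ (1 - x) - 0.0155 : ℝ) ≤
        0.378 * Qp τ (1 - x) - 2.778 * y2 τ x) hd
      linarith
    · intro h5
      linarith
  · have e3 : eN σ x = -(fU σ * -x) := by unfold eN; rw [if_neg (not_le.2 h)]; ring
    rw [e3]
    obtain ⟨c1, c2⟩ := sl_dp2 (v := -x) ⟨by linarith, by norm_num; linarith⟩ hτ.1 hσ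
    rw [neg_neg] at c1 c2
    constructor
    · intro h5
      refine le_trans ?_ c1
      have := mul_le_mul_of_nonneg_left (by norm_num; linarith : (0.378 * Qp τ (1 - x) - 0.0155 : ℝ) ≤
        -0.27 * Qp τ (1 - x) - 2.21 * y2 τ x) hd
      linarith
    · intro h5
      refine le_trans ?_ c1
      have := mul_le_mul_of_nonneg_left (by norm_num; linarith : (-0.27 * Qp τ (1 - x) - 0.0118 : ℝ) ≤
        -0.27 * Qp τ (1 - x) - 2.21 * y2 τ x) hd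
      linarith

/-- the cosine stays above `-1` -/
lemma sl_pole {Q f σ : ℝ} (hσ : 0 ≤ σ ∧ σ ≤ 1) (hQ : -1 ≤ Q)
    (h1 : 0 ≤ Q → Q + (1 - σ) * (0.378 * Q - 0.0155) ≤ f)
    (h2 : Q ≤ 0 → Q + (1 - σ) * (-0.27 * Q - 0.0118) ≤ f) : -1 ≤ f := by
  have hd : 0 ≤ 1 - σ := by linarith [hσ.2]
  rcases le_total 0 Q with h | h
  · refine le_trans ?_ (h1 h)
    norm_num
    nlinarith [hσ.1, mul_nonneg hd h]
  · refine le_trans ?_ (h2 h)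
    norm_num
    nlinarith [hσ.1, mul_nonneg hd (by linarith : (0 : ℝ) ≤ -Q)]

lemma persist_num {x σ₁ σ₂ : ℝ} (hx : 0 ≤ x ∧ x ≤ 0.02042) (h2 : 1 / 2 ≤ σ₂) (h12 : σ₂ ≤ σ₁)
    (h1 : σ₁ ≤ 1) : (1 + 0.3 * (σ₁ - σ₂)) * (fS σ₂ * hh (σ₁ ^ 2 * x)) ≤ fS σ₁ * hh (σ₂ ^ 2 * x) := by
  obtain ⟨x0, x1⟩ := hx
  norm_num at x1
  have p1 : 0 < σ₁ := by linarith
  have p2 : 0 < σ₂ := by linarith
  have q1 : 0 < σ₁ ^ 2 := by positivity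
  have q2 : 0 < σ₂ ^ 2 := by positivity
  have r1 : σ₁ ^ 2 ≤ 1 := pow_le_one₀ p1.le h1
  have r2 : σ₂ ^ 2 ≤ σ₁ ^ 2 := pow_le_pow_left₀ p2.le h12 2
  have a1 : 0 ≤ σ₁ ^ 2 * x := mul_nonneg q1.le x0
  have a2 : 0 ≤ σ₂ ^ 2 * x := mul_nonneg q2.le x0
  have b1 : σ₁ ^ 2 * x ≤ x := by nlinarith
  have b2 : σ₂ ^ 2 * x ≤ σ₁ ^ 2 * x := by nlinarith
  have c1 : 0 < 1 - σ₁ ^ 2 * x := by linarith
  have c2 : 0 < 1 - σ₂ ^ 2 * x := by linarith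
  have hΔ0 : 0 ≤ σ₁ - σ₂ := by linarith
  unfold hh fS
  rw [← mul_div_assoc, ← mul_div_assoc, ← mul_div_assoc, div_le_div_iff₀ (by positivity) (by positivity)]
  have hu : σ₁ ^ 2 - σ₂ ^ 2 ≤ 2 * (σ₁ - σ₂) := by
    have : σ₁ ^ 2 - σ₂ ^ 2 = (σ₁ - σ₂) * (σ₁ + σ₂) := by ring
    rw [this]; nlinarith
  have key : 0 ≤ (0.6 + 0.4 * σ₁) * ((2 - σ₂ ^ 2 * x) * (1 - σ₁ ^ 2 * x)) -
      (1 + 0.3 * (σ₁ - σ₂)) * ((0.6 + 0.4 * σ₂) * ((2 - σ₁ ^ 2 * x) * (1 - σ₂ ^ 2 * x))) := by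
    have e0 : (1.9 : ℝ) ≤ (2 - σ₁ ^ 2 * x) * (1 - σ₂ ^ 2 * x) := by
      have := mul_le_mul (a := 1.97) (b := 2 - σ₁ ^ 2 * x) (c := 0.97) (d := 1 - σ₂ ^ 2 * x)
        (by norm_num; linarith) (by norm_num; linarith) (by norm_num) (by linarith)
      norm_num at this ⊢
      linarith
    have e : (0.6 + 0.4 * σ₁) * ((2 - σ₂ ^ 2 * x) * (1 - σ₁ ^ 2 * x)) -
        (1 + 0.3 * (σ₁ - σ₂)) * ((0.6 + 0.4 * σ₂) * ((2 - σ₁ ^ 2 * x) * (1 - σ₂ ^ 2 * x))) =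
        (σ₁ - σ₂) * ((0.4 - 0.3 * (0.6 + 0.4 * σ₂)) * ((2 - σ₁ ^ 2 * x) * (1 - σ₂ ^ 2 * x))) -
        (0.6 + 0.4 * σ₁) * (x * (σ₁ ^ 2 - σ₂ ^ 2)) := by
      norm_num; ring
    rw [e]
    have e2 : (0.6 + 0.4 * σ₁) * (x * (σ₁ ^ 2 - σ₂ ^ 2)) ≤ 1 * (1021 / 50000 * (2 * (σ₁ - σ₂))) := by
      refine mul_le_mul (by norm_num; linarith) (mul_le_mul x1 hu (by linarith) (by norm_num)) ?_ (by norm_num)
      exact mul_nonneg x0 (by linarith)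
    have e3 : (0.1 : ℝ) * 1.9 ≤ (0.4 - 0.3 * (0.6 + 0.4 * σ₂)) * ((2 - σ₁ ^ 2 * x) * (1 - σ₂ ^ 2 * x)) :=
      mul_le_mul (by norm_num; linarith) e0 (by norm_num) (by norm_num; linarith)
    have e4 := mul_le_mul_of_nonneg_left e3 hΔ0
    norm_num at e2 e4 ⊢
    linarith
  have h9 := mul_nonneg (mul_nonneg (mul_nonneg q1.le q2.le) x0) key
  have e9 : 2 * (σ₁ ^ 2 * σ₂ ^ 2 * x * ((0.6 + 0.4 * σ₁) * ((2 - σ₂ ^ 2 * x) * (1 - σ₁ ^ 2 * x)) -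
      (1 + 0.3 * (σ₁ - σ₂)) * ((0.6 + 0.4 * σ₂) * ((2 - σ₁ ^ 2 * x) * (1 - σ₂ ^ 2 * x))))) =
      σ₁ ^ 2 * (0.6 + 0.4 * σ₁) * (σ₂ ^ 2 * x * (2 - σ₂ ^ 2 * x)) * (2 * (1 - σ₁ ^ 2 * x)) -
      (1 + 0.3 * (σ₁ - σ₂)) * (σ₂ ^ 2 * (0.6 + 0.4 * σ₂) * (σ₁ ^ 2 * x * (2 - σ₁ ^ 2 * x))) *
        (2 * (1 - σ₂ ^ 2 * x)) := by ring
  linarith

/-- a free pair stays free -/
lemma sl_persist {x τ σ₁ σ₂ : ℝ} (hx : 0 ≤ x ∧ x ≤ 0.02042) (hτ : 0 < τ ∧ τ ≤ 0.00895)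
    (h2 : 1 / 2 ≤ σ₂) (h12 : σ₂ ≤ σ₁) (h1 : σ₁ ≤ 1) (h : 1 ≤ Qp (fS σ₁ * τ) (1 - σ₁ ^ 2 * x)) :
    1 ≤ Qp (fS σ₂ * τ) (1 - σ₂ ^ 2 * x) := by
  have h30 : 0 < √3 := Real.sqrt_pos.2 (by norm_num)
  have k1 := persist_num hx h2 h12 h1
  obtain ⟨x0, x1⟩ := hx
  norm_num at x1
  have p1 : 0 < σ₁ := by linarith
  have p2 : 0 < σ₂ := by linarith
  have q1 : 0 < σ₁ ^ 2 := by positivity
  have q2 : 0 < σ₂ ^ 2 := by positivity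
  have r1 : σ₁ ^ 2 ≤ 1 := pow_le_one₀ p1.le h1
  have r2 : σ₂ ^ 2 ≤ σ₁ ^ 2 := pow_le_pow_left₀ p2.le h12 2
  have f1 : 0 < fS σ₁ := by unfold fS; exact mul_pos q1 (by norm_num; linarith)
  have f2 : 0 < fS σ₂ := by unfold fS; exact mul_pos q2 (by norm_num; linarith)
  have a1 : 0 ≤ σ₁ ^ 2 * x := mul_nonneg q1.le x0
  have a2 : 0 ≤ σ₂ ^ 2 * x := mul_nonneg q2.le x0
  have b1 : σ₁ ^ 2 * x ≤ x := by nlinarith
  have b2 : σ₂ ^ 2 * x ≤ σ₁ ^ 2 * x := by nlinarith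
  have c1 : 0 < 1 - σ₁ ^ 2 * x := by linarith
  have c2 : 0 < 1 - σ₂ ^ 2 * x := by linarith
  have t0 := hτ.1
  have hb := bq_mono (a := 1 - σ₁ ^ 2 * x) (b := 1 - σ₂ ^ 2 * x) c1 (by linarith)
  have hy := y2_bd2 (x := σ₁ ^ 2 * x) (τ := τ) ⟨by norm_num; linarith, by norm_num; linarith⟩ hτ
  have hy2 : y2 τ (σ₁ ^ 2 * x) = √3 * τ * bq (1 - σ₁ ^ 2 * x) := rfl
  rw [Qp_eq (by linarith) (by positivity)] at h ⊢
  have hΔ0 : 0 ≤ σ₁ - σ₂ := by linarith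
  have k2 : (1 + 0.3 * (σ₁ - σ₂)) * (√3 / 4 * hh (σ₁ ^ 2 * x) / (fS σ₁ * τ)) ≤
      √3 / 4 * hh (σ₂ ^ 2 * x) / (fS σ₂ * τ) := by
    rw [← mul_div_assoc, div_le_div_iff₀ (by positivity) (by positivity)]
    calc (1 + 0.3 * (σ₁ - σ₂)) * (√3 / 4 * hh (σ₁ ^ 2 * x)) * (fS σ₂ * τ) =
        √3 / 4 * τ * ((1 + 0.3 * (σ₁ - σ₂)) * (fS σ₂ * hh (σ₁ ^ 2 * x))) := by ring
      _ ≤ √3 / 4 * τ * (fS σ₁ * hh (σ₂ ^ 2 * x)) := mul_le_mul_of_nonneg_left k1 (by positivity)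
      _ = √3 / 4 * hh (σ₂ ^ 2 * x) * (fS σ₁ * τ) := by ring
  have e4 : √3 * (fS σ₁ * τ) * bq (1 - σ₁ ^ 2 * x) = fS σ₁ * y2 τ (σ₁ ^ 2 * x) := by rw [hy2]; ring
  have e5 : √3 * (fS σ₂ * τ) * bq (1 - σ₁ ^ 2 * x) = fS σ₂ * y2 τ (σ₁ ^ 2 * x) := by rw [hy2]; ring
  have e1 : √3 * (fS σ₂ * τ) * bq (1 - σ₁ ^ 2 * x) ≤ √3 * (fS σ₂ * τ) * bq (1 - σ₂ ^ 2 * x) :=
    mul_le_mul_of_nonneg_left hb (by positivity)
  rw [e4] at h
  rw [e5] at e1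
  have hfd : fS σ₁ - fS σ₂ ≤ 2.4 * (σ₁ - σ₂) := by
    have e : 2.4 * (σ₁ - σ₂) - (fS σ₁ - fS σ₂) = (σ₁ - σ₂) * (2.4 - 0.6 * (σ₁ + σ₂) -
        0.4 * (σ₁ ^ 2 + σ₁ * σ₂ + σ₂ ^ 2)) := by
      unfold fS; norm_num; ring
    have e2 : σ₁ * σ₂ ≤ 1 := by nlinarith
    have := mul_nonneg hΔ0 (by norm_num; linarith : (0 : ℝ) ≤ 2.4 - 0.6 * (σ₁ + σ₂) -
        0.4 * (σ₁ ^ 2 + σ₁ * σ₂ + σ₂ ^ 2))
    linarith
  have e2 : (fS σ₁ - fS σ₂) * y2 τ (σ₁ ^ 2 * x) ≤ 2.4 * (σ₁ - σ₂) * y2 τ (σ₁ ^ 2 * x) :=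
    mul_le_mul_of_nonneg_right hfd hy.1.le
  have e3 : (σ₁ - σ₂) * y2 τ (σ₁ ^ 2 * x) ≤ (σ₁ - σ₂) * 0.00531 := mul_le_mul_of_nonneg_left hy.2 hΔ0
  have k4 : fS σ₁ * y2 τ (σ₁ ^ 2 * x) ≤ 1 * 0.00531 :=
    mul_le_mul (fS_bd p1.le h1).2.1 hy.2 hy.1.le (by norm_num)
  generalize √3 / 4 * hh (σ₁ ^ 2 * x) / (fS σ₁ * τ) = A at *
  generalize √3 / 4 * hh (σ₂ ^ 2 * x) / (fS σ₂ * τ) = A2 at *
  generalize √3 * (fS σ₂ * τ) * bq (1 - σ₂ ^ 2 * x) = B2 at *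
  generalize y2 τ (σ₁ ^ 2 * x) = Y at *
  generalize fS σ₁ = F1 at *
  generalize fS σ₂ = F2 at *
  have hA1 : 0.99 ≤ A := by norm_num at k4 ⊢; linarith
  have h9 := mul_le_mul_of_nonneg_left hA1 hΔ0
  norm_num at h9 k2 e2 e3
  generalize σ₁ - σ₂ = Δ at *
  have k5 : A + 3 / 10 * (Δ * A) ≤ A2 := by linarith
  have k6 : F1 * Y - F2 * Y ≤ 12 / 5 * (Δ * Y) := by linarith
  linarith

/-- deep pairs are never free -/
lemma sl_deep_lt {x τ : ℝ} (hx : -0.0211 ≤ x ∧ x ≤ 0) (hτ : 0 < τ ∧ τ ≤ 0.00895) :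
    Qp τ (1 - x) < 1 := by
  obtain ⟨y0, y1⟩ := y2_bd2 (x := x) (τ := τ) ⟨hx.1, by linarith [hx.2]⟩ hτ
  obtain ⟨-, c2⟩ := sl_dp2 (v := -x) (τ := τ) (σ := 1) ⟨by linarith [hx.2], by linarith [hx.1]⟩ hτ.1 (by norm_num)
  rw [neg_neg] at c2
  norm_num at y1
  linarith

end Pool.Agent.Helper91.Kiss
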