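import Pool.Agent.Helper91.Kiss.AltC
import Pool.Agent.Helper66.Kiss.EndMain
import Pool.Agent.Helper91.Kiss.AnyD
import Pool.Agent.Helper91.Kiss.AnyB

set_option autoImplicit false

/-! # A larger end region, seventh part: region and path -/

namespace Pool.Agent.Helper91.Kiss

open Real Set Filter Topology Pool.Agent.Helper66.Kiss

/-- heights of the larger end region -/
structure E2 (z : Fin 11 → ℝ) (s : Fin 11) (U : Finset (Fin 11)) : Prop where
  sU : s ∉ U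
  card : U.card = 5
  sz : z s ≤ -0.99984
  up : ∀ k ∈ U, 0.48437 ≤ z k ∧ z k ≤ 1 / 2
  lo : ∀ k, k ∉ U → k ≠ s → -0.51545 ≤ z k ∧ z k ≤ -0.48437

lemma aU_bd_U2 {z : ℝ} (h1 : 0.48437 ≤ z) (h2 : z ≤ 1 / 2) :
    0 ≤ 1 - aU z ∧ 1 - aU z ≤ 0.02042 := by
  norm_num at h1
  have hz : -1 < z ∧ z < 1 := ⟨by linarith, by linarith⟩
  have h0 := aU_pos hz
  have hs := aU_sq hz
  have hd : 0 < 3 * (1 - z) := by linarith
  have e1 : (0.97958 : ℝ) ^ 2 ≤ aU z ^ 2 := by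
    rw [hs, le_div_iff₀ hd]; norm_num; linarith
  have e2 : aU z ^ 2 ≤ 1 := by
    rw [hs, div_le_iff₀ hd]; linarith
  constructor
  · nlinarith
  · by_contra hcon
    push Not at hcon
    norm_num at hcon e1
    nlinarith

lemma aU_bd_L2 {z : ℝ} (h1 : -0.51545 ≤ z) (h2 : z ≤ -0.48437) :
    -0.0211 ≤ 1 - aU (-z) ∧ 1 - aU (-z) ≤ 0.02042 := by
  norm_num at h1 h2
  have hz : -1 < -z ∧ -z < 1 := ⟨by linarith, by linarith⟩
  have h0 := aU_pos hz
  have hs := aU_sq hz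
  have hd : 0 < 3 * (1 - -z) := by linarith
  have e1 : (0.97958 : ℝ) ^ 2 ≤ aU (-z) ^ 2 := by
    rw [hs, le_div_iff₀ hd]; norm_num; linarith
  have e2 : aU (-z) ^ 2 ≤ 1.0211 ^ 2 := by
    rw [hs, div_le_iff₀ hd]; norm_num; linarith
  constructor
  · by_contra hcon
    push Not at hcon
    norm_num at hcon e2
    nlinarith
  · by_contra hcon
    push Not at hcon
    norm_num at hcon e1
    nlinarith

lemma tS_bd2 {z : ℝ} (h0 : -1 < z) (h1 : z ≤ -0.99984) : 0 < tS z ∧ tS z ≤ 0.00895 := by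
  norm_num at h1
  have hz : -1 < z ∧ z < 1 := ⟨h0, by linarith⟩
  refine ⟨tS_pos hz, ?_⟩
  have hs := tS_sq hz
  have hd : 0 < 1 - z := by linarith
  have e2 : tS z ^ 2 ≤ 0.00895 ^ 2 := by
    rw [hs, div_le_iff₀ hd]; norm_num; linarith
  have := tS_pos hz
  by_contra hcon
  push Not at hcon
  norm_num at hcon e2
  nlinarith

/-- the height path -/
noncomputable def zq (s : Fin 11) (U : Finset (Fin 11)) (z : Fin 11 → ℝ) (t : ℝ) (k : Fin 11) : ℝ :=
  if k = s then zS (fS (1 - t / 2) * tS (z s)) else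
    if k ∈ U then zU (1 - fU (1 - t / 2) * xc U z k) else zL (1 - eN (1 - t / 2) (xc U z k))

lemma zq_cont (s : Fin 11) (U : Finset (Fin 11)) (z : Fin 11 → ℝ) (k : Fin 11) :
    Continuous fun t => zq s U z t k := by
  unfold zq
  by_cases hk : k = s
  · simp only [hk, if_true]
    exact continuous_zS.comp (by unfold fS; fun_prop)
  by_cases hU : k ∈ U
  · simp only [hk, if_false, hU, if_true]
    exact continuous_zU.comp (by unfold fU; fun_prop)
  · simp only [hk, if_false, hU]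
    refine continuous_zL.comp (continuous_const.sub ?_)
    unfold eN
    split_ifs
    · fun_prop
    · unfold fU; fun_prop

section

variable {z : Fin 11 → ℝ} {s : Fin 11} {U : Finset (Fin 11)}

lemma E2.range (h : E2 z s U) (hs : -1 < z s) (k : Fin 11) : -1 < z k ∧ z k ≤ 1 / 2 := by
  by_cases hk : k = s
  · subst hk
    have := h.sz
    norm_num at this
    exact ⟨hs, by linarith⟩
  by_cases hU : k ∈ U
  · have := h.up k hU
    norm_num at this ⊢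
    exact ⟨by linarith [this.1], this.2⟩
  · have := h.lo k hU hk
    norm_num at this
    constructor <;> linarith [this.1, this.2]

lemma E2.xU (h : E2 z s U) {k : Fin 11} (hk : k ∈ U) :
    (0 ≤ xc U z k ∧ xc U z k ≤ 0.02042) ∧ z k = zU (1 - xc U z k) := by
  have hb := h.up k hk
  have hb' := hb
  norm_num at hb'
  have e : xc U z k = 1 - aU (z k) := by unfold xc; rw [if_pos hk]
  rw [e, sub_sub_cancel, zU_aU ⟨by linarith [hb'.1], by linarith [hb'.2]⟩]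
  exact ⟨aU_bd_U2 hb.1 hb.2, rfl⟩

lemma E2.xL (h : E2 z s U) {k : Fin 11} (hk : k ∉ U) (hks : k ≠ s) :
    (-0.0211 ≤ xc U z k ∧ xc U z k ≤ 0.02042) ∧ z k = zL (1 - xc U z k) := by
  have hb := h.lo k hk hks
  have hb' := hb
  norm_num at hb'
  have e : xc U z k = 1 - aU (-(z k)) := by unfold xc; rw [if_neg hk]
  rw [e, sub_sub_cancel, zL_aU ⟨by linarith [hb'.1], by linarith [hb'.2]⟩]
  exact ⟨aU_bd_L2 hb.1 hb.2, rfl⟩

lemma zq_s (t : ℝ) : zq s U z t s = zS (fS (1 - t / 2) * tS (z s)) := by unfold zq; rw [if_pos rfl]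

lemma zq_U {k : Fin 11} (hks : k ≠ s) (hk : k ∈ U) (t : ℝ) :
    zq s U z t k = zU (1 - fU (1 - t / 2) * xc U z k) := by unfold zq; rw [if_neg hks, if_pos hk]

lemma zq_L {k : Fin 11} (hks : k ≠ s) (hk : k ∉ U) (t : ℝ) :
    zq s U z t k = zL (1 - eN (1 - t / 2) (xc U z k)) := by unfold zq; rw [if_neg hks, if_neg hk]

lemma fU_one : fU 1 = 1 := by unfold fU; norm_num
lemma fS_one : fS 1 = 1 := by unfold fS; norm_num
lemma eN_one (x : ℝ) : eN 1 x = x := by unfold eN; rw [fU_one]; split_ifs <;> ring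

lemma zq_zero (h : E2 z s U) (hs : -1 < z s) : zq s U z 0 = z := by
  have e0 : (1 : ℝ) - 0 / 2 = 1 := by norm_num
  funext k
  rcases typ s U k with rfl | ⟨h1, h2⟩ | ⟨h1, h2⟩
  · rw [zq_s, e0, fS_one, one_mul]
    have := h.sz
    norm_num at this
    exact zS_tS ⟨hs, by linarith⟩
  · rw [zq_U h1 h2, e0, fU_one, one_mul]
    exact (h.xU h2).2.symm
  · rw [zq_L h1 h2, e0, eN_one]
    exact (h.xL h2 h1).2.symm

lemma sg {t : ℝ} (ht : t ∈ Icc (0 : ℝ) 1) : 1 / 2 ≤ 1 - t / 2 ∧ 1 - t / 2 ≤ 1 := by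
  constructor <;> linarith [ht.1, ht.2]

lemma zq_bd_U (h : E2 z s U) {t : ℝ} (ht : t ∈ Icc (0 : ℝ) 1) {k : Fin 11} (hks : k ≠ s)
    (hk : k ∈ U) : 0.4 < zq s U z t k ∧ zq s U z t k ≤ 1 / 2 := by
  rw [zq_U hks hk]
  obtain ⟨x0, x1⟩ := (h.xU hk).1
  norm_num at x1
  obtain ⟨s0, s1⟩ := sg ht
  obtain ⟨w0, w1, w2⟩ := fU_bd (by linarith : 0 ≤ 1 - t / 2) s1
  have hs2 : (1 - t / 2) ^ 2 ≤ 1 := pow_le_one₀ (by linarith) s1
  have e1 : 0 ≤ fU (1 - t / 2) * xc U z k := mul_nonneg w0 x0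
  have e2 : fU (1 - t / 2) * xc U z k ≤ xc U z k := by nlinarith
  exact zU_range ⟨by norm_num; linarith, by linarith⟩

lemma zL_range2 {a : ℝ} (ha : 0.97 ≤ a ∧ a ≤ 1.0212) : -0.52 ≤ zL a ∧ zL a < -0.47 := by
  obtain ⟨a1, a2⟩ := ha
  norm_num at a1 a2
  unfold zL
  have h1 : 0 < 3 * a ^ 2 + 1 := by positivity
  constructor
  · rw [le_div_iff₀ h1]; norm_num; nlinarith
  · rw [div_lt_iff₀ h1]; norm_num; nlinarith

lemma zq_bd_L (h : E2 z s U) {t : ℝ} (ht : t ∈ Icc (0 : ℝ) 1) {k : Fin 11} (hks : k ≠ s)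
    (hk : k ∉ U) : -0.52 ≤ zq s U z t k ∧ zq s U z t k < -0.47 := by
  rw [zq_L hks hk]
  obtain ⟨s0, s1⟩ := sg ht
  obtain ⟨e1, e2, -⟩ := eN_bd (by linarith : 0 ≤ 1 - t / 2) s1 (h.xL hk hks).1
  norm_num at e1 e2
  exact zL_range2 ⟨by norm_num; linarith, by norm_num; linarith⟩

lemma zq_bd_s (h : E2 z s U) (hs : -1 < z s) {t : ℝ} (ht : t ∈ Icc (0 : ℝ) 1) :
    -1 < zq s U z t s ∧ zq s U z t s ≤ -0.99 := by
  rw [zq_s]
  obtain ⟨s0, s1⟩ := sg ht
  obtain ⟨t0, t1⟩ := tS_bd2 hs h.sz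
  have f0 : 0 < fS (1 - t / 2) := by
    unfold fS
    have : 0 < (1 - t / 2) ^ 2 := by have : 0 < 1 - t / 2 := by linarith
                                     positivity
    exact mul_pos this (by norm_num; linarith)
  have f1 := (fS_bd (by linarith : 0 ≤ 1 - t / 2) s1).2.1
  have p0 : 0 < fS (1 - t / 2) * tS (z s) := mul_pos f0 t0
  have p1 : fS (1 - t / 2) * tS (z s) ≤ 0.00895 := by nlinarith
  generalize fS (1 - t / 2) * tS (z s) = τ at *
  norm_num at p1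
  unfold zS
  have h1 : 0 < 1 + τ ^ 2 := by positivity
  have h2 : 0 < τ ^ 2 := by positivity
  constructor
  · rw [lt_div_iff₀ h1]; linarith
  · rw [div_le_iff₀ h1]; norm_num; nlinarith

lemma zq_rangeK (h : E2 z s U) {t : ℝ} (ht : t ∈ Icc (0 : ℝ) 1) {k : Fin 11} (hks : k ≠ s) :
    -0.52 ≤ zq s U z t k ∧ zq s U z t k ≤ 1 / 2 := by
  by_cases hk : k ∈ U
  · have := zq_bd_U h ht hks hk
    norm_num at this ⊢
    exact ⟨by linarith [this.1], this.2⟩
  · have := zq_bd_L h ht hks hk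
    norm_num at this ⊢
    exact ⟨this.1, by linarith [this.2]⟩

lemma zq_range (h : E2 z s U) (hs : -1 < z s) {t : ℝ} (ht : t ∈ Icc (0 : ℝ) 1) (k : Fin 11) :
    -1 < zq s U z t k ∧ zq s U z t k ≤ 1 / 2 := by
  by_cases hk : k = s
  · subst hk
    have := zq_bd_s h hs ht
    norm_num at this
    exact ⟨this.1, by linarith [this.2]⟩
  · have := zq_rangeK h ht hk
    norm_num at this
    exact ⟨by linarith [this.1], by linarith [this.2]⟩

lemma RR_SL {τ a : ℝ} (hτ : 0 < τ) (ha : 0 < a) : RR (zS τ) (zL a) = Qp τ a := by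
  have h2 : 0 < 1 + τ ^ 2 := by positivity
  have h30 : 0 < √3 := Real.sqrt_pos.2 (by norm_num)
  unfold RR
  rw [sqrt_zS hτ, sqrt_zL ha]
  unfold Qp zS zL
  field_simp
  ring

/-- data of a pair with the lowest point along the path -/
lemma E2.sl (h : E2 z s U) (hs : -1 < z s) (hp : ∀ k, k ≠ s → -1 ≤ RR (z s) (z k)) {t : ℝ}
    (ht : t ∈ Icc (0 : ℝ) 1) {k : Fin 11} (hks : k ≠ s) (hk : k ∉ U) :
    -1 ≤ Qp (tS (z s)) (1 - xc U z k) ∧ wd (z s) (z k) = arccos (Qp (tS (z s)) (1 - xc U z k)) ∧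
    RR (zq s U z t s) (zq s U z t k) =
      Qp (fS (1 - t / 2) * tS (z s)) (1 - eN (1 - t / 2) (xc U z k)) ∧
    wd (zq s U z t s) (zq s U z t k) =
      arccos (Qp (fS (1 - t / 2) * tS (z s)) (1 - eN (1 - t / 2) (xc U z k))) := by
  obtain ⟨hx, hz⟩ := h.xL hk hks
  obtain ⟨t0, t1⟩ := tS_bd2 hs h.sz
  obtain ⟨s0, s1⟩ := sg ht
  have f0 : 0 < fS (1 - t / 2) := by
    unfold fS
    have : 0 < (1 - t / 2) ^ 2 := by have : 0 < 1 - t / 2 := by linarith
                                     positivity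
    exact mul_pos this (by norm_num; linarith)
  obtain ⟨e1, e2, -⟩ := eN_bd (by linarith : 0 ≤ 1 - t / 2) s1 hx
  norm_num at e1 e2
  have hsz := h.sz
  norm_num at hsz
  have hx' := hx
  norm_num at hx'
  have hzs : zS (tS (z s)) = z s := zS_tS ⟨hs, by linarith⟩
  have hR : RR (z s) (z k) = Qp (tS (z s)) (1 - xc U z k) := by
    conv_lhs => rw [← hzs, hz]
    exact RR_SL t0 (by linarith [hx'.2])
  refine ⟨?_, ?_, ?_, ?_⟩
  · rw [← hR]; exact hp k hks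
  · conv_lhs => rw [← hzs, hz]
    exact wd_SL t0 (by linarith [hx'.2])
  · rw [zq_s, zq_L hks hk]
    exact RR_SL (mul_pos f0 t0) (by linarith)
  · rw [zq_s, zq_L hks hk]
    exact wd_SL (mul_pos f0 t0) (by linarith)

lemma E2.both (h : E2 z s U) (hs : -1 < z s) {t : ℝ} (ht : t ∈ Icc (0 : ℝ) 1) {k : Fin 11}
    (hks : k ≠ s) (hk : k ∉ U) :
    (0 ≤ Qp (tS (z s)) (1 - xc U z k) → Qp (tS (z s)) (1 - xc U z k) +
      (1 - (1 - t / 2)) * (0.378 * Qp (tS (z s)) (1 - xc U z k) - 0.0155) ≤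
      Qp (fS (1 - t / 2) * tS (z s)) (1 - eN (1 - t / 2) (xc U z k))) ∧
    (Qp (tS (z s)) (1 - xc U z k) ≤ 0 → Qp (tS (z s)) (1 - xc U z k) +
      (1 - (1 - t / 2)) * (-0.27 * Qp (tS (z s)) (1 - xc U z k) - 0.0118) ≤
      Qp (fS (1 - t / 2) * tS (z s)) (1 - eN (1 - t / 2) (xc U z k))) :=
  sl_both (σ := 1 - t / 2) (h.xL hk hks).1 (tS_bd2 hs h.sz) ⟨by linarith [(sg ht).1], (sg ht).2⟩

lemma E2.su (h : E2 z s U) (hs : -1 < z s) {t : ℝ} (ht : t ∈ Icc (0 : ℝ) 1) {k : Fin 11}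
    (hk : k ∈ U) : 1 ≤ RR (zq s U z t s) (zq s U z t k) := by
  have hks : k ≠ s := fun he => h.sU (he ▸ hk)
  have a := zq_bd_s h hs ht
  have b := zq_bd_U h ht hks hk
  norm_num at a b
  exact RR_su a.1 (by norm_num; linarith [a.2]) (by linarith [b.1]) (by linarith [b.2])

/-- good height path -/
lemma gpath_E (h : E2 z s U) (hs : -1 < z s) (hp : ∀ k, k ≠ s → -1 ≤ RR (z s) (z k)) :
    GPath (fun i j => i ≠ s ∧ j ≠ s) (zq s U z) := by
  have pole0 : ∀ t ∈ Icc (0 : ℝ) 1, ∀ k, k ≠ s → -1 ≤ RR (zq s U z t s) (zq s U z t k) := by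
    intro t ht k hk
    by_cases hU : k ∈ U
    · linarith [h.su hs ht hU]
    · obtain ⟨a1, -, a3, -⟩ := h.sl hs hp ht hk hU
      obtain ⟨b1, b2⟩ := h.both hs ht hk hU
      rw [a3]
      exact sl_pole ⟨by linarith [(sg ht).1], (sg ht).2⟩ a1 b1 b2
  have key : ∀ j, j ≠ s → ∀ t₁ t₂, 0 ≤ t₁ → t₁ ≤ t₂ → t₂ ≤ 1 →
      1 ≤ RR (zq s U z t₁ s) (zq s U z t₁ j) → 1 ≤ RR (zq s U z t₂ s) (zq s U z t₂ j) := by
    intro j hj t₁ t₂ h0 h12 h1 hR
    have m1 : t₁ ∈ Icc (0 : ℝ) 1 := ⟨h0, by linarith⟩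
    have m2 : t₂ ∈ Icc (0 : ℝ) 1 := ⟨by linarith, h1⟩
    by_cases hU : j ∈ U
    · exact h.su hs m2 hU
    · obtain ⟨-, -, a3, -⟩ := h.sl hs hp m1 hj hU
      obtain ⟨-, -, c3, -⟩ := h.sl hs hp m2 hj hU
      have hx := (h.xL hU hj).1
      have hτ := tS_bd2 hs h.sz
      rw [a3] at hR
      rw [c3]
      rcases le_or_gt 0 (xc U z j) with h5 | h5
      · have e3 : ∀ σ, eN σ (xc U z j) = σ ^ 2 * xc U z j := fun σ => by unfold eN; rw [if_pos h5]
        rw [e3] at hR ⊢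
        exact sl_persist ⟨h5, hx.2⟩ hτ (sg m2).1 (by linarith) (sg m1).2 hR
      · exfalso
        obtain ⟨w0, w1, w2⟩ := fU_bd (by linarith [(sg m1).1] : 0 ≤ 1 - t₁ / 2) (sg m1).2
        have hs2 : (1 - t₁ / 2) ^ 2 ≤ 1 := pow_le_one₀ (by linarith [(sg m1).1]) (sg m1).2
        have f0 : 0 < fS (1 - t₁ / 2) := by
          unfold fS
          have : 0 < (1 - t₁ / 2) ^ 2 := by have : 0 < 1 - t₁ / 2 := by linarith [(sg m1).1]
                                            positivity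
          exact mul_pos this (by norm_num; linarith [m1.2])
        have f1 := (fS_bd (by linarith [(sg m1).1] : 0 ≤ 1 - t₁ / 2) (sg m1).2).2.1
        have e3 : eN (1 - t₁ / 2) (xc U z j) = fU (1 - t₁ / 2) * xc U z j := by
          unfold eN; rw [if_neg (not_le.2 h5)]
        rw [e3] at hR
        have hx1 := hx.1
        norm_num at hx1
        have := sl_deep_lt (x := fU (1 - t₁ / 2) * xc U z j) (τ := fS (1 - t₁ / 2) * tS (z s))
          ⟨by norm_num; nlinarith, mul_nonpos_of_nonneg_of_nonpos w0 h5.le⟩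
          ⟨mul_pos f0 hτ.1, by nlinarith [hτ.1, hτ.2]⟩
        linarith
  refine ⟨fun i j h => ⟨h.2, h.1⟩, fun k => (zq_cont s U z k).continuousOn,
    fun t ht k => zq_range h hs ht k, ?_, ?_, ?_⟩
  · intro i j hij hK t₁ t₂ h0 h12 h1 hR
    by_cases hi : i = s
    · subst hi
      exact key j (Ne.symm hij) t₁ t₂ h0 h12 h1 hR
    · have hj : j = s := by
        by_contra hj
        exact hK ⟨hi, hj⟩
      subst hj
      rw [RR_comm] at hR ⊢
      exact key i hi t₁ t₂ h0 h12 h1 hR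
  · rintro t ht i j hij ⟨hi, hj⟩
    have a := zq_rangeK h ht hi
    have c := zq_rangeK h ht hj
    exact vert_kk a.1 a.2 c.1 c.2
  · intro t ht i j hij
    by_cases hi : i = s
    · subst hi
      exact pole0 t ht j (Ne.symm hij)
    by_cases hj : j = s
    · subst hj
      rw [RR_comm]
      exact pole0 t ht i hi
    have a := zq_rangeK h ht hi
    have c := zq_rangeK h ht hj
    exact RR_ge_neg a.1 a.2 c.1 c.2

/-! ## the pairs away from the lowest point -/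

lemma E2.lowUU (h : E2 z s U) {i j : Fin 11} (hi : i ∈ U) (hj : j ∈ U) :
    CC - 0.04 ≤ wd (z i) (z j) := by
  obtain ⟨⟨x0, x1⟩, a2⟩ := h.xU hi
  obtain ⟨⟨y0, y1⟩, b2⟩ := h.xU hj
  rw [a2, b2]
  have x1' := x1
  have y1' := y1
  norm_num at x1' y1'
  rw [wd_UU (by linarith) (by linarith)]
  exact low_same ⟨by norm_num; linarith, x1⟩ ⟨by norm_num; linarith, y1⟩

lemma E2.lowLL (h : E2 z s U) {i j : Fin 11} (hi : i ∉ U) (his : i ≠ s) (hj : j ∉ U) (hjs : j ≠ s) :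
    CC - 0.04 ≤ wd (z i) (z j) := by
  obtain ⟨hx, a2⟩ := h.xL hi his
  obtain ⟨hy, b2⟩ := h.xL hj hjs
  rw [a2, b2]
  have hx' := hx.2
  have hy' := hy.2
  norm_num at hx' hy'
  rw [wd_LL (by linarith) (by linarith)]
  exact low_same hx hy

lemma E2.chUU (h : E2 z s U) {t : ℝ} (ht : t ∈ Icc (0 : ℝ) 1) {i j : Fin 11} (hi : i ∈ U)
    (his : i ≠ s) (hj : j ∈ U) (hjs : j ≠ s) : wd (zq s U z t i) (zq s U z t j) ≤
      (1 - t / 2) * wd (z i) (z j) + (1 - (1 - t / 2)) * CC := by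
  obtain ⟨a1, a2⟩ := h.xU hi
  obtain ⟨b1, b2⟩ := h.xU hj
  have := chord_UU2 (σ := 1 - t / 2) ⟨by linarith [(sg ht).1], (sg ht).2⟩ a1 b1
  rw [← a2, ← b2] at this
  rw [zq_U his hi, zq_U hjs hj]
  exact this

lemma E2.chLL (h : E2 z s U) {t : ℝ} (ht : t ∈ Icc (0 : ℝ) 1) {i j : Fin 11} (hi : i ∉ U)
    (his : i ≠ s) (hj : j ∉ U) (hjs : j ≠ s) : wd (zq s U z t i) (zq s U z t j) ≤
      (1 - t / 2) * wd (z i) (z j) + (1 - (1 - t / 2)) * CC := by
  obtain ⟨a1, a2⟩ := h.xL hi his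
  obtain ⟨b1, b2⟩ := h.xL hj hjs
  have := chord_LL2 (σ := 1 - t / 2) ⟨by linarith [(sg ht).1], (sg ht).2⟩ a1 b1
  rw [← a2, ← b2] at this
  rw [zq_L his hi, zq_L hjs hj]
  exact this

lemma E2.chUL (h : E2 z s U) {t : ℝ} (ht : t ∈ Icc (0 : ℝ) 1) {i j : Fin 11} (hi : i ∈ U)
    (his : i ≠ s) (hj : j ∉ U) (hjs : j ≠ s) : wd (zq s U z t i) (zq s U z t j) ≤
      (1 - t / 2) * wd (z i) (z j) := by
  obtain ⟨a1, a2⟩ := h.xU hi
  obtain ⟨b1, b2⟩ := h.xL hj hjs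
  have := chord_UL2 (σ := 1 - t / 2) ⟨by linarith [(sg ht).1], (sg ht).2⟩ a1 b1
  rw [← a2, ← b2] at this
  rw [zq_U his hi, zq_L hjs hj]
  exact this

/-- bounds at the end of the path -/
lemma E2.endU (h : E2 z s U) {k : Fin 11} (hk : k ∈ U) :
    1 / 2 - 3 / 512 ≤ zq s U z 1 k ∧ zq s U z 1 k ≤ 1 / 2 := by
  have hks : k ≠ s := fun he => h.sU (he ▸ hk)
  refine ⟨?_, (zq_bd_U h ⟨zero_le_one, le_rfl⟩ hks hk).2⟩
  rw [zq_U hks hk]
  obtain ⟨x0, x1⟩ := (h.xU hk).1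
  norm_num at x1
  have e : fU (1 - 1 / 2) = 13 / 80 := by unfold fU; norm_num
  rw [e]
  generalize xc U z k = x at *
  unfold zU
  have h1 : 0 < 3 * (1 - 13 / 80 * x) ^ 2 + 1 := by positivity
  rw [le_div_iff₀ h1]
  nlinarith

lemma E2.endL (h : E2 z s U) {k : Fin 11} (hk : k ∉ U) (hks : k ≠ s) :
    |zq s U z 1 k + 1 / 2| ≤ 4 / 512 := by
  rw [zq_L hks hk]
  obtain ⟨x0, x1⟩ := (h.xL hk hks).1
  norm_num at x0 x1
  have e : fU (1 - 1 / 2) = 13 / 80 := by unfold fU; norm_num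
  have hb : -0.0035 ≤ eN (1 - 1 / 2) (xc U z k) ∧ eN (1 - 1 / 2) (xc U z k) ≤ 0.0052 := by
    unfold eN
    split_ifs with h5
    · norm_num
      constructor <;> linarith
    · push Not at h5
      rw [e]
      norm_num
      constructor <;> linarith
  obtain ⟨b1, b2⟩ := hb
  generalize eN (1 - 1 / 2) (xc U z k) = x at *
  norm_num at b1 b2
  unfold zL
  have h1 : 0 < 3 * (1 - x) ^ 2 + 1 := by positivity
  rw [abs_le]
  constructor
  · have : -(1 / 2) - 4 / 512 ≤ (1 - 3 * (1 - x) ^ 2) / (3 * (1 - x) ^ 2 + 1) := by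
      rw [le_div_iff₀ h1]; nlinarith
    linarith
  · have : (1 - 3 * (1 - x) ^ 2) / (3 * (1 - x) ^ 2 + 1) ≤ -(1 / 2) + 4 / 512 := by
      rw [div_le_iff₀ h1]; nlinarith
    linarith

end

end Pool.Agent.Helper91.Kiss
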