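import Pool.Agent.Helper66.Kiss.LeafC

set_option autoImplicit false

/-! # A moving upper point at the wall above a two-valued lower point -/

namespace Pool.Agent.Helper91.Kiss

open Real Set Filter Topology Pool.Agent.Helper66.Kiss

variable {n : ℕ}

/-- the width of the pair does not increase in time -/
def MonoW (z : Fin n → ℝ) (F : (Fin n → ℝ) → ℝ → Fin n → ℝ) (i j : Fin n) : Prop :=
  ∀ᶠ p : (Fin n → ℝ) × ℝ in 𝓝 (z, 0), AdmN p.1 → ∀ s, 0 ≤ s → s ≤ p.2 →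
    (RR (F p.1 s i) (F p.1 s j) ≤ RR (F p.1 p.2 i) (F p.1 p.2 j) ∨
      1 ≤ RR (F p.1 p.2 i) (F p.1 p.2 j))

/-- at the wall, a lower point below the touching height is free -/
lemma RR_wall_ge {y : ℝ} (h0 : -1 < y) (h1 : y ≤ -(1 / 2)) : 1 ≤ RR (1 / 2) y := by
  have c1 := sqrt_pos_of (z := 1 / 2) ⟨by norm_num, le_rfl⟩
  have c2 := sqrt_pos_of (z := y) ⟨h0, by linarith⟩
  unfold RR
  rw [le_div_iff₀ (mul_pos c1 c2), one_mul]
  have e1 : √(1 - (1 / 2 : ℝ) ^ 2) * √(1 - y ^ 2) = √((3 / 4) * (1 - y ^ 2)) := by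
    rw [← Real.sqrt_mul (by norm_num)]; norm_num
  rw [e1]
  apply Real.sqrt_le_iff.2
  constructor
  · linarith
  · nlinarith [sq_nonneg (y + 1 / 2)]

/-- the law of a two-valued point which does not move above the touching height -/
lemma hf_zero {w y t : ℝ} (hw : 0 < w) (hy1 : y ≤ 1 / 2) (ht : 0 ≤ t)
    (hy0 : -1 ≤ y) : hf 0 w y t = if -(1 / 2) ≤ y then y else min (y + t * (w * (1 - y ^ 2))) (-(1 / 2)) := by
  have h3 : 0 ≤ 1 - y ^ 2 := by nlinarith
  have h4 : 0 ≤ t * (w * (1 - y ^ 2)) := mul_nonneg ht (mul_nonneg hw.le h3)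
  unfold hf
  rw [max_eq_right hy1, sub_zero, div_self hw.ne', mul_one, zero_mul, mul_zero, add_zero]
  split_ifs with h
  · rw [max_eq_right (by linarith : -(1 / 2) - y ≤ 0), add_zero,
      min_eq_right (by linarith : y ≤ y + t * (w * (1 - y ^ 2)))]
    exact min_eq_left hy1
  · push Not at h
    rw [max_eq_left (by linarith : 0 ≤ -(1 / 2) - y), show y + (-(1 / 2) - y) = -(1 / 2) by ring]
    apply min_eq_left
    exact (min_le_right _ _).trans (by norm_num)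

lemma RR_stepUp {a b y : ℝ} (ha : -1 < a) (hab : a ≤ b) (hb : b < 1) (hy : -1 < y ∧ y < 1)
    (h : y < a / 2) : RR a y ≤ RR b y := RR_mono_left ha hab hb hy h

/-- the two-point motion, pure form -/
lemma corner_pt {V W x y t s : ℝ} (hV : 0 < V) (hW : 0 < W) (hx : 0 < x ∧ x ≤ 1 / 2)
    (hy : -1 < y ∧ y < 0) (h0 : 0 ≤ s) (hst : s ≤ t)
    (hn : ∀ r ∈ Icc 0 t, x + r * (V * (1 - x ^ 2)) < 1 / 2 → y + r * (W * (1 - y ^ 2)) ≤ -(1 / 2) →
      nr (x + r * (V * (1 - x ^ 2))) (y + r * (W * (1 - y ^ 2))) (V * (1 - x ^ 2)) (W * (1 - y ^ 2)) < 0) :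
    RR (hf V V x s) (hf 0 W y s) ≤ RR (hf V V x t) (hf 0 W y t) ∨ 1 ≤ RR (hf V V x t) (hf 0 W y t) := by
  have ht0 : 0 ≤ t := h0.trans hst
  have hx2 : 0 < 1 - x ^ 2 := by nlinarith [hx.1, hx.2]
  have hy2 : 0 < 1 - y ^ 2 := by nlinarith [hy.1, hy.2]
  set a := V * (1 - x ^ 2) with ha
  set b := W * (1 - y ^ 2) with hb
  have ha0 : 0 < a := mul_pos hV hx2
  have hb0 : 0 < b := mul_pos hW hy2
  have eU : ∀ r, hf V V x r = min (x + r * a) (1 / 2) := by
    intro r; rw [hf_plain, max_eq_right hx.2]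
  have eL : ∀ r, 0 ≤ r → hf 0 W y r = if -(1 / 2) ≤ y then y else min (y + r * b) (-(1 / 2)) :=
    fun r hr => hf_zero hW (by linarith [hy.2]) hr hy.1.le
  rw [eU s, eU t, eL s h0, eL t ht0]
  have mU : min (x + s * a) (1 / 2) ≤ min (x + t * a) (1 / 2) :=
    min_le_min (by nlinarith) le_rfl
  have mU0 : 0 < min (x + s * a) (1 / 2) := lt_min (by nlinarith [mul_nonneg h0 ha0.le, hx.1]) (by norm_num)
  have mU1 : min (x + t * a) (1 / 2) ≤ 1 / 2 := min_le_right _ _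
  by_cases hyc : -(1 / 2) ≤ y
  · rw [if_pos hyc, if_pos hyc]
    exact Or.inl (RR_stepUp (by linarith) mU (by linarith) ⟨hy.1, by linarith [hy.2]⟩ (by linarith [hy.2]))
  rw [if_neg hyc, if_neg hyc]
  push Not at hyc
  have mL : ∀ r, 0 ≤ r → -1 < min (y + r * b) (-(1 / 2)) ∧ min (y + r * b) (-(1 / 2)) ≤ -(1 / 2) :=
    fun r hr => ⟨lt_min (by nlinarith [mul_nonneg hr hb0.le, hy.1]) (by norm_num), min_le_right _ _⟩
  rcases le_or_gt (1 / 2) (x + t * a) with h1 | h1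
  · right
    rw [min_eq_right h1]
    exact RR_wall_ge (mL t ht0).1 (mL t ht0).2
  left
  have hs1 : x + s * a < 1 / 2 := by nlinarith
  rw [min_eq_left h1.le, min_eq_left hs1.le]
  -- the segment up to time `T`
  have seg : ∀ T, 0 ≤ T → T ≤ t → y + T * b ≤ -(1 / 2) → ∀ r, 0 ≤ r → r ≤ T →
      RR (x + r * a) (y + r * b) ≤ RR (x + T * a) (y + T * b) := by
    intro T hT0 hT1 hT2 r hr0 hr1
    have key := seg_strictMono (x := x) (y := y) (a := a) (b := b) (t := T) (by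
      intro q hq
      have q1 := mul_nonneg hq.1 ha0.le
      have q2 := mul_nonneg hq.1 hb0.le
      have q3 : q * a ≤ t * a := mul_le_mul_of_nonneg_right (hq.2.trans hT1) ha0.le
      have q4 : q * b ≤ T * b := mul_le_mul_of_nonneg_right hq.2 hb0.le
      exact ⟨⟨by linarith [hx.1], by linarith⟩, ⟨by linarith [hy.1], by linarith⟩⟩) (by
      intro q hq
      have q3 : q * a ≤ t * a := mul_le_mul_of_nonneg_right (hq.2.trans hT1) ha0.le
      have q4 : q * b ≤ T * b := mul_le_mul_of_nonneg_right hq.2 hb0.le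
      exact hn q ⟨hq.1, hq.2.trans hT1⟩ (by linarith) (by linarith))
    exact key.monotoneOn ⟨hr0, hr1⟩ ⟨hT0, le_rfl⟩ hr1
  rcases le_or_gt (y + t * b) (-(1 / 2)) with h2 | h2
  · have hs2 : y + s * b ≤ -(1 / 2) := by nlinarith
    rw [min_eq_left h2, min_eq_left hs2]
    exact seg t ht0 le_rfl h2 s h0 hst
  · rw [min_eq_right h2.le]
    set T := (-(1 / 2) - y) / b with hT
    have hTb : y + T * b = -(1 / 2) := by rw [hT, div_mul_cancel₀ _ hb0.ne']; ring
    have hT0 : 0 ≤ T := div_nonneg (by linarith) hb0.le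
    have hT1 : T ≤ t := by rw [hT, div_le_iff₀ hb0]; linarith
    have up : ∀ r, 0 ≤ r → r ≤ t → RR (x + r * a) (-(1 / 2)) ≤ RR (x + t * a) (-(1 / 2)) := by
      intro r hr0 hr1
      have q1 := mul_nonneg hr0 ha0.le
      have q3 : r * a ≤ t * a := mul_le_mul_of_nonneg_right hr1 ha0.le
      exact RR_stepUp (by linarith [hx.1]) (by linarith) (by linarith) (by norm_num) (by linarith [hx.1])
    rcases le_or_gt s T with h3 | h3
    · have hs2 : y + s * b ≤ -(1 / 2) := by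
        have := mul_le_mul_of_nonneg_right h3 hb0.le
        linarith
      rw [min_eq_left hs2]
      have := seg T hT0 hT1 hTb.le s h0 h3
      rw [hTb] at this
      exact this.trans (up T hT0 hT1)
    · have hs2 : -(1 / 2) ≤ y + s * b := by
        have := mul_le_mul_of_nonneg_right h3.le hb0.le
        linarith
      rw [min_eq_right hs2]
      exact up s h0 hst

/-- **A moving upper point at the wall above a two-valued lower point at the touching height** -/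
theorem monoW_corner {z v w : Fin n → ℝ} {i j : Fin n} (hzi : z i = 1 / 2)
    (hzj : z j = -(1 / 2)) (h1 : w i = v i) (h2 : 0 < v i) (h3 : v j = 0) (h4 : 0 < w j)
    (h5 : nr (z i) (z j) (v i * (1 - z i ^ 2)) (w j * (1 - z j ^ 2)) < 0) :
    MonoW z (hF v w) i j := by
  have hpi : Tendsto (fun p : (Fin n → ℝ) × ℝ => p.1 i) (𝓝 (z, 0)) (𝓝 (z i)) :=
    ((continuous_apply i).comp continuous_fst).tendsto' _ _ rfl
  have hpj : Tendsto (fun p : (Fin n → ℝ) × ℝ => p.1 j) (𝓝 (z, 0)) (𝓝 (z j)) :=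
    ((continuous_apply j).comp continuous_fst).tendsto' _ _ rfl
  have hpt : Tendsto (fun p : (Fin n → ℝ) × ℝ => p.2) (𝓝 (z, 0)) (𝓝 0) :=
    continuous_snd.tendsto' _ _ rfl
  have hA : Tendsto (fun p : (Fin n → ℝ) × ℝ => v i * (1 - p.1 i ^ 2)) (𝓝 (z, 0))
      (𝓝 (v i * (1 - z i ^ 2))) := (tendsto_const_nhds.sub (hpi.pow 2)).const_mul _
  have hB : Tendsto (fun p : (Fin n → ℝ) × ℝ => w j * (1 - p.1 j ^ 2)) (𝓝 (z, 0))
      (𝓝 (w j * (1 - z j ^ 2))) := (tendsto_const_nhds.sub (hpj.pow 2)).const_mul _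
  have hX : Tendsto (fun p : (Fin n → ℝ) × ℝ => p.1 i + p.2 * (v i * (1 - p.1 i ^ 2))) (𝓝 (z, 0))
      (𝓝 (z i)) := by
    have := hpi.add (hpt.mul hA)
    rwa [zero_mul, add_zero] at this
  have hY : Tendsto (fun p : (Fin n → ℝ) × ℝ => p.1 j + p.2 * (w j * (1 - p.1 j ^ 2))) (𝓝 (z, 0))
      (𝓝 (z j)) := by
    have := hpj.add (hpt.mul hB)
    rwa [zero_mul, add_zero] at this
  have hN : Tendsto (fun p : (Fin n → ℝ) × ℝ => nr (p.1 i + p.2 * (v i * (1 - p.1 i ^ 2)))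
      (p.1 j + p.2 * (w j * (1 - p.1 j ^ 2))) (v i * (1 - p.1 i ^ 2)) (w j * (1 - p.1 j ^ 2)))
      (𝓝 (z, 0)) (𝓝 (nr (z i) (z j) (v i * (1 - z i ^ 2)) (w j * (1 - z j ^ 2)))) := by
    unfold nr
    refine Tendsto.add (Tendsto.div ?_ ?_ ?_) (Tendsto.div ?_ ?_ ?_)
    · exact (hY.sub (hX.div_const 2)).mul hA
    · exact tendsto_const_nhds.sub (hX.pow 2)
    · rw [hzi]; norm_num
    · exact (hX.sub (hY.div_const 2)).mul hB
    · exact tendsto_const_nhds.sub (hY.pow 2)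
    · rw [hzj]; norm_num
  unfold MonoW
  filter_upwards [ev_all_le (hN.eventually (gt_mem_nhds h5)),
    hpi.eventually (lt_mem_nhds (by rw [hzi]; norm_num : 0 < z i)),
    hpj.eventually (lt_mem_nhds (by rw [hzj]; norm_num : -1 < z j)),
    hpj.eventually (gt_mem_nhds (by rw [hzj]; norm_num : z j < 0))] with p p1 p3 p4 p5 ha s h0 hs
  unfold hF
  rw [h1, h3]
  exact corner_pt h2 h4 ⟨p3, (ha i).2⟩ ⟨p4, p5⟩ h0 hs
    (fun r hr _ _ => p1 r hr.1 hr.2)

end Pool.Agent.Helper91.Kiss
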