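import Pool.Agent.Helper91.Kiss.AnyA

set_option autoImplicit false

/-! # One upper point a little lower, second part: pairs of the same type -/

namespace Pool.Agent.Helper91.Kiss

open Real Set Filter Topology Pool.Agent.Helper66.Kiss

/-! ## targets of the chords -/

lemma sin_CC_up : sin CC ≤ 0.95107 := by
  have h := Real.sin_sq_add_cos_sq CC
  have hc : 0.309 ≤ cos CC := cos_CC_bd.1
  have h2 : (0.309 : ℝ) ^ 2 ≤ cos CC ^ 2 := pow_le_pow_left₀ (by norm_num) hc 2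
  norm_num at h2
  by_contra hcon
  push Not at hcon
  norm_num at hcon
  nlinarith

lemma sin_CC_lo : 0.95105 ≤ sin CC := by
  have c3 := sqrt5_bd
  have h := Real.sin_sq_add_cos_sq CC
  have hs := sin_CC_bd.1
  have hc : cos CC ≤ 0.309018 := by rw [cos_CC]; norm_num at c3 ⊢; linarith [c3.2]
  have hc0 := cos_CC_bd.1
  norm_num at hc hc0 hs
  have h2 : cos CC ^ 2 ≤ 0.309018 ^ 2 := pow_le_pow_left₀ (by linarith) (by norm_num; linarith) 2
  norm_num at h2
  by_contra hcon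
  push Not at hcon
  norm_num at hcon
  nlinarith

/-- the larger target -/
lemma tgt5 : cos (CC + 0.0035) ≤ 0.3057 ∧ sin (CC + 0.0035) ≤ 0.9523 := by
  have c3 := sqrt5_bd
  have hc : cos CC ≤ 0.309018 := by rw [cos_CC]; norm_num at c3 ⊢; linarith [c3.2]
  have hc0 := cos_CC_bd.1
  have s1 := sin_CC_lo
  have s2 := sin_CC_up
  have k1 : (0.0035 : ℝ) - 0.0035 ^ 3 / 6 < sin 0.0035 := Real.sin_gt_sub_cube (by norm_num)
  have k2 : sin (0.0035 : ℝ) ≤ 0.0035 := Real.sin_le (by norm_num)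
  have k3 := Real.cos_le_one (0.0035 : ℝ)
  have k4 : 0 ≤ cos (0.0035 : ℝ) := by
    have : 1 - 0.0035 ^ 2 / 2 ≤ cos (0.0035 : ℝ) := Real.one_sub_sq_div_two_le_cos
    norm_num at this ⊢; linarith
  norm_num at hc hc0 s1 s2 k1 k2 k3 k4
  constructor
  · rw [Real.cos_add]
    have e1 : cos CC * cos (0.0035 : ℝ) ≤ 0.309018 * 1 := by
      refine mul_le_mul (by norm_num; linarith) (by norm_num; linarith) (by norm_num; linarith) (by norm_num)
    have e2 : (0.95105 : ℝ) * 0.003499 ≤ sin CC * sin (0.0035 : ℝ) := by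
      refine mul_le_mul (by norm_num; linarith) (by norm_num; linarith) (by norm_num) (by linarith)
    norm_num at e1 e2 ⊢
    linarith
  · rw [Real.sin_add]
    have e1 : sin CC * cos (0.0035 : ℝ) ≤ 0.95107 * 1 := by
      refine mul_le_mul (by norm_num; linarith) (by norm_num; linarith) (by norm_num; linarith) (by norm_num)
    have e2 : cos CC * sin (0.0035 : ℝ) ≤ 0.309018 * 0.0035 := by
      refine mul_le_mul (by norm_num; linarith) (by norm_num; linarith) (by norm_num; linarith) (by norm_num)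
    norm_num at e1 e2 ⊢
    linarith

/-- the smaller target -/
lemma tgt3 : cos (CC - 0.003) ≤ 0.3119 ∧ sin (CC - 0.003) ≤ 0.9523 := by
  have c3 := sqrt5_bd
  have hc : cos CC ≤ 0.309018 := by rw [cos_CC]; norm_num at c3 ⊢; linarith [c3.2]
  have hc0 := cos_CC_bd.1
  have s1 := sin_CC_lo
  have s2 := sin_CC_up
  have k1 : (0.003 : ℝ) - 0.003 ^ 3 / 6 < sin 0.003 := Real.sin_gt_sub_cube (by norm_num)
  have k2 : sin (0.003 : ℝ) ≤ 0.003 := Real.sin_le (by norm_num)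
  have k3 := Real.cos_le_one (0.003 : ℝ)
  have k4 : 0 ≤ cos (0.003 : ℝ) := by
    have : 1 - 0.003 ^ 2 / 2 ≤ cos (0.003 : ℝ) := Real.one_sub_sq_div_two_le_cos
    norm_num at this ⊢; linarith
  norm_num at hc hc0 s1 s2 k1 k2 k3 k4
  constructor
  · rw [Real.cos_sub]
    have e1 : cos CC * cos (0.003 : ℝ) ≤ 0.309018 * 1 := by
      refine mul_le_mul (by norm_num; linarith) (by norm_num; linarith) (by norm_num; linarith) (by norm_num)
    have e2 : sin CC * sin (0.003 : ℝ) ≤ 0.95107 * 0.003 := by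
      refine mul_le_mul (by norm_num; linarith) (by norm_num; linarith) (by norm_num; linarith) (by norm_num)
    norm_num at e1 e2 ⊢
    linarith
  · rw [Real.sin_sub]
    have e1 : sin CC * cos (0.003 : ℝ) ≤ 0.95107 * 1 := by
      refine mul_le_mul (by norm_num; linarith) (by norm_num; linarith) (by norm_num; linarith) (by norm_num)
    have e2 : 0 ≤ cos CC * sin (0.003 : ℝ) := mul_nonneg (by linarith) (by linarith)
    norm_num at e1 e2 ⊢
    linarith

/-- the chord inequality from a bound of the cosine, any target -/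
lemma chord_genC {Q Q' σ C q : ℝ} (hσ : 0 ≤ σ ∧ σ ≤ 1) (hC1 : 1.25 ≤ C) (hC2 : C ≤ 1.2605)
    (hq : cos C ≤ q) (hs : sin C ≤ 0.9523) (hq0 : 0.3 ≤ q) (hQ0 : q ≤ Q) (hQ : Q ≤ 0.34865)
    (h : Q - Q' ≤ (1 - σ) * (0.984 * (Q - q))) :
    arccos Q' ≤ σ * arccos Q + (1 - σ) * C := by
  have hpi := Real.pi_gt_three
  have hd0 : 0 ≤ 1 - σ := by linarith [hσ.2]
  norm_num at hC1 hC2 hq0 hQ hs
  set D := arccos Q with hD
  have hcos : cos D = Q := Real.cos_arccos (by linarith) (by linarith)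
  have hD0 : 0 ≤ D := Real.arccos_nonneg _
  have hDC : D ≤ C := by
    have := Real.arccos_le_arccos (hq.trans hQ0)
    rwa [Real.arccos_cos (by linarith) (by linarith)] at this
  set θ := σ * D + (1 - σ) * C with hθ
  have hθ0 : 0 ≤ θ := by
    have := mul_nonneg hσ.1 hD0
    have := mul_nonneg hd0 (by linarith : (0 : ℝ) ≤ C)
    linarith
  have hθC : θ ≤ C := by
    have := mul_le_mul_of_nonneg_left hDC hσ.1
    linarith
  have ht := cos_tangent (θ := θ) (ω := D) hθ0 (by linarith) hD0 (by linarith)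
  have ht2 := cos_tangent (θ := D) (ω := C) hD0 (by linarith) (by linarith) (by linarith)
  have hsC0 : 0 ≤ sin C := Real.sin_nonneg_of_nonneg_of_le_pi (by linarith) (by linarith)
  have hsD : 0.9372 ≤ sin D := by
    have h := Real.sin_sq_add_cos_sq D
    have hs : 0 ≤ sin D := Real.sin_nonneg_of_nonneg_of_le_pi hD0 (Real.arccos_le_pi _)
    rw [hcos] at h
    have h3 : Q ^ 2 ≤ 0.34865 ^ 2 := pow_le_pow_left₀ (by linarith) (by norm_num; linarith) 2
    norm_num at h3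
    by_contra hcon
    push Not at hcon
    norm_num at hcon
    nlinarith
  have h5 : 0.984 * (Q - q) ≤ (C - D) * sin D := by
    have e1 : Q - cos C ≤ (C - D) * sin C := by rw [← hcos]; linarith
    have e2 : (C - D) * (0.984 * sin C) ≤ (C - D) * sin D := by
      apply mul_le_mul_of_nonneg_left _ (by linarith)
      norm_num at hsD ⊢
      linarith
    norm_num at e2 ⊢
    nlinarith
  have h6 : cos θ ≤ Q' := by
    have e1 : θ - D = (1 - σ) * (C - D) := by rw [hθ]; ring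
    rw [e1, hcos] at ht
    have e2 := mul_le_mul_of_nonneg_left h5 hd0
    nlinarith
  have h7 := Real.arccos_le_arccos h6
  rwa [Real.arccos_cos hθ0 (by linarith)] at h7

/-! ## lower bounds of the widths -/

lemma wlow3 {q : ℝ} (h : q ≤ 0.34395) : CC - 0.037 ≤ arccos q := by
  have h1 : 0.34395 ≤ cos (CC - 0.037) := by
    rw [Real.cos_sub]
    have s1 := sin_CC_lo
    have c4 : 0.309 ≤ cos CC := cos_CC_bd.1
    have c2 : 1 - 0.037 ^ 2 / 2 ≤ cos (0.037 : ℝ) := Real.one_sub_sq_div_two_le_cos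
    have s2 : (0.037 : ℝ) - 0.037 ^ 3 / 6 < sin 0.037 := Real.sin_gt_sub_cube (by norm_num)
    have e1 : 0.309 * (1 - 0.037 ^ 2 / 2) ≤ cos CC * cos (0.037 : ℝ) :=
      mul_le_mul c4 c2 (by norm_num) (by linarith)
    have e2 : 0.95105 * ((0.037 : ℝ) - 0.037 ^ 3 / 6) ≤ sin CC * sin 0.037 :=
      mul_le_mul s1 s2.le (by norm_num) (by linarith)
    norm_num at e1 e2 ⊢
    linarith
  have h2 := Real.arccos_le_arccos (h.trans h1)
  rwa [Real.arccos_cos (by linarith [CC_bd.1]) (by linarith [CC_bd.2, Real.pi_gt_three])] at h2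

lemma wlow5 {q : ℝ} (h : q ≤ 0.34864) : CC - 0.042 ≤ arccos q := by
  have h1 : 0.34864 ≤ cos (CC - 0.042) := by
    rw [Real.cos_sub]
    have s1 := sin_CC_lo
    have c4 : 0.309 ≤ cos CC := cos_CC_bd.1
    have c2 : 1 - 0.042 ^ 2 / 2 ≤ cos (0.042 : ℝ) := Real.one_sub_sq_div_two_le_cos
    have s2 : (0.042 : ℝ) - 0.042 ^ 3 / 6 < sin 0.042 := Real.sin_gt_sub_cube (by norm_num)
    have e1 : 0.309 * (1 - 0.042 ^ 2 / 2) ≤ cos CC * cos (0.042 : ℝ) :=
      mul_le_mul c4 c2 (by norm_num) (by linarith)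
    have e2 : 0.95105 * ((0.042 : ℝ) - 0.042 ^ 3 / 6) ≤ sin CC * sin 0.042 :=
      mul_le_mul s1 s2.le (by norm_num) (by linarith)
    norm_num at e1 e2 ⊢
    linarith
  have h2 := Real.arccos_le_arccos (h.trans h1)
  rwa [Real.arccos_cos (by linarith [CC_bd.1]) (by linarith [CC_bd.2, Real.pi_gt_three])] at h2

/-- two points of the same type, both close -/
lemma Qs_le3 {x y : ℝ} (hx : -0.0211 ≤ x ∧ x ≤ 0.0155) (hy : -0.0211 ≤ y ∧ y ≤ 0.0155) :
    Qs (1 - x) (1 - y) ≤ 0.34395 := by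
  obtain ⟨x1, x2⟩ := hx
  obtain ⟨y1, y2⟩ := hy
  norm_num at x1 x2 y1 y2
  have h1 := Qs_anti (a := 0.9845) (a' := 1 - x) (b := 1 - y) (by norm_num)
    (by norm_num; constructor <;> linarith) (by norm_num; constructor <;> linarith)
    (by norm_num; linarith)
  have h2 := Qs_anti (a := 0.9845) (a' := 1 - y) (b := 0.9845) (by norm_num)
    (by norm_num; constructor <;> linarith) (by norm_num) (by norm_num; linarith)
  rw [Qs_comm (1 - y) 0.9845] at h2
  have h3 : Qs 0.9845 0.9845 ≤ 0.34395 := by unfold Qs; norm_num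
  linarith

lemma low_same3 {x y : ℝ} (hx : -0.0211 ≤ x ∧ x ≤ 0.0155) (hy : -0.0211 ≤ y ∧ y ≤ 0.0155) :
    CC - 0.037 ≤ arccos (Qs (1 - x) (1 - y)) := wlow3 (Qs_le3 hx hy)

/-! ## two upper points -/

/-- the factors of the difference of the cosines -/
lemma k5_bd {p b : ℝ} (hp : 0.93 ≤ p ∧ p ≤ 1) (hb : 0.9647 ≤ b ∧ b ≤ 1) :
    (9 * b ^ 2 - 1) / (24 * b) / p - 3 * (1 - b ^ 2) / (8 * b) ≤ 1 / 3 / p - 1.1666 * (1 - b) ∧
    0 ≤ (9 * b ^ 2 - 1) / (24 * b) := by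
  obtain ⟨p1, p2⟩ := hp
  obtain ⟨c1, c2⟩ := hb
  norm_num at p1 c1
  have hb0 : 0 < b := by linarith
  have hp0 : 0 < p := by linarith
  have e1 : (9 * b ^ 2 - 1) / (24 * b) ≤ 1 / 3 - 0.4166 * (1 - b) := by
    rw [div_le_iff₀ (by positivity)]
    have := mul_nonneg (by linarith : (0 : ℝ) ≤ 1 - b) (by norm_num; linarith : (0 : ℝ) ≤ 1 - 0.9984 * b)
    norm_num at this ⊢
    nlinarith
  have e2 : 0 ≤ (9 * b ^ 2 - 1) / (24 * b) := by
    apply div_nonneg _ (by positivity); nlinarith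
  have e3 : 0.75 * (1 - b) ≤ 3 * (1 - b ^ 2) / (8 * b) := by
    rw [le_div_iff₀ (by positivity)]; norm_num; nlinarith [sq_nonneg (1 - b)]
  refine ⟨?_, e2⟩
  have e5 : (9 * b ^ 2 - 1) / (24 * b) / p ≤ (1 / 3 - 0.4166 * (1 - b)) / p :=
    div_le_div_of_nonneg_right e1 hp0.le
  have e6 : (1 / 3 - 0.4166 * (1 - b)) / p ≤ 1 / 3 / p - 0.4166 * (1 - b) := by
    rw [sub_div]
    have : 0.4166 * (1 - b) ≤ 0.4166 * (1 - b) / p := by
      rw [le_div_iff₀ hp0]
      have h9 : 0 ≤ 0.4166 * (1 - b) := mul_nonneg (by norm_num) (by linarith)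
      nlinarith
    linarith
  norm_num at e3 e5 e6 ⊢
  linarith

/-- decrease of the cosine for two upper points, the first one perhaps lower -/
lemma uu_drop {σ x y : ℝ} (hσ : 0 ≤ σ ∧ σ ≤ 1) (hx : 0 ≤ x ∧ x ≤ 0.0353) (hy : 0 ≤ y ∧ y ≤ 0.0105) :
    Qs (1 - x) (1 - y) - Qs (1 - fU σ * x) (1 - fU σ * y) ≤
      (1 - σ) * (2.7 * (0.3582 * x + 0.3405 * y - 2.332 * (x * y))) := by
  obtain ⟨u0, u1, u2⟩ := fU_bd hσ.1 hσ.2
  have hs2 : σ ^ 2 ≤ 1 := pow_le_one₀ hσ.1 hσ.2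
  obtain ⟨x1, x2⟩ := hx
  obtain ⟨y1, y2⟩ := hy
  norm_num at x2 y2
  set μ := fU σ with hμ
  have hμ1 : μ ≤ 1 := by linarith
  have ax : 0 ≤ μ * x := mul_nonneg u0 x1
  have ax' : μ * x ≤ x := by nlinarith
  have ay : 0 ≤ μ * y := mul_nonneg u0 y1
  have ay' : μ * y ≤ y := by nlinarith
  have hd0 : 0 ≤ 1 - σ := by linarith [hσ.2]
  -- products of the coordinates
  have px1 : 0.9647 ^ 2 ≤ (1 - x) * (1 - μ * x) := by
    have := mul_le_mul (a := (0.9647 : ℝ)) (b := 1 - x) (c := 0.9647) (d := 1 - μ * x)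
      (by norm_num; linarith) (by norm_num; linarith) (by norm_num) (by linarith)
    calc _ = (0.9647 : ℝ) * 0.9647 := by ring
      _ ≤ _ := this
  have px2 : (1 - x) * (1 - μ * x) ≤ 1 := by
    have := mul_le_mul (a := 1 - x) (b := 1) (c := 1 - μ * x) (d := (1 : ℝ)) (by linarith)
      (by linarith) (by linarith) (by norm_num)
    linarith
  have py1 : 0.9895 ^ 2 ≤ (1 - y) * (1 - μ * y) := by
    have := mul_le_mul (a := (0.9895 : ℝ)) (b := 1 - y) (c := 0.9895) (d := 1 - μ * y)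
      (by norm_num; linarith) (by norm_num; linarith) (by norm_num) (by linarith)
    calc _ = (0.9895 : ℝ) * 0.9895 := by ring
      _ ≤ _ := this
  have py2 : (1 - y) * (1 - μ * y) ≤ 1 := by
    have := mul_le_mul (a := 1 - y) (b := 1) (c := 1 - μ * y) (d := (1 : ℝ)) (by linarith)
      (by linarith) (by linarith) (by norm_num)
    linarith
  have k1 := (k5_bd (p := (1 - x) * (1 - μ * x)) (b := 1 - y) ⟨le_trans (by norm_num) px1, px2⟩
    (by norm_num; constructor <;> linarith)).1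
  have k2 := (k5_bd (p := (1 - y) * (1 - μ * y)) (b := 1 - μ * x) ⟨le_trans (by norm_num) py1, py2⟩
    (by norm_num; constructor <;> linarith)).1
  have q1 : 1 / 3 / ((1 - x) * (1 - μ * x)) ≤ 0.3582 := by
    rw [div_le_iff₀ (lt_of_lt_of_le (by norm_num) px1)]
    norm_num at px1 ⊢
    linarith
  have q2 : 1 / 3 / ((1 - y) * (1 - μ * y)) ≤ 0.3405 := by
    rw [div_le_iff₀ (lt_of_lt_of_le (by norm_num) py1)]
    norm_num at py1 ⊢
    linarith
  have d1 := Qs_diff (a := 1 - x) (a' := 1 - μ * x) (b := 1 - y) (by linarith) (by linarith) (by linarith)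
  have d2 := Qs_diff (a := 1 - y) (a' := 1 - μ * y) (b := 1 - μ * x) (by linarith) (by linarith)
    (by linarith)
  rw [Qs_comm (1 - y), Qs_comm (1 - μ * y)] at d2
  rw [show 1 - (1 - y) = y by ring] at k1
  rw [show 1 - (1 - μ * x) = μ * x by ring] at k2
  generalize 1 / 3 / ((1 - x) * (1 - μ * x)) = r1 at *
  generalize 1 / 3 / ((1 - y) * (1 - μ * y)) = r2 at *
  generalize (9 * (1 - y) ^ 2 - 1) / (24 * (1 - y)) / ((1 - x) * (1 - μ * x)) -
    3 * (1 - (1 - y) ^ 2) / (8 * (1 - y)) = K1 at *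
  generalize (9 * (1 - μ * x) ^ 2 - 1) / (24 * (1 - μ * x)) / ((1 - y) * (1 - μ * y)) -
    3 * (1 - (1 - μ * x) ^ 2) / (8 * (1 - μ * x)) = K2 at *
  generalize Qs (1 - x) (1 - y) = Q at *
  generalize Qs (1 - μ * x) (1 - μ * y) = Q' at *
  generalize Qs (1 - μ * x) (1 - y) = Q'' at *
  clear px1 px2 py1 py2
  have hδ : 0 ≤ 1 - μ := by linarith
  have c1 : (1 - μ) * x * K1 ≤ (1 - μ) * x * (0.3582 - 1.166 * y) := by
    apply mul_le_mul_of_nonneg_left _ (mul_nonneg hδ x1)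
    norm_num at k1 q1 ⊢
    linarith
  have c2 : (1 - μ) * y * K2 ≤ (1 - μ) * y * (0.3405 - 1.166 * (μ * x)) := by
    apply mul_le_mul_of_nonneg_left _ (mul_nonneg hδ y1)
    norm_num at k2 q2 ⊢
    linarith
  have hxy0 : 0 ≤ x * y := mul_nonneg x1 y1
  have hxy1 : x * y ≤ 0.0105 * x := by norm_num; nlinarith
  norm_num at hxy1
  have hQQ : Q - Q' ≤ (1 - μ) * (0.3582 * x + 0.3405 * y - 1.166 * (x * y) * (1 + μ)) := by
    have e1 : Q - Q'' = (1 - μ) * x * K1 := by rw [d1]; ring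
    have e2 : Q'' - Q' = (1 - μ) * y * K2 := by rw [d2]; ring
    norm_num at c1 c2 ⊢
    linarith
  refine hQQ.trans ?_
  set δ := 1 - σ with hδ'
  set T := 0.3582 * x + 0.3405 * y - 2.332 * (x * y) with hT
  have hT0 : 0.3 * x ≤ T := by rw [hT]; norm_num; linarith
  have e3 : 1 - μ = 2.7 * δ - δ ^ 2 * (1.7 + 0.7 * σ) := by
    rw [hμ, hδ']; unfold fU; norm_num; ring
  have e4 : 0.3582 * x + 0.3405 * y - 1.166 * (x * y) * (1 + μ) = T + 1.166 * (x * y) * (1 - μ) := by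
    rw [hT]; norm_num; ring
  rw [e4]
  have f1 : 1 - μ ≤ 2.7 * δ - 1.7 * δ ^ 2 := by
    have := mul_nonneg (sq_nonneg δ) hσ.1
    rw [e3]; norm_num
    linarith
  have f2 : (1 - μ) * (1.166 * (x * y) * (1 - μ)) ≤ 1.166 * (x * y) * (2.7 * δ) ^ 2 := by
    have : (1 - μ) ^ 2 ≤ (2.7 * δ) ^ 2 := pow_le_pow_left₀ hδ u2 2
    have := mul_le_mul_of_nonneg_left this (by norm_num; linarith : (0 : ℝ) ≤ 1.166 * (x * y))
    rw [show (1 - μ) * (1.166 * (x * y) * (1 - μ)) = 1.166 * (x * y) * (1 - μ) ^ 2 by ring]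
    exact this
  have f3 : (1 - μ) * T ≤ (2.7 * δ - 1.7 * δ ^ 2) * T :=
    mul_le_mul_of_nonneg_right f1 (by norm_num at hT0; linarith)
  have f4 : 1.166 * (x * y) * (2.7 * δ) ^ 2 ≤ 1.7 * δ ^ 2 * T := by
    have : 1.166 * (x * y) * 2.7 ^ 2 ≤ 1.7 * T := by norm_num at hT0 ⊢; linarith
    have := mul_le_mul_of_nonneg_left this (sq_nonneg δ)
    calc 1.166 * (x * y) * (2.7 * δ) ^ 2 = δ ^ 2 * (1.166 * (x * y) * 2.7 ^ 2) := by ring
      _ ≤ δ ^ 2 * (1.7 * T) := this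
      _ = 1.7 * δ ^ 2 * T := by ring
  calc (1 - μ) * (T + 1.166 * (x * y) * (1 - μ)) =
        (1 - μ) * T + (1 - μ) * (1.166 * (x * y) * (1 - μ)) := by ring
    _ ≤ (2.7 * δ - 1.7 * δ ^ 2) * T + 1.7 * δ ^ 2 * T := add_le_add f3 (f2.trans f4)
    _ = δ * (2.7 * T) := by ring

/-- lower bound of the cosine of two upper points -/
lemma uu_cos {x y : ℝ} (hx : 0 ≤ x ∧ x ≤ 0.0353) (hy : 0 ≤ y ∧ y ≤ 0.0105) :
    1 / 3 + (x + y + (x + y) ^ 2 - 5.75 * (x * y)) / 3 ≤ Qs (1 - x) (1 - y) := by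
  obtain ⟨x1, x2⟩ := hx
  obtain ⟨y1, y2⟩ := hy
  norm_num at x2 y2
  set s := x + y with hs
  set P := x * y with hP
  have hs0 : 0 ≤ s := by linarith
  have hs2 : s ≤ 0.0458 := by norm_num; linarith
  have hP0 : 0 ≤ P := mul_nonneg x1 y1
  norm_num at hs2
  have hPs : P * s ≤ 0.0458 * P := by norm_num; nlinarith
  norm_num at hPs
  have e : Qs (1 - x) (1 - y) = (8 - 9 * P * (4 - 2 * s + P)) / (24 * (1 - s + P)) := by
    have h1 : (1 : ℝ) - x ≠ 0 := by linarith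
    have h2 : (1 : ℝ) - y ≠ 0 := by linarith
    have h3 : (1 : ℝ) - s + P = (1 - x) * (1 - y) := by rw [hs, hP]; ring
    unfold Qs
    rw [h3, div_eq_div_iff (by positivity) (by positivity), hs, hP]
    ring
  have hd : 0 < 24 * (1 - s + P) := by linarith
  rw [e, le_div_iff₀ hd]
  have hP4 : P ≤ s := by nlinarith
  have key : 0 ≤ 2 * P - 36 * (P * s) + 37 * P ^ 2 + 8 * s * (s ^ 2 - P * s) := by
    have k2 : 0 ≤ s ^ 2 - P * s := by nlinarith
    have k3 := mul_nonneg hs0 k2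
    have k4 := sq_nonneg P
    nlinarith
  norm_num at key ⊢
  nlinarith

lemma Qs_mono5 {a a' b : ℝ} (h1 : 0.9647 ≤ a) (h2 : a ≤ a') (h3 : a' ≤ 1) (h4 : 0.9647 ≤ b)
    (h5 : b ≤ 1) : Qs a' b ≤ Qs a b := by
  norm_num at h1 h4
  have d := Qs_diff (a := a) (a' := a') (b := b) (by linarith) (by linarith) (by linarith)
  have k1 : 0.3 ≤ (9 * b ^ 2 - 1) / (24 * b) := by
    have hb0 : 0 < b := by linarith
    rw [le_div_iff₀ (by positivity)]; norm_num; nlinarith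
  have k2 : 3 * (1 - b ^ 2) / (8 * b) ≤ 0.03 := by
    have hb0 : 0 < b := by linarith
    rw [div_le_iff₀ (by positivity)]; norm_num; nlinarith
  have haa : 0 < a * a' := mul_pos (by linarith) (by linarith)
  have haa1 : a * a' ≤ 1 := by nlinarith
  have k3 : 0.3 ≤ (9 * b ^ 2 - 1) / (24 * b) / (a * a') := by
    rw [le_div_iff₀ haa]
    norm_num at k1 ⊢
    nlinarith
  have k4 : 0 ≤ (9 * b ^ 2 - 1) / (24 * b) / (a * a') - 3 * (1 - b ^ 2) / (8 * b) := by
    norm_num at k2 k3 ⊢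
    linarith
  have := mul_nonneg (by linarith : 0 ≤ a' - a) k4
  linarith

lemma Qs_le5 {x y : ℝ} (hx : 0 ≤ x ∧ x ≤ 0.0353) (hy : 0 ≤ y ∧ y ≤ 0.0105) :
    Qs (1 - x) (1 - y) ≤ 0.34864 := by
  obtain ⟨x1, x2⟩ := hx
  obtain ⟨y1, y2⟩ := hy
  norm_num at x2 y2
  have h1 := Qs_mono5 (a := 0.9647) (a' := 1 - x) (b := 1 - y) (by norm_num) (by norm_num; linarith)
    (by linarith) (by norm_num; linarith) (by linarith)
  have h2 := Qs_mono5 (a := 0.9895) (a' := 1 - y) (b := 0.9647) (by norm_num) (by norm_num; linarith)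
    (by linarith) (by norm_num) (by norm_num)
  rw [Qs_comm (1 - y) 0.9647] at h2
  have h3 : Qs 0.9895 0.9647 ≤ 0.34864 := by unfold Qs; norm_num
  linarith

lemma u5_num {x y Q : ℝ} (hx : 0 ≤ x ∧ x ≤ 0.0353) (hy : 0 ≤ y ∧ y ≤ 0.0105)
    (h : 1 / 3 + (x + y + (x + y) ^ 2 - 5.75 * (x * y)) / 3 ≤ Q) :
    0.3057 ≤ Q ∧ 2.7 * (0.3582 * x + 0.3405 * y - 2.332 * (x * y)) ≤ 0.984 * (Q - 0.3057) := by
  obtain ⟨x1, x2⟩ := hx
  obtain ⟨y1, y2⟩ := hy
  norm_num at x2 y2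
  have k0 : 0 ≤ (353 / 10000 - x) * (21 / 2000 - y) := mul_nonneg (by linarith) (by linarith)
  have k1 : 353 / 10000 * y + 21 / 2000 * x - 353 / 10000 * (21 / 2000) ≤ x * y := by linarith
  have k2 : 2 * (458 / 10000) * (x + y) - (458 / 10000) ^ 2 ≤ (x + y) ^ 2 := by
    have := sq_nonneg (x + y - 458 / 10000)
    linarith
  have k3 : x * y ≤ 21 / 2000 * x := by
    have := mul_le_mul_of_nonneg_left y2 x1
    linarith
  have k4 : 0 ≤ (x + y) ^ 2 := sq_nonneg _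
  have k5 : 0 ≤ x * y := mul_nonneg x1 y1
  clear k0
  generalize x * y = P at *
  generalize (x + y) ^ 2 = S2 at *
  norm_num at h k1 k2 ⊢
  constructor <;> linarith

/-- **the lower upper point and another upper point** -/
lemma chord_U5 {σ x y : ℝ} (hσ : 0 ≤ σ ∧ σ ≤ 1) (hx : 0 ≤ x ∧ x ≤ 0.0353)
    (hy : 0 ≤ y ∧ y ≤ 0.0105) :
    wd (zU (1 - fU σ * x)) (zU (1 - fU σ * y)) ≤
      σ * wd (zU (1 - x)) (zU (1 - y)) + (1 - σ) * (CC + 0.0035) ∧
    CC - 0.042 ≤ wd (zU (1 - x)) (zU (1 - y)) := by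
  obtain ⟨u0, u1, u2⟩ := fU_bd hσ.1 hσ.2
  have hs2 : σ ^ 2 ≤ 1 := pow_le_one₀ hσ.1 hσ.2
  have hdrop := uu_drop hσ hx hy
  obtain ⟨hn1, hn2⟩ := u5_num hx hy (uu_cos hx hy)
  have hQle := Qs_le5 hx hy
  obtain ⟨x1, x2⟩ := hx
  obtain ⟨y1, y2⟩ := hy
  norm_num at x2 y2
  have ax' : fU σ * x ≤ x := by
    have := mul_le_mul_of_nonneg_right (u1.trans hs2) x1
    linarith
  have ay' : fU σ * y ≤ y := by
    have := mul_le_mul_of_nonneg_right (u1.trans hs2) y1
    linarith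
  have hd0 : 0 ≤ 1 - σ := by linarith [hσ.2]
  rw [wd_UU (by linarith) (by linarith), wd_UU (by linarith) (by linarith)]
  refine ⟨?_, wlow5 hQle⟩
  have hC := CC_bd
  norm_num at hC
  exact chord_genC (q := 0.3057) hσ (by norm_num; linarith) (by norm_num; linarith) tgt5.1 tgt5.2
    (by norm_num) hn1 (hQle.trans (by norm_num)) (hdrop.trans (mul_le_mul_of_nonneg_left hn2 hd0))

/-- two other upper points -/
lemma chord_UU3 {σ x y : ℝ} (hσ : 0 ≤ σ ∧ σ ≤ 1) (hx : 0 ≤ x ∧ x ≤ 0.0105)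
    (hy : 0 ≤ y ∧ y ≤ 0.0105) :
    wd (zU (1 - fU σ * x)) (zU (1 - fU σ * y)) ≤
      σ * wd (zU (1 - x)) (zU (1 - y)) + (1 - σ) * (CC - 0.003) := by
  obtain ⟨u0, u1, u2⟩ := fU_bd hσ.1 hσ.2
  have hs2 : σ ^ 2 ≤ 1 := pow_le_one₀ hσ.1 hσ.2
  have hx' : 0 ≤ x ∧ x ≤ 0.0353 := ⟨hx.1, hx.2.trans (by norm_num)⟩
  have hdrop := uu_drop hσ hx' hy
  have hcos := uu_cos hx' hy
  have hQle := Qs_le3 (x := x) (y := y) ⟨by linarith [hx.1], by linarith [hx.2]⟩
    ⟨by linarith [hy.1], by linarith [hy.2]⟩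
  obtain ⟨x1, x2⟩ := hx
  obtain ⟨y1, y2⟩ := hy
  norm_num at x2 y2
  have ax : 0 ≤ fU σ * x := mul_nonneg u0 x1
  have ax' : fU σ * x ≤ x := by nlinarith
  have ay : 0 ≤ fU σ * y := mul_nonneg u0 y1
  have ay' : fU σ * y ≤ y := by nlinarith
  have hd0 : 0 ≤ 1 - σ := by linarith [hσ.2]
  rw [wd_UU (by linarith) (by linarith), wd_UU (by linarith) (by linarith)]
  generalize Qs (1 - x) (1 - y) = Q at *
  generalize Qs (1 - fU σ * x) (1 - fU σ * y) = Q' at *
  have hP0 : 0 ≤ x * y := mul_nonneg x1 y1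
  have hPx : x * y ≤ 0.0105 * x := by norm_num; nlinarith
  norm_num at hPx hcos hQle
  have hC := CC_bd
  norm_num at hC
  refine chord_genC (q := 0.3119) hσ (by norm_num; linarith) (by norm_num; linarith) tgt3.1 tgt3.2
    (by norm_num) ?_ (by norm_num; linarith) ?_
  · norm_num
    nlinarith [sq_nonneg (x + y)]
  · refine hdrop.trans (mul_le_mul_of_nonneg_left ?_ hd0)
    norm_num
    nlinarith [sq_nonneg (x + y)]

/-- two lower points -/
lemma chord_LL3 {σ x y : ℝ} (hσ : 0 ≤ σ ∧ σ ≤ 1) (hx : -0.0211 ≤ x ∧ x ≤ 0.0155)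
    (hy : -0.0211 ≤ y ∧ y ≤ 0.0155) :
    wd (zL (1 - eN σ x)) (zL (1 - eN σ y)) ≤
      σ * wd (zL (1 - x)) (zL (1 - y)) + (1 - σ) * (CC - 0.003) := by
  have hx' : -0.0211 ≤ x ∧ x ≤ 0.02042 := ⟨hx.1, hx.2.trans (by norm_num)⟩
  have hy' : -0.0211 ≤ y ∧ y ≤ 0.02042 := ⟨hy.1, hy.2.trans (by norm_num)⟩
  obtain ⟨a1, a2, a3⟩ := eN_bd hσ.1 hσ.2 hx'
  obtain ⟨b1, b2, b3⟩ := eN_bd hσ.1 hσ.2 hy'
  have hle := Qs_le3 hx hy
  have hge := Qs_ge2 hx' hy'
  obtain ⟨x1, x2⟩ := hx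
  obtain ⟨y1, y2⟩ := hy
  norm_num at x1 x2 y1 y2 a1 a2 b1 b2
  have hd0 : 0 ≤ 1 - σ := by linarith [hσ.2]
  have mx : 0 ≤ max x 0 := le_max_right _ _
  have my : 0 ≤ max y 0 := le_max_right _ _
  have nx : 0.4577 * max x 0 + 0.3676 * max (-x) 0 ≤ 0.0078 := by
    rcases le_total 0 x with h | h
    · rw [max_eq_left h, max_eq_right (by linarith : -x ≤ 0)]; norm_num; linarith
    · rw [max_eq_right h, max_eq_left (by linarith : 0 ≤ -x)]; norm_num; linarith
  have ny : 0.4577 * max y 0 + 0.3676 * max (-y) 0 ≤ 0.0078 := by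
    rcases le_total 0 y with h | h
    · rw [max_eq_left h, max_eq_right (by linarith : -y ≤ 0)]; norm_num; linarith
    · rw [max_eq_right h, max_eq_left (by linarith : 0 ≤ -y)]; norm_num; linarith
  have mx' : 0 ≤ max (-x) 0 := le_max_right _ _
  have my' : 0 ≤ max (-y) 0 := le_max_right _ _
  rw [wd_LL (by linarith) (by linarith), wd_LL (by linarith) (by linarith)]
  have s1 := Qs_up (a := 1 - x) (a' := 1 - eN σ x) (b := 1 - y) (e := (1 - σ) * (2 * max x 0))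
    (by norm_num; constructor <;> linarith) (by norm_num; constructor <;> linarith)
    (by norm_num; constructor <;> linarith) (mul_nonneg hd0 (by linarith)) (by linarith)
  have s2 := Qs_up (a := 1 - y) (a' := 1 - eN σ y) (b := 1 - eN σ x) (e := (1 - σ) * (2 * max y 0))
    (by norm_num; constructor <;> linarith) (by norm_num; constructor <;> linarith)
    (by norm_num; constructor <;> linarith) (mul_nonneg hd0 (by linarith)) (by linarith)
  rw [Qs_comm (1 - y), Qs_comm (1 - eN σ y)] at s2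
  generalize Qs (1 - x) (1 - y) = Q at *
  generalize Qs (1 - eN σ x) (1 - eN σ y) = Q' at *
  generalize Qs (1 - eN σ x) (1 - y) = Q'' at *
  generalize max x 0 = X at *
  generalize max y 0 = Y at *
  generalize max (-x) 0 = X' at *
  generalize max (-y) 0 = Y' at *
  norm_num at hle hge nx ny s1 s2
  have hC := CC_bd
  norm_num at hC
  refine chord_genC (q := 0.3119) hσ (by norm_num; linarith) (by norm_num; linarith) tgt3.1 tgt3.2
    (by norm_num) (by norm_num; linarith) (by norm_num; linarith) ?_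
  have key : 0.3735 * (2 * X) + 0.3735 * (2 * Y) ≤ 0.984 * (Q - 0.3119) := by norm_num; linarith
  have := mul_le_mul_of_nonneg_left key hd0
  norm_num at this ⊢
  nlinarith

end Pool.Agent.Helper91.Kiss
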