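import Pool.Agent.Helper91.Kiss.AnyG
import Pool.Agent.Helper91.Kiss.OneB
import Pool.Agent.Helper91.Kiss.OneA

set_option autoImplicit false

/-! # One upper point a little lower, fourth part: region and path -/

namespace Pool.Agent.Helper91.Kiss

open Real Set Filter Topology Pool.Agent.Helper66.Kiss

/-- heights of the region: the upper point `p` may be a little lower -/
structure E3 (z : Fin 11 → ℝ) (s : Fin 11) (U : Finset (Fin 11)) (p : Fin 11) : Prop where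
  sU : s ∉ U
  card : U.card = 5
  pU : p ∈ U
  sz : z s ≤ -0.99984
  pz : 0.4726 ≤ z p ∧ z p ≤ 1 / 2
  up : ∀ k ∈ U, k ≠ p → 0.4921 ≤ z k ∧ z k ≤ 1 / 2
  lo : ∀ k, k ∉ U → k ≠ s → -0.51545 ≤ z k ∧ z k ≤ -0.48825

lemma aU_bd_U5 {z : ℝ} (h1 : 0.4726 ≤ z) (h2 : z ≤ 1 / 2) :
    0 ≤ 1 - aU z ∧ 1 - aU z ≤ 0.0353 := by
  norm_num at h1
  have hz : -1 < z ∧ z < 1 := ⟨by linarith, by linarith⟩
  have h0 := aU_pos hz
  have hs := aU_sq hz
  have hd : 0 < 3 * (1 - z) := by linarith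
  have e1 : (0.9647 : ℝ) ^ 2 ≤ aU z ^ 2 := by
    rw [hs, le_div_iff₀ hd]; norm_num; linarith
  have e2 : aU z ^ 2 ≤ 1 := by
    rw [hs, div_le_iff₀ hd]; linarith
  constructor
  · nlinarith
  · by_contra hcon
    push Not at hcon
    norm_num at hcon e1
    nlinarith

lemma aU_bd_U3 {z : ℝ} (h1 : 0.4921 ≤ z) (h2 : z ≤ 1 / 2) : 1 - aU z ≤ 0.0105 := by
  norm_num at h1
  have hz : -1 < z ∧ z < 1 := ⟨by linarith, by linarith⟩
  have h0 := aU_pos hz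
  have hs := aU_sq hz
  have hd : 0 < 3 * (1 - z) := by linarith
  have e1 : (0.9895 : ℝ) ^ 2 ≤ aU z ^ 2 := by
    rw [hs, le_div_iff₀ hd]; norm_num; linarith
  by_contra hcon
  push Not at hcon
  norm_num at hcon e1
  nlinarith

lemma aU_bd_L3 {z : ℝ} (h1 : -0.51545 ≤ z) (h2 : z ≤ -0.48825) :
    -0.0211 ≤ 1 - aU (-z) ∧ 1 - aU (-z) ≤ 0.0155 := by
  refine ⟨(aU_bd_L2 h1 (h2.trans (by norm_num))).1, ?_⟩
  norm_num at h1 h2
  have hz : -1 < -z ∧ -z < 1 := ⟨by linarith, by linarith⟩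
  have h0 := aU_pos hz
  have hs := aU_sq hz
  have hd : 0 < 3 * (1 - -z) := by linarith
  have e1 : (0.9845 : ℝ) ^ 2 ≤ aU (-z) ^ 2 := by
    rw [hs, le_div_iff₀ hd]; norm_num; linarith
  by_contra hcon
  push Not at hcon
  norm_num at hcon e1
  nlinarith

section

variable {z : Fin 11 → ℝ} {s p : Fin 11} {U : Finset (Fin 11)}

lemma E3.rU (h : E3 z s U p) {k : Fin 11} (hk : k ∈ U) : 0.4726 ≤ z k ∧ z k ≤ 1 / 2 := by
  by_cases hkp : k = p
  · rw [hkp]; exact h.pz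
  · exact ⟨le_trans (by norm_num) (h.up k hk hkp).1, (h.up k hk hkp).2⟩

lemma E3.range (h : E3 z s U p) (hs : -1 < z s) (k : Fin 11) : -1 < z k ∧ z k ≤ 1 / 2 := by
  by_cases hk : k = s
  · subst hk
    have := h.sz
    norm_num at this
    exact ⟨hs, by linarith⟩
  by_cases hU : k ∈ U
  · have := h.rU hU
    norm_num at this ⊢
    exact ⟨by linarith [this.1], this.2⟩
  · have := h.lo k hU hk
    norm_num at this
    constructor <;> linarith [this.1, this.2]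

lemma E3.xU (h : E3 z s U p) {k : Fin 11} (hk : k ∈ U) :
    (0 ≤ xc U z k ∧ xc U z k ≤ 0.0353) ∧ z k = zU (1 - xc U z k) := by
  have e : xc U z k = 1 - aU (z k) := by unfold xc; rw [if_pos hk]
  have hb := h.rU hk
  have hb' := hb
  norm_num at hb'
  rw [e, sub_sub_cancel, zU_aU ⟨by linarith [hb'.1], by linarith [hb'.2]⟩]
  exact ⟨aU_bd_U5 hb.1 hb.2, rfl⟩

lemma E3.xU' (h : E3 z s U p) {k : Fin 11} (hk : k ∈ U) (hkp : k ≠ p) : xc U z k ≤ 0.0105 := by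
  have e : xc U z k = 1 - aU (z k) := by unfold xc; rw [if_pos hk]
  rw [e]
  exact aU_bd_U3 (h.up k hk hkp).1 (h.up k hk hkp).2

lemma E3.xL (h : E3 z s U p) {k : Fin 11} (hk : k ∉ U) (hks : k ≠ s) :
    (-0.0211 ≤ xc U z k ∧ xc U z k ≤ 0.02042) ∧ z k = zL (1 - xc U z k) := by
  have hb := h.lo k hk hks
  have hb' := hb
  norm_num at hb'
  have e : xc U z k = 1 - aU (-(z k)) := by unfold xc; rw [if_neg hk]
  rw [e, sub_sub_cancel, zL_aU ⟨by linarith [hb'.1], by linarith [hb'.2]⟩]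
  exact ⟨⟨(aU_bd_L3 hb.1 hb.2).1, (aU_bd_L3 hb.1 hb.2).2.trans (by norm_num)⟩, rfl⟩

lemma E3.xL' (h : E3 z s U p) {k : Fin 11} (hk : k ∉ U) (hks : k ≠ s) : xc U z k ≤ 0.0155 := by
  have e : xc U z k = 1 - aU (-(z k)) := by unfold xc; rw [if_neg hk]
  rw [e]
  exact (aU_bd_L3 (h.lo k hk hks).1 (h.lo k hk hks).2).2

lemma zq_zero3 (h : E3 z s U p) (hs : -1 < z s) : zq s U z 0 = z := by
  have e0 : (1 : ℝ) - 0 / 2 = 1 := by norm_num
  funext k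
  rcases typ s U k with rfl | ⟨h1, h2⟩ | ⟨h1, h2⟩
  · rw [zq_s, e0, fS_one, one_mul]
    have := h.sz
    norm_num at this
    exact zS_tS ⟨hs, by linarith⟩
  · rw [zq_U h1 h2, e0, fU_one, one_mul]
    exact (h.xU h2).2.symm
  · rw [zq_L h1 h2, e0, eN_one]
    exact (h.xL h2 h1).2.symm

lemma zq_bd_U3 (h : E3 z s U p) {t : ℝ} (ht : t ∈ Icc (0 : ℝ) 1) {k : Fin 11} (hks : k ≠ s)
    (hk : k ∈ U) : 0.4 < zq s U z t k ∧ zq s U z t k ≤ 1 / 2 := by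
  rw [zq_U hks hk]
  obtain ⟨x0, x1⟩ := (h.xU hk).1
  norm_num at x1
  obtain ⟨s0, s1⟩ := sg ht
  obtain ⟨w0, w1, w2⟩ := fU_bd (by linarith : 0 ≤ 1 - t / 2) s1
  have hs2 : (1 - t / 2) ^ 2 ≤ 1 := pow_le_one₀ (by linarith) s1
  have e1 : 0 ≤ fU (1 - t / 2) * xc U z k := mul_nonneg w0 x0
  have e2 : fU (1 - t / 2) * xc U z k ≤ xc U z k := by nlinarith
  exact zU_range ⟨by norm_num; linarith, by linarith⟩

lemma zq_bd_L3 (h : E3 z s U p) {t : ℝ} (ht : t ∈ Icc (0 : ℝ) 1) {k : Fin 11} (hks : k ≠ s)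
    (hk : k ∉ U) : -0.52 ≤ zq s U z t k ∧ zq s U z t k < -0.47 := by
  rw [zq_L hks hk]
  obtain ⟨s0, s1⟩ := sg ht
  obtain ⟨e1, e2, -⟩ := eN_bd (by linarith : 0 ≤ 1 - t / 2) s1 (h.xL hk hks).1
  norm_num at e1 e2
  exact zL_range2 ⟨by norm_num; linarith, by norm_num; linarith⟩

lemma zq_bd_s3 (h : E3 z s U p) (hs : -1 < z s) {t : ℝ} (ht : t ∈ Icc (0 : ℝ) 1) :
    -1 < zq s U z t s ∧ zq s U z t s ≤ -0.99 := by
  rw [zq_s]
  obtain ⟨s0, s1⟩ := sg ht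
  obtain ⟨t0, t1⟩ := tS_bd2 hs h.sz
  have f0 : 0 < fS (1 - t / 2) := by
    unfold fS
    have : 0 < (1 - t / 2) ^ 2 := by have : 0 < 1 - t / 2 := by linarith
                                     positivity
    exact mul_pos this (by norm_num; linarith)
  have f1 := (fS_bd (by linarith : 0 ≤ 1 - t / 2) s1).2.1
  have p0 : 0 < fS (1 - t / 2) * tS (z s) := mul_pos f0 t0
  have p1 : fS (1 - t / 2) * tS (z s) ≤ 0.00895 := by nlinarith
  generalize fS (1 - t / 2) * tS (z s) = τ at *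
  norm_num at p1
  unfold zS
  have h1 : 0 < 1 + τ ^ 2 := by positivity
  have h2 : 0 < τ ^ 2 := by positivity
  constructor
  · rw [lt_div_iff₀ h1]; linarith
  · rw [div_le_iff₀ h1]; norm_num; nlinarith

lemma zq_rangeK3 (h : E3 z s U p) {t : ℝ} (ht : t ∈ Icc (0 : ℝ) 1) {k : Fin 11} (hks : k ≠ s) :
    -0.52 ≤ zq s U z t k ∧ zq s U z t k ≤ 1 / 2 := by
  by_cases hk : k ∈ U
  · have := zq_bd_U3 h ht hks hk
    norm_num at this ⊢
    exact ⟨by linarith [this.1], this.2⟩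
  · have := zq_bd_L3 h ht hks hk
    norm_num at this ⊢
    exact ⟨this.1, by linarith [this.2]⟩

lemma zq_range3 (h : E3 z s U p) (hs : -1 < z s) {t : ℝ} (ht : t ∈ Icc (0 : ℝ) 1) (k : Fin 11) :
    -1 < zq s U z t k ∧ zq s U z t k ≤ 1 / 2 := by
  by_cases hk : k = s
  · subst hk
    have := zq_bd_s3 h hs ht
    norm_num at this
    exact ⟨this.1, by linarith [this.2]⟩
  · have := zq_rangeK3 h ht hk
    norm_num at this
    exact ⟨by linarith [this.1], by linarith [this.2]⟩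

/-- data of a pair with the lowest point along the path -/
lemma E3.sl (h : E3 z s U p) (hs : -1 < z s) (hp : ∀ k, k ≠ s → -1 ≤ RR (z s) (z k)) {t : ℝ}
    (ht : t ∈ Icc (0 : ℝ) 1) {k : Fin 11} (hks : k ≠ s) (hk : k ∉ U) :
    -1 ≤ Qp (tS (z s)) (1 - xc U z k) ∧ wd (z s) (z k) = arccos (Qp (tS (z s)) (1 - xc U z k)) ∧
    RR (zq s U z t s) (zq s U z t k) =
      Qp (fS (1 - t / 2) * tS (z s)) (1 - eN (1 - t / 2) (xc U z k)) ∧
    wd (zq s U z t s) (zq s U z t k) =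
      arccos (Qp (fS (1 - t / 2) * tS (z s)) (1 - eN (1 - t / 2) (xc U z k))) := by
  obtain ⟨hx, hz⟩ := h.xL hk hks
  obtain ⟨t0, t1⟩ := tS_bd2 hs h.sz
  obtain ⟨s0, s1⟩ := sg ht
  have f0 : 0 < fS (1 - t / 2) := by
    unfold fS
    have : 0 < (1 - t / 2) ^ 2 := by have : 0 < 1 - t / 2 := by linarith
                                     positivity
    exact mul_pos this (by norm_num; linarith)
  obtain ⟨e1, e2, -⟩ := eN_bd (by linarith : 0 ≤ 1 - t / 2) s1 hx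
  norm_num at e1 e2
  have hsz := h.sz
  norm_num at hsz
  have hx' := hx
  norm_num at hx'
  have hzs : zS (tS (z s)) = z s := zS_tS ⟨hs, by linarith⟩
  have hR : RR (z s) (z k) = Qp (tS (z s)) (1 - xc U z k) := by
    conv_lhs => rw [← hzs, hz]
    exact RR_SL t0 (by linarith [hx'.2])
  refine ⟨?_, ?_, ?_, ?_⟩
  · rw [← hR]; exact hp k hks
  · conv_lhs => rw [← hzs, hz]
    exact wd_SL t0 (by linarith [hx'.2])
  · rw [zq_s, zq_L hks hk]
    exact RR_SL (mul_pos f0 t0) (by linarith)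
  · rw [zq_s, zq_L hks hk]
    exact wd_SL (mul_pos f0 t0) (by linarith)

lemma E3.both (h : E3 z s U p) (hs : -1 < z s) {t : ℝ} (ht : t ∈ Icc (0 : ℝ) 1) {k : Fin 11}
    (hks : k ≠ s) (hk : k ∉ U) :
    (0 ≤ Qp (tS (z s)) (1 - xc U z k) → Qp (tS (z s)) (1 - xc U z k) +
      (1 - (1 - t / 2)) * (0.378 * Qp (tS (z s)) (1 - xc U z k) - 0.0155) ≤
      Qp (fS (1 - t / 2) * tS (z s)) (1 - eN (1 - t / 2) (xc U z k))) ∧
    (Qp (tS (z s)) (1 - xc U z k) ≤ 0 → Qp (tS (z s)) (1 - xc U z k) +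
      (1 - (1 - t / 2)) * (-0.27 * Qp (tS (z s)) (1 - xc U z k) - 0.0118) ≤
      Qp (fS (1 - t / 2) * tS (z s)) (1 - eN (1 - t / 2) (xc U z k))) :=
  sl_both (σ := 1 - t / 2) (h.xL hk hks).1 (tS_bd2 hs h.sz) ⟨by linarith [(sg ht).1], (sg ht).2⟩

lemma E3.su (h : E3 z s U p) (hs : -1 < z s) {t : ℝ} (ht : t ∈ Icc (0 : ℝ) 1) {k : Fin 11}
    (hk : k ∈ U) : 1 ≤ RR (zq s U z t s) (zq s U z t k) := by
  have hks : k ≠ s := fun he => h.sU (he ▸ hk)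
  have a := zq_bd_s3 h hs ht
  have b := zq_bd_U3 h ht hks hk
  norm_num at a b
  exact RR_su a.1 (by norm_num; linarith [a.2]) (by linarith [b.1]) (by linarith [b.2])

/-- good height path -/
lemma gpath_E3 (h : E3 z s U p) (hs : -1 < z s) (hp : ∀ k, k ≠ s → -1 ≤ RR (z s) (z k)) :
    GPath (fun i j => i ≠ s ∧ j ≠ s) (zq s U z) := by
  have pole0 : ∀ t ∈ Icc (0 : ℝ) 1, ∀ k, k ≠ s → -1 ≤ RR (zq s U z t s) (zq s U z t k) := by
    intro t ht k hk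
    by_cases hU : k ∈ U
    · linarith [h.su hs ht hU]
    · obtain ⟨a1, -, a3, -⟩ := h.sl hs hp ht hk hU
      obtain ⟨b1, b2⟩ := h.both hs ht hk hU
      rw [a3]
      exact sl_pole ⟨by linarith [(sg ht).1], (sg ht).2⟩ a1 b1 b2
  have key : ∀ j, j ≠ s → ∀ t₁ t₂, 0 ≤ t₁ → t₁ ≤ t₂ → t₂ ≤ 1 →
      1 ≤ RR (zq s U z t₁ s) (zq s U z t₁ j) → 1 ≤ RR (zq s U z t₂ s) (zq s U z t₂ j) := by
    intro j hj t₁ t₂ h0 h12 h1 hR
    have m1 : t₁ ∈ Icc (0 : ℝ) 1 := ⟨h0, by linarith⟩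
    have m2 : t₂ ∈ Icc (0 : ℝ) 1 := ⟨by linarith, h1⟩
    by_cases hU : j ∈ U
    · exact h.su hs m2 hU
    · obtain ⟨-, -, a3, -⟩ := h.sl hs hp m1 hj hU
      obtain ⟨-, -, c3, -⟩ := h.sl hs hp m2 hj hU
      have hx := (h.xL hU hj).1
      have hτ := tS_bd2 hs h.sz
      rw [a3] at hR
      rw [c3]
      rcases le_or_gt 0 (xc U z j) with h5 | h5
      · have e3 : ∀ σ, eN σ (xc U z j) = σ ^ 2 * xc U z j := fun σ => by unfold eN; rw [if_pos h5]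
        rw [e3] at hR ⊢
        exact sl_persist ⟨h5, hx.2⟩ hτ (sg m2).1 (by linarith) (sg m1).2 hR
      · exfalso
        obtain ⟨w0, w1, w2⟩ := fU_bd (by linarith [(sg m1).1] : 0 ≤ 1 - t₁ / 2) (sg m1).2
        have hs2 : (1 - t₁ / 2) ^ 2 ≤ 1 := pow_le_one₀ (by linarith [(sg m1).1]) (sg m1).2
        have f0 : 0 < fS (1 - t₁ / 2) := by
          unfold fS
          have : 0 < (1 - t₁ / 2) ^ 2 := by have : 0 < 1 - t₁ / 2 := by linarith [(sg m1).1]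
                                            positivity
          exact mul_pos this (by norm_num; linarith [m1.2])
        have f1 := (fS_bd (by linarith [(sg m1).1] : 0 ≤ 1 - t₁ / 2) (sg m1).2).2.1
        have e3 : eN (1 - t₁ / 2) (xc U z j) = fU (1 - t₁ / 2) * xc U z j := by
          unfold eN; rw [if_neg (not_le.2 h5)]
        rw [e3] at hR
        have hx1 := hx.1
        norm_num at hx1
        have := sl_deep_lt (x := fU (1 - t₁ / 2) * xc U z j) (τ := fS (1 - t₁ / 2) * tS (z s))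
          ⟨by norm_num; nlinarith, mul_nonpos_of_nonneg_of_nonpos w0 h5.le⟩
          ⟨mul_pos f0 hτ.1, by nlinarith [hτ.1, hτ.2]⟩
        linarith
  refine ⟨fun i j h => ⟨h.2, h.1⟩, fun k => (zq_cont s U z k).continuousOn,
    fun t ht k => zq_range3 h hs ht k, ?_, ?_, ?_⟩
  · intro i j hij hK t₁ t₂ h0 h12 h1 hR
    by_cases hi : i = s
    · subst hi
      exact key j (Ne.symm hij) t₁ t₂ h0 h12 h1 hR
    · have hj : j = s := by
        by_contra hj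
        exact hK ⟨hi, hj⟩
      subst hj
      rw [RR_comm] at hR ⊢
      exact key i hi t₁ t₂ h0 h12 h1 hR
  · rintro t ht i j hij ⟨hi, hj⟩
    have a := zq_rangeK3 h ht hi
    have c := zq_rangeK3 h ht hj
    exact vert_kk a.1 a.2 c.1 c.2
  · intro t ht i j hij
    by_cases hi : i = s
    · subst hi
      exact pole0 t ht j (Ne.symm hij)
    by_cases hj : j = s
    · subst hj
      rw [RR_comm]
      exact pole0 t ht i hi
    have a := zq_rangeK3 h ht hi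
    have c := zq_rangeK3 h ht hj
    exact RR_ge_neg a.1 a.2 c.1 c.2

/-! ## the pairs away from the lowest point -/

/-- two upper points, both different from `p` -/
lemma E3.lowUU (h : E3 z s U p) {i j : Fin 11} (hi : i ∈ U) (hip : i ≠ p) (hj : j ∈ U) (hjp : j ≠ p) :
    CC - 0.037 ≤ wd (z i) (z j) := by
  obtain ⟨⟨x0, x1⟩, a2⟩ := h.xU hi
  obtain ⟨⟨y0, y1⟩, b2⟩ := h.xU hj
  have x2 := h.xU' hi hip
  have y2 := h.xU' hj hjp
  norm_num at x1 y1 x2 y2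
  rw [a2, b2, wd_UU (by linarith) (by linarith)]
  exact low_same3 ⟨by norm_num; linarith, by norm_num; linarith⟩
    ⟨by norm_num; linarith, by norm_num; linarith⟩

lemma E3.lowLL (h : E3 z s U p) {i j : Fin 11} (hi : i ∉ U) (his : i ≠ s) (hj : j ∉ U) (hjs : j ≠ s) :
    CC - 0.037 ≤ wd (z i) (z j) := by
  obtain ⟨hx, a2⟩ := h.xL hi his
  obtain ⟨hy, b2⟩ := h.xL hj hjs
  have x2 := h.xL' hi his
  have y2 := h.xL' hj hjs
  have hx' := hx.2
  have hy' := hy.2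
  norm_num at hx' hy'
  rw [a2, b2, wd_LL (by linarith) (by linarith)]
  exact low_same3 ⟨hx.1, x2⟩ ⟨hy.1, y2⟩

/-- pairs of the point `p` with another upper point -/
lemma E3.pU' (h : E3 z s U p) {t : ℝ} (ht : t ∈ Icc (0 : ℝ) 1) {j : Fin 11} (hj : j ∈ U)
    (hjp : j ≠ p) (hjs : j ≠ s) : wd (zq s U z t p) (zq s U z t j) ≤
      (1 - t / 2) * wd (z p) (z j) + (1 - (1 - t / 2)) * (CC + 0.0035) ∧
    CC - 0.042 ≤ wd (z p) (z j) := by
  have hps : p ≠ s := fun he => h.sU (he ▸ h.pU)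
  obtain ⟨a1, a2⟩ := h.xU h.pU
  obtain ⟨b1, b2⟩ := h.xU hj
  have := chord_U5 (σ := 1 - t / 2) ⟨by linarith [(sg ht).1], (sg ht).2⟩ a1 ⟨b1.1, h.xU' hj hjp⟩
  rw [← a2, ← b2] at this
  rw [zq_U hps h.pU, zq_U hjs hj]
  exact this

lemma E3.chUU (h : E3 z s U p) {t : ℝ} (ht : t ∈ Icc (0 : ℝ) 1) {i j : Fin 11} (hi : i ∈ U)
    (hip : i ≠ p) (his : i ≠ s) (hj : j ∈ U) (hjp : j ≠ p) (hjs : j ≠ s) :
    wd (zq s U z t i) (zq s U z t j) ≤
      (1 - t / 2) * wd (z i) (z j) + (1 - (1 - t / 2)) * (CC - 0.003) := by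
  obtain ⟨a1, a2⟩ := h.xU hi
  obtain ⟨b1, b2⟩ := h.xU hj
  have := chord_UU3 (σ := 1 - t / 2) ⟨by linarith [(sg ht).1], (sg ht).2⟩ ⟨a1.1, h.xU' hi hip⟩
    ⟨b1.1, h.xU' hj hjp⟩
  rw [← a2, ← b2] at this
  rw [zq_U his hi, zq_U hjs hj]
  exact this

lemma E3.chLL (h : E3 z s U p) {t : ℝ} (ht : t ∈ Icc (0 : ℝ) 1) {i j : Fin 11} (hi : i ∉ U)
    (his : i ≠ s) (hj : j ∉ U) (hjs : j ≠ s) : wd (zq s U z t i) (zq s U z t j) ≤
      (1 - t / 2) * wd (z i) (z j) + (1 - (1 - t / 2)) * (CC - 0.003) := by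
  obtain ⟨a1, a2⟩ := h.xL hi his
  obtain ⟨b1, b2⟩ := h.xL hj hjs
  have := chord_LL3 (σ := 1 - t / 2) ⟨by linarith [(sg ht).1], (sg ht).2⟩ ⟨a1.1, h.xL' hi his⟩
    ⟨b1.1, h.xL' hj hjs⟩
  rw [← a2, ← b2] at this
  rw [zq_L his hi, zq_L hjs hj]
  exact this

lemma E3.chUL (h : E3 z s U p) {t : ℝ} (ht : t ∈ Icc (0 : ℝ) 1) {i j : Fin 11} (hi : i ∈ U)
    (his : i ≠ s) (hj : j ∉ U) (hjs : j ≠ s) : wd (zq s U z t i) (zq s U z t j) ≤
      (1 - t / 2) * wd (z i) (z j) := by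
  obtain ⟨a1, a2⟩ := h.xU hi
  obtain ⟨b1, b2⟩ := h.xL hj hjs
  have := chord_UL3 (σ := 1 - t / 2) ⟨by linarith [(sg ht).1], (sg ht).2⟩ a1 b1
  rw [← a2, ← b2] at this
  rw [zq_U his hi, zq_L hjs hj]
  exact this

/-- bounds at the end of the path -/
lemma E3.endU (h : E3 z s U p) {k : Fin 11} (hk : k ∈ U) :
    1 / 2 - 3 / 512 ≤ zq s U z 1 k ∧ zq s U z 1 k ≤ 1 / 2 := by
  have hks : k ≠ s := fun he => h.sU (he ▸ hk)
  refine ⟨?_, (zq_bd_U3 h ⟨zero_le_one, le_rfl⟩ hks hk).2⟩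
  rw [zq_U hks hk]
  obtain ⟨x0, x1⟩ := (h.xU hk).1
  norm_num at x1
  have e : fU (1 - 1 / 2) = 13 / 80 := by unfold fU; norm_num
  rw [e]
  generalize xc U z k = x at *
  unfold zU
  have h1 : 0 < 3 * (1 - 13 / 80 * x) ^ 2 + 1 := by positivity
  rw [le_div_iff₀ h1]
  nlinarith

lemma E3.endL (h : E3 z s U p) {k : Fin 11} (hk : k ∉ U) (hks : k ≠ s) :
    |zq s U z 1 k + 1 / 2| ≤ 4 / 512 := by
  rw [zq_L hks hk]
  obtain ⟨x0, x1⟩ := (h.xL hk hks).1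
  norm_num at x0 x1
  have e : fU (1 - 1 / 2) = 13 / 80 := by unfold fU; norm_num
  have hb : -0.0035 ≤ eN (1 - 1 / 2) (xc U z k) ∧ eN (1 - 1 / 2) (xc U z k) ≤ 0.0052 := by
    unfold eN
    split_ifs with h5
    · norm_num
      constructor <;> linarith
    · push Not at h5
      rw [e]
      norm_num
      constructor <;> linarith
  obtain ⟨b1, b2⟩ := hb
  generalize eN (1 - 1 / 2) (xc U z k) = x at *
  norm_num at b1 b2
  unfold zL
  have h1 : 0 < 3 * (1 - x) ^ 2 + 1 := by positivity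
  rw [abs_le]
  constructor
  · have : -(1 / 2) - 4 / 512 ≤ (1 - 3 * (1 - x) ^ 2) / (3 * (1 - x) ^ 2 + 1) := by
      rw [le_div_iff₀ h1]; nlinarith
    linarith
  · have : (1 - 3 * (1 - x) ^ 2) / (3 * (1 - x) ^ 2 + 1) ≤ -(1 / 2) + 4 / 512 := by
      rw [div_le_iff₀ h1]; nlinarith
    linarith

end

end Pool.Agent.Helper91.Kiss
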